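import Pool.Agent.Lib.MP_695920_nt.TT.Main

set_option autoImplicit false

/-!
TEAM TWOTORSION: the theorem as one statement about an exponent function.
-/

namespace Pool.TT

open NumberField Module

/-- The set of exponents for degree `n`. -/
def Good (n : ℕ) (Δ : ℝ) : Prop :=
  ∃ C : ℝ, ∀ (K : Type) [Field K] [NumberField K], finrank ℚ K = n →
    (Nat.card {x : ClassGroup (𝓞 K) // x ^ 2 = 1} : ℝ) ≤ C * |(discr K : ℝ)| ^ Δ

theorem main_fun : ∃ Δ : ℕ → ℝ,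
    (∀ n : ℕ, Odd n → 7 ≤ n → Δ n < 1 / 2 - 1 / (2 * n) ∧ ∃ C : ℝ,
      ∀ (K : Type) [Field K] [NumberField K], finrank ℚ K = n →
        (Nat.card {x : ClassGroup (𝓞 K) // x ^ 2 = 1} : ℝ) ≤ C * |(discr K : ℝ)| ^ Δ n) ∧
    ∀ δ : ℝ, 0 < δ → ∃ n₀ : ℕ, ∀ n : ℕ, n₀ ≤ n → Odd n →
      Δ n ≤ (1 : ℝ) / 2 - (1 - δ) / n := by
  classical
  have h7 : ∀ n : ℕ, ∃ Δ : ℝ, Odd n → 7 ≤ n → Δ < 1 / 2 - 1 / (2 * n) ∧ Good n Δ := by
    intro n
    by_cases h : Odd n ∧ 7 ≤ n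
    · obtain ⟨Δ, h1, h2⟩ := main.1 n h.1 h.2
      exact ⟨Δ, fun _ _ => ⟨h1, h2⟩⟩
    · exact ⟨0, fun h1 h2 => absurd ⟨h1, h2⟩ h⟩
  choose Δ₀ hΔ₀ using h7
  let e : ℕ → ℕ → ℝ := fun n k => (1 : ℝ) / 2 - (1 - 1 / (k : ℝ)) / n
  let kn : ℕ → ℕ := fun n => Nat.findGreatest (fun k => 1 ≤ k ∧ Good n (e n k)) n
  let Δ : ℕ → ℝ := fun n => if 1 ≤ kn n then min (Δ₀ n) (e n (kn n)) else Δ₀ n
  have hkn : ∀ n, 1 ≤ kn n → Good n (e n (kn n)) := by
    intro n hn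
    have h := Nat.findGreatest_of_ne_zero (P := fun k => 1 ≤ k ∧ Good n (e n k)) (n := n)
      (m := kn n) rfl (by omega)
    exact h.2
  refine ⟨Δ, ?_, ?_⟩
  · intro n hodd hn
    obtain ⟨h1, h2⟩ := hΔ₀ n hodd hn
    by_cases hk : 1 ≤ kn n
    · have hΔ : Δ n = min (Δ₀ n) (e n (kn n)) := if_pos hk
      constructor
      · rw [hΔ]
        exact lt_of_le_of_lt (min_le_left _ _) h1
      · have h3 : Good n (Δ n) := by
          rw [hΔ]
          rcases min_choice (Δ₀ n) (e n (kn n)) with h | h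
          · rw [h]; exact h2
          · rw [h]; exact hkn n hk
        exact h3
    · have hΔ : Δ n = Δ₀ n := if_neg hk
      rw [hΔ]
      exact ⟨h1, h2⟩
  · intro δ hδ
    obtain ⟨k, hk⟩ := exists_nat_gt (1 / δ)
    have hk0 : (0 : ℝ) < k := lt_trans (by positivity) hk
    have hk1 : 1 ≤ k := by
      have : 0 < k := by exact_mod_cast hk0
      omega
    have hkδ : 1 / (k : ℝ) ≤ δ := by
      rw [div_le_iff₀ hk0]
      rw [div_lt_iff₀ hδ] at hk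
      linarith
    obtain ⟨n₀, hn₀⟩ := main.2 (1 / k) (by positivity)
    refine ⟨max n₀ k, fun n hn hodd => ?_⟩
    have hn0 : n₀ ≤ n := le_trans (le_max_left _ _) hn
    have hkn' : k ≤ n := le_trans (le_max_right _ _) hn
    have hgood : Good n (e n k) := hn₀ n hn0 hodd
    have hle : k ≤ kn n := Nat.le_findGreatest hkn' ⟨hk1, hgood⟩
    have hkn1 : 1 ≤ kn n := le_trans hk1 hle
    have hΔ : Δ n = min (Δ₀ n) (e n (kn n)) := if_pos hkn1
    rw [hΔ]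
    refine (min_le_right _ _).trans ?_
    have hnpos : (0 : ℝ) < n := by
      have : 1 ≤ n := le_trans hk1 hkn'
      exact_mod_cast this
    have h1 : 1 / (kn n : ℝ) ≤ 1 / (k : ℝ) :=
      one_div_le_one_div_of_le hk0 (by exact_mod_cast hle)
    have h2 : (1 - δ) / (n : ℝ) ≤ (1 - 1 / (kn n : ℝ)) / n :=
      div_le_div_of_nonneg_right (by linarith) hnpos.le
    change (1 : ℝ) / 2 - (1 - 1 / (kn n : ℝ)) / n ≤ _
    linarith

end Pool.TT
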