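import Mathlib

set_option autoImplicit false

/-!
TEAM TWOTORSION, F2: the image of the 2-descent map is unramified outside `2 disc f`.
-/

open Polynomial NumberField IsDedekindDomain

namespace Pool.TT

/-- In a principal ideal domain `S` with fraction field `M`: if `y^2 = f(x)`, `f` monic of odd
degree, `f(θ) = 0` and `f'(θ)` is a unit, then `x - θ` is a unit of `S` times a square of `M`. -/
theorem unit_mul_sq {S M : Type*} [CommRing S] [IsDomain S] [IsPrincipalIdealRing S] [Field M]
    [Algebra S M] [IsFractionRing S M] (f : S[X]) (hm : f.Monic) (hodd : Odd f.natDegree) (θ : S)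
    (hθ : f.eval θ = 0) (hu : IsUnit (f.derivative.eval θ)) (x y : M)
    (hxy : y ^ 2 = Polynomial.aeval x f) :
    ∃ (u : Sˣ) (β : M), x - algebraMap S M θ = algebraMap S M u * β ^ 2 := by
  classical
  set i := algebraMap S M with hi
  have hinj : Function.Injective i := IsFractionRing.injective S M
  obtain ⟨g, hg⟩ : ∃ g : S[X], f = (X - C θ) * g := by
    have := dvd_iff_isRoot.2 hθ
    exact this
  have hgm : g.Monic := by
    have := hm
    rw [hg] at this
    exact (monic_X_sub_C θ).of_mul_monic_left this
  have hgd : f.natDegree = g.natDegree + 1 := by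
    rw [hg, (monic_X_sub_C θ).natDegree_mul hgm, natDegree_X_sub_C, add_comm]
  have hgu : IsUnit (g.eval θ) := by
    have : f.derivative.eval θ = g.eval θ := by
      rw [hg]; simp [derivative_mul]
    rwa [this] at hu
  -- numerator and denominator
  obtain ⟨p, q, hq0, hcop, hx⟩ : ∃ p q : S, q ≠ 0 ∧ IsCoprime p q ∧ x = i p / i q := by
    refine ⟨IsFractionRing.num S x, IsFractionRing.den S x, ?_, ?_, ?_⟩
    · exact nonZeroDivisors.coe_ne_zero _
    · exact (IsFractionRing.num_den_reduced S x).isCoprime
    · exact (IsFractionRing.mk'_num_den' S x).symm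
  have hq0' : i q ≠ 0 := by simpa using (map_ne_zero_iff i hinj).2 hq0
  set E : S := (g.scaleRoots q).eval p with hE
  have hE' : i E = i q ^ g.natDegree * Polynomial.aeval x g := by
    have h1 := scaleRoots_eval₂_mul (p := g) i x q
    have h2 : i q * x = i p := by rw [hx]; field_simp
    rw [h2] at h1
    rw [hE, ← Polynomial.eval₂_at_apply, h1, Polynomial.aeval_def]
  obtain ⟨k, hk⟩ := hodd
  have hgk : g.natDegree = 2 * k := by omega
  -- the square
  have hz2 : (y * i q ^ (k + 1)) ^ 2 = i (q * ((p - θ * q) * E)) := by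
    have h3 : Polynomial.aeval x f = (x - i θ) * Polynomial.aeval x g := by
      rw [hg]; simp [hi]
    have h4 : i p = i q * x := by rw [hx]; field_simp
    rw [map_mul, map_mul, hE', map_sub, map_mul, h4, mul_pow, hxy, h3, hgk]
    ring
  obtain ⟨z, hz⟩ : ∃ z : S, i z = y * i q ^ (k + 1) := by
    have hint : IsIntegral S (y * i q ^ (k + 1)) := by
      refine IsIntegral.of_pow (n := 2) (by norm_num) ?_
      rw [hz2]
      exact isIntegral_algebraMap
    exact IsIntegrallyClosed.isIntegral_iff.1 hint
  have hzz : q * ((p - θ * q) * E) = z ^ 2 := by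
    apply hinj
    rw [map_pow, hz, hz2]
  -- coprimality
  have hc1 : IsCoprime q (p - θ * q) := by
    have : IsCoprime q p := hcop.symm
    have h := this.add_mul_right_right (-θ)
    convert h using 1; ring
  have hqE : IsCoprime q E := by
    have h1 : q ∣ E - p ^ g.natDegree := by
      rw [hE, Polynomial.eval_eq_sum_range, natDegree_scaleRoots, Finset.sum_range_succ,
        coeff_scaleRoots_natDegree, hgm.leadingCoeff, one_mul, add_sub_cancel_right]
      refine Finset.dvd_sum fun j hj => ?_
      rw [Finset.mem_range] at hj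
      rw [coeff_scaleRoots]
      have : g.natDegree - j = (g.natDegree - j - 1) + 1 := by omega
      rw [this, pow_succ]
      exact ⟨g.coeff j * q ^ (g.natDegree - j - 1) * p ^ j, by ring⟩
    obtain ⟨t, ht⟩ := h1
    have h2 : E = p ^ g.natDegree + q * t := by rw [← ht]; ring
    rw [h2]
    have h3 : IsCoprime q (p ^ g.natDegree) := (hcop.symm).pow_right
    exact h3.add_mul_left_right t
  have hpE : IsCoprime (p - θ * q) E := by
    have h1 : (p - q * θ) ∣ E - (g.scaleRoots q).eval (q * θ) :=
      Polynomial.sub_dvd_eval_sub _ _ _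
    rw [scaleRoots_eval_mul] at h1
    obtain ⟨t, ht⟩ := h1
    have h2 : E = q ^ g.natDegree * g.eval θ + (p - θ * q) * t := by
      have : (p - θ * q) * t = (p - q * θ) * t := by ring
      rw [this, ← ht]; ring
    rw [h2]
    have h3 : IsCoprime (p - θ * q) (q ^ g.natDegree * g.eval θ) := by
      refine IsCoprime.mul_right (hc1.symm.pow_right) ?_
      obtain ⟨r, hr⟩ := hgu.exists_left_inv
      exact ⟨0, r, by rw [zero_mul, zero_add, hr]⟩
    exact h3.add_mul_left_right t
  obtain ⟨a, ha⟩ := exists_associated_pow_of_mul_eq_pow' (IsCoprime.mul_right hc1 hqE) hzz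
  obtain ⟨b, hb⟩ := exists_associated_pow_of_mul_eq_pow'
    (a := p - θ * q) (b := q * E) (c := z) (k := 2) (IsCoprime.mul_right hc1.symm hpE)
    (by rw [← hzz]; ring)
  obtain ⟨u1, hu1⟩ := ha
  obtain ⟨u2, hu2⟩ := hb
  have ha0 : i a ≠ 0 := by
    intro h0
    have : a = 0 := (map_eq_zero_iff i hinj).1 h0
    rw [this] at hu1
    apply hq0
    rw [← hu1]; simp
  refine ⟨u2 * u1⁻¹, i b / i a, ?_⟩
  have h5 : x - i θ = i (p - θ * q) / i q := by
    rw [hx, map_sub, map_mul]; field_simp
  have hu1' : i (u1 : S) ≠ 0 := by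
    have : IsUnit (i (u1 : S)) := u1.isUnit.map i
    exact this.ne_zero
  have h6 : i ((u1⁻¹ : Sˣ) : S) = (i (u1 : S))⁻¹ := by
    refine eq_inv_of_mul_eq_one_left ?_
    rw [← map_mul, Units.inv_mul, map_one]
  rw [h5, ← hu2, ← hu1, Units.val_mul, map_mul, map_mul, map_mul, map_pow, map_pow, h6]
  field_simp

/-- The integral closure of a discrete valuation ring in a finite separable extension is a
principal ideal domain. -/
theorem pid_integralClosure (O K M : Type*) [CommRing O] [IsDomain O] [IsDiscreteValuationRing O]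
    [Field K] [Algebra O K] [IsFractionRing O K] [Field M] [Algebra K M] [Algebra O M]
    [IsScalarTower O K M] [FiniteDimensional K M] [Algebra.IsSeparable K M] :
    IsPrincipalIdealRing (integralClosure O M) := by
  have hD : IsDedekindDomain (integralClosure O M) := integralClosure.isDedekindDomain O K M
  have hinj : Function.Injective (algebraMap O M) := by
    rw [IsScalarTower.algebraMap_eq O K M]
    exact (algebraMap K M).injective.comp (IsFractionRing.injective O K)
  have hF : Module.IsTorsionFree O (integralClosure O M) := by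
    rw [Module.isTorsionFree_iff_algebraMap_injective]
    intro a b hab
    apply hinj
    have := congrArg (algebraMap (integralClosure O M) M) hab
    simpa [← IsScalarTower.algebraMap_apply] using this
  refine IsPrincipalIdealRing.of_finite_primes ?_
  refine Set.Finite.subset ((Set.finite_singleton (⊥ : Ideal (integralClosure O M))).union
    (IsDedekindDomain.primesOver_finite (IsLocalRing.maximalIdeal O) (integralClosure O M))) ?_
  intro P hP
  rcases eq_or_ne P ⊥ with h | h
  · left; exact h
  · right
    have hPp : P.IsPrime := hP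
    refine ⟨hPp, ⟨?_⟩⟩
    have h1 : (P.under O) ≠ ⊥ := mt Ideal.eq_bot_of_comap_eq_bot h
    have h2 : (P.under O).IsPrime := Ideal.IsPrime.under O P
    exact ((IsDiscreteValuationRing.iff_pid_with_one_nonzero_prime O).1 inferInstance).2.unique
      ⟨IsDiscreteValuationRing.not_a_field O, inferInstance⟩ ⟨h1, h2⟩

theorem norm_algebraMap_sub_gen {K M : Type*} [Field K] [Field M] [Algebra K M]
    (pb : PowerBasis K M) (t : K) :
    Algebra.norm K (algebraMap K M t - pb.gen) = (minpoly K pb.gen).eval t := by
  classical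
  rw [Algebra.norm_eq_matrix_det pb.basis, map_sub, ← charpoly_leftMulMatrix pb,
    Matrix.eval_charpoly, AlgHom.commutes]
  rfl

/-- the norm of a unit has trivial valuation -/
theorem valuation_norm_unit {O K M Γ : Type*} [CommRing O] [IsDomain O] [IsIntegrallyClosed O]
    [Field K] [Algebra O K] [IsFractionRing O K] [LinearOrderedCommGroupWithZero Γ]
    (ν : Valuation K Γ) (hν : ∀ y : O, ν (algebraMap O K y) ≤ 1) [Field M] [Algebra K M]
    [Algebra O M] [IsScalarTower O K M] (u : (integralClosure O M)ˣ) :
    ν (Algebra.norm K ((u : integralClosure O M) : M)) = 1 := by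
  have key : ∀ z : M, IsIntegral O z → ν (Algebra.norm K z) ≤ 1 := by
    intro z hz
    have h1 : IsIntegral O (Algebra.norm K z) := Algebra.isIntegral_norm K hz
    obtain ⟨y, hy⟩ := IsIntegrallyClosed.isIntegral_iff.1 h1
    rw [← hy]
    exact hν y
  have h1 := key _ (u : integralClosure O M).2
  have h2 := key _ ((u⁻¹ : (integralClosure O M)ˣ) : integralClosure O M).2
  have h3 : ((u : integralClosure O M) : M) *
      (((u⁻¹ : (integralClosure O M)ˣ) : integralClosure O M) : M) = 1 := by
    have := congrArg (algebraMap (integralClosure O M) M) (Units.mul_inv u)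
    rw [map_mul, map_one] at this
    exact this
  have h4 : ν (Algebra.norm K ((u : integralClosure O M) : M)) *
      ν (Algebra.norm K (((u⁻¹ : (integralClosure O M)ˣ) : integralClosure O M) : M)) = 1 := by
    rw [← map_mul, ← map_mul, h3, map_one, map_one]
  refine le_antisymm h1 ?_
  rw [← h4]
  calc _ ≤ ν (Algebra.norm K ((u : integralClosure O M) : M)) * 1 := by gcongr
    _ = _ := mul_one _

/-- The local statement over a discrete valuation ring. -/
theorem isSquare_norm {O K M Γ : Type*} [CommRing O] [IsDomain O] [IsDiscreteValuationRing O]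
    [Field K] [Algebra O K] [IsFractionRing O K] [LinearOrderedCommGroupWithZero Γ]
    (ν : Valuation K Γ) (hν : ∀ y : O, ν (algebraMap O K y) ≤ 1) [Field M] [Algebra K M]
    [Algebra O M] [IsScalarTower O K M] [FiniteDimensional K M] [Algebra.IsSeparable K M]
    (f : O[X]) (hm : f.Monic) (hodd : Odd f.natDegree) (θ : O)
    (hθ : f.eval θ = 0) (hu : IsUnit (f.derivative.eval θ)) (x y : M)
    (hxy : y ^ 2 = Polynomial.aeval x f) :
    IsSquare (ν (Algebra.norm K (x - algebraMap O M θ))) := by
  have hpid : IsPrincipalIdealRing (integralClosure O M) := pid_integralClosure O K M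
  have hfr : IsFractionRing (integralClosure O M) M :=
    integralClosure.isFractionRing_of_finite_extension K M
  set j : O →+* integralClosure O M := algebraMap O (integralClosure O M) with hj
  have hfm : (f.map j).Monic := hm.map j
  have hfd : (f.map j).natDegree = f.natDegree := hm.natDegree_map j
  obtain ⟨u, β, h⟩ := unit_mul_sq (S := integralClosure O M) (M := M) (f.map j) hfm
    (by rw [hfd]; exact hodd) (j θ) (by rw [Polynomial.eval_map_apply, hθ, map_zero])
    (by
      rw [derivative_map, Polynomial.eval_map_apply]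
      exact hu.map j) x y (by
      rw [hxy, Polynomial.aeval_map_algebraMap])
  have h1 : algebraMap (integralClosure O M) M (j θ) = algebraMap O M θ := by
    rw [hj, ← IsScalarTower.algebraMap_apply]
  rw [h1] at h
  rw [h, map_mul, map_pow, map_mul, map_pow]
  have h2 : ν (Algebra.norm K (algebraMap (integralClosure O M) M u)) = 1 :=
    valuation_norm_unit ν hν u
  rw [h2, one_mul]
  exact ⟨_, pow_two _⟩

/-- one irreducible factor over `K` -/
theorem isSquare_irred {A K : Type*} [CommRing A] [IsDedekindDomain A] [Field K] [CharZero K]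
    [Algebra A K] [IsFractionRing A K] (𝔭 : HeightOneSpectrum A)
    (f : (𝔭.valuation K).integer[X]) (hm : f.Monic) (hodd : Odd f.natDegree)
    (θ : (𝔭.valuation K).integer) (hθ : f.eval θ = 0) (hu : IsUnit (f.derivative.eval θ))
    (h V : K[X]) (hh : Irreducible h) (hhm : h.Monic)
    (hdvd : h ∣ f.map (algebraMap (𝔭.valuation K).integer K) - V ^ 2) :
    IsSquare (𝔭.valuation K (h.eval (algebraMap (𝔭.valuation K).integer K θ))) := by
  have : Fact (Irreducible h) := ⟨hh⟩
  have hh0 : h ≠ 0 := hh.ne_zero
  have : FiniteDimensional K (AdjoinRoot h) :=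
    Module.Finite.of_basis (AdjoinRoot.powerBasis hh0).basis
  have hfr : IsFractionRing (𝔭.valuation K).integer K := inferInstance
  have hxy : (Polynomial.aeval (AdjoinRoot.root h) V) ^ 2 =
      Polynomial.aeval (AdjoinRoot.root h) f := by
    have h1 : Polynomial.aeval (AdjoinRoot.root h)
        (f.map (algebraMap (𝔭.valuation K).integer K) - V ^ 2) = 0 := by
      obtain ⟨t, ht⟩ := hdvd
      rw [ht, map_mul]
      have : Polynomial.aeval (AdjoinRoot.root h) h = 0 := by
        rw [AdjoinRoot.aeval_eq, AdjoinRoot.mk_self]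
      rw [this, zero_mul]
    rw [map_sub, map_pow, Polynomial.aeval_map_algebraMap, sub_eq_zero] at h1
    exact h1.symm
  have key := isSquare_norm (K := K) (M := AdjoinRoot h) (𝔭.valuation K) (fun y => y.2) f hm hodd
    θ hθ hu (AdjoinRoot.root h) (Polynomial.aeval (AdjoinRoot.root h) V) hxy
  have h2 := norm_algebraMap_sub_gen (AdjoinRoot.powerBasis hh0)
    (algebraMap (𝔭.valuation K).integer K θ)
  rw [AdjoinRoot.powerBasis_gen, AdjoinRoot.minpoly_root hh0, hhm.leadingCoeff, inv_one,
    map_one, mul_one] at h2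
  rw [← h2]
  have h3 : Algebra.norm K (algebraMap K (AdjoinRoot h)
      (algebraMap (𝔭.valuation K).integer K θ) - AdjoinRoot.root h) =
      Algebra.norm K (-1 : AdjoinRoot h) * Algebra.norm K (AdjoinRoot.root h -
        algebraMap (𝔭.valuation K).integer (AdjoinRoot h) θ) := by
    rw [← map_mul]
    congr 1
    rw [← IsScalarTower.algebraMap_apply]; ring
  rw [h3, map_mul]
  refine IsSquare.mul ?_ key
  have h4 : (Algebra.norm K (-1 : AdjoinRoot h)) = (-1) ^ (Module.finrank K (AdjoinRoot h)) := by
    have : (-1 : AdjoinRoot h) = algebraMap K _ (-1) := by simp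
    rw [this, Algebra.norm_algebraMap]
  rw [h4, map_pow, Valuation.map_neg, map_one, one_pow]
  exact IsSquare.one

theorem isSquare_poly {A K : Type*} [CommRing A] [IsDedekindDomain A] [Field K] [CharZero K]
    [Algebra A K] [IsFractionRing A K] (𝔭 : HeightOneSpectrum A)
    (f : (𝔭.valuation K).integer[X]) (hm : f.Monic) (hodd : Odd f.natDegree)
    (θ : (𝔭.valuation K).integer) (hθ : f.eval θ = 0) (hu : IsUnit (f.derivative.eval θ))
    (V : K[X]) (N : ℕ) : ∀ (W : K[X]), W.natDegree ≤ N → W.Monic →
    W ∣ f.map (algebraMap (𝔭.valuation K).integer K) - V ^ 2 →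
    IsSquare (𝔭.valuation K (W.eval (algebraMap (𝔭.valuation K).integer K θ))) := by
  induction N with
  | zero =>
    intro W hW hWm _
    rw [eq_one_of_monic_natDegree_zero hWm (by omega)]
    simp
  | succ N ih =>
    intro W hW hWm hdvd
    by_cases h0 : W.natDegree = 0
    · rw [eq_one_of_monic_natDegree_zero hWm h0]
      simp
    · obtain ⟨g, hgm, hgi, hgW⟩ := Polynomial.exists_monic_irreducible_factor W (by
        intro hun
        exact h0 (natDegree_eq_zero_of_isUnit hun))
      obtain ⟨W', hW'⟩ := hgW
      have hW'm : W'.Monic := by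
        rw [hW'] at hWm
        exact hgm.of_mul_monic_left hWm
      have hd : W.natDegree = g.natDegree + W'.natDegree := by
        rw [hW', hgm.natDegree_mul hW'm]
      have hg1 : 0 < g.natDegree := hgi.natDegree_pos
      rw [hW', eval_mul, map_mul]
      refine IsSquare.mul ?_ (ih W' (by omega) hW'm ((Dvd.intro_left g hW'.symm).trans hdvd))
      exact isSquare_irred 𝔭 f hm hodd θ hθ hu g V hgi hgm ((Dvd.intro W' hW'.symm).trans hdvd)

/-- F2 -/
theorem even_val' (f0 : ℤ[X]) (hm : f0.Monic) (hodd : Odd f0.natDegree) (K : Type) [Field K]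
    [NumberField K] (θ : 𝓞 K) (hθ : Polynomial.aeval θ f0 = 0) (w v : ℚ[X]) (hw : w.Monic)
    (h : w ∣ f0.map (Int.castRingHom ℚ) - v ^ 2)
    (𝔭 : HeightOneSpectrum (𝓞 K)) (h𝔭 : ((2 * f0.discr : ℤ) : 𝓞 K) ∉ 𝔭.asIdeal) :
    IsSquare (𝔭.valuation K (Polynomial.aeval (θ : K) w)) := by
  -- `f0'(θ) ∉ 𝔭`
  have hder : Polynomial.aeval θ f0.derivative ∉ 𝔭.asIdeal := by
    intro hmem
    apply h𝔭
    have hpos : 0 < f0.natDegree := hodd.pos
    obtain ⟨p, q, -, -, e⟩ := exists_mul_add_mul_eq_C_resultant (m := f0.natDegree)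
      (n := f0.natDegree - 1) f0 f0.derivative le_rfl (natDegree_derivative_le _)
      (Or.inl (by omega))
    rw [resultant_deriv (natDegree_pos_iff_degree_pos.1 hpos), hm.leadingCoeff, mul_one] at e
    have e2 := congrArg (Polynomial.aeval θ) e
    rw [map_add, map_mul, map_mul, hθ, zero_mul, zero_add] at e2
    have e3 : Polynomial.aeval θ (C ((-1) ^ (f0.natDegree * (f0.natDegree - 1) / 2) * f0.discr)) =
        (((-1) ^ (f0.natDegree * (f0.natDegree - 1) / 2) * f0.discr : ℤ) : 𝓞 K) := by
      rw [Polynomial.aeval_C]; rfl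
    rw [e3] at e2
    have h5 : (((-1) ^ (f0.natDegree * (f0.natDegree - 1) / 2) * f0.discr : ℤ) : 𝓞 K) ∈
        𝔭.asIdeal := by
      rw [← e2]
      exact Ideal.mul_mem_right _ _ hmem
    have h6 : ((2 * f0.discr : ℤ) : 𝓞 K) =
        (((2 * (-1) ^ (f0.natDegree * (f0.natDegree - 1) / 2)) : ℤ) : 𝓞 K) *
        (((-1) ^ (f0.natDegree * (f0.natDegree - 1) / 2) * f0.discr : ℤ) : 𝓞 K) := by
      rw [← Int.cast_mul]
      congr 1
      have h7 : ((-1 : ℤ) ^ (f0.natDegree * (f0.natDegree - 1) / 2)) *
          ((-1 : ℤ) ^ (f0.natDegree * (f0.natDegree - 1) / 2)) = 1 := by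
        rw [← mul_pow]; simp
      calc 2 * f0.discr = 2 * (((-1 : ℤ) ^ (f0.natDegree * (f0.natDegree - 1) / 2)) *
          ((-1 : ℤ) ^ (f0.natDegree * (f0.natDegree - 1) / 2))) * f0.discr := by rw [h7]; ring
        _ = _ := by ring
    rw [h6]
    exact Ideal.mul_mem_left _ _ h5
  have hval : 𝔭.valuation K (algebraMap (𝓞 K) K (Polynomial.aeval θ f0.derivative)) = 1 := by
    rw [HeightOneSpectrum.valuation_of_algebraMap]
    have h1 := (𝔭.intValuation_lt_one_iff_mem (Polynomial.aeval θ f0.derivative)).not.2 hder
    exact le_antisymm (𝔭.intValuation_le_one _) (not_lt.1 h1)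
  set ζ : (𝔭.valuation K).integer := ⟨algebraMap (𝓞 K) K θ, 𝔭.valuation_le_one θ⟩ with hζ
  have hev : ∀ g : ℤ[X], algebraMap (𝔭.valuation K).integer K
      ((g.map (Int.castRingHom (𝔭.valuation K).integer)).eval ζ) =
      algebraMap (𝓞 K) K (Polynomial.aeval θ g) := by
    intro g
    rw [← Polynomial.eval_map_apply, Polynomial.map_map, ← Polynomial.aeval_algebraMap_apply,
      Polynomial.aeval_def, Polynomial.eval_map]
    congr 1
  have hinj : Function.Injective (algebraMap (𝔭.valuation K).integer K) :=
    IsFractionRing.injective _ _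
  have hroot : (f0.map (Int.castRingHom (𝔭.valuation K).integer)).eval ζ = 0 := by
    apply hinj
    rw [hev, hθ, map_zero, map_zero]
  have hunit : IsUnit ((f0.map (Int.castRingHom (𝔭.valuation K).integer)).derivative.eval ζ) := by
    rw [derivative_map]
    refine (Valuation.integer.integers (𝔭.valuation K)).isUnit_iff_valuation_eq_one.2 ?_
    rw [hev, hval]
  have key := isSquare_poly 𝔭 (f0.map (Int.castRingHom (𝔭.valuation K).integer)) (hm.map _)
    (by rw [hm.natDegree_map]; exact hodd) ζ hroot hunit (v.map (algebraMap ℚ K)) w.natDegree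
    (w.map (algebraMap ℚ K)) (by rw [hw.natDegree_map]) (hw.map _) (by
      have h1 := Polynomial.map_dvd (algebraMap ℚ K) h
      rw [Polynomial.map_sub, Polynomial.map_pow, Polynomial.map_map] at h1
      rw [Polynomial.map_map]
      have e1 : (algebraMap ℚ K).comp (Int.castRingHom ℚ) = (algebraMap (𝔭.valuation K).integer K).comp
          (Int.castRingHom (𝔭.valuation K).integer) := RingHom.ext_int _ _
      rw [e1] at h1
      exact h1)
  rw [Polynomial.eval_map_algebraMap] at key
  exact key

end Pool.TT
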