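import Mathlib

/-! TEAM TWOTORSION, F3: the size of the 2-Selmer group of a number field (adapted from
Qt/SelCard.lean of helper39). -/

set_option autoImplicit false

open NumberField Module IsDedekindDomain
open scoped nonZeroDivisors

namespace Pool.TT.Sel

/-- bounding an index by an invariant -/
theorem index_le {G : Type*} [CommGroup G] {H L : Subgroup G} {β : Type*} [Finite β]
    (f : L → β) (hf : ∀ x y : L, f x = f y → (x : G)⁻¹ * y ∈ H) :
    H.relIndex L ≠ 0 ∧ H.relIndex L ≤ Nat.card β := by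
  have hinj : Function.Injective (fun c : L ⧸ H.subgroupOf L => f c.out) := by
    intro c c' hcc
    have h1 := hf _ _ hcc
    have h2 : (QuotientGroup.mk c.out : L ⧸ H.subgroupOf L) = QuotientGroup.mk c'.out := by
      rw [QuotientGroup.eq, Subgroup.mem_subgroupOf]
      simpa using h1
    rwa [QuotientGroup.out_eq', QuotientGroup.out_eq'] at h2
  have hfin : Finite (L ⧸ H.subgroupOf L) := Finite.of_injective _ hinj
  constructor
  · rw [Subgroup.relIndex, Subgroup.index]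
    exact Nat.card_pos.ne'
  · rw [Subgroup.relIndex, Subgroup.index]
    exact Nat.card_le_card_of_injective _ hinj

/-- units modulo squares -/
theorem units_mod (K : Type) [Field K] [NumberField K] :
    ∃ f : (𝓞 K)ˣ → Fin 2 × (Fin (Units.rank K) → Fin 2), ∀ x y, f x = f y →
      ∃ w : (𝓞 K)ˣ, x = y * w ^ 2 := by
  obtain ⟨g, hg⟩ := IsCyclic.exists_generator (α := Units.torsion K)
  have h1 : ∀ x : (𝓞 K)ˣ, ∃ (t : ℤ) (e : Fin (Units.rank K) → ℤ),
      x = (g : (𝓞 K)ˣ) ^ t * ∏ i, (Units.fundSystem K i) ^ (e i) := by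
    intro x
    obtain ⟨⟨ζ, e⟩, hx, -⟩ := Units.exist_unique_eq_mul_prod K x
    obtain ⟨t, ht⟩ := Subgroup.mem_zpowers_iff.mp (hg ζ)
    refine ⟨t, e, ?_⟩
    rw [hx]
    dsimp only
    rw [← ht]
    simp
  choose t e hte using h1
  refine ⟨fun x => (Fin.ofNat 2 (t x % 2).toNat, fun i => Fin.ofNat 2 (e x i % 2).toNat), ?_⟩
  intro x y hxy
  have hmod : ∀ a b : ℤ, Fin.ofNat 2 (a % 2).toNat = Fin.ofNat 2 (b % 2).toNat →
      ∃ c : ℤ, a = b + c * 2 := by
    intro a b hab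
    have h2 := congrArg Fin.val hab
    simp only [Fin.ofNat, Fin.val_mk] at h2
    refine ⟨(a - b) / 2, ?_⟩
    omega
  rw [Prod.mk.injEq] at hxy
  obtain ⟨c0, hc0⟩ := hmod _ _ hxy.1
  have h3 : ∀ i, ∃ c : ℤ, e x i = e y i + c * 2 := fun i => hmod _ _ (congrFun hxy.2 i)
  choose c hc using h3
  refine ⟨(g : (𝓞 K)ˣ) ^ c0 * ∏ i, (Units.fundSystem K i) ^ (c i), ?_⟩
  rw [hte x, hte y]
  conv_lhs => rw [hc0]
  have h4 : ∏ i, (Units.fundSystem K i) ^ (e x i) =
      (∏ i, (Units.fundSystem K i) ^ (e y i)) * (∏ i, (Units.fundSystem K i) ^ (c i)) ^ 2 := by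
    rw [← Finset.prod_pow, ← Finset.prod_mul_distrib]
    apply Finset.prod_congr rfl
    intro i _
    rw [hc i, zpow_add, zpow_mul]
    norm_cast
  rw [h4, zpow_add, zpow_mul, mul_pow]
  have h5 : (((g : (𝓞 K)ˣ) ^ c0) ^ (2 : ℤ)) = ((g : (𝓞 K)ˣ) ^ c0) ^ 2 := by norm_cast
  rw [h5]
  simp only [mul_comm, mul_left_comm, mul_assoc]

theorem rank_le (K : Type) [Field K] [NumberField K] : Units.rank K + 1 ≤ finrank ℚ K := by
  have h1 := InfinitePlace.card_add_two_mul_card_eq_rank K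
  have h2 := InfinitePlace.card_eq_nrRealPlaces_add_nrComplexPlaces K
  have h3 : 0 < Fintype.card (InfinitePlace K) := Fintype.card_pos
  unfold Units.rank
  omega

/-- an ideal all of whose exponents are even is a square -/
theorem ideal_sq {K : Type} [Field K] [NumberField K] {r : 𝓞 K} (hr : r ≠ 0)
    (h : ∀ v : HeightOneSpectrum (𝓞 K),
      2 ∣ (Associates.mk v.asIdeal).count (Associates.mk (Ideal.span {r})).factors) :
    ∃ I : Ideal (𝓞 K), Ideal.span {r} = I ^ 2 := by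
  have hr' : Ideal.span {r} ≠ 0 := by
    rw [Ideal.zero_eq_bot, Ne, Ideal.span_singleton_eq_bot]
    exact hr
  obtain ⟨b, hb⟩ := Associates.is_pow_of_dvd_count (a := Associates.mk (Ideal.span {r}))
    (Associates.mk_ne_zero.mpr hr') (k := 2) (by
      intro p hp
      obtain ⟨P, rfl⟩ := Associates.mk_surjective p
      have hP : Irreducible P := Associates.irreducible_mk.mp hp
      have hP' : Prime P := hP.prime
      have := h ⟨P, Ideal.isPrime_of_prime hP', hP'.ne_zero⟩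
      exact this)
  obtain ⟨I, rfl⟩ := Associates.mk_surjective b
  refine ⟨I, ?_⟩
  rw [← Associates.mk_pow, Associates.mk_eq_mk_iff_associated, associated_iff_eq] at hb
  exact hb

theorem val_eq {K : Type} [Field K] [NumberField K] (v : HeightOneSpectrum (𝓞 K)) {r : 𝓞 K}
    (hr : r ≠ 0) {z : Kˣ} (hz : (z : K) = algebraMap (𝓞 K) K r) :
    Multiplicative.toAdd (v.valuationOfNeZero z) =
      -((Associates.mk v.asIdeal).count (Associates.mk (Ideal.span {r})).factors : ℤ) := by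
  have h1 := v.valuationOfNeZero_eq (K := K) z
  rw [hz, HeightOneSpectrum.valuation_of_algebraMap, HeightOneSpectrum.intValuation_if_neg _ hr]
    at h1
  have h2 : (v.valuationOfNeZero z) = Multiplicative.ofAdd
      (-((Associates.mk v.asIdeal).count (Associates.mk (Ideal.span {r})).factors : ℤ)) := by
    exact WithZero.coe_inj.mp h1
  rw [h2]
  rfl

/-- elements with all exponents even: up to squares, the square of an ideal -/
theorem elt_ideal {K : Type} [Field K] [NumberField K] (z : Kˣ)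
    (hz : ∀ v : HeightOneSpectrum (𝓞 K), (2 : ℤ) ∣ Multiplicative.toAdd (v.valuationOfNeZero z)) :
    ∃ (r : 𝓞 K) (s : Kˣ) (I : (Ideal (𝓞 K))⁰), r ≠ 0 ∧ (z : K) = algebraMap (𝓞 K) K r * (s : K) ^ 2 ∧
      Ideal.span {r} = (I : Ideal (𝓞 K)) ^ 2 := by
  obtain ⟨a, b, hb, hab⟩ := IsFractionRing.div_surjective (A := 𝓞 K) (z : K)
  have hb0 : b ≠ 0 := nonZeroDivisors.ne_zero hb
  have hbK : algebraMap (𝓞 K) K b ≠ 0 := by
    rw [Ne, FaithfulSMul.algebraMap_eq_zero_iff]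
    exact hb0
  have ha0 : a ≠ 0 := by
    rintro rfl
    rw [map_zero, zero_div] at hab
    exact z.ne_zero hab.symm
  have hr0 : a * b ≠ 0 := mul_ne_zero ha0 hb0
  set s : Kˣ := (Units.mk0 _ hbK)⁻¹ with hs
  have hsv : (s : K) = (algebraMap (𝓞 K) K b)⁻¹ := by
    rw [hs]
    simp
  have hzr : (z : K) = algebraMap (𝓞 K) K (a * b) * (s : K) ^ 2 := by
    rw [hsv, ← hab, map_mul]
    field_simp
  have hr : ((z * s⁻¹ ^ 2 : Kˣ) : K) = algebraMap (𝓞 K) K (a * b) := by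
    rw [Units.val_mul, Units.val_pow_eq_pow_val, Units.val_inv_eq_inv_val, hzr, inv_pow,
      mul_assoc, mul_inv_cancel₀ (pow_ne_zero 2 s.ne_zero), mul_one]
  have hI := ideal_sq hr0 (by
    intro v
    have h1 := val_eq v hr0 hr
    have h2 : (2 : ℤ) ∣ Multiplicative.toAdd (v.valuationOfNeZero (z * s⁻¹ ^ 2)) := by
      rw [map_mul, map_pow, toAdd_mul, toAdd_pow]
      refine dvd_add (hz v) ?_
      rw [nsmul_eq_mul]
      exact dvd_mul_right _ _
    rw [h1] at h2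
    have h3 := (Int.dvd_neg).mp h2
    exact_mod_cast h3)
  obtain ⟨I, hI⟩ := hI
  have hI0 : I ≠ ⊥ := by
    rintro rfl
    rw [← Ideal.zero_eq_bot, zero_pow (by norm_num), Ideal.zero_eq_bot,
      Ideal.span_singleton_eq_bot] at hI
    exact hr0 hI
  exact ⟨a * b, s, ⟨I, mem_nonZeroDivisors_iff_ne_zero.mpr hI0⟩, hr0, hzr, hI⟩

/-- squares -/
def Sq (K : Type) [Field K] : Subgroup Kˣ := (powMonoidHom 2 : Kˣ →* Kˣ).range

/-- units times squares -/
def USq (K : Type) [Field K] [NumberField K] : Subgroup Kˣ :=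
  (Units.map (algebraMap (𝓞 K) K : 𝓞 K →* K)).range ⊔ Sq K

theorem mem_USq {K : Type} [Field K] [NumberField K] {z : Kˣ} :
    z ∈ USq K ↔ ∃ (u : (𝓞 K)ˣ) (s : Kˣ), z = Units.map (algebraMap (𝓞 K) K : 𝓞 K →* K) u * s ^ 2 := by
  unfold USq
  rw [Subgroup.mem_sup]
  constructor
  · rintro ⟨x, ⟨u, rfl⟩, y, ⟨s, rfl⟩, rfl⟩
    exact ⟨u, s, rfl⟩
  · rintro ⟨u, s, rfl⟩
    exact ⟨_, ⟨u, rfl⟩, _, ⟨s, rfl⟩, rfl⟩

theorem Sq_USq (K : Type) [Field K] [NumberField K] :
    (Sq K).relIndex (USq K) ≠ 0 ∧ (Sq K).relIndex (USq K) ≤ 2 ^ finrank ℚ K := by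
  obtain ⟨f, hf⟩ := units_mod K
  have h1 : ∀ z : USq K, ∃ (u : (𝓞 K)ˣ) (s : Kˣ),
      (z : Kˣ) = Units.map (algebraMap (𝓞 K) K : 𝓞 K →* K) u * s ^ 2 := fun z =>
    mem_USq.mp z.2
  choose u s hus using h1
  have h2 := index_le (H := Sq K) (L := USq K) (fun z => f (u z)) (by
    intro x y hxy
    obtain ⟨w, hw⟩ := hf _ _ hxy
    refine ⟨(s x)⁻¹ * s y * (Units.map (algebraMap (𝓞 K) K : 𝓞 K →* K) w)⁻¹, ?_⟩
    rw [hus x, hus y, hw]
    simp only [powMonoidHom_apply, map_mul, map_pow, mul_inv, mul_pow, inv_pow]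
    generalize (Units.map (algebraMap (𝓞 K) K : 𝓞 K →* K)) (u y) = A
    generalize (Units.map (algebraMap (𝓞 K) K : 𝓞 K →* K)) w = B
    generalize s x = x1
    generalize s y = y1
    have : A⁻¹ * (B ^ 2)⁻¹ * (x1 ^ 2)⁻¹ * (A * y1 ^ 2) =
        (A⁻¹ * A) * ((x1 ^ 2)⁻¹ * y1 ^ 2 * (B ^ 2)⁻¹) := by
      simp only [mul_comm, mul_left_comm, mul_assoc]
    rw [this, inv_mul_cancel, one_mul])
  refine ⟨h2.1, h2.2.trans ?_⟩
  rw [Nat.card_prod, Nat.card_fun, Nat.card_fin, Nat.card_fin, ← pow_succ']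
  exact Nat.pow_le_pow_right (by norm_num) (rank_le K)

/-- elements with even exponents outside `S` -/
def Sel (K : Type) [Field K] [NumberField K] (S : Finset (HeightOneSpectrum (𝓞 K))) :
    Subgroup Kˣ where
  carrier := {z | ∀ v : HeightOneSpectrum (𝓞 K), v ∉ S →
    (2 : ℤ) ∣ Multiplicative.toAdd (v.valuationOfNeZero z)}
  one_mem' := fun v _ => by simp
  mul_mem' := fun {a b} ha hb v hv => by
    rw [map_mul, toAdd_mul]; exact dvd_add (ha v hv) (hb v hv)
  inv_mem' := fun {a} ha v hv => by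
    rw [map_inv, toAdd_inv]; exact (ha v hv).neg_right

theorem mem_Sel {K : Type} [Field K] [NumberField K] {S : Finset (HeightOneSpectrum (𝓞 K))}
    {z : Kˣ} : z ∈ Sel K S ↔ ∀ v : HeightOneSpectrum (𝓞 K), v ∉ S →
    (2 : ℤ) ∣ Multiplicative.toAdd (v.valuationOfNeZero z) := Iff.rfl

theorem USq_Sel0 (K : Type) [Field K] [NumberField K] :
    (USq K).relIndex (Sel K ∅) ≠ 0 ∧
      (USq K).relIndex (Sel K ∅) ≤ Nat.card {c : ClassGroup (𝓞 K) // c ^ 2 = 1} := by
  have h1 : ∀ z : Sel K ∅, ∃ (r : 𝓞 K) (s : Kˣ) (I : (Ideal (𝓞 K))⁰), r ≠ 0 ∧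
      ((z : Kˣ) : K) = algebraMap (𝓞 K) K r * (s : K) ^ 2 ∧
      Ideal.span {r} = (I : Ideal (𝓞 K)) ^ 2 := by
    intro z
    exact elt_ideal _ (fun v => z.2 v (Finset.notMem_empty v))
  choose r s I hr0 hz hrI using h1
  have h3 : ∀ z, (ClassGroup.mk0 (I z)) ^ 2 = 1 := by
    intro z
    rw [← map_pow, ClassGroup.mk0_eq_one_iff]
    rw [SubmonoidClass.coe_pow, ← hrI]
    exact ⟨r z, rfl⟩
  refine index_le (H := USq K) (L := Sel K ∅)
    (fun z => (⟨ClassGroup.mk0 (I z), h3 z⟩ : {c : ClassGroup (𝓞 K) // c ^ 2 = 1})) ?_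
  intro x y hxy
  rw [Subtype.mk.injEq, ClassGroup.mk0_eq_mk0_iff] at hxy
  obtain ⟨a, b, ha, hb, hab⟩ := hxy
  have h4 : Ideal.span {a ^ 2 * r x} = Ideal.span {b ^ 2 * r y} := by
    rw [← Ideal.span_singleton_mul_span_singleton, ← Ideal.span_singleton_mul_span_singleton,
      ← Ideal.span_singleton_pow, ← Ideal.span_singleton_pow, hrI, hrI, ← mul_pow, ← mul_pow, hab]
  rw [Ideal.span_singleton_eq_span_singleton] at h4
  obtain ⟨u, hu⟩ := h4
  have haK : algebraMap (𝓞 K) K a ≠ 0 := by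
    rw [Ne, FaithfulSMul.algebraMap_eq_zero_iff]
    exact ha
  have hbK : algebraMap (𝓞 K) K b ≠ 0 := by
    rw [Ne, FaithfulSMul.algebraMap_eq_zero_iff]
    exact hb
  have hrxK : algebraMap (𝓞 K) K (r x) ≠ 0 := by
    rw [Ne, FaithfulSMul.algebraMap_eq_zero_iff]
    exact hr0 x
  rw [mem_USq]
  refine ⟨u, (s x)⁻¹ * s y * (Units.mk0 _ haK) * (Units.mk0 _ hbK)⁻¹, ?_⟩
  rw [← Units.val_inj]
  push_cast
  rw [hz x, hz y]
  have hu' : algebraMap (𝓞 K) K a ^ 2 * algebraMap (𝓞 K) K (r x) * algebraMap (𝓞 K) K (u : 𝓞 K) =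
      algebraMap (𝓞 K) K b ^ 2 * algebraMap (𝓞 K) K (r y) := by
    rw [← map_pow, ← map_pow, ← map_mul, ← map_mul, ← map_mul, hu]
  have hsx := (s x).ne_zero
  have hsy := (s y).ne_zero
  simp only [Units.coe_map, MonoidHom.coe_coe, Units.val_mk0]
  field_simp
  linear_combination -(hu')

theorem Sel0_Sel {K : Type} [Field K] [NumberField K] (S : Finset (HeightOneSpectrum (𝓞 K))) :
    (Sel K ∅).relIndex (Sel K S) ≠ 0 ∧ (Sel K ∅).relIndex (Sel K S) ≤ 2 ^ S.card := by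
  have h2 := index_le (H := Sel K ∅) (L := Sel K S) (β := S → Fin 2)
    (fun z v => Fin.ofNat 2
      (Multiplicative.toAdd ((v : HeightOneSpectrum (𝓞 K)).valuationOfNeZero (z : Kˣ)) % 2).toNat)
    (by
      intro x y hxy
      rw [mem_Sel]
      intro v _
      rw [map_mul, map_inv, toAdd_mul, toAdd_inv]
      by_cases hv : v ∈ S
      · have h1 := congrArg Fin.val (congrFun hxy ⟨v, hv⟩)
        simp only [Fin.ofNat] at h1
        omega
      · exact dvd_add ((x.2 v hv).neg_right) (y.2 v hv))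
  refine ⟨h2.1, h2.2.trans ?_⟩
  rw [Nat.card_fun, Nat.card_fin]
  have h3 : Nat.card S = S.card := by simp
  rw [h3]

theorem relIndex_Sel (K : Type) [Field K] [NumberField K]
    (S : Finset (HeightOneSpectrum (𝓞 K))) :
    (Sq K).relIndex (Sel K S) ≠ 0 ∧ (Sq K).relIndex (Sel K S) ≤
      Nat.card {c : ClassGroup (𝓞 K) // c ^ 2 = 1} * 2 ^ (finrank ℚ K + S.card) := by
  have h1 := Sq_USq K
  have h2 := USq_Sel0 K
  have h3 := Sel0_Sel S
  have hle1 : Sq K ≤ USq K := le_sup_right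
  have hle2 : USq K ≤ Sel K ∅ := by
    intro z hz
    rw [mem_USq] at hz
    obtain ⟨u, s, rfl⟩ := hz
    rw [mem_Sel]
    intro v _
    rw [map_mul, map_pow, toAdd_mul, toAdd_pow, nsmul_eq_mul]
    refine dvd_add ?_ (dvd_mul_right _ _)
    have h4 : v.valuationOfNeZero (Units.map (algebraMap (𝓞 K) K : 𝓞 K →* K) u) = 1 :=
      v.valuation_of_unit_eq u
    rw [h4]
    simp
  have hle3 : Sel K ∅ ≤ Sel K S := by
    intro z hz v _
    exact hz v (Finset.notMem_empty v)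
  have e1 : (Sq K).relIndex (Sel K S) = (Sq K).relIndex (USq K) *
      ((USq K).relIndex (Sel K ∅) * (Sel K ∅).relIndex (Sel K S)) := by
    rw [Subgroup.relIndex_mul_relIndex _ _ _ hle2 hle3,
      Subgroup.relIndex_mul_relIndex _ _ _ hle1 (hle2.trans hle3)]
  rw [e1]
  refine ⟨Nat.mul_ne_zero h1.1 (Nat.mul_ne_zero h2.1 h3.1), ?_⟩
  calc (Sq K).relIndex (USq K) * ((USq K).relIndex (Sel K ∅) *
      (Sel K ∅).relIndex (Sel K S)) ≤ 2 ^ finrank ℚ K *
        (Nat.card {c : ClassGroup (𝓞 K) // c ^ 2 = 1} * 2 ^ S.card) :=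
        Nat.mul_le_mul h1.2 (Nat.mul_le_mul h2.2 h3.2)
    _ = _ := by rw [pow_add]; ring

end Pool.TT.Sel

namespace Pool.TT

open Sel in
/-- F3 -/
theorem selmer_card_aux (K : Type) [Field K] [NumberField K]
    (S : Finset (HeightOneSpectrum (𝓞 K)))
    (T : Finset Kˣ) (hT : ∀ a ∈ T, ∀ 𝔭 : HeightOneSpectrum (𝓞 K), 𝔭 ∉ S →
      IsSquare (𝔭.valuation K (a : K)))
    (hsep : ∀ a ∈ T, ∀ b ∈ T, IsSquare (a * b) → a = b) :
    T.card ≤ Nat.card {x : ClassGroup (𝓞 K) // x ^ 2 = 1} *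
      2 ^ (Module.finrank ℚ K + S.card) := by
  obtain ⟨h0, h1⟩ := relIndex_Sel K S
  refine le_trans ?_ h1
  have hmem : ∀ a ∈ T, a ∈ Sel K S := by
    intro a ha v hv
    obtain ⟨y, hy⟩ := hT a ha v hv
    rw [← v.valuationOfNeZero_eq (K := K) a] at hy
    have hy0 : y ≠ 0 := by
      rintro rfl
      rw [mul_zero] at hy
      exact WithZero.coe_ne_zero hy
    obtain ⟨w, rfl⟩ := WithZero.ne_zero_iff_exists.1 hy0
    rw [← WithZero.coe_mul, WithZero.coe_inj] at hy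
    rw [hy, toAdd_mul]
    exact ⟨Multiplicative.toAdd w, by ring⟩
  have hfin : Finite (Sel K S ⧸ (Sq K).subgroupOf (Sel K S)) := by
    rw [Subgroup.relIndex, Subgroup.index] at h0
    exact Nat.finite_of_card_ne_zero h0
  have hinj : Function.Injective (fun a : T =>
      (QuotientGroup.mk (⟨a.1, hmem a.1 a.2⟩ : Sel K S) :
        Sel K S ⧸ (Sq K).subgroupOf (Sel K S))) := by
    intro a b hab
    have h2 := QuotientGroup.eq.1 hab
    rw [Subgroup.mem_subgroupOf] at h2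
    obtain ⟨c, hc⟩ := h2
    apply Subtype.ext
    refine hsep a.1 a.2 b.1 b.2 ⟨c * a.1, ?_⟩
    have h3 : c ^ 2 = (a.1)⁻¹ * b.1 := hc
    calc a.1 * b.1 = ((a.1)⁻¹ * b.1) * a.1 ^ 2 := by
          rw [pow_two, mul_comm (a.1)⁻¹ b.1, mul_assoc, inv_mul_cancel_left, mul_comm]
      _ = c ^ 2 * a.1 ^ 2 := by rw [h3]
      _ = c * a.1 * (c * a.1) := by rw [← mul_pow, pow_two]
  have h4 := Nat.card_le_card_of_injective _ hinj
  rw [Nat.card_eq_fintype_card, Fintype.card_coe] at h4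
  exact h4

theorem exists_prime_factor_mem {R : Type*} [CommRing R] (P : Ideal R) [hP : P.IsPrime] :
    ∀ l : List ℕ, ((l.prod : ℕ) : R) ∈ P → ∃ a ∈ l, ((a : ℕ) : R) ∈ P
  | [], h => by
      rw [List.prod_nil, Nat.cast_one] at h
      exact absurd ((Ideal.eq_top_iff_one _).2 h) hP.ne_top
  | a :: l, h => by
      rw [List.prod_cons, Nat.cast_mul] at h
      rcases hP.mem_or_mem h with h | h
      · exact ⟨a, List.mem_cons_self, h⟩
      · obtain ⟨b, hb, hb'⟩ := exists_prime_factor_mem P l h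
        exact ⟨b, List.mem_cons_of_mem _ hb, hb'⟩

/-- the number of primes above a rational prime -/
theorem primes_over (K : Type) [Field K] [NumberField K] (p : ℕ) (hp : p.Prime) :
    ∃ T : Finset (HeightOneSpectrum (𝓞 K)), T.card ≤ Module.finrank ℚ K ∧
      ∀ v : HeightOneSpectrum (𝓞 K), (p : 𝓞 K) ∈ v.asIdeal → v ∈ T := by
  have hp0 : (p : 𝓞 K) ≠ 0 := Nat.cast_ne_zero.2 hp.ne_zero
  have ha' : Ideal.span {(p : 𝓞 K)} ≠ 0 := by
    rw [Ideal.zero_eq_bot, Ne, Ideal.span_singleton_eq_bot]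
    exact hp0
  have hfin := Ideal.finite_factors ha'
  have hmem : ∀ v, v ∈ hfin.toFinset ↔ (p : 𝓞 K) ∈ v.asIdeal := fun v => by
    rw [Set.Finite.mem_toFinset, Set.mem_ofPred_eq, Ideal.dvd_span_singleton]
  refine ⟨hfin.toFinset, ?_, fun v hv => (hmem v).2 hv⟩
  have h1 : ∏ v ∈ hfin.toFinset, v.asIdeal ∣ Ideal.span {(p : 𝓞 K)} := by
    apply Finset.prod_dvd_of_coprime
    · intro v _ w _ hvw
      show IsCoprime v.asIdeal w.asIdeal
      rw [Ideal.isCoprime_iff_sup_eq]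
      have hv := v.isMaximal
      have hw := w.isMaximal
      exact hv.coprime_of_ne hw (fun h => hvw (HeightOneSpectrum.ext h))
    · intro v hv
      rw [Set.Finite.mem_toFinset] at hv
      exact hv
  have hnorm : Ideal.absNorm (Ideal.span {(p : 𝓞 K)}) = p ^ Module.finrank ℚ K := by
    rw [Ideal.absNorm_span_singleton]
    have : (p : 𝓞 K) = algebraMap ℤ (𝓞 K) (p : ℤ) := by simp
    rw [this, Algebra.norm_algebraMap, RingOfIntegers.rank, Int.natAbs_pow, Int.natAbs_natCast]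
  have h2 := Ideal.absNorm_dvd_absNorm_of_le (Ideal.le_of_dvd h1)
  rw [hnorm, map_prod] at h2
  have h3 : p ^ hfin.toFinset.card ≤ ∏ v ∈ hfin.toFinset, Ideal.absNorm v.asIdeal := by
    rw [← Finset.prod_const]
    apply Finset.prod_le_prod'
    intro v hv
    have h5 : Ideal.absNorm v.asIdeal ∣ p ^ Module.finrank ℚ K := by
      rw [← hnorm]
      exact Ideal.absNorm_dvd_absNorm_of_le
        ((Ideal.span_singleton_le_iff_mem _).2 ((hmem v).1 hv))
    obtain ⟨k, _, hk⟩ := (Nat.dvd_prime_pow hp).1 h5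
    have h4 : Ideal.absNorm v.asIdeal ≠ 1 := by
      rw [Ne, Ideal.absNorm_eq_one_iff]
      exact v.isPrime.ne_top
    have hk0 : k ≠ 0 := fun h => h4 (by rw [hk, h, pow_zero])
    rw [hk]
    exact Nat.le_self_pow hk0 p
  have h4 := h3.trans (Nat.le_of_dvd (pow_pos hp.pos _) h2)
  exact (Nat.pow_le_pow_iff_right hp.one_lt).1 h4

/-- F3b: number of primes above a nonzero integer. -/
theorem primes_above_aux (K : Type) [Field K] [NumberField K] (m : ℤ) (hm : m ≠ 0) :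
    ∃ S : Finset (HeightOneSpectrum (𝓞 K)), S.card ≤ Module.finrank ℚ K *
      m.natAbs.primeFactors.card ∧ ∀ 𝔭 : HeightOneSpectrum (𝓞 K), (m : 𝓞 K) ∈ 𝔭.asIdeal → 𝔭 ∈ S := by
  classical
  have h1 : ∀ p : ℕ, ∃ T : Finset (HeightOneSpectrum (𝓞 K)), p.Prime →
      (T.card ≤ Module.finrank ℚ K ∧
      ∀ v : HeightOneSpectrum (𝓞 K), (p : 𝓞 K) ∈ v.asIdeal → v ∈ T) := by
    intro p
    by_cases hp : p.Prime
    · obtain ⟨T, hT⟩ := primes_over K p hp
      exact ⟨T, fun _ => hT⟩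
    · exact ⟨∅, fun h => absurd h hp⟩
  choose T hT using h1
  refine ⟨m.natAbs.primeFactors.biUnion T, ?_, ?_⟩
  · refine Finset.card_biUnion_le.trans ?_
    rw [mul_comm]
    exact Finset.sum_le_card_nsmul _ _ _ fun p hp => (hT p (Nat.prime_of_mem_primeFactors hp)).1
  · intro v hv
    have h2 : ((m.natAbs : ℕ) : 𝓞 K) ∈ v.asIdeal := by
      have h3 : ((m.natAbs : ℕ) : 𝓞 K) = (m : 𝓞 K) ∨ ((m.natAbs : ℕ) : 𝓞 K) = -(m : 𝓞 K) := by
        rcases Int.natAbs_eq m with h | h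
        · left; conv_rhs => rw [h]
          simp
        · right; conv_rhs => rw [h]
          simp
      rcases h3 with h3 | h3
      · rw [h3]; exact hv
      · rw [h3]; exact v.asIdeal.neg_mem hv
    rw [← Nat.prod_primeFactorsList (Int.natAbs_ne_zero.2 hm)] at h2
    have := v.isPrime
    obtain ⟨p, hp, hpv⟩ := exists_prime_factor_mem v.asIdeal _ h2
    rw [Finset.mem_biUnion]
    have hpp := Nat.prime_of_mem_primeFactorsList hp
    refine ⟨p, ?_, (hT p hpp).2 v hpv⟩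
    rw [Nat.mem_primeFactors]
    exact ⟨hpp, Nat.dvd_of_mem_primeFactorsList hp, Int.natAbs_ne_zero.2 hm⟩

end Pool.TT
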