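import Mathlib
import Pool.Agent.Lib.MP_695920_nt.TT.Selmer
import Pool.Agent.Lib.MP_695920_nt.TT.EvenVal

set_option autoImplicit false

/-!
TEAM TWOTORSION, F2, F3: the image of the 2-descent map.
-/

open Polynomial NumberField IsDedekindDomain

namespace Pool.TT

/-- F2 -/
theorem even_val (f0 : ℤ[X]) (hm : f0.Monic) (hodd : Odd f0.natDegree) (K : Type) [Field K]
    [NumberField K] (θ : 𝓞 K) (hθ : Polynomial.aeval θ f0 = 0) (w v : ℚ[X]) (hw : w.Monic)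
    (h : w ∣ f0.map (Int.castRingHom ℚ) - v ^ 2) (_h0 : Polynomial.aeval (θ : K) w ≠ 0)
    (𝔭 : HeightOneSpectrum (𝓞 K)) (h𝔭 : ((2 * f0.discr : ℤ) : 𝓞 K) ∉ 𝔭.asIdeal) :
    IsSquare (𝔭.valuation K (Polynomial.aeval (θ : K) w)) :=
  even_val' f0 hm hodd K θ hθ w v hw h 𝔭 h𝔭

/-- F3 -/
theorem selmer_card (K : Type) [Field K] [NumberField K] (S : Finset (HeightOneSpectrum (𝓞 K)))
    (T : Finset Kˣ) (hT : ∀ a ∈ T, ∀ 𝔭 : HeightOneSpectrum (𝓞 K), 𝔭 ∉ S →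
      IsSquare (𝔭.valuation K (a : K)))
    (hsep : ∀ a ∈ T, ∀ b ∈ T, IsSquare (a * b) → a = b) :
    T.card ≤ Nat.card {x : ClassGroup (𝓞 K) // x ^ 2 = 1} *
      2 ^ (Module.finrank ℚ K + S.card) :=
  selmer_card_aux K S T hT hsep

/-- F3b: number of primes above a nonzero integer. -/
theorem primes_above (K : Type) [Field K] [NumberField K] (m : ℤ) (hm : m ≠ 0) :
    ∃ S : Finset (HeightOneSpectrum (𝓞 K)), S.card ≤ Module.finrank ℚ K *
      m.natAbs.primeFactors.card ∧ ∀ 𝔭 : HeightOneSpectrum (𝓞 K), (m : 𝓞 K) ∈ 𝔭.asIdeal → 𝔭 ∈ S :=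
  primes_above_aux K m hm

end Pool.TT
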