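import Mathlib

set_option autoImplicit false

/-!
TEAM TWOTORSION, F1: the linear algebra behind the injectivity of `x - T`.
-/

open Polynomial

namespace Pool.TT

theorem ker_finrank_degreeLT (m : ℕ) : Module.finrank ℚ (degreeLT ℚ m) = m := by
  rw [(degreeLTEquiv ℚ m).finrank_eq, Module.finrank_fin_fun]

instance ker_finite_degreeLT (m : ℕ) : Module.Finite ℚ (degreeLT ℚ m) :=
  Module.Finite.equiv (degreeLTEquiv ℚ m).symm

theorem ker_finrank_adjoinRoot (f : ℚ[X]) (hf : f.Monic) :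
    Module.finrank ℚ (AdjoinRoot f) = f.natDegree := by
  rw [(AdjoinRoot.powerBasis' hf).finrank, AdjoinRoot.powerBasis'_dim]

/-- more unknowns than conditions: small `s, t, b`, not all zero, with
`s ≡ A t mod f`, `s ≡ v b mod w` -/
theorem ker_exists_small (f w v A : ℚ[X]) (hf : f.Monic) (hw : w.Monic) (a b c : ℕ)
    (habc : f.natDegree + w.natDegree < a + b + c) :
    ∃ s t r : ℚ[X], (s ≠ 0 ∨ t ≠ 0 ∨ r ≠ 0) ∧ s.degree < a ∧ t.degree < b ∧ r.degree < c ∧
      f ∣ s - A * t ∧ w ∣ s - v * r := by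
  have : Module.Finite ℚ (AdjoinRoot f) := (AdjoinRoot.powerBasis' hf).finite
  have : Module.Finite ℚ (AdjoinRoot w) := (AdjoinRoot.powerBasis' hw).finite
  let L1 : (degreeLT ℚ a × degreeLT ℚ b × degreeLT ℚ c) →ₗ[ℚ] AdjoinRoot f :=
    ((AdjoinRoot.mkₐ f : ℚ[X] →ₐ[ℚ] AdjoinRoot f).toLinearMap).comp
      ((degreeLT ℚ a).subtype.comp (LinearMap.fst ℚ _ _) -
        (LinearMap.mulLeft ℚ A).comp ((degreeLT ℚ b).subtype.comp
          ((LinearMap.fst ℚ _ _).comp (LinearMap.snd ℚ _ _))))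
  let L2 : (degreeLT ℚ a × degreeLT ℚ b × degreeLT ℚ c) →ₗ[ℚ] AdjoinRoot w :=
    ((AdjoinRoot.mkₐ w : ℚ[X] →ₐ[ℚ] AdjoinRoot w).toLinearMap).comp
      ((degreeLT ℚ a).subtype.comp (LinearMap.fst ℚ _ _) -
        (LinearMap.mulLeft ℚ v).comp ((degreeLT ℚ c).subtype.comp
          ((LinearMap.snd ℚ _ _).comp (LinearMap.snd ℚ _ _))))
  have hlt : Module.finrank ℚ (AdjoinRoot f × AdjoinRoot w) <
      Module.finrank ℚ (degreeLT ℚ a × degreeLT ℚ b × degreeLT ℚ c) := by
    rw [Module.finrank_prod, Module.finrank_prod, Module.finrank_prod,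
      ker_finrank_adjoinRoot f hf, ker_finrank_adjoinRoot w hw, ker_finrank_degreeLT, ker_finrank_degreeLT,
      ker_finrank_degreeLT]
    omega
  have hker := LinearMap.ker_ne_bot_of_finrank_lt (f := L1.prod L2) hlt
  obtain ⟨⟨s, t, r⟩, hmem, hne⟩ := Submodule.exists_mem_ne_zero_of_ne_bot hker
  rw [LinearMap.mem_ker] at hmem
  have e1 : AdjoinRoot.mk f ((s : ℚ[X]) - A * t) = 0 := congrArg Prod.fst hmem
  have e2 : AdjoinRoot.mk w ((s : ℚ[X]) - v * r) = 0 := congrArg Prod.snd hmem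
  rw [AdjoinRoot.mk_eq_zero] at e1 e2
  refine ⟨s, t, r, ?_, mem_degreeLT.1 s.2, mem_degreeLT.1 t.2, mem_degreeLT.1 r.2, e1, e2⟩
  by_contra hcon
  push Not at hcon
  apply hne
  obtain ⟨h1, h2, h3⟩ := hcon
  ext1
  · exact Subtype.ext h1
  · ext1
    · exact Subtype.ext h2
    · exact Subtype.ext h3

/-- parity: `s^2 = f r^2` with `deg f` odd forces `s = r = 0` -/
theorem ker_parity (f s r : ℚ[X]) (hodd : Odd f.natDegree) (h : s ^ 2 = f * r ^ 2) :
    s = 0 ∧ r = 0 := by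
  have hf : f ≠ 0 := by
    rintro rfl
    simp at hodd
  by_cases hr : r = 0
  · subst hr
    simp at h
    exact ⟨h, rfl⟩
  · exfalso
    have h1 := congrArg natDegree h
    rw [natDegree_mul hf (pow_ne_zero 2 hr), natDegree_pow, natDegree_pow] at h1
    obtain ⟨k, hk⟩ := hodd
    omega

theorem ker_natDegree_sq_lt (s : ℚ[X]) (a m : ℕ) (hs : s.degree < a) (hm : 2 * a < m + 2) :
    (s ^ 2).degree < m := by
  by_cases h0 : s = 0
  · subst h0
    simp
  · rw [degree_eq_natDegree h0] at hs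
    have hs' : s.natDegree < a := by exact_mod_cast hs
    rw [degree_eq_natDegree (pow_ne_zero 2 h0), natDegree_pow]
    exact_mod_cast (by omega : 2 * s.natDegree < m)

theorem kernel_lin (f w v A : ℚ[X]) (hf : f.Monic) (hodd : Odd f.natDegree) (hw : w.Monic)
    (hfw : IsCoprime f w) (h1 : w ∣ f - v ^ 2)
    (h2 : f ∣ A ^ 2 - C ((-1) ^ w.natDegree) * w) :
    ∃ s t r : ℚ[X], t ≠ 0 ∧ w ∣ s - v * r ∧
      s ^ 2 - f * r ^ 2 = C ((-1) ^ w.natDegree) * w * t ^ 2 := by
  set n := f.natDegree with hn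
  set d := w.natDegree with hd
  obtain ⟨k, hk⟩ := hodd
  obtain ⟨s, t, r, hne, hs, ht, hr, hf1, hw1⟩ := ker_exists_small f w v A hf hw
    ((n + d + 1) / 2) ((n + 1) / 2) ((d + 1) / 2) (by omega)
  have key : s ^ 2 - f * r ^ 2 - C ((-1) ^ d) * w * t ^ 2 = 0 := by
    have hdvd : f * w ∣ s ^ 2 - f * r ^ 2 - C ((-1) ^ d) * w * t ^ 2 := by
      refine hfw.mul_dvd ?_ ?_
      · have e : s ^ 2 - f * r ^ 2 - C ((-1) ^ d) * w * t ^ 2 =
          (s - A * t) * (s + A * t) + (A ^ 2 - C ((-1) ^ d) * w) * t ^ 2 - f * r ^ 2 := by ring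
        rw [e]
        exact dvd_sub (dvd_add (hf1.mul_right _) (h2.mul_right _)) (dvd_mul_right _ _)
      · have e : s ^ 2 - f * r ^ 2 - C ((-1) ^ d) * w * t ^ 2 =
          (s - v * r) * (s + v * r) - (f - v ^ 2) * r ^ 2 - w * (C ((-1) ^ d) * t ^ 2) := by ring
        rw [e]
        exact dvd_sub (dvd_sub (hw1.mul_right _) (h1.mul_right _)) (dvd_mul_right _ _)
    have hdeg : (f * w).degree = ((n + d : ℕ) : WithBot ℕ) := by
      rw [degree_mul, degree_eq_natDegree hf.ne_zero, degree_eq_natDegree hw.ne_zero]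
      norm_cast
    refine eq_zero_of_dvd_of_degree_lt hdvd ?_
    rw [hdeg]
    have hnd : ((n + d : ℕ) : WithBot ℕ) = (n : WithBot ℕ) + (d : WithBot ℕ) := by norm_cast
    have b1 : (s ^ 2).degree < ((n + d : ℕ) : WithBot ℕ) :=
      ker_natDegree_sq_lt s _ _ hs (by omega)
    have b2 : (f * r ^ 2).degree < ((n + d : ℕ) : WithBot ℕ) := by
      by_cases h0 : r = 0
      · subst h0
        simp
      · rw [degree_eq_natDegree h0] at hr
        have hr' : r.natDegree < (d + 1) / 2 := by exact_mod_cast hr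
        rw [degree_eq_natDegree (mul_ne_zero hf.ne_zero (pow_ne_zero 2 h0)),
          natDegree_mul hf.ne_zero (pow_ne_zero 2 h0), natDegree_pow]
        exact_mod_cast (by omega : n + 2 * r.natDegree < n + d)
    have b3 : (C ((-1) ^ d) * w * t ^ 2).degree < ((n + d : ℕ) : WithBot ℕ) := by
      by_cases h0 : t = 0
      · subst h0
        simp
      · rw [degree_eq_natDegree h0] at ht
        have ht' : t.natDegree < (n + 1) / 2 := by exact_mod_cast ht
        have hc : C ((-1 : ℚ) ^ d) ≠ 0 := by simp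
        rw [degree_eq_natDegree (mul_ne_zero (mul_ne_zero hc hw.ne_zero) (pow_ne_zero 2 h0)),
          natDegree_mul (mul_ne_zero hc hw.ne_zero) (pow_ne_zero 2 h0),
          natDegree_mul hc hw.ne_zero, natDegree_C, natDegree_pow]
        exact_mod_cast (by omega : 0 + w.natDegree + 2 * t.natDegree < n + d)
    exact (degree_sub_le _ _).trans_lt (max_lt ((degree_sub_le _ _).trans_lt (max_lt b1 b2)) b3)
  refine ⟨s, t, r, ?_, hw1, sub_eq_zero.1 key⟩
  rintro rfl
  have h3 : s ^ 2 = f * r ^ 2 := by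
    have := sub_eq_zero.1 key
    simpa [sub_eq_zero] using this
  obtain ⟨h4, h5⟩ := ker_parity f s r ⟨k, hk⟩ h3
  subst h4 h5
  simp at hne

end Pool.TT
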