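import Pool.Agent.Lib.MP_695920_nt.TT.Ideals
import Pool.Agent.Lib.MP_695920_nt.TT.KernelLin

set_option autoImplicit false

/-!
TEAM TWOTORSION, F1: injectivity of `x - T` modulo squares, for reduced representatives.
-/

open Polynomial

namespace Pool.TT

theorem ker_norm_mk (f a b : ℚ[X]) : (⟨a, b⟩ : Crd f).norm = a ^ 2 - f * b ^ 2 := by
  rw [QuadraticAlgebra.norm_def]
  simp only
  ring

theorem ker_mem_pt (f w v s r : ℚ[X]) (h : w ∣ s - v * r) : (⟨s, -r⟩ : Crd f) ∈ pt f w v := by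
  obtain ⟨q, hq⟩ := h
  have e : (⟨s, -r⟩ : Crd f) = ⟨q, 0⟩ * ⟨w, 0⟩ + ⟨-r, 0⟩ * ⟨-v, 1⟩ := by
    ext1
    · simp
      linear_combination hq
    · simp
  rw [e]
  exact Ideal.add_mem _ (Ideal.mul_mem_left _ _ (Ideal.subset_span (by simp)))
    (Ideal.mul_mem_left _ _ (Ideal.subset_span (by simp)))

/-- a monic polynomial times a square being a square up to constants is a square -/
theorem ker_monic_sq (t c w : ℚ[X]) (ht : t ≠ 0) (hc : c ≠ 0) (hw : w.Monic)
    (h : Associated (t ^ 2) (c ^ 2 * w)) : ∃ r : ℚ[X], r ≠ 0 ∧ w = r ^ 2 := by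
  have h1 : c ^ 2 ∣ t ^ 2 := (dvd_mul_right _ _).trans h.symm.dvd
  have h2 : c ∣ t := (IsIntegrallyClosed.pow_dvd_pow_iff two_ne_zero).1 h1
  obtain ⟨q, rfl⟩ := h2
  have hq : q ≠ 0 := right_ne_zero_of_mul ht
  rw [mul_pow] at h
  have h3 : Associated (q ^ 2) w := h.of_mul_left (Associated.refl _) (pow_ne_zero 2 hc)
  refine ⟨q * C q.leadingCoeff⁻¹, mul_ne_zero hq (by simpa using hq), ?_⟩
  have hmon : ((q * C q.leadingCoeff⁻¹) ^ 2).Monic := (monic_mul_leadingCoeff_inv hq).pow 2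
  refine eq_of_monic_of_associated hw hmon ?_
  refine h3.symm.trans ?_
  rw [mul_pow]
  have hu : IsUnit (C q.leadingCoeff⁻¹ ^ 2) := by
    refine IsUnit.pow 2 (isUnit_C.2 ?_)
    simpa using hq
  exact (associated_mul_unit_right _ _ hu)

section

variable (f : ℚ[X]) [hf : Fact (Odd f.natDegree)] [hs : Fact (Squarefree f)]

theorem ker_poly (hm : f.Monic) (w v A : ℚ[X]) (hw : w.Monic) (hfw : IsCoprime f w)
    (h1 : w ∣ f - v ^ 2) (h2 : f ∣ A ^ 2 - C ((-1) ^ w.natDegree) * w) :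
    IsSquare (cl f w v) := by
  obtain ⟨s, t, r, ht, hw1, key⟩ := kernel_lin f w v A hm hf.out hw hfw h1 h2
  set φ : Crd f := ⟨s, -r⟩ with hφ
  have hc1 : C ((-1 : ℚ) ^ w.natDegree) ≠ 0 := by simp
  have hnorm : φ.norm = C ((-1) ^ w.natDegree) * w * t ^ 2 := by
    rw [hφ, ker_norm_mk, ← key]
    ring
  have hφ0 : φ ≠ 0 := by
    intro h0
    rw [h0, QuadraticAlgebra.norm_zero] at hnorm
    exact mul_ne_zero (mul_ne_zero hc1 hw.ne_zero) (pow_ne_zero 2 ht) hnorm.symm
  have hmem : φ ∈ pt f w v := ker_mem_pt f w v s r hw1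
  have hle : Ideal.span {φ} ≤ pt f w v := (Ideal.span_singleton_le_iff_mem _).2 hmem
  obtain ⟨J, hJ⟩ := Ideal.dvd_iff_le.2 hle
  have hspan0 : Ideal.span {φ} ≠ ⊥ := by
    rwa [Ne, Ideal.span_singleton_eq_bot]
  have hJ0 : J ≠ ⊥ := by
    rintro rfl
    rw [Ideal.mul_bot] at hJ
    exact hspan0 hJ
  obtain ⟨c, w0, v0, hc, hw0, hv0, hdv, hJf⟩ := ideal_form f J hJ0
  have hrel := norm_relation f (∅ : Finset (Fin 2)) (Finset.univ : Finset (Fin 2))
    ![w, w0] ![v, v0] ![w, w0] ![v, v0] ![1, 1] ![1, 1] (by simp) (by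
      intro i _
      fin_cases i
      · exact h1
      · exact hdv)
    φ ⟨c, 0⟩ (by
      rw [Finset.prod_empty, mul_one, hJ, hJf, Fin.prod_univ_two]
      simp only [Matrix.cons_val_zero, Matrix.cons_val_one, pow_one]
      ring)
  rw [Finset.prod_empty, mul_one, Fin.prod_univ_two, hnorm, ker_norm_mk] at hrel
  simp only [Matrix.cons_val_zero, Matrix.cons_val_one, pow_one] at hrel
  have hrel2 : Associated (t ^ 2) (c ^ 2 * w0) := by
    have e1 : C ((-1) ^ w.natDegree) * w * t ^ 2 = w * (t ^ 2 * C ((-1) ^ w.natDegree)) := by ring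
    have e2 : (c ^ 2 - f * 0 ^ 2) * (w * w0) = w * (c ^ 2 * w0) := by ring
    rw [e1, e2] at hrel
    have h3 := hrel.of_mul_left (Associated.refl _) hw.ne_zero
    refine Associated.trans ?_ h3
    exact (associated_mul_unit_right _ _ (isUnit_C.2 (by simp)))
  obtain ⟨q, hq0, hq⟩ := ker_monic_sq t c w0 ht hc.ne_zero hw0 hrel2
  subst hq
  rw [pt_sq f q v0 hdv] at hJf
  have hc0 : (⟨c, 0⟩ : Crd f) ≠ 0 := by
    intro h0
    exact hc.ne_zero (congrArg QuadraticAlgebra.re h0)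
  have hcs0 : Ideal.span {(⟨c, 0⟩ : Crd f)} ≠ ⊥ := by
    rwa [Ne, Ideal.span_singleton_eq_bot]
  have hone : ClassGroup.mk0 ⟨Ideal.span {φ}, mem_nonZeroDivisors_of_ne_zero hspan0⟩ = 1 :=
    (ClassGroup.mk0_eq_one_iff _).2 ⟨⟨φ, rfl⟩⟩
  have hone' : ClassGroup.mk0 ⟨Ideal.span {(⟨c, 0⟩ : Crd f)},
      mem_nonZeroDivisors_of_ne_zero hcs0⟩ = 1 :=
    (ClassGroup.mk0_eq_one_iff _).2 ⟨⟨_, rfl⟩⟩
  have hprod : (⟨Ideal.span {φ}, mem_nonZeroDivisors_of_ne_zero hspan0⟩ :
      nonZeroDivisors (Ideal (Crd f))) =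
      ⟨pt f w v, mem_nonZeroDivisors_of_ne_zero (pt_ne_bot f w v)⟩ *
      (⟨Ideal.span {(⟨c, 0⟩ : Crd f)}, mem_nonZeroDivisors_of_ne_zero hcs0⟩ *
      ⟨pt f q v0, mem_nonZeroDivisors_of_ne_zero (pt_ne_bot f q v0)⟩ ^ 2) := by
    apply Subtype.ext
    simp only [Submonoid.coe_mul, SubmonoidClass.coe_pow]
    rw [hJ, hJf]
  rw [hprod, map_mul, map_mul, map_pow, hone', one_mul] at hone
  refine ⟨(cl f q v0)⁻¹, ?_⟩
  rw [← mul_inv, ← pow_two]
  exact eq_inv_of_mul_eq_one_left hone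

/-- the sign of the norm of a function with reduced divisor -/
theorem ker_norm_sign (hm : f.Monic) (φ : Crd f) (hφ : φ ≠ 0) (W : ℚ[X]) (hW : W.Monic)
    (h : φ.norm = W ∨ φ.norm = -W) : φ.norm = C ((-1) ^ W.natDegree) * W := by
  obtain ⟨hn0, a, ha, hlc, -, -⟩ := norm_leadingCoeff f hm φ hφ
  have ha2 : 0 < a ^ 2 := by positivity
  have hdeg : φ.norm.natDegree = W.natDegree := by
    rcases h with h | h
    · rw [h]
    · rw [h, natDegree_neg]
  rw [hdeg] at hlc
  rcases h with h | h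
  · rw [h, hW.leadingCoeff] at hlc
    rcases neg_one_pow_eq_or ℚ W.natDegree with h1 | h1
    · rw [h1, h]
      simp
    · rw [h1] at hlc
      linarith
  · rw [h, leadingCoeff_neg, hW.leadingCoeff] at hlc
    rcases neg_one_pow_eq_or ℚ W.natDegree with h1 | h1
    · rw [h1] at hlc
      linarith
    · rw [h1, h]
      simp

end

theorem ker_aeval_surj (f : ℚ[X]) (hm : f.Monic) (hirr : Irreducible f) {K : Type*} [Field K]
    [Algebra ℚ K] (θ : K) (hθ : aeval θ f = 0) (hK : Module.finrank ℚ K = f.natDegree) (z : K) :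
    ∃ A : ℚ[X], aeval θ A = z := by
  have hfin : FiniteDimensional ℚ K := by
    refine Module.finite_of_finrank_pos ?_
    rw [hK]
    exact hirr.natDegree_pos
  have hint : IsIntegral ℚ θ := ⟨f, hm, by simpa [aeval_def] using hθ⟩
  have hmin : f = minpoly ℚ θ := minpoly.eq_of_irreducible_of_monic hirr hθ hm
  have htop : IntermediateField.adjoin ℚ {θ} = ⊤ := by
    apply IntermediateField.eq_of_le_of_finrank_eq le_top
    rw [IntermediateField.adjoin.finrank hint, ← hmin, IntermediateField.finrank_top', hK]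
  have h1 : z ∈ (IntermediateField.adjoin ℚ {θ}).toSubalgebra := by
    rw [htop]
    trivial
  rw [IntermediateField.adjoin_simple_toSubalgebra_of_isAlgebraic hint.isAlgebraic,
    Algebra.adjoin_singleton_eq_range_aeval] at h1
  obtain ⟨A, hA⟩ := h1
  exact ⟨A, hA⟩

/-- F1: if `μ μ'` is a square then the product of the two classes is a square -/
theorem mu_square (f : ℚ[X]) [hf : Fact (Odd f.natDegree)] [hs : Fact (Squarefree f)]
    (hm : f.Monic) (hirr : Irreducible f) {K : Type*} [Field K] [Algebra ℚ K] (θ : K)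
    (hθ : aeval θ f = 0) (hK : Module.finrank ℚ K = f.natDegree) (w v w' v' : ℚ[X])
    (hw : w.Monic) (hwd : 2 * w.natDegree < f.natDegree) (hwv : w ∣ f - v ^ 2)
    (hw' : w'.Monic) (hwd' : 2 * w'.natDegree < f.natDegree) (hwv' : w' ∣ f - v' ^ 2)
    (hsq : IsSquare ((-1) ^ (w.natDegree + w'.natDegree) * aeval θ w * aeval θ w')) :
    IsSquare (cl f w v * cl f w' v') := by
  obtain ⟨w'', v'', hw'', hwd'', hv'', hwv'', hcl⟩ :=
    exists_reduced f (cl f w v * cl f w' v')⁻¹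
  have hmin : f = minpoly ℚ θ := minpoly.eq_of_irreducible_of_monic hirr hθ hm
  have hne : ∀ u : ℚ[X], u.Monic → 2 * u.natDegree < f.natDegree → aeval θ u ≠ 0 := by
    intro u hu hud h0
    have h1 : f ∣ u := by
      rw [hmin]
      exact minpoly.dvd ℚ θ h0
    have h2 := natDegree_le_of_dvd h1 hu.ne_zero
    omega
  obtain ⟨φ, hφ, hspan, hnorm⟩ := exists_function f (ι := Fin 3) hm ![w, w', w''] ![v, v', v'']
    ![1, 1, 1] (by
      intro i
      fin_cases i
      · exact hw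
      · exact hw'
      · exact hw'') (by
      intro i
      fin_cases i
      · exact hwv
      · exact hwv'
      · exact hwv'') (by
      rw [Fin.prod_univ_three]
      simp only [Matrix.cons_val_zero, Matrix.cons_val_one, Matrix.cons_val_two, Matrix.tail_cons,
        Matrix.head_cons, pow_one]
      rw [hcl]
      exact mul_inv_cancel _)
  rw [Fin.prod_univ_three] at hnorm
  simp only [Matrix.cons_val_zero, Matrix.cons_val_one, Matrix.cons_val_two, Matrix.tail_cons,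
        Matrix.head_cons, pow_one] at hnorm
  have hWm : (w * w' * w'').Monic := (hw.mul hw').mul hw''
  have h1 := ker_norm_sign f hm φ hφ _ hWm hnorm
  rw [(hw.mul hw').natDegree_mul hw'', hw.natDegree_mul hw'] at h1
  have h2 : aeval θ φ.re ^ 2 = (-1) ^ (w.natDegree + w'.natDegree + w''.natDegree) *
      (aeval θ w * aeval θ w' * aeval θ w'') := by
    have h3 := congrArg (aeval θ) h1
    have h4 : φ.norm = φ.re ^ 2 - f * φ.im ^ 2 := ker_norm_mk f φ.re φ.im
    rw [h4] at h3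
    simp only [map_sub, map_mul, map_pow, hθ, zero_mul, sub_zero, aeval_C] at h3
    rw [h3]
    simp
  obtain ⟨β, hβ⟩ := hsq
  have hβ0 : β ≠ 0 := by
    rintro rfl
    rw [mul_zero] at hβ
    have := mul_ne_zero (mul_ne_zero (pow_ne_zero (w.natDegree + w'.natDegree)
      (neg_ne_zero.2 one_ne_zero : (-1 : K) ≠ 0)) (hne w hw hwd)) (hne w' hw' hwd')
    exact this hβ
  have h5 : (aeval θ φ.re / β) ^ 2 = (-1) ^ w''.natDegree * aeval θ w'' := by
    rw [div_pow, h2, div_eq_iff (pow_ne_zero 2 hβ0), pow_add _ (w.natDegree + w'.natDegree)]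
    rw [pow_two β, ← hβ]
    ring
  obtain ⟨A, hA⟩ := ker_aeval_surj f hm hirr θ hθ hK (aeval θ φ.re / β)
  have h6 : f ∣ A ^ 2 - C ((-1) ^ w''.natDegree) * w'' := by
    nth_rewrite 1 [hmin]
    apply minpoly.dvd
    simp only [map_sub, map_mul, map_pow, aeval_C, hA, h5]
    simp
  have h7 : IsCoprime f w'' := by
    rw [hirr.coprime_iff_not_dvd]
    intro h
    have h8 := natDegree_le_of_dvd h hw''.ne_zero
    omega
  have h9 := ker_poly f hm w'' v'' A hw'' h7 hwv'' h6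
  rw [hcl] at h9
  exact (isSquare_inv).1 h9

end Pool.TT
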