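import Pool.Agent.Lib.MP_695920_nt.TT.Pts
import Pool.Agent.Lib.MP_695920_nt.TT.Kernel
import Pool.Agent.Lib.MP_695920_nt.TT.Image

set_option autoImplicit false

/-!
TEAM TWOTORSION, F4: two-descent.
-/

open Polynomial NumberField IsDedekindDomain

namespace Pool.TT

/-- the discriminant of a monic irreducible integral polynomial is not zero -/
theorem poly_discr_ne_zero (f0 : ℤ[X]) (hm : f0.Monic) (hirr : Irreducible f0) : f0.discr ≠ 0 := by
  intro h0
  have hf : Irreducible (f0.map (Int.castRingHom ℚ)) :=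
    (Polynomial.Monic.irreducible_iff_irreducible_map_fraction_map (K := ℚ) hm).1 hirr
  have hsep : (f0.map (Int.castRingHom ℚ)).Separable := hf.separable
  have hinj : Function.Injective (Int.castRingHom ℚ) := Int.cast_injective
  have hdeg : (f0.map (Int.castRingHom ℚ)).natDegree = f0.natDegree := hm.natDegree_map _
  have hpos : 0 < f0.natDegree := by
    rw [← hdeg]
    exact hf.natDegree_pos
  have h1 := resultant_deriv (f := f0) (natDegree_pos_iff_degree_pos.1 hpos)
  rw [h0, mul_zero] at h1
  have h2 := congrArg (Int.castRingHom ℚ) h1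
  rw [map_zero, ← resultant_map_map, ← derivative_map] at h2
  have h3 : (derivative (f0.map (Int.castRingHom ℚ))).natDegree = f0.natDegree - 1 := by
    rw [Polynomial.natDegree_derivative, hdeg]
  rw [← h3, ← hdeg] at h2
  exact resultant_ne_zero _ _ hsep h2

/-- a type all of whose finsets have at most `N` elements -/
theorem finite_and_card_le {α : Type*} (N : ℕ) (h : ∀ s : Finset α, s.card ≤ N) :
    Finite α ∧ Nat.card α ≤ N := by
  have hfin : Finite α := by
    by_contra hcon
    rw [not_finite_iff_infinite] at hcon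
    obtain ⟨s, hs⟩ := Infinite.exists_subset_card_eq α (N + 1)
    have := h s
    omega
  refine ⟨hfin, ?_⟩
  have := Fintype.ofFinite α
  rw [Nat.card_eq_fintype_card, ← Finset.card_univ]
  exact h _

/-- F4 -/
theorem two_descent {ι : Type*} (P : Pts ι) (K : Type) [Field K] [NumberField K]
    (θ : 𝓞 K) (hθ : minpoly ℤ θ = P.f0) (hK : Module.finrank ℚ K = P.f0.natDegree) :
    Finite (ClassGroup (Crd P.f) ⧸ (powMonoidHom 2 : ClassGroup (Crd P.f) →* _).range) ∧
    Nat.card (ClassGroup (Crd P.f) ⧸ (powMonoidHom 2 : ClassGroup (Crd P.f) →* _).range) ≤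
      Nat.card {x : ClassGroup (𝓞 K) // x ^ 2 = 1} *
        2 ^ (P.f0.natDegree * (1 + (2 * P.f0.discr).natAbs.primeFactors.card)) := by
  classical
  have hD : (2 * P.f0.discr : ℤ) ≠ 0 :=
    mul_ne_zero two_ne_zero (poly_discr_ne_zero P.f0 P.monic P.irr)
  obtain ⟨S, hScard, hS⟩ := primes_above K (2 * P.f0.discr) hD
  have hroot : Polynomial.aeval θ P.f0 = 0 := by
    rw [← hθ]
    exact minpoly.aeval ℤ θ
  have hrootK : Polynomial.aeval (θ : K) P.f = 0 := by
    have h1 := congrArg (algebraMap (𝓞 K) K) hroot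
    rw [map_zero, ← aeval_algebraMap_apply] at h1
    rw [Pts.f, ← h1]
    rw [aeval_def, eval₂_map, aeval_def]
    congr 1
    exact RingHom.ext_int _ _
  have hfin : Module.finrank ℚ K = P.f.natDegree := by rw [hK, P.f_natDegree]
  have hmin : P.f = minpoly ℚ (θ : K) :=
    minpoly.eq_of_irreducible_of_monic P.f_irr hrootK P.f_monic
  -- reduced representatives
  choose w v hw hwd hvd hwv hcl using exists_reduced P.f
  have hne : ∀ c, Polynomial.aeval (θ : K) (w c) ≠ 0 := by
    intro c h0
    have h1 : P.f ∣ w c := by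
      rw [hmin]
      exact minpoly.dvd ℚ _ h0
    have h2 := natDegree_le_of_dvd h1 (hw c).ne_zero
    have := hwd c
    omega
  have hmu0 : ∀ c, (-1 : K) ^ (w c).natDegree * Polynomial.aeval (θ : K) (w c) ≠ 0 := fun c =>
    mul_ne_zero (pow_ne_zero _ (neg_ne_zero.2 one_ne_zero)) (hne c)
  let μ : ClassGroup (Crd P.f) → Kˣ := fun c => Units.mk0 _ (hmu0 c)
  set Q := ClassGroup (Crd P.f) ⧸ (powMonoidHom 2 : ClassGroup (Crd P.f) →* _).range with hQ
  have hsep : ∀ a b : Q, IsSquare (μ a.out * μ b.out) → a = b := by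
    intro a b hab
    have h1 : IsSquare ((-1 : K) ^ ((w a.out).natDegree + (w b.out).natDegree) *
        Polynomial.aeval (θ : K) (w a.out) * Polynomial.aeval (θ : K) (w b.out)) := by
      obtain ⟨z, hz⟩ := hab
      refine ⟨(z : K), ?_⟩
      have h2 := congrArg (fun x : Kˣ => (x : K)) hz
      simp only [Units.val_mul] at h2
      rw [← h2]
      simp only [μ, Units.val_mk0]
      ring
    have h3 := mu_square P.f P.f_monic P.f_irr (θ : K) hrootK hfin _ (v a.out) _ (v b.out)
      (hw _) (hwd _) (hwv _) (hw _) (hwd _) (hwv _) h1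
    rw [hcl, hcl] at h3
    obtain ⟨c, hc⟩ := h3
    rw [← QuotientGroup.out_eq' a, ← QuotientGroup.out_eq' b, QuotientGroup.eq]
    refine ⟨(Quotient.out a)⁻¹ * c, ?_⟩
    rw [powMonoidHom_apply, pow_two, mul_mul_mul_comm, ← hc]
    group
  have hbound : ∀ s : Finset Q, s.card ≤ Nat.card {x : ClassGroup (𝓞 K) // x ^ 2 = 1} *
        2 ^ (P.f0.natDegree * (1 + (2 * P.f0.discr).natAbs.primeFactors.card)) := by
    intro s
    have hinj : Function.Injective fun q : Q => μ q.out := by
      intro a b hab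
      refine hsep a b ⟨μ b.out, ?_⟩
      have : μ a.out = μ b.out := hab
      rw [this]
    have h1 := selmer_card K S (s.image fun q : Q => μ q.out) (by
      intro a ha 𝔭 h𝔭
      obtain ⟨q, -, rfl⟩ := Finset.mem_image.1 ha
      have h2 : ((2 * P.f0.discr : ℤ) : 𝓞 K) ∉ 𝔭.asIdeal := fun h => h𝔭 (hS 𝔭 h)
      have h3 := even_val P.f0 P.monic P.odd K θ hroot (w q.out) (v q.out) (hw _) (hwv _)
        (hne _) 𝔭 h2
      have h4 : ((μ q.out : Kˣ) : K) =
        (-1 : K) ^ (w q.out).natDegree * Polynomial.aeval (θ : K) (w q.out) := rfl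
      rw [h4, map_mul, map_pow, Valuation.map_neg, Valuation.map_one, one_pow, one_mul]
      exact h3) (by
      intro a ha b hb hab
      obtain ⟨q, -, rfl⟩ := Finset.mem_image.1 ha
      obtain ⟨q', -, rfl⟩ := Finset.mem_image.1 hb
      rw [hsep q q' hab])
    rw [Finset.card_image_of_injective _ hinj] at h1
    refine h1.trans (Nat.mul_le_mul_left _ (Nat.pow_le_pow_right two_pos ?_))
    rw [hK] at hScard
    rw [hK, mul_add, mul_one]
    exact Nat.add_le_add_left hScard _
  exact finite_and_card_le _ hbound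

end Pool.TT
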