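import Pool.Agent.Lib.MP_695920_nt.TT.Ring

set_option autoImplicit false

/-!
TEAM TWOTORSION, D2c, D2d: the structure of the ideals of `F[x,y]/(y^2 - f)` and reduced
representatives of the ideal classes.
-/

open Polynomial

namespace Pool.TT

/-! ### the ideals `(w, y - v)` -/

/-- the elements of `(w, y - v)` -/
theorem mem_pt {F : Type*} [Field F] {f w v : F[X]} (h : w ∣ f - v ^ 2) (z : Crd f) :
    z ∈ pt f w v ↔ w ∣ z.re + z.im * v := by
  constructor
  · intro hz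
    refine Submodule.span_induction (p := fun z _ => w ∣ QuadraticAlgebra.re z +
      QuadraticAlgebra.im z * v) ?_ ?_ ?_ ?_ hz
    · rintro z (rfl | rfl)
      · simp
      · simp
    · simp
    · intro x y _ _ hx hy
      have e : (x + y).re + (x + y).im * v = (x.re + x.im * v) + (y.re + y.im * v) := by
        rw [QuadraticAlgebra.re_add, QuadraticAlgebra.im_add]
        ring
      rw [e]
      exact dvd_add hx hy
    · intro a x _ hx
      have e : (a • x).re + (a • x).im * v = (a.re + a.im * v) * (x.re + x.im * v) +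
          a.im * x.im * (f - v ^ 2) := by
        rw [smul_eq_mul, QuadraticAlgebra.re_mul, QuadraticAlgebra.im_mul]
        ring
      rw [e]
      exact dvd_add (hx.mul_left _) (h.mul_left _)
  · rintro ⟨k, hk⟩
    have e : z = (⟨k, 0⟩ : Crd f) * ⟨w, 0⟩ + ⟨z.im, 0⟩ * ⟨-v, 1⟩ := by
      apply QuadraticAlgebra.ext
      · simp only [QuadraticAlgebra.re_add, QuadraticAlgebra.re_mul]
        linear_combination hk
      · simp
    rw [e]
    exact add_mem (Ideal.mul_mem_left _ _ (Ideal.subset_span (by simp)))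
      (Ideal.mul_mem_left _ _ (Ideal.subset_span (by simp)))

theorem dvd_of_congr {F : Type*} [Field F] {f w v v' : F[X]} (h : w ∣ f - v ^ 2)
    (hv : w ∣ v - v') : w ∣ f - v' ^ 2 := by
  have e : f - v' ^ 2 = (f - v ^ 2) + (v - v') * (v + v') := by ring
  rw [e]
  exact dvd_add h (hv.mul_right _)

theorem pt_congr {F : Type*} [Field F] {f w v v' : F[X]} (h : w ∣ f - v ^ 2)
    (hv : w ∣ v - v') : pt f w v = pt f w v' := by
  ext z
  rw [mem_pt h, mem_pt (dvd_of_congr h hv)]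
  have e : z.re + z.im * v = (z.re + z.im * v') + z.im * (v - v') := by ring
  rw [e]
  exact dvd_add_left (hv.mul_left _)

/-- `f - v ^ 2` is not zero -/
theorem sub_sq_ne_zero {F : Type*} [Field F] {f : F[X]} (hf : Odd f.natDegree) (v : F[X]) :
    f - v ^ 2 ≠ 0 := by
  intro h
  rw [sub_eq_zero] at h
  rw [h, natDegree_pow] at hf
  exact absurd hf (by rw [Nat.not_odd_iff_even]; exact even_two_mul _)

/-- D2c, for any field: the structure of the ideals -/
theorem exists_form {F : Type*} [Field F] {f : F[X]} (hf : Odd f.natDegree) (J : Ideal (Crd f))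
    (hJ : J ≠ ⊥) :
    ∃ c w v : F[X], c.Monic ∧ w.Monic ∧ v.degree < w.degree ∧ w ∣ f - v ^ 2 ∧
      J = Ideal.span {(⟨c, 0⟩ : Crd f)} * pt f w v := by
  classical
  -- the ideal of the second coordinates
  let I1 : Ideal F[X] :=
    { carrier := {b | ∃ a, (⟨a, b⟩ : Crd f) ∈ J}
      add_mem' := by
        rintro b b' ⟨a, ha⟩ ⟨a', ha'⟩
        refine ⟨a + a', ?_⟩
        exact J.add_mem ha ha'
      zero_mem' := ⟨0, J.zero_mem⟩
      smul_mem' := by
        rintro c b ⟨a, ha⟩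
        refine ⟨c * a, ?_⟩
        have := J.mul_mem_left (⟨c, 0⟩ : Crd f) ha
        rw [QuadraticAlgebra.mk_mul_mk] at this
        simpa using this }
  have hI1 : ∀ b, b ∈ I1 ↔ ∃ a, (⟨a, b⟩ : Crd f) ∈ J := fun b => Iff.rfl
  have him : ∀ z ∈ J, QuadraticAlgebra.im z ∈ I1 := fun z hz => ⟨z.re, hz⟩
  have hre : ∀ z ∈ J, QuadraticAlgebra.re z ∈ I1 := by
    intro z hz
    have h1 := J.mul_mem_left (⟨0, 1⟩ : Crd f) hz
    have h2 := him _ h1
    rw [QuadraticAlgebra.im_mul] at h2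
    simpa using h2
  have hI1ne : I1 ≠ ⊥ := by
    intro h
    apply hJ
    rw [eq_bot_iff]
    intro z hz
    rw [Ideal.mem_bot]
    have h1 := him z hz
    have h2 := hre z hz
    rw [h, Ideal.mem_bot] at h1 h2
    apply QuadraticAlgebra.ext
    · exact h2
    · exact h1
  obtain ⟨c, hc, hcI⟩ : ∃ c : F[X], c.Monic ∧ I1 = Ideal.span {c} := by
    obtain ⟨c0, hc0⟩ := (IsPrincipalIdealRing.principal I1).1
    have hc00 : c0 ≠ 0 := by
      rintro rfl
      apply hI1ne
      rw [hc0]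
      simp
    refine ⟨c0 * C (c0.leadingCoeff)⁻¹, monic_mul_leadingCoeff_inv hc00, ?_⟩
    rw [hc0]
    refine (Ideal.span_singleton_mul_right_unit ?_ _).symm
    rw [isUnit_C]
    exact isUnit_iff_ne_zero.2 (inv_ne_zero (leadingCoeff_ne_zero.2 hc00))
  have hcim : ∀ z ∈ J, c ∣ QuadraticAlgebra.im z := fun z hz => by
    have := him z hz
    rwa [hcI, Ideal.mem_span_singleton] at this
  have hcre : ∀ z ∈ J, c ∣ QuadraticAlgebra.re z := fun z hz => by
    have := hre z hz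
    rwa [hcI, Ideal.mem_span_singleton] at this
  obtain ⟨v0, hv0⟩ : ∃ v0 : F[X], (⟨-(c * v0), c⟩ : Crd f) ∈ J := by
    have h1 : c ∈ I1 := by rw [hcI]; exact Ideal.mem_span_singleton_self c
    obtain ⟨a, ha⟩ := (hI1 c).1 h1
    obtain ⟨k, hk⟩ := hcre _ ha
    simp only at hk
    refine ⟨-k, ?_⟩
    rw [hk] at ha
    have e : -(c * -k) = c * k := by ring
    rwa [e]
  -- the ideal of the first coordinates
  let I2 : Ideal F[X] :=
    { carrier := {a | (⟨c * a, 0⟩ : Crd f) ∈ J}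
      add_mem' := by
        intro a a' ha ha'
        have h1 : (⟨c * a + c * a', 0 + 0⟩ : Crd f) ∈ J := J.add_mem ha ha'
        have e : (⟨c * a + c * a', 0 + 0⟩ : Crd f) = ⟨c * (a + a'), 0⟩ := by
          apply QuadraticAlgebra.ext
          · exact (mul_add c a a').symm
          · exact add_zero _
        rw [e] at h1
        exact h1
      zero_mem' := by
        have := J.zero_mem
        have e : (⟨c * 0, 0⟩ : Crd f) = 0 := by rw [mul_zero]; rfl
        change (⟨c * 0, 0⟩ : Crd f) ∈ J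
        rwa [e]
      smul_mem' := by
        intro b a ha
        have := J.mul_mem_left (⟨b, 0⟩ : Crd f) ha
        rw [QuadraticAlgebra.mk_mul_mk] at this
        change (⟨c * (b * a), 0⟩ : Crd f) ∈ J
        have e : c * (b * a) = b * (c * a) := by ring
        rw [e]
        simpa using this }
  have hI2 : ∀ a, a ∈ I2 ↔ (⟨c * a, 0⟩ : Crd f) ∈ J := fun a => Iff.rfl
  have hfv : f - v0 ^ 2 ∈ I2 := by
    rw [hI2]
    have h1 := J.mul_mem_right (⟨v0, 1⟩ : Crd f) hv0
    rw [QuadraticAlgebra.mk_mul_mk] at h1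
    have e1 : -(c * v0) * v0 + f * c * 1 = c * (f - v0 ^ 2) := by ring
    have e2 : -(c * v0) * 1 + c * v0 + 0 * c * 1 = 0 := by ring
    rwa [e1, e2] at h1
  obtain ⟨w, hw, hwI⟩ : ∃ w : F[X], w.Monic ∧ I2 = Ideal.span {w} := by
    obtain ⟨w0, hw0⟩ := (IsPrincipalIdealRing.principal I2).1
    have hw00 : w0 ≠ 0 := by
      rintro rfl
      have h1 := hfv
      rw [hw0] at h1
      have h2 : f - v0 ^ 2 = 0 := by simpa using h1
      exact sub_sq_ne_zero hf v0 h2
    refine ⟨w0 * C (w0.leadingCoeff)⁻¹, monic_mul_leadingCoeff_inv hw00, ?_⟩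
    rw [hw0]
    refine (Ideal.span_singleton_mul_right_unit ?_ _).symm
    rw [isUnit_C]
    exact isUnit_iff_ne_zero.2 (inv_ne_zero (leadingCoeff_ne_zero.2 hw00))
  have hI2' : ∀ a, w ∣ a ↔ (⟨c * a, 0⟩ : Crd f) ∈ J := by
    intro a
    rw [← hI2, hwI, Ideal.mem_span_singleton]
  have hwf0 : w ∣ f - v0 ^ 2 := by
    rwa [hwI, Ideal.mem_span_singleton] at hfv
  have hvv : w ∣ v0 - v0 %ₘ w := by
    refine ⟨v0 /ₘ w, ?_⟩
    have := modByMonic_add_div v0 w
    linear_combination -this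
  refine ⟨c, w, v0 %ₘ w, hc, hw, degree_modByMonic_lt _ hw, dvd_of_congr hwf0 hvv, ?_⟩
  rw [← pt_congr hwf0 hvv]
  ext z
  rw [Ideal.mem_span_singleton_mul]
  constructor
  · intro hz
    obtain ⟨a, ha⟩ := hcre z hz
    obtain ⟨b, hb⟩ := hcim z hz
    refine ⟨⟨a, b⟩, ?_, ?_⟩
    · rw [mem_pt hwf0, hI2']
      have h1 := J.sub_mem hz (J.mul_mem_left (⟨b, 0⟩ : Crd f) hv0)
      have e : z - (⟨b, 0⟩ : Crd f) * ⟨-(c * v0), c⟩ = ⟨c * (a + b * v0), 0⟩ := by
        apply QuadraticAlgebra.ext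
        · rw [QuadraticAlgebra.re_sub, QuadraticAlgebra.re_mul, ha]
          ring
        · rw [QuadraticAlgebra.im_sub, QuadraticAlgebra.im_mul, hb]
          ring
      rwa [e] at h1
    · apply QuadraticAlgebra.ext
      · rw [QuadraticAlgebra.re_mul, ha]
        ring
      · rw [QuadraticAlgebra.im_mul, hb]
        ring
  · rintro ⟨⟨a, b⟩, hab, rfl⟩
    rw [mem_pt hwf0, hI2'] at hab
    simp only at hab
    have h1 := J.add_mem hab (J.mul_mem_left (⟨b, 0⟩ : Crd f) hv0)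
    have e : (⟨c * (a + b * v0), 0⟩ : Crd f) + ⟨b, 0⟩ * ⟨-(c * v0), c⟩ = ⟨c, 0⟩ * ⟨a, b⟩ := by
      apply QuadraticAlgebra.ext
      · rw [QuadraticAlgebra.re_add, QuadraticAlgebra.re_mul, QuadraticAlgebra.re_mul]
        ring
      · rw [QuadraticAlgebra.im_add, QuadraticAlgebra.im_mul, QuadraticAlgebra.im_mul]
        ring
    rwa [e] at h1

/-! ### products -/

/-- the product of `(w, y - v)` and `(w', y - v)` for `w w' = k (f - v ^ 2)`, `k` constant -/
theorem pt_mul_pt_of_mul {F : Type*} [Field F] (h2 : (2 : F) ≠ 0) {f : F[X]} (hs : Squarefree f)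
    {w w' v : F[X]} {k : F} (hk : k ≠ 0) (h : w * w' = C k * (f - v ^ 2)) :
    pt f w v * pt f w' v = Ideal.span {(⟨-v, 1⟩ : Crd f)} := by
  have hC2 : IsUnit (2 : F[X]) := by
    have : (2 : F[X]) = C 2 := rfl
    rw [this, isUnit_C]
    exact isUnit_iff_ne_zero.2 h2
  have hCk : IsUnit (C k : F[X]) := isUnit_C.2 (isUnit_iff_ne_zero.2 hk)
  apply le_antisymm
  · rw [Ideal.mul_le]
    intro r hr s hs'
    have hw : w ∣ f - v ^ 2 := by
      have : w ∣ C k * (f - v ^ 2) := ⟨w', h.symm⟩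
      exact (IsUnit.dvd_mul_left hCk).1 this
    have hw' : w' ∣ f - v ^ 2 := by
      have : w' ∣ C k * (f - v ^ 2) := ⟨w, by rw [← h, mul_comm]⟩
      exact (IsUnit.dvd_mul_left hCk).1 this
    obtain ⟨a, ha⟩ := (mem_pt hw r).1 hr
    obtain ⟨b, hb⟩ := (mem_pt hw' s).1 hs'
    rw [Ideal.mem_span_singleton]
    -- r = r.im (y - v) + w a, s = s.im (y - v) + w' b
    refine ⟨⟨r.im, 0⟩ * s + ⟨w * a, 0⟩ * ⟨s.im, 0⟩ + ⟨C k * a * b, 0⟩ * ⟨v, 1⟩, ?_⟩
    apply QuadraticAlgebra.ext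
    · simp only [QuadraticAlgebra.re_mul, QuadraticAlgebra.re_add, QuadraticAlgebra.im_add,
        QuadraticAlgebra.im_mul]
      have e1 : r.re = w * a - r.im * v := by linear_combination ha
      have e2 : s.re = w' * b - s.im * v := by linear_combination hb
      rw [e1, e2]
      linear_combination (a * b) * h
    · simp only [QuadraticAlgebra.re_mul, QuadraticAlgebra.re_add, QuadraticAlgebra.im_add,
        QuadraticAlgebra.im_mul]
      have e1 : r.re = w * a - r.im * v := by linear_combination ha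
      have e2 : s.re = w' * b - s.im * v := by linear_combination hb
      rw [e1, e2]
      ring
  · -- the elements `w`, `w'`, `2 v` generate the unit ideal
    have hunit : (1 : F[X]) ∈ Ideal.span {w, w', 2 * v} := by
      obtain ⟨d, hd⟩ := (IsPrincipalIdealRing.principal (Ideal.span {w, w', 2 * v})).1
      have hmem : ∀ x ∈ ({w, w', 2 * v} : Set F[X]), d ∣ x := by
        intro x hx
        have h1 : x ∈ Ideal.span {w, w', 2 * v} := Ideal.subset_span hx
        rw [hd] at h1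
        exact Ideal.mem_span_singleton.1 h1
      have hdw := hmem w (by simp)
      have hdw' := hmem w' (by simp)
      have hdv : d ∣ v := (IsUnit.dvd_mul_left hC2).1 (hmem (2 * v) (by simp))
      have hdd : d * d ∣ f := by
        have h3 : d * d ∣ C k * (f - v ^ 2) := by
          rw [← h]
          exact mul_dvd_mul hdw hdw'
        have h4 : d * d ∣ f - v ^ 2 := (IsUnit.dvd_mul_left hCk).1 h3
        have h5 : d * d ∣ v ^ 2 := by
          rw [pow_two]
          exact mul_dvd_mul hdv hdv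
        have := dvd_add h4 h5
        rwa [sub_add_cancel] at this
      have hu := hs d hdd
      rw [hd]
      exact Ideal.mem_span_singleton.2 hu.dvd
    rw [Ideal.mem_span_insert'] at hunit
    obtain ⟨α, hα⟩ := hunit
    rw [Ideal.mem_span_pair] at hα
    obtain ⟨β, γ, hβ⟩ := hα
    set J := pt f w v * pt f w' v with hJ
    have hyw : ∀ a : F[X], (⟨a, 0⟩ : Crd f) * ((⟨w, 0⟩ : Crd f) * ⟨-v, 1⟩) ∈ J := fun a =>
      Ideal.mul_mem_left _ _ (Ideal.mul_mem_mul (Ideal.subset_span (by simp))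
        (Ideal.subset_span (by simp)))
    have hyw' : ∀ a : F[X], (⟨a, 0⟩ : Crd f) * ((⟨-v, 1⟩ : Crd f) * ⟨w', 0⟩) ∈ J := fun a =>
      Ideal.mul_mem_left _ _ (Ideal.mul_mem_mul (Ideal.subset_span (by simp))
        (Ideal.subset_span (by simp)))
    have hyy : ∀ a : F[X], (⟨a, 0⟩ : Crd f) * ((⟨-v, 1⟩ : Crd f) * ⟨-v, 1⟩) ∈ J := fun a =>
      Ideal.mul_mem_left _ _ (Ideal.mul_mem_mul (Ideal.subset_span (by simp))
        (Ideal.subset_span (by simp)))
    have hww : ∀ a : F[X], (⟨a, 0⟩ : Crd f) * ((⟨w, 0⟩ : Crd f) * ⟨w', 0⟩) ∈ J := fun a =>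
      Ideal.mul_mem_left _ _ (Ideal.mul_mem_mul (Ideal.subset_span (by simp))
        (Ideal.subset_span (by simp)))
    rw [Ideal.span_singleton_le_iff_mem]
    have e : (⟨-v, 1⟩ : Crd f) = ⟨-α, 0⟩ * ((⟨w, 0⟩ : Crd f) * ⟨-v, 1⟩) +
        ⟨β, 0⟩ * ((⟨-v, 1⟩ : Crd f) * ⟨w', 0⟩) +
        (⟨C k⁻¹ * γ, 0⟩ * ((⟨w, 0⟩ : Crd f) * ⟨w', 0⟩) +
          ⟨-γ, 0⟩ * ((⟨-v, 1⟩ : Crd f) * ⟨-v, 1⟩)) := by
      have hkk : C k⁻¹ * (w * w') = f - v ^ 2 := by
        rw [h, ← mul_assoc, ← C_mul, inv_mul_cancel₀ hk, C_1, one_mul]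
      apply QuadraticAlgebra.ext
      · simp only [QuadraticAlgebra.re_mul, QuadraticAlgebra.re_add, QuadraticAlgebra.im_mul]
        linear_combination v * hβ - γ * hkk
      · simp only [QuadraticAlgebra.re_mul, QuadraticAlgebra.im_add, QuadraticAlgebra.im_mul]
        linear_combination -hβ
    rw [e]
    exact add_mem (add_mem (hyw _) (hyw' _)) (add_mem (hww _) (hyy _))

/-- D2a (the same as in Ideals): the product of `(w, y - v)` and `(w, y + v)` -/
theorem pt_mul_pt_neg' {F : Type*} [Field F] (h2 : (2 : F) ≠ 0) {f : F[X]} (hs : Squarefree f)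
    {w v : F[X]} (h : w ∣ f - v ^ 2) :
    pt f w v * pt f w (-v) = Ideal.span {(⟨w, 0⟩ : Crd f)} := by
  have hC2 : IsUnit (2 : F[X]) := by
    have : (2 : F[X]) = C 2 := rfl
    rw [this, isUnit_C]
    exact isUnit_iff_ne_zero.2 h2
  have hn : w ∣ f - (-v) ^ 2 := by rwa [neg_sq]
  obtain ⟨w', hw'⟩ := h
  have h : w ∣ f - v ^ 2 := ⟨w', hw'⟩
  apply le_antisymm
  · rw [Ideal.mul_le]
    intro r hr s hs'
    obtain ⟨a, ha⟩ := (mem_pt h r).1 hr
    obtain ⟨b, hb⟩ := (mem_pt hn s).1 hs'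
    rw [Ideal.mem_span_singleton]
    refine ⟨⟨a, 0⟩ * s + ⟨b, 0⟩ * ⟨r.im * -v, r.im⟩ + ⟨r.im * s.im * w', 0⟩, ?_⟩
    have e1 : r.re = w * a - r.im * v := by linear_combination ha
    have e2 : s.re = w * b + s.im * v := by linear_combination hb
    apply QuadraticAlgebra.ext
    · simp only [QuadraticAlgebra.re_mul, QuadraticAlgebra.re_add, QuadraticAlgebra.im_add,
        QuadraticAlgebra.im_mul]
      rw [e1, e2]
      linear_combination (r.im * s.im) * hw'
    · simp only [QuadraticAlgebra.re_mul, QuadraticAlgebra.re_add, QuadraticAlgebra.im_add,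
        QuadraticAlgebra.im_mul]
      rw [e1, e2]
      ring
  · have hunit : (1 : F[X]) ∈ Ideal.span {w, w', 2 * v} := by
      obtain ⟨d, hd⟩ := (IsPrincipalIdealRing.principal (Ideal.span {w, w', 2 * v})).1
      have hmem : ∀ x ∈ ({w, w', 2 * v} : Set F[X]), d ∣ x := by
        intro x hx
        have h1 : x ∈ Ideal.span {w, w', 2 * v} := Ideal.subset_span hx
        rw [hd] at h1
        exact Ideal.mem_span_singleton.1 h1
      have hdv : d ∣ v := (IsUnit.dvd_mul_left hC2).1 (hmem (2 * v) (by simp))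
      have hdd : d * d ∣ f := by
        have h4 : d * d ∣ f - v ^ 2 := by
          rw [hw']
          exact mul_dvd_mul (hmem w (by simp)) (hmem w' (by simp))
        have h5 : d * d ∣ v ^ 2 := by
          rw [pow_two]
          exact mul_dvd_mul hdv hdv
        have := dvd_add h4 h5
        rwa [sub_add_cancel] at this
      have hu := hs d hdd
      rw [hd]
      exact Ideal.mem_span_singleton.2 hu.dvd
    rw [Ideal.mem_span_insert'] at hunit
    obtain ⟨α, hα⟩ := hunit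
    rw [Ideal.mem_span_pair] at hα
    obtain ⟨β, γ, hβ⟩ := hα
    set J := pt f w v * pt f w (-v) with hJ
    have m1 : ∀ a : F[X], (⟨a, 0⟩ : Crd f) * ((⟨w, 0⟩ : Crd f) * ⟨w, 0⟩) ∈ J := fun a =>
      Ideal.mul_mem_left _ _ (Ideal.mul_mem_mul (Ideal.subset_span (by simp))
        (Ideal.subset_span (by simp)))
    have m2 : ∀ a : F[X], (⟨a, 0⟩ : Crd f) * ((⟨w, 0⟩ : Crd f) * ⟨- -v, 1⟩) ∈ J := fun a =>
      Ideal.mul_mem_left _ _ (Ideal.mul_mem_mul (Ideal.subset_span (by simp))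
        (Ideal.subset_span (by simp)))
    have m3 : ∀ a : F[X], (⟨a, 0⟩ : Crd f) * ((⟨-v, 1⟩ : Crd f) * ⟨w, 0⟩) ∈ J := fun a =>
      Ideal.mul_mem_left _ _ (Ideal.mul_mem_mul (Ideal.subset_span (by simp))
        (Ideal.subset_span (by simp)))
    have m4 : ∀ a : F[X], (⟨a, 0⟩ : Crd f) * ((⟨-v, 1⟩ : Crd f) * ⟨- -v, 1⟩) ∈ J := fun a =>
      Ideal.mul_mem_left _ _ (Ideal.mul_mem_mul (Ideal.subset_span (by simp))
        (Ideal.subset_span (by simp)))
    rw [Ideal.span_singleton_le_iff_mem]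
    have e : (⟨w, 0⟩ : Crd f) = ⟨-α, 0⟩ * ((⟨w, 0⟩ : Crd f) * ⟨w, 0⟩) +
        ⟨β, 0⟩ * ((⟨-v, 1⟩ : Crd f) * ⟨- -v, 1⟩) +
        (⟨γ, 0⟩ * ((⟨w, 0⟩ : Crd f) * ⟨- -v, 1⟩) +
          ⟨-γ, 0⟩ * ((⟨-v, 1⟩ : Crd f) * ⟨w, 0⟩)) := by
      apply QuadraticAlgebra.ext
      · simp only [QuadraticAlgebra.re_mul, QuadraticAlgebra.re_add, QuadraticAlgebra.im_mul]
        linear_combination -w * hβ - β * hw'
      · simp only [QuadraticAlgebra.re_mul, QuadraticAlgebra.im_add, QuadraticAlgebra.im_mul]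
        ring
    rw [e]
    exact add_mem (add_mem (m1 _) (m4 _)) (add_mem (m2 _) (m3 _))

/-! ### reduced representatives -/

section classes

variable (f : ℚ[X]) [hf : Fact (Odd f.natDegree)] [hs : Fact (Squarefree f)]

omit hs in
/-- D2c -/
theorem ideal_form' (J : Ideal (Crd f)) (hJ : J ≠ ⊥) :
    ∃ c w v : ℚ[X], c.Monic ∧ w.Monic ∧ v.degree < w.degree ∧ w ∣ f - v ^ 2 ∧
      J = Ideal.span {(⟨c, 0⟩ : Crd f)} * pt f w v :=
  exists_form hf.out J hJ

theorem cl_congr {w v v' : ℚ[X]} (h : w ∣ f - v ^ 2) (hv : w ∣ v - v') :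
    cl f w v = cl f w v' := by
  unfold cl
  congr 1
  exact Subtype.ext (pt_congr h hv)

theorem cl_mul_of_principal {w v w' v' : ℚ[X]}
    (h : (pt f w v * pt f w' v').IsPrincipal) : cl f w v * cl f w' v' = 1 := by
  unfold cl
  rw [← map_mul, ClassGroup.mk0_eq_one_iff]
  exact h

/-- one step of the reduction -/
theorem cl_step {w w' v : ℚ[X]} {k : ℚ} (hk : k ≠ 0) (h : w * w' = C k * (f - v ^ 2)) :
    cl f w v = cl f w' (-v) := by
  have h1 : cl f w v * cl f w' v = 1 := cl_mul_of_principal f (by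
    rw [pt_mul_pt_of_mul two_ne_zero hs.out hk h]
    exact ⟨⟨_, rfl⟩⟩)
  have hw' : w' ∣ f - v ^ 2 := by
    have hCk : IsUnit (C k : ℚ[X]) := isUnit_C.2 (isUnit_iff_ne_zero.2 hk)
    have : w' ∣ C k * (f - v ^ 2) := ⟨w, by rw [← h, mul_comm]⟩
    exact (IsUnit.dvd_mul_left hCk).1 this
  have h2 : cl f w' v * cl f w' (-v) = 1 := cl_mul_of_principal f (by
    rw [pt_mul_pt_neg' two_ne_zero hs.out hw']
    exact ⟨⟨_, rfl⟩⟩)
  rw [eq_comm, ← mul_one (cl f w' (-v)), ← h1, mul_comm (cl f w v), ← mul_assoc,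
    mul_comm (cl f w' (-v)), h2, one_mul]

/-- D2d -/
theorem exists_reduced' (c : ClassGroup (Crd f)) :
    ∃ w v : ℚ[X], w.Monic ∧ 2 * w.natDegree < f.natDegree ∧ v.degree < w.degree ∧
      w ∣ f - v ^ 2 ∧ cl f w v = c := by
  classical
  have hex : ∃ m : ℕ, ∃ w v : ℚ[X], w.Monic ∧ w ∣ f - v ^ 2 ∧ cl f w v = c ∧
      w.natDegree = m := by
    obtain ⟨J, rfl⟩ := ClassGroup.mk0_surjective c
    obtain ⟨c0, w, v, hc, hw, -, hwv, hJ⟩ := ideal_form' f J (nonZeroDivisors.coe_ne_zero J)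
    refine ⟨_, w, v, hw, hwv, ?_, rfl⟩
    unfold cl
    rw [ClassGroup.mk0_eq_mk0_iff]
    refine ⟨⟨c0, 0⟩, 1, ?_, one_ne_zero, ?_⟩
    · intro h0
      exact hc.ne_zero (congrArg QuadraticAlgebra.re h0)
    · rw [← hJ]
      simp
  obtain ⟨w, v1, hw, hwv1, hcl1, hdeg⟩ := Nat.find_spec hex
  set v := v1 %ₘ w with hv
  have hvv : w ∣ v1 - v := by
    refine ⟨v1 /ₘ w, ?_⟩
    have := modByMonic_add_div v1 w
    linear_combination -this
  have hwv : w ∣ f - v ^ 2 := dvd_of_congr hwv1 hvv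
  have hcl : cl f w v = c := by rw [← cl_congr f hwv1 hvv, hcl1]
  have hvw : v.degree < w.degree := degree_modByMonic_lt _ hw
  refine ⟨w, v, hw, ?_, hvw, hwv, hcl⟩
  by_contra hlt
  push Not at hlt
  have hne : f.natDegree ≠ 2 * w.natDegree := by
    intro h
    have := hf.out
    rw [h] at this
    exact absurd this (by rw [Nat.not_odd_iff_even]; exact even_two_mul _)
  have hpos : 0 < f.natDegree := hf.out.pos
  have hwpos : 0 < w.natDegree := by omega
  obtain ⟨w1, hw1⟩ := hwv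
  have hfv : f - v ^ 2 ≠ 0 := sub_sq_ne_zero hf.out v
  have hw10 : w1 ≠ 0 := by
    rintro rfl
    exact hfv (by rw [hw1, mul_zero])
  have hlc : w1.leadingCoeff ≠ 0 := leadingCoeff_ne_zero.2 hw10
  have hvd : v.natDegree < w.natDegree := by
    rcases eq_or_ne v 0 with h | h
    · rw [h, natDegree_zero]
      exact hwpos
    · exact natDegree_lt_natDegree h hvw
  have hd1 : (f - v ^ 2).natDegree < 2 * w.natDegree := by
    refine lt_of_le_of_lt (natDegree_sub_le _ _) ?_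
    rw [max_lt_iff, natDegree_pow]
    omega
  have hd2 : (f - v ^ 2).natDegree = w.natDegree + w1.natDegree := by
    rw [hw1, natDegree_mul hw.ne_zero hw10]
  have hmul : w * (w1 * C w1.leadingCoeff⁻¹) = C w1.leadingCoeff⁻¹ * (f - v ^ 2) := by
    rw [hw1]
    ring
  have hstep := cl_step f (inv_ne_zero hlc) hmul
  refine Nat.find_min hex (m := w1.natDegree) (by omega)
    ⟨w1 * C w1.leadingCoeff⁻¹, -v, monic_mul_leadingCoeff_inv hw10, ?_, ?_, ?_⟩
  · rw [neg_sq]
    have : w1 * C w1.leadingCoeff⁻¹ ∣ C w1.leadingCoeff⁻¹ * (f - v ^ 2) :=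
      ⟨w, by rw [← hmul, mul_comm]⟩
    exact (IsUnit.dvd_mul_left (isUnit_C.2 (isUnit_iff_ne_zero.2 (inv_ne_zero hlc)))).1 this
  · rw [← hstep, hcl]
  · rw [natDegree_mul_C (inv_ne_zero hlc)]

end classes

end Pool.TT
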