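import Mathlib

/-!
Blichfeldt's theorem with multiplicity: a measurable set `s` of measure `mu s` has differences
that hit the lattice in at least `mu s / covolume` points.
-/

namespace Pool.TT

open MeasureTheory Set
open scoped Pointwise ENNReal

/-- Blichfeldt with multiplicity. -/
theorem measure_le_card_mul {E : Type*} [AddCommGroup E] [MeasurableSpace E] [MeasurableAdd E]
    {μ : Measure E} [μ.IsAddLeftInvariant] {L : AddSubgroup E} [Countable L] {F s : Set E}
    (fund : IsAddFundamentalDomain L F μ) (hs : MeasurableSet s) (T : Finset E)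
    (hT : ∀ x ∈ s, ∀ y ∈ s, x - y ∈ L → x - y ∈ T) :
    μ s ≤ (T.card : ℝ≥0∞) * μ F := by
  classical
  have hmeas : ∀ g : L, MeasurableSet (g +ᵥ s) := by
    intro g
    have h : (g +ᵥ s : Set E) = (fun x => -(g : E) + x) ⁻¹' s := by
      ext x
      constructor
      · rintro ⟨y, hy, hxy⟩
        have e1 : (g : E) + y = x := hxy
        show -(g : E) + x ∈ s
        rw [← e1, neg_add_cancel_left]
        exact hy
      · intro hx
        exact ⟨-(g : E) + x, hx, add_neg_cancel_left _ _⟩
    rw [h]
    exact measurable_const_add _ hs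
  have key : ∀ x : E, ∑' g : L, (g +ᵥ s).indicator (fun _ => (1 : ℝ≥0∞)) x ≤ T.card := by
    intro x
    rw [ENNReal.tsum_eq_iSup_sum]
    refine iSup_le fun U => ?_
    have h1 : ∑ g ∈ U, (g +ᵥ s).indicator (fun _ => (1 : ℝ≥0∞)) x
        = ((U.filter fun g : L => x ∈ g +ᵥ s).card : ℝ≥0∞) := by
      simp only [Set.indicator_apply]
      rw [Finset.sum_ite]
      simp
    rw [h1]
    rcases (U.filter fun g : L => x ∈ g +ᵥ s).eq_empty_or_nonempty with h | ⟨g0, hg0⟩
    · simp [h]
    · have hx0 : x ∈ g0 +ᵥ s := (Finset.mem_filter.1 hg0).2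
      norm_cast
      refine Finset.card_le_card_of_injOn (fun g : L => (g0 : E) - g) ?_ ?_
      · intro g hg
        have hx : x ∈ g +ᵥ s := (Finset.mem_filter.1 hg).2
        obtain ⟨y0, hy0, hxy0⟩ := hx0
        obtain ⟨y, hy, hxy⟩ := hx
        have e0 : (g0 : E) + y0 = x := hxy0
        have e1 : (g : E) + y = x := hxy
        have e2 : (g0 : E) - g = y - y0 := by
          rw [← e1] at e0
          rw [sub_eq_sub_iff_add_eq_add, e0]; abel
        show (g0 : E) - g ∈ (T : Set E)
        rw [e2]
        refine hT y hy y0 hy0 ?_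
        rw [← e2]
        exact L.sub_mem g0.2 g.2
      · intro g _ g' _ h
        have h' : (g0 : E) - g = (g0 : E) - g' := h
        exact Subtype.ext (sub_right_injective h')
  calc μ s = ∑' g : L, μ ((g +ᵥ s) ∩ F) := fund.measure_eq_tsum s
    _ = ∑' g : L, ∫⁻ x in F, (g +ᵥ s).indicator (fun _ => (1 : ℝ≥0∞)) x ∂μ := by
        refine tsum_congr fun g => ?_
        have hm : MeasurableSet (g +ᵥ s) := hmeas g
        rw [lintegral_indicator_const hm, one_mul, Measure.restrict_apply hm]
    _ = ∫⁻ x in F, ∑' g : L, (g +ᵥ s).indicator (fun _ => (1 : ℝ≥0∞)) x ∂μ := by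
        rw [lintegral_tsum]
        intro g
        have hm : MeasurableSet (g +ᵥ s) := hmeas g
        exact (measurable_const.indicator hm).aemeasurable
    _ ≤ ∫⁻ _x in F, (T.card : ℝ≥0∞) ∂μ := lintegral_mono fun x => key x
    _ = (T.card : ℝ≥0∞) * μ F := by rw [setLIntegral_const]

end Pool.TT
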