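import Mathlib
import Pool.Agent.Lib.MP_695920_nt.TT.BLat

/-!
The inverse different of a number field: integrality of the trace pairing, the lower bound for
norms of its nonzero elements and a lower bound for the number of its elements in a box.
-/

namespace Pool.TT

open NumberField NumberField.InfinitePlace NumberField.mixedEmbedding MeasureTheory Module
open scoped nonZeroDivisors NNReal ENNReal

variable (K : Type*) [Field K] [NumberField K]

/-- the inverse different -/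
noncomputable def invDiff : (FractionalIdeal (𝓞 K)⁰ K)ˣ :=
  Units.mk0 (FractionalIdeal.dual ℤ ℚ (1 : FractionalIdeal (𝓞 K)⁰ K))
    (FractionalIdeal.dual_ne_zero ℤ ℚ (one_ne_zero' (FractionalIdeal (𝓞 K)⁰ K)))

theorem mem_invDiff {x : K} : x ∈ (invDiff K : FractionalIdeal (𝓞 K)⁰ K) ↔
    ∀ b : 𝓞 K, ∃ z : ℤ, Algebra.trace ℚ K (x * b) = z := by
  unfold invDiff
  rw [Units.val_mk0, FractionalIdeal.mem_dual (one_ne_zero' (FractionalIdeal (𝓞 K)⁰ K))]
  constructor
  · intro h b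
    obtain ⟨z, hz⟩ := h (b : K) ((FractionalIdeal.mem_one_iff _).2 ⟨b, rfl⟩)
    refine ⟨z, ?_⟩
    rw [Algebra.traceForm_apply] at hz
    rw [← hz]
    simp
  · intro h a ha
    obtain ⟨b, rfl⟩ := (FractionalIdeal.mem_one_iff _).1 ha
    obtain ⟨z, hz⟩ := h b
    refine ⟨z, ?_⟩
    rw [Algebra.traceForm_apply]
    simpa using hz.symm

theorem absNorm_invDiff : FractionalIdeal.absNorm (invDiff K : FractionalIdeal (𝓞 K)⁰ K)
    = (|(discr K : ℚ)|)⁻¹ := by
  have h1 : ((differentIdeal ℤ (𝓞 K) : Ideal (𝓞 K)) : FractionalIdeal (𝓞 K)⁰ K)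
      = (FractionalIdeal.dual ℤ ℚ (1 : FractionalIdeal (𝓞 K)⁰ K))⁻¹ :=
    coeIdeal_differentIdeal ℤ ℚ K (𝓞 K)
  have h2 : FractionalIdeal.absNorm (invDiff K : FractionalIdeal (𝓞 K)⁰ K)
      * FractionalIdeal.absNorm ((differentIdeal ℤ (𝓞 K) : Ideal (𝓞 K)) :
        FractionalIdeal (𝓞 K)⁰ K) = 1 := by
    rw [← map_mul, h1]
    unfold invDiff
    rw [Units.val_mk0, mul_inv_cancel₀ (FractionalIdeal.dual_ne_zero ℤ ℚ
      (one_ne_zero' (FractionalIdeal (𝓞 K)⁰ K))), map_one]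
  rw [FractionalIdeal.coeIdeal_absNorm, absNorm_differentIdeal (K := K)] at h2
  have h3 : (((discr K).natAbs : ℕ) : ℚ) = |(discr K : ℚ)| := by
    rw [Nat.cast_natAbs]; simp
  rw [h3] at h2
  exact eq_inv_of_mul_eq_one_left h2

/-- nonzero elements of the inverse different have norm at least `1 / |D|` -/
theorem le_norm_of_mem_invDiff {x : K} (hx : x ∈ (invDiff K : FractionalIdeal (𝓞 K)⁰ K))
    (h0 : x ≠ 0) : (|(discr K : ℚ)|)⁻¹ ≤ |Algebra.norm ℚ x| := by
  have hI : (invDiff K : FractionalIdeal (𝓞 K)⁰ K) ≠ 0 := (invDiff K).ne_zero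
  have hle : FractionalIdeal.spanSingleton (𝓞 K)⁰ x * (invDiff K : FractionalIdeal (𝓞 K)⁰ K)⁻¹
      ≤ 1 := by
    calc FractionalIdeal.spanSingleton (𝓞 K)⁰ x * (invDiff K : FractionalIdeal (𝓞 K)⁰ K)⁻¹
        ≤ (invDiff K : FractionalIdeal (𝓞 K)⁰ K) * (invDiff K : FractionalIdeal (𝓞 K)⁰ K)⁻¹ := by
          gcongr
          exact (FractionalIdeal.spanSingleton_le_iff_mem).2 hx
      _ = 1 := mul_inv_cancel₀ hI
  obtain ⟨J, hJ⟩ := FractionalIdeal.le_one_iff_exists_coeIdeal.1 hle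
  have hn : FractionalIdeal.absNorm (FractionalIdeal.spanSingleton (𝓞 K)⁰ x)
      = FractionalIdeal.absNorm (J : FractionalIdeal (𝓞 K)⁰ K)
        * FractionalIdeal.absNorm (invDiff K : FractionalIdeal (𝓞 K)⁰ K) := by
    rw [hJ, ← map_mul, mul_assoc, inv_mul_cancel₀ hI, mul_one]
  rw [FractionalIdeal.absNorm_span_singleton, FractionalIdeal.coeIdeal_absNorm,
    absNorm_invDiff] at hn
  have hJ0 : (Ideal.absNorm J : ℚ) ≠ 0 := by
    intro h
    rw [h, zero_mul, abs_eq_zero] at hn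
    exact h0 (Algebra.norm_eq_zero_iff.1 hn)
  have hJ1 : (1 : ℚ) ≤ Ideal.absNorm J := by
    have : Ideal.absNorm J ≠ 0 := by exact_mod_cast hJ0
    exact_mod_cast Nat.one_le_iff_ne_zero.2 this
  rw [hn]
  have hD : (0 : ℚ) ≤ (|(discr K : ℚ)|)⁻¹ := by positivity
  nlinarith

/-- many elements of the inverse different in a box -/
theorem card_invDiff_ge {T : ℝ} (hT : 0 < T) (Z : Finset K)
    (hZ : ∀ x ∈ (invDiff K : FractionalIdeal (𝓞 K)⁰ K), (∀ w : InfinitePlace K, w x < T) → x ∈ Z) :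
    (T / 2) ^ finrank ℚ K * Real.sqrt |(discr K : ℝ)| ≤ Z.card := by
  classical
  set I := invDiff K with hIdef
  set B := fractionalIdealLatticeBasis K I with hB
  have h_fund := ZSpan.isAddFundamentalDomain' B volume
  have : Countable (Submodule.span ℤ (Set.range B)).toAddSubgroup := by
    change Countable (Submodule.span ℤ (Set.range B))
    infer_instance
  set T2 : ℝ≥0 := ⟨T / 2, by positivity⟩ with hT2
  have hmeas : MeasurableSet (convexBodyLT K (fun _ => T2)) := by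
    refine MeasurableSet.prod ?_ ?_
    · exact MeasurableSet.univ_pi fun _ => measurableSet_ball
    · exact MeasurableSet.univ_pi fun _ => measurableSet_ball
  have hmain := measure_le_card_mul h_fund hmeas (Z.image (mixedEmbedding K)) (by
    intro x hx y hy hxy
    rw [Submodule.mem_toAddSubgroup, hB, mem_span_fractionalIdealLatticeBasis] at hxy
    obtain ⟨a, ha, hax⟩ := hxy
    rw [← hax]
    refine Finset.mem_image_of_mem _ (hZ a ha ?_)
    have hmem : mixedEmbedding K a ∈ convexBodyLT K (fun _ => (⟨T, hT.le⟩ : ℝ≥0)) := by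
      rw [hax]
      simp only [convexBodyLT, Set.mem_prod, Set.mem_pi, Set.mem_univ, forall_true_left,
        mem_ball_zero_iff] at hx hy ⊢
      have hc : ((T2 : ℝ≥0) : ℝ) = T / 2 := rfl
      rw [hc] at hx hy
      refine ⟨fun w => ?_, fun w => ?_⟩
      · calc ‖(x - y).1 w‖ ≤ ‖x.1 w‖ + ‖y.1 w‖ := norm_sub_le _ _
          _ < T / 2 + T / 2 := add_lt_add (hx.1 w) (hy.1 w)
          _ = T := by ring
      · calc ‖(x - y).2 w‖ ≤ ‖x.2 w‖ + ‖y.2 w‖ := norm_sub_le _ _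
          _ < T / 2 + T / 2 := add_lt_add (hx.2 w) (hy.2 w)
          _ = T := by ring
    exact (convexBodyLT_mem K _).1 hmem)
  rw [convexBodyLT_volume, volume_fundamentalDomain_fractionalIdealLatticeBasis,
    volume_fundamentalDomain_latticeBasis] at hmain
  rw [Finset.prod_pow_eq_pow_sum, sum_mult_eq] at hmain
  have hD0 : (0 : ℝ) < |(discr K : ℝ)| := by
    rw [abs_pos]; exact_mod_cast discr_ne_zero K
  have hfin : ((Z.image (mixedEmbedding K)).card : ℝ≥0∞) *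
      (ENNReal.ofReal ((FractionalIdeal.absNorm (I : FractionalIdeal (𝓞 K)⁰ K) : ℚ) : ℝ)
        * ((2 : ℝ≥0∞)⁻¹ ^ nrComplexPlaces K * (NNReal.sqrt ‖discr K‖₊ : ℝ≥0))) ≠ ⊤ := by
    refine ENNReal.mul_ne_top (by simp) (ENNReal.mul_ne_top (by simp)
      (ENNReal.mul_ne_top (ENNReal.pow_ne_top (by simp)) (by simp)))
  have hreal := ENNReal.toReal_mono hfin hmain
  rw [ENNReal.toReal_mul, ENNReal.toReal_mul, ENNReal.toReal_mul, ENNReal.toReal_mul,
    ENNReal.toReal_pow, ENNReal.toReal_inv, ENNReal.toReal_ofNat, ENNReal.coe_toReal,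
    ENNReal.coe_toReal, ENNReal.coe_toReal, ENNReal.toReal_natCast,
    ENNReal.toReal_ofReal (Rat.cast_nonneg.mpr (FractionalIdeal.absNorm_nonneg I.val)),
    absNorm_invDiff] at hreal
  have hcard : ((Z.image (mixedEmbedding K)).card : ℝ) ≤ Z.card := by
    exact_mod_cast Finset.card_image_le
  have hf1 : (1 : ℝ) ≤ (convexBodyLTFactor K : ℝ≥0) := by
    exact_mod_cast one_le_convexBodyLTFactor K
  have hs : ((NNReal.sqrt ‖discr K‖₊ : ℝ≥0) : ℝ) = Real.sqrt |(discr K : ℝ)| := by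
    rw [Real.coe_sqrt, coe_nnnorm, Int.norm_eq_abs]
  have hp : (((2 : ℝ)⁻¹) ^ nrComplexPlaces K) ≤ 1 := pow_le_one₀ (by norm_num) (by norm_num)
  have hp0 : (0 : ℝ) ≤ ((2 : ℝ)⁻¹) ^ nrComplexPlaces K := by positivity
  have hT2n : (((T2 ^ finrank ℚ K : ℝ≥0)) : ℝ) = (T / 2) ^ finrank ℚ K := by
    rw [NNReal.coe_pow]; rfl
  rw [hs, hT2n] at hreal
  have hr : (((|(discr K : ℚ)|)⁻¹ : ℚ) : ℝ) = (|(discr K : ℝ)|)⁻¹ := by
    push_cast; rfl
  rw [hr] at hreal
  have hsq : Real.sqrt |(discr K : ℝ)| * Real.sqrt |(discr K : ℝ)| = |(discr K : ℝ)| :=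
    Real.mul_self_sqrt hD0.le
  have hsp : 0 < Real.sqrt |(discr K : ℝ)| := Real.sqrt_pos.2 hD0
  have hTn : (0 : ℝ) < (T / 2) ^ finrank ℚ K := by positivity
  calc (T / 2) ^ finrank ℚ K * Real.sqrt |(discr K : ℝ)|
      ≤ ((convexBodyLTFactor K : ℝ≥0) * (T / 2) ^ finrank ℚ K) * Real.sqrt |(discr K : ℝ)| := by
        gcongr
        nlinarith
    _ ≤ ((Z.image (mixedEmbedding K)).card * ((|(discr K : ℝ)|)⁻¹ *
          (((2 : ℝ)⁻¹) ^ nrComplexPlaces K * Real.sqrt |(discr K : ℝ)|)))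
            * Real.sqrt |(discr K : ℝ)| := by
        gcongr
    _ = ((Z.image (mixedEmbedding K)).card * ((2 : ℝ)⁻¹) ^ nrComplexPlaces K) *
          ((|(discr K : ℝ)|)⁻¹ * (Real.sqrt |(discr K : ℝ)| * Real.sqrt |(discr K : ℝ)|)) := by
        ring
    _ = (Z.image (mixedEmbedding K)).card * ((2 : ℝ)⁻¹) ^ nrComplexPlaces K := by
        rw [hsq, inv_mul_cancel₀ hD0.ne', mul_one]
    _ ≤ Z.card * 1 := by gcongr
    _ = Z.card := mul_one _

end Pool.TT
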