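import Mathlib

/-!
The uncertainty principle for `(ZMod M)^ι`: if all characters of a set `Z` have real part at
least `1/2` on a set `S`, then `|S| |Z| ≤ 4 M^|ι|`.
-/

namespace Pool.TT

open Finset ZMod

theorem char_sum {ι : Type*} (M : ℕ) [NeZero M] (s : Finset ι) (f : ι → ZMod M) :
    (stdAddChar (∑ i ∈ s, f i) : ℂ) = ∏ i ∈ s, stdAddChar (f i) := by
  classical
  induction s using Finset.induction with
  | empty => simp
  | insert i s hi ih => rw [Finset.sum_insert hi, Finset.prod_insert hi, AddChar.map_add_eq_mul, ih]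

theorem sum_char_pi {ι : Type*} [Fintype ι] [DecidableEq ι] (M : ℕ) [NeZero M] (c : ι → ZMod M) :
    ∑ t : ι → ZMod M, stdAddChar (∑ i, c i * t i) = if c = 0 then (M : ℂ) ^ Fintype.card ι else 0 := by
  have h1 : ∀ t : ι → ZMod M, stdAddChar (∑ i, c i * t i) = ∏ i, stdAddChar (t i * c i) := by
    intro t
    rw [char_sum]
    exact Finset.prod_congr rfl fun i _ => by rw [mul_comm]
  simp only [h1]
  rw [← Fintype.piFinset_univ, ← Finset.prod_univ_sum (fun _ : ι => (Finset.univ : Finset (ZMod M)))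
    (fun i x => stdAddChar (x * c i))]
  have h2 : ∀ i, ∑ x : ZMod M, stdAddChar (x * c i) = if c i = 0 then (M : ℂ) else 0 := by
    intro i
    rw [AddChar.sum_mulShift _ (isPrimitive_stdAddChar M)]
    simp [ZMod.card]
  simp only [h2]
  split_ifs with h
  · subst h; simp
  · obtain ⟨i, hi⟩ : ∃ i, c i ≠ 0 := by
      by_contra h'
      push Not at h'
      exact h (funext h')
    exact Finset.prod_eq_zero (Finset.mem_univ i) (by simp [hi])

theorem parseval {ι α : Type*} [Fintype ι] [DecidableEq ι] (M : ℕ) [NeZero M] (S : Finset α)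
    (a : α → ι → ZMod M) (ha : Set.InjOn a S) :
    ∑ t : ι → ZMod M, ‖∑ b ∈ S, stdAddChar (∑ i, a b i * t i)‖ ^ 2
      = (M : ℝ) ^ Fintype.card ι * S.card := by
  classical
  have h0 : ((∑ t : ι → ZMod M, ‖∑ b ∈ S, stdAddChar (∑ i, a b i * t i)‖ ^ 2 : ℝ) : ℂ)
      = (((M : ℝ) ^ Fintype.card ι * S.card : ℝ) : ℂ) := by
    push_cast
    have h1 : ∀ t : ι → ZMod M, ((‖∑ b ∈ S, stdAddChar (∑ i, a b i * t i)‖ : ℂ) ^ 2)
        = ∑ b ∈ S, ∑ b' ∈ S, stdAddChar (∑ i, (a b - a b') i * t i) := by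
      intro t
      rw [← Complex.mul_conj', map_sum, Finset.sum_mul_sum]
      refine Finset.sum_congr rfl fun b _ => Finset.sum_congr rfl fun b' _ => ?_
      rw [← AddChar.map_neg_eq_conj, ← AddChar.map_add_eq_mul]
      congr 1
      simp only [Pi.sub_apply, sub_mul, Finset.sum_sub_distrib]
      ring
    simp only [h1]
    rw [Finset.sum_comm]
    have h2 : ∀ b ∈ S, ∑ t : ι → ZMod M, ∑ b' ∈ S, stdAddChar (∑ i, (a b - a b') i * t i)
        = (M : ℂ) ^ Fintype.card ι := by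
      intro b hb
      rw [Finset.sum_comm]
      simp only [sum_char_pi]
      rw [Finset.sum_eq_single_of_mem b hb]
      · simp
      · intro b' hb' hne
        rw [if_neg]
        intro h
        exact hne (ha hb' hb (sub_eq_zero.1 h).symm)
    rw [Finset.sum_congr rfl h2]
    simp [mul_comm]
  exact_mod_cast h0

theorem dual_count {ι α γ : Type*} [Fintype ι] [DecidableEq ι] (M : ℕ) [NeZero M] (S : Finset α)
    (a : α → ι → ZMod M) (ha : Set.InjOn a S) (Z : Finset γ) (t : γ → ι → ZMod M)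
    (ht : Set.InjOn t Z)
    (hre : ∀ b ∈ S, ∀ z ∈ Z, (1 : ℝ) / 2 ≤ (stdAddChar (∑ i, a b i * t z i) : ℂ).re) :
    (S.card : ℝ) * Z.card ≤ 4 * (M : ℝ) ^ Fintype.card ι := by
  classical
  rcases S.eq_empty_or_nonempty with h | h
  · simp [h]
  have hN : (0 : ℝ) < S.card := by exact_mod_cast h.card_pos
  have h1 : ∀ z ∈ Z, (S.card / 2 : ℝ) ^ 2 ≤ ‖∑ b ∈ S, (stdAddChar (∑ i, a b i * t z i) : ℂ)‖ ^ 2 := by
    intro z hz
    have h2 : (S.card / 2 : ℝ) ≤ (∑ b ∈ S, (stdAddChar (∑ i, a b i * t z i) : ℂ)).re := by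
      rw [Complex.re_sum]
      calc (S.card / 2 : ℝ) = ∑ _b ∈ S, (1 : ℝ) / 2 := by rw [Finset.sum_const, nsmul_eq_mul]; ring
        _ ≤ _ := Finset.sum_le_sum fun b hb => hre b hb z hz
    have h3 := h2.trans (Complex.re_le_norm _)
    gcongr
  have h4 : (Z.card : ℝ) * (S.card / 2) ^ 2 ≤ (M : ℝ) ^ Fintype.card ι * S.card := by
    rw [← parseval M S a ha]
    calc (Z.card : ℝ) * (S.card / 2) ^ 2 = ∑ _z ∈ Z, (S.card / 2 : ℝ) ^ 2 := by
          rw [Finset.sum_const, nsmul_eq_mul]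
      _ ≤ ∑ z ∈ Z, ‖∑ b ∈ S, (stdAddChar (∑ i, a b i * t z i) : ℂ)‖ ^ 2 := Finset.sum_le_sum h1
      _ = ∑ s ∈ Z.image t, ‖∑ b ∈ S, (stdAddChar (∑ i, a b i * s i) : ℂ)‖ ^ 2 := by
          rw [Finset.sum_image ht]
      _ ≤ ∑ s : ι → ZMod M, ‖∑ b ∈ S, (stdAddChar (∑ i, a b i * s i) : ℂ)‖ ^ 2 :=
          Finset.sum_le_sum_of_subset_of_nonneg (Finset.subset_univ _) fun _ _ _ => by positivity
  have h5 : (S.card : ℝ) * (S.card * Z.card) ≤ S.card * (4 * (M : ℝ) ^ Fintype.card ι) := by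
    nlinarith
  exact le_of_mul_le_mul_left h5 hN

end Pool.TT
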