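import Mathlib
import Pool.Agent.Lib.MP_695920_nt.TT.BDual
import Pool.Agent.Lib.MP_695920_nt.TT.BPars

/-!
Number of algebraic integers of a number field in a box whose side is at least the root
discriminant.
-/

namespace Pool.TT

open NumberField NumberField.InfinitePlace Module
open scoped nonZeroDivisors

variable (K : Type*) [Field K] [NumberField K]

/-- integers all of whose conjugates are at most `R` in absolute value -/
def box (R : ℝ) : Set (𝓞 K) := {b | ∀ φ : K →+* ℂ, ‖φ b‖ ≤ R}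

variable {K}

theorem eq_zero_of_lt_one {γ : 𝓞 K} (h : ∀ φ : K →+* ℂ, ‖φ γ‖ < 1) : γ = 0 := by
  by_contra h0
  obtain ⟨w⟩ := (inferInstance : Nonempty (InfinitePlace K))
  have h1 : ∀ z : InfinitePlace K, z γ < 1 := by
    intro z
    rw [← z.norm_embedding_eq]
    exact h _
  exact absurd (one_le_of_lt_one (w := w) h0 fun z _ => h1 z) (not_le.2 (h1 w))

theorem norm_le_of_places {x : K} {T : ℝ} (h : ∀ w : InfinitePlace K, w x < T) (φ : K →+* ℂ) :
    ‖φ x‖ < T := by
  have := h (InfinitePlace.mk φ)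
  rwa [InfinitePlace.apply] at this

/-- the trace is at most `n` times the largest conjugate -/
theorem abs_trace_le {x : K} {T : ℝ} (h : ∀ φ : K →+* ℂ, ‖φ x‖ ≤ T) :
    |((Algebra.trace ℚ K x : ℚ) : ℝ)| ≤ finrank ℚ K * T := by
  have h1 : ‖algebraMap ℚ ℂ (Algebra.trace ℚ K x)‖ ≤ finrank ℚ K * T := by
    rw [trace_eq_sum_embeddings ℂ]
    refine (norm_sum_le _ _).trans ?_
    calc ∑ σ : K →ₐ[ℚ] ℂ, ‖σ x‖ ≤ ∑ _σ : K →ₐ[ℚ] ℂ, T :=
          Finset.sum_le_sum fun σ _ => h σ.toRingHom
      _ = finrank ℚ K * T := by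
          rw [Finset.sum_const, nsmul_eq_mul, Finset.card_univ, AlgHom.card]
  rw [eq_ratCast] at h1
  have h2 : ‖((Algebra.trace ℚ K x : ℚ) : ℂ)‖ = |((Algebra.trace ℚ K x : ℚ) : ℝ)| := by
    rw [← Complex.ofReal_ratCast, Complex.norm_real, Real.norm_eq_abs]
  rwa [h2] at h1

/-- the integral trace pairing with a basis of the ring of integers -/
noncomputable def tz (x : K) (i : Free.ChooseBasisIndex ℤ (𝓞 K)) : ℤ :=
  ⌊Algebra.trace ℚ K (x * RingOfIntegers.basis K i)⌋

theorem tz_eq {x : K} (hx : x ∈ (invDiff K : FractionalIdeal (𝓞 K)⁰ K))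
    (i : Free.ChooseBasisIndex ℤ (𝓞 K)) :
    ((tz x i : ℤ) : ℚ) = Algebra.trace ℚ K (x * RingOfIntegers.basis K i) := by
  obtain ⟨z, hz⟩ := (mem_invDiff K).1 hx (RingOfIntegers.basis K i)
  unfold tz
  rw [hz, Int.floor_intCast]

theorem coe_repr_sum (b : 𝓞 K) : (b : K) = ∑ i, ((RingOfIntegers.basis K).repr b i : K)
    * (RingOfIntegers.basis K i : K) := by
  conv_lhs => rw [← (RingOfIntegers.basis K).sum_repr b]
  show algebraMap (𝓞 K) K _ = _
  rw [map_sum]
  refine Finset.sum_congr rfl fun i _ => ?_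
  rw [zsmul_eq_mul, map_mul, map_intCast]

theorem trace_mul_coe (x : K) (b : 𝓞 K) : Algebra.trace ℚ K (x * b)
    = ∑ i, ((RingOfIntegers.basis K).repr b i : ℚ)
      * Algebra.trace ℚ K (x * RingOfIntegers.basis K i) := by
  rw [coe_repr_sum b, Finset.mul_sum, map_sum]
  refine Finset.sum_congr rfl fun i _ => ?_
  have h : x * (((RingOfIntegers.basis K).repr b i : K) * (RingOfIntegers.basis K i : K))
      = ((RingOfIntegers.basis K).repr b i : ℚ) • (x * RingOfIntegers.basis K i) := by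
    rw [Algebra.smul_def]
    simp
    ring
  rw [h, map_smul, smul_eq_mul]

theorem mem_invDiff_of_basis {x : K}
    (h : ∀ i, ∃ z : ℤ, Algebra.trace ℚ K (x * RingOfIntegers.basis K i) = z) :
    x ∈ (invDiff K : FractionalIdeal (𝓞 K)⁰ K) := by
  rw [mem_invDiff]
  intro b
  choose z hz using h
  refine ⟨∑ i, (RingOfIntegers.basis K).repr b i * z i, ?_⟩
  rw [trace_mul_coe]
  push_cast
  exact Finset.sum_congr rfl fun i _ => by rw [hz]

/-- an element of the inverse different all of whose conjugates are `< 1 / R` vanishes,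
if `|D| ≤ R ^ n` -/
theorem invDiff_eq_zero {x : K} (hx : x ∈ (invDiff K : FractionalIdeal (𝓞 K)⁰ K)) {R : ℝ}
    (hR : 0 < R) (hD : |(discr K : ℝ)| ≤ R ^ finrank ℚ K)
    (h : ∀ w : InfinitePlace K, w x < 1 / R) : x = 0 := by
  by_contra h0
  have h1 := le_norm_of_mem_invDiff K hx h0
  have h2 : ((|Algebra.norm ℚ x| : ℚ) : ℝ) < (1 / R) ^ finrank ℚ K := by
    rw [← prod_eq_abs_norm, ← sum_mult_eq (K := K), ← Finset.prod_pow_eq_pow_sum]
    obtain ⟨w0⟩ := (inferInstance : Nonempty (InfinitePlace K))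
    refine Finset.prod_lt_prod (fun w _ => ?_) (fun w _ => ?_) ⟨w0, Finset.mem_univ _, ?_⟩
    · exact pow_pos (InfinitePlace.pos_iff.2 h0) _
    · exact pow_le_pow_left₀ (apply_nonneg _ _) (h w).le _
    · exact pow_lt_pow_left₀ (h w0) (apply_nonneg _ _) (by
        rw [mult]; split_ifs <;> norm_num)
  have hD0 : (0 : ℝ) < |(discr K : ℝ)| := by
    rw [abs_pos]; exact_mod_cast discr_ne_zero K
  have h3 : (|(discr K : ℝ)|)⁻¹ ≤ ((|Algebra.norm ℚ x| : ℚ) : ℝ) := by
    have : (((|(discr K : ℚ)|)⁻¹ : ℚ) : ℝ) ≤ ((|Algebra.norm ℚ x| : ℚ) : ℝ) := by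
      exact_mod_cast h1
    refine le_trans (le_of_eq ?_) this
    push_cast; rfl
  have h4 : (1 / R) ^ finrank ℚ K ≤ (|(discr K : ℝ)|)⁻¹ := by
    rw [one_div, inv_pow]
    exact inv_anti₀ hD0 hD
  linarith

theorem box_finite (R : ℝ) : (box K R).Finite := by
  have h := Embeddings.finite_of_norm_le K ℂ R
  refine (h.preimage (f := fun b : 𝓞 K => (b : K)) ?_).subset ?_
  · intro a _ b _ hab
    exact RingOfIntegers.ext hab
  · intro b hb
    exact ⟨b.isIntegral_coe, fun φ => hb φ⟩

/-- the number of integers in a box of side at least the root discriminant -/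
theorem box_card_le {R : ℝ} (hR : 0 < R) (hD : |(discr K : ℝ)| ≤ R ^ finrank ℚ K) :
    ((box K R).ncard : ℝ) ≤ 4 * (12 * finrank ℚ K * R) ^ finrank ℚ K
      / Real.sqrt |(discr K : ℝ)| := by
  classical
  set n := finrank ℚ K with hn
  have hn0 : 0 < n := finrank_pos
  have hn1 : (1 : ℝ) ≤ n := by exact_mod_cast hn0
  set ι := Free.ChooseBasisIndex ℤ (𝓞 K)
  have hcι : Fintype.card ι = n := by
    rw [← finrank_eq_card_chooseBasisIndex, RingOfIntegers.rank]
  obtain ⟨M, hM⟩ := exists_nat_gt (2 * R)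
  have hM0 : (0 : ℝ) < M := by linarith
  haveI : NeZero M := ⟨by rintro rfl; simp at hM0⟩
  set T : ℝ := M / (6 * n * R) with hT
  have hT0 : 0 < T := by positivity
  set S := (box_finite (K := K) R).toFinset with hS
  set a : 𝓞 K → ι → ZMod M := fun b i => ((RingOfIntegers.basis K).repr b i : ZMod M) with ha
  have hainj : Set.InjOn a S := by
    intro b hb b' hb' hab
    have hdvd : ∀ i, ∃ c : ℤ, (RingOfIntegers.basis K).repr b i
        - (RingOfIntegers.basis K).repr b' i = M * c := by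
      intro i
      have h1 := congrFun hab i
      simp only [ha] at h1
      rw [← sub_eq_zero, ← Int.cast_sub, ZMod.intCast_zmod_eq_zero_iff_dvd] at h1
      exact h1
    choose c hc using hdvd
    set γ : 𝓞 K := ∑ i, c i • RingOfIntegers.basis K i with hγ
    have hbγ : b - b' = (M : 𝓞 K) * γ := by
      rw [← (RingOfIntegers.basis K).sum_repr (b - b'), hγ, Finset.mul_sum]
      refine Finset.sum_congr rfl fun i _ => ?_
      rw [map_sub, Finsupp.sub_apply, hc i, mul_smul, zsmul_eq_mul]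
      simp
    have hγ0 : γ = 0 := by
      refine eq_zero_of_lt_one fun φ => ?_
      have h1 : φ (b - b' : 𝓞 K) = (M : ℂ) * φ γ := by
        rw [hbγ]; simp
      have h2 : ‖φ ((b - b' : 𝓞 K) : K)‖ ≤ 2 * R := by
        have hb1 : ‖φ b‖ ≤ R := ((Set.Finite.mem_toFinset _).1 hb) φ
        have hb2 : ‖φ b'‖ ≤ R := ((Set.Finite.mem_toFinset _).1 hb') φ
        have h3 : φ ((b - b' : 𝓞 K) : K) = φ b - φ b' := by simp
        rw [h3]
        calc ‖φ b - φ b'‖ ≤ ‖φ b‖ + ‖φ b'‖ := norm_sub_le _ _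
          _ ≤ 2 * R := by linarith
      rw [h1, norm_mul, Complex.norm_natCast] at h2
      by_contra h4
      push Not at h4
      nlinarith
    rw [hγ0, mul_zero, sub_eq_zero] at hbγ
    exact hbγ
  set t : K → ι → ZMod M := fun x i => (tz x i : ZMod M) with ht
  set Z0 : Set K := {x | x ∈ (invDiff K : FractionalIdeal (𝓞 K)⁰ K) ∧
    ∀ w : InfinitePlace K, w x < T} with hZ0
  have htinj : Set.InjOn t Z0 := by
    intro x hx y hy hxy
    have hdvd : ∀ i, ∃ c : ℤ, tz x i - tz y i = M * c := by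
      intro i
      have h1 := congrFun hxy i
      simp only [ht] at h1
      rw [← sub_eq_zero, ← Int.cast_sub, ZMod.intCast_zmod_eq_zero_iff_dvd] at h1
      exact h1
    have hMK : (M : K) ≠ 0 := by exact_mod_cast NeZero.ne M
    have hmem : (x - y) / M ∈ (invDiff K : FractionalIdeal (𝓞 K)⁰ K) := by
      refine mem_invDiff_of_basis fun i => ?_
      obtain ⟨c, hc⟩ := hdvd i
      refine ⟨c, ?_⟩
      have e : (x - y) / M * RingOfIntegers.basis K i
          = ((M : ℚ)⁻¹) • (x * RingOfIntegers.basis K i - y * RingOfIntegers.basis K i) := by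
        rw [Algebra.smul_def]; simp; ring
      rw [e, map_smul, map_sub, ← tz_eq hx.1, ← tz_eq hy.1, smul_eq_mul, ← Int.cast_sub, hc]
      have hMQ : (M : ℚ) ≠ 0 := by exact_mod_cast NeZero.ne M
      push_cast
      field_simp
    have h0 := invDiff_eq_zero hmem hR hD (by
      intro w
      have h1 : w ((x - y) / M) = w (x - y) / M := by
        rw [map_div₀]
        congr 1
        rw [← w.norm_embedding_eq]; simp
      have h2 : w (x - y) < 2 * T := by
        rw [← w.norm_embedding_eq, map_sub]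
        calc ‖w.embedding x - w.embedding y‖ ≤ ‖w.embedding x‖ + ‖w.embedding y‖ :=
              norm_sub_le _ _
          _ < T + T := by
              rw [w.norm_embedding_eq, w.norm_embedding_eq]
              exact add_lt_add (hx.2 w) (hy.2 w)
          _ = 2 * T := by ring
      rw [h1]
      calc w (x - y) / M < 2 * T / M := by gcongr
        _ = 1 / (3 * n * R) := by rw [hT]; field_simp; norm_num
        _ ≤ 1 / R := by
            apply one_div_le_one_div_of_le hR
            nlinarith)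
    have h1 : x - y = 0 := by
      rw [div_eq_zero_iff] at h0
      exact h0.resolve_right hMK
    exact sub_eq_zero.1 h1
  have hZfin : Z0.Finite := Set.Finite.of_injOn (f := t) (Set.mapsTo_univ _ _) htinj Set.finite_univ
  set Z := hZfin.toFinset with hZ
  have hcount := dual_count M S a hainj Z t (by
    intro x hx y hy hxy
    exact htinj ((Set.Finite.mem_toFinset _).1 hx) ((Set.Finite.mem_toFinset _).1 hy) hxy) (by
    intro b hb x hx
    have hx' : x ∈ Z0 := (Set.Finite.mem_toFinset _).1 hx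
    have hb' : b ∈ box K R := (Set.Finite.mem_toFinset _).1 hb
    set z : ℤ := ∑ i, (RingOfIntegers.basis K).repr b i * tz x i with hz
    have hzsum : ∑ i, a b i * t x i = (z : ZMod M) := by
      rw [hz]; push_cast; rfl
    have hztr : (z : ℚ) = Algebra.trace ℚ K (x * b) := by
      rw [hz, trace_mul_coe]
      push_cast
      exact Finset.sum_congr rfl fun i _ => by rw [tz_eq hx'.1]
    have hzb : |(z : ℝ)| ≤ M / 6 := by
      have h1 : |((Algebra.trace ℚ K (x * b) : ℚ) : ℝ)| ≤ n * (T * R) := by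
        refine abs_trace_le fun φ => ?_
        rw [map_mul, norm_mul]
        exact mul_le_mul (norm_le_of_places hx'.2 φ).le (hb' φ) (norm_nonneg _) hT0.le
      rw [← hztr, Rat.cast_intCast] at h1
      refine h1.trans (le_of_eq ?_)
      rw [hT]; field_simp
    rw [hzsum, ZMod.stdAddChar_coe]
    have e : (2 * Real.pi * Complex.I * z / M : ℂ)
        = ((2 * Real.pi * z / M : ℝ) : ℂ) * Complex.I := by
      push_cast; ring
    rw [e, Complex.exp_ofReal_mul_I_re, ← Real.cos_abs]
    have h2 : |2 * Real.pi * z / M| ≤ Real.pi / 3 := by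
      rw [abs_div, abs_mul, abs_of_pos (by positivity : (0 : ℝ) < 2 * Real.pi),
        abs_of_pos hM0, div_le_iff₀ hM0]
      nlinarith [Real.pi_pos]
    calc (1 : ℝ) / 2 = Real.cos (Real.pi / 3) := Real.cos_pi_div_three.symm
      _ ≤ Real.cos |2 * Real.pi * z / M| :=
          Real.cos_le_cos_of_nonneg_of_le_pi (abs_nonneg _) (by linarith [Real.pi_pos]) h2)
  have hlow := card_invDiff_ge K hT0 Z (by
    intro x hx hw
    exact (Set.Finite.mem_toFinset _).2 ⟨hx, hw⟩)
  rw [hcι] at hcount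
  rw [← hn] at hlow
  have hNS : ((box K R).ncard : ℝ) = S.card := by
    rw [Set.ncard_eq_toFinset_card _ (box_finite R)]
  have hD0 : (0 : ℝ) < |(discr K : ℝ)| := by
    rw [abs_pos]; exact_mod_cast discr_ne_zero K
  have hsp : 0 < Real.sqrt |(discr K : ℝ)| := Real.sqrt_pos.2 hD0
  rw [hNS, le_div_iff₀ hsp]
  have hTn : (0 : ℝ) < (T / 2) ^ n := by positivity
  have h3 : (S.card * Real.sqrt |(discr K : ℝ)|) * (T / 2) ^ n ≤ 4 * (M : ℝ) ^ n := by
    calc (S.card * Real.sqrt |(discr K : ℝ)|) * (T / 2) ^ n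
        = S.card * ((T / 2) ^ n * Real.sqrt |(discr K : ℝ)|) := by ring
      _ ≤ S.card * Z.card := by gcongr
      _ ≤ 4 * (M : ℝ) ^ n := hcount
  have h4 : 4 * (M : ℝ) ^ n = (4 * (12 * n * R) ^ n) * (T / 2) ^ n := by
    rw [mul_assoc, ← mul_pow]
    congr 2
    rw [hT]; field_simp; norm_num
  rw [h4] at h3
  exact le_of_mul_le_mul_right h3 hTn

end Pool.TT
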