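import Mathlib
import Pool.Agent.Lib.MP_695920_nt.TT.BCount

/-!
Integers of a number field of odd degree in a box which do not generate the field.
-/

namespace Pool.TT

open NumberField NumberField.InfinitePlace Module

variable {K : Type*} [Field K] [NumberField K]

/-- the trivial count: reduction modulo `M > 2 R` -/
theorem box_card_le_pow {R : ℝ} (hR : 0 ≤ R) {M : ℕ} (hM : 2 * R < M) :
    (box K R).ncard ≤ M ^ finrank ℚ K := by
  classical
  have hM0 : (0 : ℝ) < M := by linarith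
  haveI : NeZero M := ⟨by rintro rfl; simp at hM0⟩
  set ι := Free.ChooseBasisIndex ℤ (𝓞 K)
  have hcι : Fintype.card ι = finrank ℚ K := by
    rw [← finrank_eq_card_chooseBasisIndex, RingOfIntegers.rank]
  set a : 𝓞 K → ι → ZMod M := fun b i => ((RingOfIntegers.basis K).repr b i : ZMod M) with ha
  have hainj : Set.InjOn a (box K R) := by
    intro b hb b' hb' hab
    have hdvd : ∀ i, ∃ c : ℤ, (RingOfIntegers.basis K).repr b i
        - (RingOfIntegers.basis K).repr b' i = M * c := by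
      intro i
      have h1 := congrFun hab i
      simp only [ha] at h1
      rw [← sub_eq_zero, ← Int.cast_sub, ZMod.intCast_zmod_eq_zero_iff_dvd] at h1
      exact h1
    choose c hc using hdvd
    set γ : 𝓞 K := ∑ i, c i • RingOfIntegers.basis K i with hγ
    have hbγ : b - b' = (M : 𝓞 K) * γ := by
      rw [← (RingOfIntegers.basis K).sum_repr (b - b'), hγ, Finset.mul_sum]
      refine Finset.sum_congr rfl fun i _ => ?_
      rw [map_sub, Finsupp.sub_apply, hc i, mul_smul, zsmul_eq_mul]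
      simp
    have hγ0 : γ = 0 := by
      refine eq_zero_of_lt_one fun φ => ?_
      have h1 : φ (b - b' : 𝓞 K) = (M : ℂ) * φ γ := by
        rw [hbγ]; simp
      have h2 : ‖φ ((b - b' : 𝓞 K) : K)‖ ≤ 2 * R := by
        have hb1 : ‖φ b‖ ≤ R := hb φ
        have hb2 : ‖φ b'‖ ≤ R := hb' φ
        have h3 : φ ((b - b' : 𝓞 K) : K) = φ b - φ b' := by simp
        rw [h3]
        calc ‖φ b - φ b'‖ ≤ ‖φ b‖ + ‖φ b'‖ := norm_sub_le _ _
          _ ≤ 2 * R := by linarith
      rw [h1, norm_mul, Complex.norm_natCast] at h2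
      by_contra h4
      push Not at h4
      nlinarith
    rw [hγ0, mul_zero, sub_eq_zero] at hbγ
    exact hbγ
  calc (box K R).ncard = (a '' box K R).ncard := (Set.ncard_image_of_injOn hainj).symm
    _ ≤ (Set.univ : Set (ι → ZMod M)).ncard := Set.ncard_le_ncard (Set.subset_univ _)
    _ = M ^ finrank ℚ K := by
        rw [Set.ncard_univ, Nat.card_eq_fintype_card, Fintype.card_fun, ZMod.card, hcι]

/-- integers on which two different embeddings agree -/
theorem eq_embeddings_card_le (hodd : Odd (finrank ℚ K)) {R : ℝ} (hR : 0 ≤ R) {M : ℕ}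
    (hM : 2 * R < M) {φ ψ : K →+* ℂ} (hne : φ ≠ ψ) :
    {b : 𝓞 K | b ∈ box K R ∧ φ b = ψ b}.ncard ≤ M ^ (finrank ℚ K / 3) := by
  classical
  have hM1 : 1 ≤ M := by
    rcases Nat.eq_zero_or_pos M with h | h
    · subst h; norm_num at hM; linarith
    · exact h
  let F : IntermediateField ℚ K := (RingHom.eqLocusField φ ψ).toIntermediateField (by
    intro q
    show φ (algebraMap ℚ K q) = ψ (algebraMap ℚ K q)
    simp)
  have hF : ∀ x : K, x ∈ F ↔ φ x = ψ x := fun x => Iff.rfl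
  haveI : NumberField F := NumberField.of_intermediateField F
  -- degree
  have hdeg : finrank ℚ F ≤ finrank ℚ K / 3 := by
    have h1 : finrank ℚ F * finrank F K = finrank ℚ K := finrank_mul_finrank ℚ F K
    have h2 : finrank F K ≠ 1 := by
      intro h
      apply hne
      have hb := (IntermediateField.finrank_eq_one_iff_eq_top).1 h
      ext x
      exact (hF x).1 (by rw [hb]; exact IntermediateField.mem_top)
    have h3 : 0 < finrank F K := finrank_pos
    have h4 : Odd (finrank F K) := by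
      rw [← h1] at hodd
      exact (Nat.odd_mul.1 hodd).2
    have h5 : 3 ≤ finrank F K := by
      rcases h4 with ⟨k, hk⟩
      omega
    rw [Nat.le_div_iff_mul_le (by norm_num)]
    nlinarith [Nat.mul_le_mul_left (finrank ℚ F) h5]
  -- the map
  have hsub : {b : 𝓞 K | b ∈ box K R ∧ φ b = ψ b}
      ⊆ (fun c : 𝓞 F => (algebraMap (𝓞 F) (𝓞 K) c)) '' box F R := by
    rintro b ⟨hb, hbe⟩
    have hbF : (b : K) ∈ F := (hF _).2 hbe
    have hint : IsIntegral ℤ (⟨(b : K), hbF⟩ : F) := by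
      have : IsIntegral ℤ ((⟨(b : K), hbF⟩ : F) : K) := b.isIntegral_coe
      exact (isIntegral_algHom_iff (F.val.restrictScalars ℤ) F.val.injective).1 this
    refine ⟨⟨⟨(b : K), hbF⟩, hint⟩, ?_, ?_⟩
    · intro χ
      -- extend χ to K
      obtain ⟨χ', hχ'⟩ : ∃ χ' : K →+* ℂ, ∀ x : F, χ' (x : K) = χ x := by
        letI : Algebra F ℂ := χ.toAlgebra
        haveI : Algebra.IsAlgebraic F K := inferInstance
        let χ' : K →ₐ[F] ℂ := IsAlgClosed.lift
        refine ⟨χ'.toRingHom, fun x => ?_⟩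
        exact χ'.commutes x
      have := hb χ'
      rw [← hχ']
      exact this
    · apply RingOfIntegers.ext
      rfl
  calc {b : 𝓞 K | b ∈ box K R ∧ φ b = ψ b}.ncard
      ≤ ((fun c : 𝓞 F => (algebraMap (𝓞 F) (𝓞 K) c)) '' box F R).ncard :=
        Set.ncard_le_ncard hsub ((box_finite R).image _)
    _ ≤ (box F R).ncard := Set.ncard_image_le (box_finite R)
    _ ≤ M ^ finrank ℚ F := box_card_le_pow hR hM
    _ ≤ M ^ (finrank ℚ K / 3) := Nat.pow_le_pow_right hM1 hdeg

/-- non-generators in a box -/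
theorem nongen_card_le (hodd : Odd (finrank ℚ K)) {R : ℝ} (hR : 0 ≤ R) {M : ℕ}
    (hM : 2 * R < M) :
    {b : 𝓞 K | b ∈ box K R ∧ ∃ φ ψ : K →+* ℂ, φ ≠ ψ ∧ φ b = ψ b}.ncard
      ≤ (finrank ℚ K) ^ 2 * M ^ (finrank ℚ K / 3) := by
  classical
  set s : Finset ((K →+* ℂ) × (K →+* ℂ)) := Finset.univ.filter fun p => p.1 ≠ p.2 with hs
  have hfin : ∀ p : (K →+* ℂ) × (K →+* ℂ), {b : 𝓞 K | b ∈ box K R ∧ p.1 b = p.2 b}.Finite :=
    fun p => (box_finite R).subset fun b hb => hb.1
  have hcard : s.card ≤ finrank ℚ K ^ 2 := by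
    calc s.card ≤ (Finset.univ : Finset ((K →+* ℂ) × (K →+* ℂ))).card := Finset.card_filter_le _ _
      _ = finrank ℚ K ^ 2 := by
          rw [Finset.card_univ, Fintype.card_prod, Embeddings.card, sq]
  have hsub : {b : 𝓞 K | b ∈ box K R ∧ ∃ φ ψ : K →+* ℂ, φ ≠ ψ ∧ φ b = ψ b}
      ⊆ ((s.biUnion fun p => (hfin p).toFinset : Finset (𝓞 K)) : Set (𝓞 K)) := by
    rintro b ⟨hb, φ, ψ, hne, he⟩
    rw [Finset.mem_coe, Finset.mem_biUnion]
    refine ⟨(φ, ψ), by simp [hs, hne], ?_⟩
    rw [Set.Finite.mem_toFinset]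
    exact ⟨hb, he⟩
  calc {b : 𝓞 K | b ∈ box K R ∧ ∃ φ ψ : K →+* ℂ, φ ≠ ψ ∧ φ b = ψ b}.ncard
      ≤ ((s.biUnion fun p => (hfin p).toFinset : Finset (𝓞 K)) : Set (𝓞 K)).ncard :=
        Set.ncard_le_ncard hsub (Finset.finite_toSet _)
    _ = (s.biUnion fun p => (hfin p).toFinset).card := Set.ncard_coe_finset _
    _ ≤ ∑ p ∈ s, (hfin p).toFinset.card := Finset.card_biUnion_le
    _ ≤ ∑ _p ∈ s, M ^ (finrank ℚ K / 3) := by
        refine Finset.sum_le_sum fun p hp => ?_
        have h1 := eq_embeddings_card_le hodd hR hM (Finset.mem_filter.1 hp).2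
        rwa [Set.ncard_eq_toFinset_card _ (hfin p)] at h1
    _ = s.card * M ^ (finrank ℚ K / 3) := by rw [Finset.sum_const, smul_eq_mul]
    _ ≤ (finrank ℚ K) ^ 2 * M ^ (finrank ℚ K / 3) := by gcongr

end Pool.TT
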