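import Mathlib
import Pool.Agent.Lib.MP_695920_nt.TT.BSub

/-!
Step 1 (b), (c) of the two-torsion bound: the cosets of the integers which meet the box.
-/

namespace Pool.TT

open NumberField NumberField.InfinitePlace Module

universe u

theorem one_le_abs_discr (K : Type*) [Field K] [NumberField K] : (1 : ℝ) ≤ |(discr K : ℝ)| := by
  have h := Int.one_le_abs (discr_ne_zero K)
  exact_mod_cast h

/-- The cosets of `ℤ` meeting the box of side `C |D|^(1/n)`: at most `C' |D|^(1/2 - 1/n)`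
representatives that generate `K`, and at most `C' |D|^(1/3)` integers of the box in no such
coset. -/
theorem cosets (n : ℕ) (hodd : Odd n) {C : ℝ} (hC : 1 ≤ C) :
    ∃ C' : ℝ, 1 ≤ C' ∧ ∀ (K : Type u) [Field K] [NumberField K], finrank ℚ K = n →
      ∃ Θ : Finset (𝓞 K),
        (Θ.card : ℝ) ≤ C' * |(discr K : ℝ)| ^ ((1 : ℝ) / 2 - 1 / n) ∧
        (∀ θ ∈ Θ, θ ∈ box K (C * |(discr K : ℝ)| ^ ((1 : ℝ) / n)) ∧
          ∀ φ ψ : K →+* ℂ, φ ≠ ψ → φ θ ≠ ψ θ) ∧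
        (({b : 𝓞 K | b ∈ box K (C * |(discr K : ℝ)| ^ ((1 : ℝ) / n)) ∧
          ¬ ∃ θ ∈ Θ, ∃ x : ℤ, b = θ + x}.ncard : ℝ)
            ≤ C' * |(discr K : ℝ)| ^ ((1 : ℝ) / 3)) := by
  classical
  set C1 : ℝ := 4 * (12 * n * (C + 1)) ^ n with hC1
  set C2 : ℝ := n ^ 2 * (2 * C + 1) ^ ((n : ℝ) / 3) with hC2
  have hn0 : 0 < n := hodd.pos
  have hnR : (0 : ℝ) < n := by exact_mod_cast hn0
  have hC2' : 0 ≤ C2 := by positivity
  have hC1' : 0 ≤ C1 := by positivity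
  refine ⟨max 1 (max C1 C2), le_max_left _ _, ?_⟩
  intro K _ _ hK
  set D : ℝ := |(discr K : ℝ)| with hD
  have hD1 : 1 ≤ D := one_le_abs_discr K
  have hD0 : 0 < D := by linarith
  set X : ℝ := D ^ ((1 : ℝ) / n) with hX
  have hX1 : 1 ≤ X := Real.one_le_rpow hD1 (by positivity)
  have hX0 : 0 < X := by linarith
  have hXn : X ^ n = D := by
    rw [hX, ← Real.rpow_natCast, ← Real.rpow_mul hD0.le, one_div, inv_mul_cancel₀ hnR.ne',
      Real.rpow_one]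
  set R : ℝ := C * X with hR
  have hR0 : 0 < R := by positivity
  set H : AddSubgroup (𝓞 K) := (Int.castAddHom (𝓞 K)).range with hH
  let f : 𝓞 K → (𝓞 K ⧸ H) := fun b => (b : 𝓞 K ⧸ H)
  have hf : ∀ b b' : 𝓞 K, f b = f b' → ∃ x : ℤ, b' = b + x := by
    intro b b' h
    have h1 : -b + b' ∈ H := QuotientAddGroup.eq.1 h
    obtain ⟨x, hx⟩ := h1
    refine ⟨x, ?_⟩
    have hx' : (x : 𝓞 K) = -b + b' := hx
    rw [hx']; ring
  have hf' : ∀ (b : 𝓞 K) (x : ℤ), f (b + x) = f b := by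
    intro b x
    refine (QuotientAddGroup.eq.2 ?_).symm
    refine ⟨x, ?_⟩
    show (x : 𝓞 K) = -b + (b + x)
    ring
  obtain ⟨Θ0, hsub, hbij⟩ := Set.exists_subset_bijOn (box K R) f
  have hΘfin : Θ0.Finite := (box_finite R).subset hsub
  set T0 : Finset (𝓞 K) := hΘfin.toFinset with hT0
  -- the number of cosets
  have hcard : (T0.card : ℝ) ≤ C1 * D ^ ((1 : ℝ) / 2 - 1 / n) := by
    set m : ℕ := ⌊X⌋₊ with hm
    have hmX : (m : ℝ) ≤ X := Nat.floor_le hX0.le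
    have hmX' : X < m + 1 := Nat.lt_floor_add_one X
    set P : Finset (𝓞 K × ℤ) := T0 ×ˢ Finset.Icc (-(m : ℤ)) m with hP
    have hmaps : ∀ p ∈ P, p.1 + (p.2 : 𝓞 K) ∈ (box_finite (K := K) ((C + 1) * X)).toFinset := by
      intro p hp
      rw [Finset.mem_product] at hp
      rw [Set.Finite.mem_toFinset]
      intro φ
      have h1 : ‖φ p.1‖ ≤ R := hsub ((Set.Finite.mem_toFinset _).1 hp.1) φ
      have h2 : φ ((p.1 + (p.2 : 𝓞 K) : 𝓞 K) : K) = φ p.1 + (p.2 : ℂ) := by simp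
      rw [h2]
      have h3 : ‖(p.2 : ℂ)‖ ≤ X := by
        rw [Complex.norm_intCast]
        have h4 := Finset.mem_Icc.1 hp.2
        have h5 : |p.2| ≤ (m : ℤ) := abs_le.2 h4
        have h6 : |(p.2 : ℝ)| ≤ m := by exact_mod_cast h5
        linarith
      calc ‖φ p.1 + (p.2 : ℂ)‖ ≤ ‖φ p.1‖ + ‖(p.2 : ℂ)‖ := norm_add_le _ _
        _ ≤ (C + 1) * X := by rw [hR] at h1; linarith
    have hinj : Set.InjOn (fun p : 𝓞 K × ℤ => p.1 + (p.2 : 𝓞 K)) P := by
      intro p hp p' hp' h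
      have h' : p.1 + (p.2 : 𝓞 K) = p'.1 + (p'.2 : 𝓞 K) := h
      rw [Finset.mem_coe, Finset.mem_product] at hp hp'
      have h1 : f p.1 = f p'.1 := by
        rw [← hf' p.1 p.2, h', hf']
      have h2 : p.1 = p'.1 := hbij.injOn ((Set.Finite.mem_toFinset _).1 hp.1)
        ((Set.Finite.mem_toFinset _).1 hp'.1) h1
      rw [h2] at h'
      have h3 : (p.2 : 𝓞 K) = (p'.2 : 𝓞 K) := add_left_cancel h'
      exact Prod.ext h2 (by exact_mod_cast h3)
    have hle := Finset.card_le_card_of_injOn _ hmaps hinj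
    have hPc : (P.card : ℝ) = T0.card * (2 * m + 1) := by
      rw [hP, Finset.card_product, Int.card_Icc]
      have : ((m : ℤ) + 1 - -(m : ℤ)).toNat = 2 * m + 1 := by omega
      rw [this]; push_cast; ring
    have hbox := box_card_le (K := K) (R := (C + 1) * X) (by positivity) (by
      rw [hK, mul_pow, hXn]
      have : (1 : ℝ) ≤ (C + 1) ^ n := one_le_pow₀ (by linarith)
      nlinarith)
    rw [Set.ncard_eq_toFinset_card _ (box_finite _)] at hbox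
    have h1 : (T0.card : ℝ) * (2 * m + 1) ≤ 4 * (12 * n * ((C + 1) * X)) ^ n / Real.sqrt D := by
      rw [← hPc]
      refine le_trans ?_ (le_trans hbox (le_of_eq ?_))
      · exact_mod_cast hle
      · rw [hK]
    have h2 : 4 * (12 * n * ((C + 1) * X)) ^ n / Real.sqrt D = C1 * Real.sqrt D := by
      have e : (12 * n * ((C + 1) * X)) ^ n = (12 * n * (C + 1)) ^ n * D := by
        rw [← hXn, ← mul_pow]; ring
      rw [e, hC1]
      have hs : Real.sqrt D * Real.sqrt D = D := Real.mul_self_sqrt hD0.le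
      have hsp : 0 < Real.sqrt D := Real.sqrt_pos.2 hD0
      rw [div_eq_iff hsp.ne', mul_assoc _ (Real.sqrt D), hs]
      ring
    rw [h2] at h1
    have h3 : (T0.card : ℝ) * X ≤ C1 * Real.sqrt D := by
      refine le_trans ?_ h1
      have : (0 : ℝ) ≤ T0.card := by positivity
      have hm0 : (0 : ℝ) ≤ m := by positivity
      nlinarith
    have h4 : D ^ ((1 : ℝ) / 2 - 1 / n) * X = Real.sqrt D := by
      rw [hX, ← Real.rpow_add hD0, Real.sqrt_eq_rpow]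
      congr 1; ring
    rw [← h4, ← mul_assoc] at h3
    exact le_of_mul_le_mul_right h3 hX0
  refine ⟨T0.filter fun θ : 𝓞 K => ∀ φ ψ : K →+* ℂ, φ ≠ ψ → φ θ ≠ ψ θ, ?_, ?_, ?_⟩
  · calc (((T0.filter fun θ : 𝓞 K => ∀ φ ψ : K →+* ℂ, φ ≠ ψ → φ θ ≠ ψ θ).card : ℕ) : ℝ)
        ≤ T0.card := by exact_mod_cast Finset.card_filter_le _ _
      _ ≤ C1 * D ^ ((1 : ℝ) / 2 - 1 / n) := hcard
      _ ≤ max 1 (max C1 C2) * D ^ ((1 : ℝ) / 2 - 1 / n) := by
          gcongr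
          exact (le_max_left _ _).trans (le_max_right _ _)
  · intro θ hθ
    rw [Finset.mem_filter] at hθ
    exact ⟨hsub ((Set.Finite.mem_toFinset _).1 hθ.1), hθ.2⟩
  · -- exceptional elements
    set M : ℕ := ⌊2 * R⌋₊ + 1 with hM
    have hM2 : 2 * R < M := by
      rw [hM]; push_cast; exact Nat.lt_floor_add_one _
    have hML : (M : ℝ) ≤ (2 * C + 1) * X := by
      rw [hM]; push_cast
      have := Nat.floor_le (by positivity : 0 ≤ 2 * R)
      rw [hR] at this ⊢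
      nlinarith
    have hsubE : {b : 𝓞 K | b ∈ box K R ∧ ¬ ∃ θ ∈ T0.filter (fun θ : 𝓞 K => ∀ φ ψ : K →+* ℂ,
          φ ≠ ψ → φ θ ≠ ψ θ), ∃ x : ℤ, b = θ + x}
        ⊆ {b : 𝓞 K | b ∈ box K R ∧ ∃ φ ψ : K →+* ℂ, φ ≠ ψ ∧ φ b = ψ b} := by
      rintro b ⟨hb, hno⟩
      refine ⟨hb, ?_⟩
      obtain ⟨θ, hθ, hfθ⟩ := hbij.surjOn (Set.mem_image_of_mem f hb)
      obtain ⟨x, hx⟩ := hf θ b hfθ
      by_contra hgen
      push Not at hgen
      apply hno
      refine ⟨θ, ?_, x, hx⟩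
      rw [Finset.mem_filter]
      refine ⟨(Set.Finite.mem_toFinset _).2 hθ, ?_⟩
      intro φ ψ hne he
      apply hgen φ ψ hne
      rw [hx]
      simp [he]
    have hfinE : {b : 𝓞 K | b ∈ box K R ∧ ∃ φ ψ : K →+* ℂ, φ ≠ ψ ∧ φ b = ψ b}.Finite :=
      (box_finite R).subset fun b hb => hb.1
    have h1 := (Set.ncard_le_ncard hsubE hfinE).trans
      (nongen_card_le (K := K) (by rw [hK]; exact hodd) hR0.le hM2)
    rw [hK] at h1
    have hM1 : (1 : ℝ) ≤ M := by rw [hM]; push_cast; linarith [Nat.cast_nonneg (α := ℝ) ⌊2 * R⌋₊]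
    have h2 : ((M : ℝ) ^ (n / 3)) ≤ (2 * C + 1) ^ ((n : ℝ) / 3) * D ^ ((1 : ℝ) / 3) := by
      calc ((M : ℝ) ^ (n / 3)) = (M : ℝ) ^ (((n / 3 : ℕ) : ℝ)) := (Real.rpow_natCast _ _).symm
        _ ≤ (M : ℝ) ^ ((n : ℝ) / 3) :=
            Real.rpow_le_rpow_of_exponent_le hM1 (by exact_mod_cast Nat.cast_div_le)
        _ ≤ ((2 * C + 1) * X) ^ ((n : ℝ) / 3) :=
            Real.rpow_le_rpow (by positivity) hML (by positivity)
        _ = (2 * C + 1) ^ ((n : ℝ) / 3) * D ^ ((1 : ℝ) / 3) := by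
            rw [Real.mul_rpow (by positivity) hX0.le, hX, ← Real.rpow_mul hD0.le]
            congr 2
            field_simp
    calc (({b : 𝓞 K | b ∈ box K R ∧ ¬ ∃ θ ∈ T0.filter (fun θ : 𝓞 K => ∀ φ ψ : K →+* ℂ,
          φ ≠ ψ → φ θ ≠ ψ θ), ∃ x : ℤ, b = θ + x}.ncard : ℕ) : ℝ)
        ≤ ((n ^ 2 * M ^ (n / 3) : ℕ) : ℝ) := by exact_mod_cast h1
      _ = (n : ℝ) ^ 2 * (M : ℝ) ^ (n / 3) := by push_cast; ring
      _ ≤ (n : ℝ) ^ 2 * ((2 * C + 1) ^ ((n : ℝ) / 3) * D ^ ((1 : ℝ) / 3)) := by gcongr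
      _ = C2 * D ^ ((1 : ℝ) / 3) := by rw [hC2]; ring
      _ ≤ max 1 (max C1 C2) * D ^ ((1 : ℝ) / 3) := by
          gcongr
          exact (le_max_right _ _).trans (le_max_right _ _)

end Pool.TT
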