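import Pool.Agent.Lib.MP_695920_nt.TT.BPClass2

/-! # The bound of Bombieri and Pila for `y ^ 2 = F t` -/

namespace Pool.Agent.Lib.MP_695920_nt.TT

open Polynomial

/-- At most two square roots. -/
theorem card_sqrt_le {p : ℕ} [Fact p.Prime] (c : ZMod p) :
    (Finset.univ.filter fun b : ZMod p => b ^ 2 = c).card ≤ 2 := by
  classical
  have h1 : (X ^ 2 - C c : (ZMod p)[X]) ≠ 0 := X_pow_sub_C_ne_zero (by norm_num) c
  calc (Finset.univ.filter fun b : ZMod p => b ^ 2 = c).card ≤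
        (X ^ 2 - C c : (ZMod p)[X]).roots.toFinset.card := by
        apply Finset.card_le_card
        intro b hb
        rw [Multiset.mem_toFinset, mem_roots h1]
        simp [(Finset.mem_filter.1 hb).2]
    _ ≤ Multiset.card (X ^ 2 - C c : (ZMod p)[X]).roots := Multiset.toFinset_card_le _
    _ ≤ (X ^ 2 - C c : (ZMod p)[X]).natDegree := card_roots' _
    _ = 2 := natDegree_X_pow_sub_C

theorem card_curve_le {p : ℕ} [Fact p.Prime] (f : ZMod p → ZMod p) :
    (Finset.univ.filter fun ab : ZMod p × ZMod p => ab.2 ^ 2 = f ab.1).card ≤ 2 * p := by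
  classical
  have h1 : (Finset.univ.filter fun ab : ZMod p × ZMod p => ab.2 ^ 2 = f ab.1) ⊆
      (Finset.univ : Finset (ZMod p)).biUnion fun a =>
        (Finset.univ.filter fun b : ZMod p => b ^ 2 = f a).image fun b => (a, b) := by
    intro ab hab
    rw [Finset.mem_biUnion]
    refine ⟨ab.1, Finset.mem_univ _, Finset.mem_image.2 ⟨ab.2, ?_, rfl⟩⟩
    exact Finset.mem_filter.2 ⟨Finset.mem_univ _, (Finset.mem_filter.1 hab).2⟩
  refine (Finset.card_le_card h1).trans (Finset.card_biUnion_le.trans ?_)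
  calc _ ≤ ∑ _a : ZMod p, 2 := Finset.sum_le_sum fun a _ =>
        Finset.card_image_le.trans (card_sqrt_le _)
    _ = 2 * p := by simp [ZMod.card, mul_comm]

/-- All classes modulo one prime. -/
theorem prime_card {k : ℕ} (F : ℤ[X]) (hF : Odd F.natDegree) {q : ℕ} (hq : q.Prime) {T Z : ℝ}
    (hT : 1 ≤ T) (hZ : 1 ≤ Z)
    (hsize : ((k + k).factorial : ℝ) * (T ^ (k * (k - 1)) * Z ^ k) <
      (q : ℝ) ^ ((k + k) * (k + k - 1) / 2))
    (P : Finset ℤ) (y : ℤ → ℤ)
    (h : ∀ t ∈ P, |(t : ℝ)| ≤ T ∧ |(y t : ℝ)| ≤ Z ∧ (y t) ^ 2 = F.eval t ∧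
      ¬ (q : ℤ) ∣ 2 * y t) : P.card ≤ (2 * k + F.natDegree) * (2 * q) := by
  classical
  have : Fact q.Prime := ⟨hq⟩
  let g : ℤ → ZMod q × ZMod q := fun t => ((t : ZMod q), (y t : ZMod q))
  have h1 : P.card ≤ (2 * k + F.natDegree) * (P.image g).card := by
    apply Finset.card_le_mul_card_image
    intro ab hab
    obtain ⟨t0, ht0, rfl⟩ := Finset.mem_image.1 hab
    apply class_card F hF hq hT hZ hsize (t0 := t0) (y0 := y t0) (h t0 ht0).2.2.2
    intro t ht
    obtain ⟨ht1, ht2⟩ := Finset.mem_filter.1 ht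
    obtain ⟨e1, e2, e3, -⟩ := h t ht1
    simp only [g, Prod.mk.injEq] at ht2
    refine ⟨y t, e1, e2, e3, ?_, ?_⟩
    · exact (ZMod.intCast_eq_intCast_iff_dvd_sub _ _ _).1 ht2.1.symm
    · exact (ZMod.intCast_eq_intCast_iff_dvd_sub _ _ _).1 ht2.2.symm
  refine h1.trans (Nat.mul_le_mul_left _ ?_)
  refine (Finset.card_le_card ?_).trans
    (card_curve_le fun a => (F.map (Int.castRingHom (ZMod q))).eval a)
  intro ab hab
  obtain ⟨t, ht, rfl⟩ := Finset.mem_image.1 hab
  rw [Finset.mem_filter]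
  refine ⟨Finset.mem_univ _, ?_⟩
  have e3 := (h t ht).2.2.1
  simp only [g]
  have e4 : (F.map (Int.castRingHom (ZMod q))).eval (t : ZMod q) = ((F.eval t : ℤ) : ZMod q) := by
    rw [← eq_intCast (Int.castRingHom (ZMod q)) t, eval_map_apply]
    rfl
  rw [e4, ← e3]
  push_cast
  ring

/-- Primes in geometric progression. -/
theorem exists_primes (N : ℕ) (hN : N ≠ 0) : ∃ p : ℕ → ℕ, (∀ j, (p j).Prime) ∧
    (∀ j, N < p j) ∧ (∀ j, p j ≤ 2 ^ (j + 1) * N) ∧ StrictMono p := by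
  have hstep : ∀ m : ℕ, ∃ p, m ≠ 0 → (p.Prime ∧ m < p ∧ p ≤ 2 * m) := by
    intro m
    by_cases hm : m = 0
    · exact ⟨0, fun h => absurd hm h⟩
    · obtain ⟨p, hp⟩ := Nat.exists_prime_lt_and_le_two_mul m hm
      exact ⟨p, fun _ => hp⟩
  choose f hf using hstep
  let p : ℕ → ℕ := fun j => f^[j + 1] N
  have hp0 : ∀ j, p (j + 1) = f (p j) := fun j => Function.iterate_succ_apply' f (j + 1) N
  have key : ∀ j, (p j).Prime ∧ N < p j ∧ p j ≤ 2 ^ (j + 1) * N := by
    intro j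
    induction j with
    | zero =>
      have := hf N hN
      simpa [p] using this
    | succ j ih =>
      obtain ⟨i1, i2, i3⟩ := ih
      have := hf (p j) i1.ne_zero
      rw [hp0]
      refine ⟨this.1, i2.trans this.2.1, this.2.2.trans ?_⟩
      calc 2 * p j ≤ 2 * (2 ^ (j + 1) * N) := Nat.mul_le_mul_left _ i3
        _ = _ := by ring
  refine ⟨p, fun j => (key j).1, fun j => (key j).2.1, fun j => (key j).2.2, ?_⟩
  apply strictMono_nat_of_lt_succ
  intro j
  rw [hp0]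
  exact (hf (p j) (key j).1.ne_zero).2.1

end Pool.Agent.Lib.MP_695920_nt.TT
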