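import Mathlib

/-! # Square roots of a polynomial in one residue class -/

namespace Pool.Agent.Lib.MP_695920_nt.TT

open Polynomial

theorem eval_dvd_sub (F : ℤ[X]) {q a b : ℤ} (h : q ∣ a - b) : q ∣ F.eval a - F.eval b :=
  h.trans (sub_dvd_eval_sub a b F)

/-- Modulo `q ^ W` the value `y` is a polynomial in `t`, for all points `y ^ 2 = F t` in one
residue class modulo `q` on which `2 y` is not divisible by `q`. -/
theorem exists_sqrt_poly {q : ℤ} (hq : Prime q) (F : ℤ[X]) {t0 y0 : ℤ}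
    (h0 : q ∣ y0 ^ 2 - F.eval t0) (h2 : ¬ q ∣ 2 * y0) (W : ℕ) :
    ∃ G : ℤ[X], ∀ t y : ℤ, q ∣ t - t0 → q ∣ y - y0 → y ^ 2 = F.eval t →
      q ^ W ∣ y - G.eval t := by
  have hcop : IsCoprime q (2 * y0) := (Prime.coprime_iff_not_dvd hq).2 h2
  obtain ⟨a, c, hac⟩ := hcop
  have hc : q ∣ 1 - 2 * y0 * c := ⟨a, by linear_combination -hac⟩
  have key : ∀ W : ℕ, ∃ G : ℤ[X], ∀ t : ℤ, q ∣ t - t0 → q ∣ G.eval t - y0 ∧
      q ^ (W + 1) ∣ (G.eval t) ^ 2 - F.eval t := by
    intro W
    induction W with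
    | zero =>
      refine ⟨C y0, fun t ht => ⟨by simp, ?_⟩⟩
      have h1 := eval_dvd_sub F ht
      have h3 : (eval t (C y0)) ^ 2 - F.eval t = (y0 ^ 2 - F.eval t0) - (F.eval t - F.eval t0) := by
        simp
      rw [h3, zero_add, pow_one]
      exact dvd_sub h0 h1
    | succ W ih =>
      obtain ⟨G, hG⟩ := ih
      refine ⟨G - C c * (G ^ 2 - F), fun t ht => ?_⟩
      obtain ⟨h1, h3⟩ := hG t ht
      obtain ⟨E, hE⟩ : ∃ E, E = (G.eval t) ^ 2 - F.eval t := ⟨_, rfl⟩
      have hq1 : q ∣ E := by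
        rw [hE]
        exact (dvd_pow_self q (Nat.succ_ne_zero W)).trans h3
      have e1 : eval t (G - C c * (G ^ 2 - F)) = G.eval t - c * E := by
        simp [hE]
      rw [e1]
      constructor
      · have : G.eval t - c * E - y0 = (G.eval t - y0) - c * E := by ring
        rw [this]
        exact dvd_sub h1 (hq1.mul_left c)
      · have e2 : (G.eval t - c * E) ^ 2 - F.eval t =
            E * (1 - 2 * c * G.eval t) + c ^ 2 * (E * E) := by
          rw [hE]
          ring
        rw [e2]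
        rw [← hE] at h3
        apply dvd_add
        · rw [pow_succ]
          apply mul_dvd_mul h3
          have : 1 - 2 * c * G.eval t = (1 - 2 * y0 * c) - 2 * c * (G.eval t - y0) := by ring
          rw [this]
          exact dvd_sub hc (h1.mul_left _)
        · apply Dvd.dvd.mul_left
          rw [pow_succ]
          exact mul_dvd_mul h3 hq1
  obtain ⟨G, hG⟩ := key W
  refine ⟨G, fun t y ht hy hty => ?_⟩
  obtain ⟨h1, h3⟩ := hG t ht
  rw [← hty] at h3
  have h4 : ¬ q ∣ y + G.eval t := by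
    intro h
    apply h2
    have : 2 * y0 = (y + G.eval t) - (y - y0) - (G.eval t - y0) := by ring
    rw [this]
    exact dvd_sub (dvd_sub h hy) h1
  have h5 : IsCoprime (q ^ W) (y + G.eval t) := ((Prime.coprime_iff_not_dvd hq).2 h4).pow_left
  apply h5.dvd_of_dvd_mul_right
  have h6 : (y - G.eval t) * (y + G.eval t) = -((G.eval t) ^ 2 - y ^ 2) := by ring
  rw [h6]
  exact (Dvd.dvd.trans (pow_dvd_pow q (Nat.le_succ W)) h3).neg_right

end Pool.Agent.Lib.MP_695920_nt.TT
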