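import Pool.Agent.Lib.MP_695920_nt.TT.DetDvd
import Pool.Agent.Lib.MP_695920_nt.TT.Hensel

/-! # Integral points on `y ^ 2 = F t` in one residue class -/

namespace Pool.Agent.Lib.MP_695920_nt.TT

open Polynomial

theorem det_sub_dvd {s : ℕ} (A B : Matrix (Fin s) (Fin s) ℤ) (d : ℤ)
    (h : ∀ i j, d ∣ A i j - B i j) : d ∣ A.det - B.det := by
  have h1 : (Ideal.Quotient.mk (Ideal.span {d})).mapMatrix A =
      (Ideal.Quotient.mk (Ideal.span {d})).mapMatrix B := by
    ext i j
    simp only [RingHom.mapMatrix_apply, Matrix.map_apply]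
    rw [Ideal.Quotient.eq, Ideal.mem_span_singleton]
    exact h i j
  have h2 := congrArg Matrix.det h1
  rw [← RingHom.map_det, ← RingHom.map_det, Ideal.Quotient.eq, Ideal.mem_span_singleton] at h2
  exact h2

/-- A determinant with columns bounded by `b j` is at most `s! ∏ b j`. -/
theorem abs_det_le {s : ℕ} (A : Matrix (Fin s) (Fin s) ℝ) (b : Fin s → ℝ) (hb : ∀ j, 0 < b j)
    (h : ∀ i j, |A i j| ≤ b j) : |A.det| ≤ (s.factorial : ℝ) * ∏ j, b j := by
  let A' : Matrix (Fin s) (Fin s) ℝ := Matrix.of fun i j => A i j / b j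
  have h1 : A = Matrix.of fun i j => b j * A' i j := by
    ext i j
    simp only [A', Matrix.of_apply]
    have := (hb j).ne'
    field_simp
  have h2 : A.det = (∏ j, b j) * A'.det := by
    conv_lhs => rw [h1]
    exact Matrix.det_mul_row b A'
  have h3 : |A'.det| ≤ (s.factorial : ℝ) := by
    have := Matrix.det_le (A := A') (abv := AbsoluteValue.abs) (x := (1 : ℝ)) (by
      intro i j
      simp only [A', Matrix.of_apply, AbsoluteValue.abs_apply]
      rw [abs_div, abs_of_pos (hb j), div_le_one (hb j)]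
      exact h i j)
    simpa using this
  rw [h2, abs_mul, abs_of_pos (Finset.prod_pos fun j _ => hb j), mul_comm]
  exact mul_le_mul_of_nonneg_right h3 (Finset.prod_nonneg fun j _ => (hb j).le)

/-- The monomials `t ^ a`, `t ^ a y` for `a < k`. -/
def mono (k : ℕ) {R : Type*} [CommRing R] (t y : R) : Fin (k + k) → R :=
  Fin.addCases (fun a => t ^ (a : ℕ)) (fun a => t ^ (a : ℕ) * y)

theorem mono_left {k : ℕ} {R : Type*} [CommRing R] (t y : R) (a : Fin k) :
    mono k t y (Fin.castAdd k a) = t ^ (a : ℕ) := by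
  simp only [mono, Fin.addCases_left]

theorem mono_right {k : ℕ} {R : Type*} [CommRing R] (t y : R) (a : Fin k) :
    mono k t y (Fin.natAdd k a) = t ^ (a : ℕ) * y := by
  simp only [mono, Fin.addCases_right]

theorem mono_map {k : ℕ} {R S : Type*} [CommRing R] [CommRing S] (φ : R →+* S) (t y : R)
    (j : Fin (k + k)) : φ (mono k t y j) = mono k (φ t) (φ y) j := by
  refine Fin.addCases (fun a => ?_) (fun a => ?_) j
  · rw [mono_left, mono_left, map_pow]
  · rw [mono_right, mono_right, map_mul, map_pow]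

theorem prod_mono {k : ℕ} (T Z : ℝ) :
    ∏ j, mono k T Z j = T ^ (k * (k - 1)) * Z ^ k := by
  have h1 : ∏ j, mono k T Z j = (∏ a : Fin k, T ^ (a : ℕ)) * ∏ a : Fin k, (T ^ (a : ℕ) * Z) := by
    rw [Fin.prod_univ_add]
    simp only [mono_left, mono_right]
  have h2 : ∏ a : Fin k, T ^ (a : ℕ) = T ^ (k * (k - 1) / 2) := by
    rw [Finset.prod_pow_eq_pow_sum, Fin.sum_univ_eq_sum_range (fun i => i), Finset.sum_range_id]
  have h3 : 2 ∣ k * (k - 1) := by
    rcases k with _ | k
    · simp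
    · simpa [mul_comm] using (Nat.even_mul_succ_self k).two_dvd
  rw [h1, Finset.prod_mul_distrib, h2, Finset.prod_const, Finset.card_univ, Fintype.card_fin,
    ← mul_assoc, ← pow_add]
  congr 2
  omega

/-- The minors of the matrix of monomials vanish for points in one class. -/
theorem minor_zero {k : ℕ} (F : ℤ[X]) {q : ℕ} (hq : q.Prime) {T Z : ℝ} (hT : 1 ≤ T) (hZ : 1 ≤ Z)
    (hsize : ((k + k).factorial : ℝ) * (T ^ (k * (k - 1)) * Z ^ k) <
      (q : ℝ) ^ ((k + k) * (k + k - 1) / 2))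
    {t0 y0 : ℤ} (h2 : ¬ (q : ℤ) ∣ 2 * y0) (t y : Fin (k + k) → ℤ)
    (h : ∀ i, |(t i : ℝ)| ≤ T ∧ |(y i : ℝ)| ≤ Z ∧ (y i) ^ 2 = F.eval (t i) ∧
      (q : ℤ) ∣ t i - t0 ∧ (q : ℤ) ∣ y i - y0) :
    (Matrix.of fun i j => mono k (t i) (y i) j).det = 0 := by
  rcases Nat.eq_zero_or_pos k with hk | hk
  · subst hk
    exfalso
    simp at hsize
  have hq' : Prime (q : ℤ) := Nat.prime_iff_prime_int.1 hq
  let i0 : Fin (k + k) := ⟨0, by omega⟩
  have h0 : (q : ℤ) ∣ y0 ^ 2 - F.eval t0 := by
    obtain ⟨-, -, e1, e2, e3⟩ := h i0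
    have a1 := eval_dvd_sub F e2
    have a2 : y0 ^ 2 - F.eval t0 = (F.eval (t i0) - F.eval t0) - (y i0 - y0) * (y i0 + y0) := by
      rw [← e1]
      ring
    rw [a2]
    exact dvd_sub a1 (e3.mul_right _)
  set W := (k + k) * (k + k - 1) / 2 with hW
  obtain ⟨G, hG⟩ := exists_sqrt_poly hq' F h0 h2 W
  let hh : Fin (k + k) → ℤ[X] := Fin.addCases (fun a => X ^ (a : ℕ)) (fun a => X ^ (a : ℕ) * G)
  have d1 := det_dvd (q : ℤ) (k + k) hh t (fun i j => by
    have := dvd_sub (h i).2.2.2.1 (h j).2.2.2.1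
    simpa using this)
  have d2 : (q : ℤ) ^ W ∣ (Matrix.of fun i j => mono k (t i) (y i) j).det -
      (Matrix.of fun i j => (hh j).eval (t i)).det := by
    apply det_sub_dvd
    intro i j
    obtain ⟨-, -, e1, e2, e3⟩ := h i
    have e4 := hG (t i) (y i) e2 e3 e1
    refine Fin.addCases (fun a => ?_) (fun a => ?_) j
    · simp [mono, hh]
    · simp only [mono, hh, Matrix.of_apply, Fin.addCases_right, eval_mul, eval_pow, eval_X]
      rw [← mul_sub]
      exact e4.mul_left _
  have d3 : (q : ℤ) ^ W ∣ (Matrix.of fun i j => mono k (t i) (y i) j).det := by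
    have := dvd_add d2 d1
    rwa [sub_add_cancel] at this
  by_contra hne
  have d4 : ((q : ℤ) ^ W : ℤ) ≤ |(Matrix.of fun i j => mono k (t i) (y i) j).det| :=
    Int.le_of_dvd (abs_pos.2 hne) ((dvd_abs _ _).2 d3)
  have d5 : (q : ℝ) ^ W ≤ |(((Matrix.of fun i j => mono k (t i) (y i) j).det : ℤ) : ℝ)| := by
    have : (((q : ℤ) ^ W : ℤ) : ℝ) ≤
        ((|(Matrix.of fun i j => mono k (t i) (y i) j).det| : ℤ) : ℝ) := Int.cast_le.2 d4
    rw [Int.cast_abs] at this
    simpa using this
  have d6 : (((Matrix.of fun i j => mono k (t i) (y i) j).det : ℤ) : ℝ) =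
      (Matrix.of fun i j => mono k (t i : ℝ) (y i : ℝ) j).det := by
    have := RingHom.map_det (Int.castRingHom ℝ) (Matrix.of fun i j => mono k (t i) (y i) j)
    rw [eq_intCast] at this
    rw [this]
    congr 1
    ext i j
    simp only [RingHom.mapMatrix_apply, Matrix.map_apply, Matrix.of_apply]
    rw [mono_map]
    rfl
  have d7 := abs_det_le (Matrix.of fun i j => mono k (t i : ℝ) (y i : ℝ) j) (mono k T Z)
    (by
      intro j
      refine Fin.addCases (fun a => ?_) (fun a => ?_) j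
      · simp only [mono, Fin.addCases_left]
        positivity
      · simp only [mono, Fin.addCases_right]
        positivity)
    (by
      intro i j
      obtain ⟨e1, e2, -⟩ := h i
      refine Fin.addCases (fun a => ?_) (fun a => ?_) j
      · simp only [mono, Matrix.of_apply, Fin.addCases_left, abs_pow]
        exact pow_le_pow_left₀ (abs_nonneg _) e1 _
      · simp only [mono, Matrix.of_apply, Fin.addCases_right, abs_mul, abs_pow]
        exact mul_le_mul (pow_le_pow_left₀ (abs_nonneg _) e1 _) e2 (abs_nonneg _) (by positivity))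
  rw [prod_mono] at d7
  rw [d6] at d5
  linarith

end Pool.Agent.Lib.MP_695920_nt.TT
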