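import Pool.Agent.Lib.MP_695920_nt.TT.BPClass

/-! # Few integral points on `y ^ 2 = F t` in one residue class -/

namespace Pool.Agent.Lib.MP_695920_nt.TT

open Polynomial

/-- `A ^ 2 = B ^ 2 F` is impossible for `F` of odd degree. -/
theorem sq_ne {F A B : ℚ[X]} (hF : Odd F.natDegree) (h : A ^ 2 = B ^ 2 * F) : A = 0 ∧ B = 0 := by
  by_cases hB : B = 0
  · subst hB
    simp at h
    exact ⟨h, rfl⟩
  · exfalso
    have hF0 : F ≠ 0 := by
      rintro rfl
      simp at hF
    have hA : A ≠ 0 := by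
      rintro rfl
      have : B ^ 2 * F = 0 := by rw [← h]; simp
      rcases mul_eq_zero.1 this with h1 | h1
      · exact hB (pow_eq_zero_iff (by norm_num) |>.1 h1)
      · exact hF0 h1
    have h1 := congrArg natDegree h
    rw [natDegree_pow, natDegree_mul (pow_ne_zero _ hB) hF0, natDegree_pow] at h1
    obtain ⟨m, hm⟩ := hF
    omega

/-- Points with all minors zero lie on a curve `A(t) + B(t) y = 0`. -/
theorem exists_AB {k : ℕ} (P : Set (ℚ × ℚ))
    (hP : ∀ p : Fin (k + k) → ℚ × ℚ, (∀ i, p i ∈ P) →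
      (Matrix.of fun i j => mono k (p i).1 (p i).2 j).det = 0) :
    ∃ A B : ℚ[X], (A ≠ 0 ∨ B ≠ 0) ∧ A.degree < k ∧ B.degree < k ∧
      ∀ p ∈ P, A.eval p.1 + B.eval p.1 * p.2 = 0 := by
  classical
  let v : ℚ × ℚ → (Fin (k + k) → ℚ) := fun p => mono k p.1 p.2
  have hlt : Submodule.span ℚ (v '' P) < ⊤ := by
    rw [lt_top_iff_ne_top]
    intro htop
    obtain ⟨b, hb1, hb2, hb3⟩ := exists_linearIndependent ℚ (v '' P)
    have hb4 : ⊤ ≤ Submodule.span ℚ (Set.range ((↑) : b → (Fin (k + k) → ℚ))) := by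
      rw [Subtype.range_coe, hb2, htop]
    let bas := Module.Basis.mk hb3 hb4
    have hcard : Nat.card b = k + k := by
      rw [← Module.finrank_eq_nat_card_basis bas, Module.finrank_fin_fun]
    have : Finite b := Module.Finite.finite_basis bas
    let e : Fin (k + k) ≃ b := (Finite.equivFinOfCardEq hcard).symm
    have hmem : ∀ i : Fin (k + k), ∃ p ∈ P, v p = (e i : Fin (k + k) → ℚ) := by
      intro i
      obtain ⟨p, hp, hp'⟩ := hb1 (e i).2
      exact ⟨p, hp, hp'⟩
    choose p hp hpe using hmem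
    have h0 := hP p hp
    have hli : LinearIndependent ℚ (fun i : Fin (k + k) => (e i : Fin (k + k) → ℚ)) :=
      hb3.comp e e.injective
    have hM : (Matrix.of fun i j => mono k (p i).1 (p i).2 j) =
        Matrix.of (fun i : Fin (k + k) => (e i : Fin (k + k) → ℚ)) := by
      ext i j
      simp only [Matrix.of_apply]
      rw [← hpe i]
    have hli' : LinearIndependent ℚ (Matrix.row
        (Matrix.of (fun i : Fin (k + k) => (e i : Fin (k + k) → ℚ)))) := hli
    rw [Matrix.linearIndependent_rows_iff_isUnit, Matrix.isUnit_iff_isUnit_det, ← hM, h0] at hli'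
    simp at hli'
  obtain ⟨φ, hφ0, hφ⟩ := Submodule.exists_le_ker_of_lt_top _ hlt
  let c : Fin (k + k) → ℚ := fun j => φ fun i => if j = i then 1 else 0
  have hφc : ∀ w : Fin (k + k) → ℚ, φ w = ∑ j, w j * c j := by
    intro w
    rw [LinearMap.pi_apply_eq_sum_univ φ w]
    rfl
  let A : ℚ[X] := ∑ a : Fin k, C (c (Fin.castAdd k a)) * X ^ (a : ℕ)
  let B : ℚ[X] := ∑ a : Fin k, C (c (Fin.natAdd k a)) * X ^ (a : ℕ)
  have hA : ∀ a : Fin k, A.coeff a = c (Fin.castAdd k a) := by
    intro a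
    simp only [A, finset_sum_coeff, coeff_C_mul_X_pow]
    rw [Finset.sum_eq_single a]
    · simp
    · intro b _ hb
      rw [if_neg]
      intro h
      exact hb (Fin.ext h.symm)
    · simp
  have hB : ∀ a : Fin k, B.coeff a = c (Fin.natAdd k a) := by
    intro a
    simp only [B, finset_sum_coeff, coeff_C_mul_X_pow]
    rw [Finset.sum_eq_single a]
    · simp
    · intro b _ hb
      rw [if_neg]
      intro h
      exact hb (Fin.ext h.symm)
    · simp
  have hdeg : ∀ d : Fin k → ℚ, (∑ a : Fin k, C (d a) * X ^ (a : ℕ) : ℚ[X]).degree < k := by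
    intro d
    rw [← mem_degreeLT]
    apply Submodule.sum_mem
    intro a _
    rw [mem_degreeLT]
    refine (degree_C_mul_X_pow_le _ _).trans_lt ?_
    exact_mod_cast a.2
  refine ⟨A, B, ?_, hdeg _, hdeg _, ?_⟩
  · by_contra hcon
    push Not at hcon
    apply hφ0
    ext w
    rw [LinearMap.comp_apply, hφc]
    simp only [LinearMap.zero_comp, LinearMap.zero_apply]
    apply Finset.sum_eq_zero
    intro j _
    have : c j = 0 := by
      refine Fin.addCases (fun a => ?_) (fun a => ?_) j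
      · rw [← hA a, hcon.1]
        simp
      · rw [← hB a, hcon.2]
        simp
    rw [this, mul_zero]
  · intro p hp
    have h1 : φ (v p) = 0 := hφ (Submodule.subset_span ⟨p, hp, rfl⟩)
    rw [hφc, Fin.sum_univ_add] at h1
    simp only [v, mono_left, mono_right] at h1
    have h2 : A.eval p.1 = ∑ a : Fin k, p.1 ^ (a : ℕ) * c (Fin.castAdd k a) := by
      simp only [A, eval_finset_sum, eval_mul, eval_C, eval_pow, eval_X]
      exact Finset.sum_congr rfl fun a _ => mul_comm _ _
    have h3 : B.eval p.1 * p.2 = ∑ a : Fin k, p.1 ^ (a : ℕ) * p.2 * c (Fin.natAdd k a) := by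
      simp only [B, eval_finset_sum, eval_mul, eval_C, eval_pow, eval_X, Finset.sum_mul]
      exact Finset.sum_congr rfl fun a _ => by ring
    rw [h2, h3]
    exact h1

/-- A residue class modulo a large prime contains few points. -/
theorem class_card {k : ℕ} (F : ℤ[X]) (hF : Odd F.natDegree) {q : ℕ} (hq : q.Prime) {T Z : ℝ}
    (hT : 1 ≤ T) (hZ : 1 ≤ Z)
    (hsize : ((k + k).factorial : ℝ) * (T ^ (k * (k - 1)) * Z ^ k) <
      (q : ℝ) ^ ((k + k) * (k + k - 1) / 2))
    {t0 y0 : ℤ} (h2 : ¬ (q : ℤ) ∣ 2 * y0) (P : Finset ℤ)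
    (h : ∀ t ∈ P, ∃ y : ℤ, |(t : ℝ)| ≤ T ∧ |(y : ℝ)| ≤ Z ∧ y ^ 2 = F.eval t ∧
      (q : ℤ) ∣ t - t0 ∧ (q : ℤ) ∣ y - y0) : P.card ≤ 2 * k + F.natDegree := by
  classical
  choose! y hy using h
  let S : Set (ℚ × ℚ) := (fun t : ℤ => ((t : ℚ), (y t : ℚ))) '' P
  obtain ⟨A, B, hAB, dA, dB, hS⟩ := exists_AB (k := k) S (by
    intro p hp
    choose t ht htp using hp
    have h1 := minor_zero F hq hT hZ hsize h2 t (fun i => y (t i)) (fun i => hy (t i) (ht i))
    have h3 := congrArg (Int.castRingHom ℚ) h1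
    rw [RingHom.map_det, map_zero] at h3
    rw [← h3]
    congr 1
    ext i j
    simp only [RingHom.mapMatrix_apply, Matrix.map_apply, Matrix.of_apply]
    rw [mono_map, ← htp i]
    rfl)
  let G : ℚ[X] := A ^ 2 - B ^ 2 * F.map (Int.castRingHom ℚ)
  have hFd : (F.map (Int.castRingHom ℚ)).natDegree = F.natDegree :=
    natDegree_map_eq_of_injective Int.cast_injective F
  have hG0 : G ≠ 0 := by
    intro hG
    have h1 : A ^ 2 = B ^ 2 * F.map (Int.castRingHom ℚ) := sub_eq_zero.1 hG
    have h3 := sq_ne (by rw [hFd]; exact hF) h1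
    rcases hAB with h4 | h4
    · exact h4 h3.1
    · exact h4 h3.2
  have hroot : ∀ t ∈ P, G.IsRoot (t : ℚ) := by
    intro t ht
    have h1 := hS ((t : ℚ), (y t : ℚ)) ⟨t, ht, rfl⟩
    simp only at h1
    have h3 : ((y t : ℚ)) ^ 2 = (F.map (Int.castRingHom ℚ)).eval (t : ℚ) := by
      have := (hy t ht).2.2.1
      have h4 : (F.map (Int.castRingHom ℚ)).eval (t : ℚ) = ((F.eval t : ℤ) : ℚ) := by
        rw [← eq_intCast (Int.castRingHom ℚ) t, eval_map_apply]
        rfl
      rw [h4, ← this]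
      push_cast
      ring
    simp only [IsRoot, G, eval_sub, eval_mul, eval_pow]
    rw [← h3]
    linear_combination (A.eval (t : ℚ) - B.eval (t : ℚ) * (y t : ℚ)) * h1
  have hdA : A.natDegree ≤ k := by
    rcases eq_or_ne A 0 with h1 | h1
    · simp [h1]
    · exact ((natDegree_lt_iff_degree_lt h1).2 dA).le
  have hdB : B.natDegree ≤ k := by
    rcases eq_or_ne B 0 with h1 | h1
    · simp [h1]
    · exact ((natDegree_lt_iff_degree_lt h1).2 dB).le
  have hGd : G.natDegree ≤ 2 * k + F.natDegree := by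
    refine (natDegree_sub_le _ _).trans (max_le ?_ ?_)
    · rw [natDegree_pow]
      omega
    · refine natDegree_mul_le.trans ?_
      rw [natDegree_pow, hFd]
      omega
  have hinj : (P.image (fun t : ℤ => (t : ℚ))).card = P.card :=
    Finset.card_image_of_injective _ Int.cast_injective
  rw [← hinj]
  calc (P.image (fun t : ℤ => (t : ℚ))).card ≤ G.roots.toFinset.card := by
        apply Finset.card_le_card
        intro x hx
        obtain ⟨t, ht, rfl⟩ := Finset.mem_image.1 hx
        rw [Multiset.mem_toFinset, mem_roots hG0]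
        exact hroot t ht
    _ ≤ Multiset.card G.roots := Multiset.toFinset_card_le _
    _ ≤ G.natDegree := card_roots' G
    _ ≤ _ := hGd

end Pool.Agent.Lib.MP_695920_nt.TT
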