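import Pool.Agent.Lib.MP_695920_nt.TT.BP

/-! # The bound of Bombieri and Pila for `y ^ 2 = F t`: conclusion -/

namespace Pool.Agent.Lib.MP_695920_nt.TT

open Polynomial

theorem card_zero_le (F : ℤ[X]) (hF : F ≠ 0) (P : Finset ℤ) (h : ∀ t ∈ P, F.eval t = 0) :
    P.card ≤ F.natDegree := by
  classical
  calc P.card ≤ F.roots.toFinset.card := by
        apply Finset.card_le_card
        intro t ht
        rw [Multiset.mem_toFinset, mem_roots hF]
        exact h t ht
    _ ≤ Multiset.card F.roots := Multiset.toFinset_card_le _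
    _ ≤ F.natDegree := card_roots' _

theorem size_aux {k : ℕ} (hk : 1 ≤ k) {c A B q T Z : ℝ} (hc : 1 ≤ c) (hA : 1 ≤ A) (hB : 1 ≤ B)
    (hT : A ^ 2 = T) (hZ : B ^ (2 * k - 1) = Z) (hq : c * (A * B) < q) :
    c * (T ^ (k * (k - 1)) * Z ^ k) < q ^ ((k + k) * (k + k - 1) / 2) := by
  have e : (k + k) * (k + k - 1) / 2 = k * (2 * k - 1) := by
    have : (k + k) * (k + k - 1) = 2 * (k * (2 * k - 1)) := by
      rw [← two_mul]
      ring
    rw [this, Nat.mul_div_cancel_left _ (by norm_num)]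
  have hE : 1 ≤ k * (2 * k - 1) := Nat.one_le_iff_ne_zero.2 (by
    apply Nat.mul_ne_zero <;> omega)
  rw [e]
  calc c * (T ^ (k * (k - 1)) * Z ^ k) ≤ c ^ (k * (2 * k - 1)) *
        (A ^ (k * (2 * k - 1)) * B ^ (k * (2 * k - 1))) := by
        apply mul_le_mul
        · exact le_self_pow₀ hc (by omega)
        · apply mul_le_mul
          · rw [← hT, ← pow_mul]
            apply pow_le_pow_right₀ hA
            obtain ⟨m, rfl⟩ : ∃ m, k = m + 1 := ⟨k - 1, by omega⟩
            have : 2 * (m + 1) - 1 = 2 * m + 1 := by omega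
            rw [this]
            simp only [Nat.add_sub_cancel]
            nlinarith
          · rw [← hZ, ← pow_mul, mul_comm (2 * k - 1) k]
          · rw [← hZ]
            positivity
          · positivity
        · rw [← hT, ← hZ]
          positivity
        · positivity
    _ = (c * (A * B)) ^ (k * (2 * k - 1)) := by rw [mul_pow, mul_pow]
    _ < q ^ (k * (2 * k - 1)) := pow_lt_pow_left₀ hq (by positivity) (by omega)

theorem bp_k {k : ℕ} (hk : 1 ≤ k) (F : ℤ[X]) (hF : Odd F.natDegree) {T Y : ℝ} (hT : 1 ≤ T)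
    (hY : 1 ≤ Y) (P : Finset ℤ)
    (h : ∀ t ∈ P, |(t : ℝ)| ≤ T ∧ |((F.eval t : ℤ) : ℝ)| ≤ Y ∧ IsSquare (F.eval t)) :
    (P.card : ℝ) ≤ (F.natDegree + (2 * k + F.natDegree) * (2 * 2 ^ (2 * k + 1)) *
      (2 * ((k + k).factorial : ℝ))) * (√T * Y ^ (1 / (4 * (k : ℝ) - 2))) := by
  classical
  have hk' : (1 : ℝ) ≤ k := by exact_mod_cast hk
  have hF0 : F ≠ 0 := by
    rintro rfl
    simp at hF
  have hs : ∀ t : ℤ, ∃ y : ℤ, t ∈ P → y ^ 2 = F.eval t := by
    intro t
    by_cases ht : t ∈ P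
    · obtain ⟨y, hy⟩ := (h t ht).2.2
      exact ⟨y, fun _ => by rw [hy]; ring⟩
    · exact ⟨0, fun h => absurd h ht⟩
  choose y hy using hs
  set A := √T with hA
  set B := Y ^ (1 / (4 * (k : ℝ) - 2)) with hB
  have hA1 : 1 ≤ A := Real.one_le_sqrt.2 hT
  have hA2 : A ^ 2 = T := Real.sq_sqrt (by linarith)
  have hB1 : 1 ≤ B := Real.one_le_rpow hY (by apply div_nonneg <;> linarith)
  have hBZ : B ^ (2 * k - 1) = √Y := by
    rw [hB, ← Real.rpow_natCast, ← Real.rpow_mul (by linarith), Real.sqrt_eq_rpow]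
    congr 1
    rw [Nat.cast_sub (by omega)]
    push_cast
    have : (4 * (k : ℝ) - 2) ≠ 0 := by linarith
    field_simp
    ring
  have hZ1 : 1 ≤ √Y := Real.one_le_sqrt.2 hY
  set c : ℝ := ((k + k).factorial : ℝ) with hc
  have hc2 : 2 ≤ c := by
    have : (2 : ℕ) ≤ (k + k).factorial := by
      calc 2 = Nat.factorial 2 := rfl
        _ ≤ (k + k).factorial := Nat.factorial_le (by omega)
    rw [hc]
    exact_mod_cast this
  set Q := c * (A * B) with hQ
  have hAB : 1 ≤ A * B := one_le_mul_of_one_le_of_one_le hA1 hB1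
  have hQ2 : 2 ≤ Q := by nlinarith
  set N := ⌈Q⌉₊ with hN
  have hN0 : N ≠ 0 := by
    have := Nat.ceil_pos.2 (show 0 < Q by linarith)
    omega
  have hNQ : Q ≤ N := Nat.le_ceil Q
  have hNQ2 : (N : ℝ) ≤ 2 * Q := by
    have := Nat.ceil_lt_add_one (show 0 ≤ Q by linarith)
    linarith
  obtain ⟨p, hp1, hp2, hp3, hp4⟩ := exists_primes N hN0
  have hpQ : ∀ j, Q < p j := fun j => hNQ.trans_lt (by exact_mod_cast hp2 j)
  -- split
  set P0 := P.filter fun t => F.eval t = 0 with hP0
  set P1 := P.filter fun t => ¬ F.eval t = 0 with hP1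
  have hcard : P.card = P0.card + P1.card := (Finset.card_filter_add_card_filter_not _).symm
  have h0 : P0.card ≤ F.natDegree :=
    card_zero_le F hF0 P0 fun t ht => (Finset.mem_filter.1 ht).2
  have hyZ : ∀ t ∈ P, |(y t : ℝ)| ≤ √Y := by
    intro t ht
    apply Real.abs_le_sqrt
    have h1 := hy t ht
    have h2 := (h t ht).2.1
    have h3 : ((y t : ℝ)) ^ 2 = ((F.eval t : ℤ) : ℝ) := by
      rw [← h1]
      push_cast
      ring
    rw [h3]
    exact (le_abs_self _).trans h2
  have hex : ∀ t ∈ P1, ∃ j ∈ Finset.range (2 * k), ¬ (p j : ℤ) ∣ 2 * y t := by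
    intro t ht
    obtain ⟨ht1, ht2⟩ := Finset.mem_filter.1 ht
    by_contra hcon
    push Not at hcon
    have hy0 : y t ≠ 0 := by
      intro h0
      apply ht2
      rw [← hy t ht1, h0]
      ring
    have hdvd : ∀ j ∈ Finset.range (2 * k), (p j : ℤ) ∣ y t := by
      intro j hj
      have h1 := hcon j hj
      have h2 : IsCoprime (p j : ℤ) 2 := by
        have : Nat.Coprime (p j) 2 := by
          rw [Nat.coprime_primes (hp1 j) Nat.prime_two]
          have h3 := hpQ j
          intro h4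
          rw [h4] at h3
          norm_num at h3
          linarith
        exact_mod_cast Nat.isCoprime_iff_coprime.2 this
      exact h2.dvd_of_dvd_mul_left h1
    have hprod : (∏ j ∈ Finset.range (2 * k), (p j : ℤ)) ∣ y t := by
      apply Finset.prod_dvd_of_coprime _ hdvd
      intro i _ j _ hij
      apply Nat.isCoprime_iff_coprime.2
      rw [Nat.coprime_primes (hp1 i) (hp1 j)]
      exact fun h => hij (hp4.injective h)
    have h5 : (∏ j ∈ Finset.range (2 * k), (p j : ℤ)) ≤ |y t| :=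
      Int.le_of_dvd (abs_pos.2 hy0) ((dvd_abs _ _).2 hprod)
    have h6 : (∏ j ∈ Finset.range (2 * k), (p j : ℝ)) ≤ |(y t : ℝ)| := by
      have := (Int.cast_le (R := ℝ)).2 h5
      push_cast at this
      exact this
    have h7 : B ^ (2 * k) < ∏ j ∈ Finset.range (2 * k), (p j : ℝ) := by
      have : B ^ (2 * k) = ∏ j ∈ Finset.range (2 * k), B := by simp
      rw [this]
      apply Finset.prod_lt_prod_of_nonempty
      · intro j _
        linarith
      · intro j _
        have := hpQ j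
        nlinarith
      · exact Finset.nonempty_range_iff.2 (by omega)
    have h8 : √Y ≤ B ^ (2 * k) := by
      rw [← hBZ]
      exact pow_le_pow_right₀ hB1 (by omega)
    have := hyZ t ht1
    linarith
  have hsub : P1 ⊆ (Finset.range (2 * k)).biUnion fun j => P1.filter fun t => ¬ (p j : ℤ) ∣ 2 * y t := by
    intro t ht
    obtain ⟨j, hj, hj'⟩ := hex t ht
    exact Finset.mem_biUnion.2 ⟨j, hj, Finset.mem_filter.2 ⟨ht, hj'⟩⟩
  have h1 : (P1.card : ℝ) ≤ (2 * k + F.natDegree) * (2 * 2 ^ (2 * k + 1)) * (N : ℝ) := by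
    have e1 : P1.card ≤ ∑ j ∈ Finset.range (2 * k), (2 * k + F.natDegree) * (2 * p j) := by
      refine (Finset.card_le_card hsub).trans (Finset.card_biUnion_le.trans ?_)
      apply Finset.sum_le_sum
      intro j _
      apply prime_card F hF (hp1 j) hT hZ1 (size_aux hk (by linarith) hA1 hB1 hA2 hBZ (hpQ j))
        _ y
      intro t ht
      obtain ⟨ht1, ht2⟩ := Finset.mem_filter.1 ht
      have ht3 := (Finset.mem_filter.1 ht1).1
      exact ⟨(h t ht3).1, hyZ t ht3, hy t ht3, ht2⟩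
    have e2 : ∑ j ∈ Finset.range (2 * k), (2 * k + F.natDegree) * (2 * p j) ≤
        (2 * k + F.natDegree) * (2 * 2 ^ (2 * k + 1)) * N := by
      calc _ ≤ ∑ j ∈ Finset.range (2 * k), (2 * k + F.natDegree) * (2 * (2 ^ (j + 1) * N)) :=
            Finset.sum_le_sum fun j _ => Nat.mul_le_mul_left _ (Nat.mul_le_mul_left _ (hp3 j))
        _ = (2 * k + F.natDegree) * (2 * (2 * ∑ j ∈ Finset.range (2 * k), 2 ^ j)) * N := by
            rw [Finset.mul_sum, Finset.mul_sum, Finset.mul_sum, Finset.sum_mul]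
            apply Finset.sum_congr rfl
            intro j _
            ring
        _ ≤ _ := by
            apply Nat.mul_le_mul_right
            apply Nat.mul_le_mul_left
            apply Nat.mul_le_mul_left
            have : ∑ j ∈ Finset.range (2 * k), 2 ^ j < 2 ^ (2 * k) :=
              Nat.geomSum_lt (by norm_num) (by simp)
            rw [pow_succ]
            omega
    exact_mod_cast e1.trans e2
  have h0' : (P0.card : ℝ) ≤ F.natDegree * (A * B) := by
    have : (P0.card : ℝ) ≤ F.natDegree := by exact_mod_cast h0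
    have h2 : (0 : ℝ) ≤ F.natDegree := Nat.cast_nonneg _
    nlinarith
  have hfin : (P1.card : ℝ) ≤ (2 * k + F.natDegree) * (2 * 2 ^ (2 * k + 1)) * (2 * c) * (A * B) := by
    refine h1.trans ?_
    calc (2 * (k : ℝ) + F.natDegree) * (2 * 2 ^ (2 * k + 1)) * (N : ℝ) ≤
          (2 * (k : ℝ) + F.natDegree) * (2 * 2 ^ (2 * k + 1)) * (2 * Q) :=
          mul_le_mul_of_nonneg_left hNQ2 (by positivity)
      _ = _ := by rw [hQ]; ring
  rw [hcard]
  push_cast
  calc (P0.card : ℝ) + P1.card ≤ F.natDegree * (A * B) +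
        (2 * k + F.natDegree) * (2 * 2 ^ (2 * k + 1)) * (2 * c) * (A * B) := add_le_add h0' hfin
    _ = _ := by ring

/-- **Bombieri-Pila** for the curves `y ^ 2 = F t`, with a constant which depends only on the
degree `n` (odd) and on `ε`. -/
theorem bp (n : ℕ) (hn : Odd n) {ε : ℝ} (hε : 0 < ε) : ∃ K : ℝ, 0 < K ∧
    ∀ F : ℤ[X], F.natDegree = n → ∀ T Y : ℝ, 1 ≤ T → 1 ≤ Y → ∀ P : Finset ℤ,
      (∀ t ∈ P, |(t : ℝ)| ≤ T ∧ |((F.eval t : ℤ) : ℝ)| ≤ Y ∧ IsSquare (F.eval t)) →
      (P.card : ℝ) ≤ K * √T * Y ^ ε := by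
  obtain ⟨k, hk⟩ := exists_nat_gt (1 / ε + 1)
  have hk1 : 1 ≤ k := by
    have : (0 : ℝ) < k := by
      have : 0 < 1 / ε := by positivity
      linarith
    exact_mod_cast this
  have hk1' : (1 : ℝ) ≤ k := by exact_mod_cast hk1
  refine ⟨n + (2 * k + n) * (2 * 2 ^ (2 * k + 1)) * (2 * ((k + k).factorial : ℝ)), ?_, ?_⟩
  · have : 0 < (2 * (k : ℝ) + n) := by
      have : (0 : ℝ) ≤ n := Nat.cast_nonneg n
      linarith
    have : (0 : ℝ) ≤ n := Nat.cast_nonneg n
    positivity
  · intro F hF T Y hT hY P h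
    have h1 := bp_k hk1 F (by rw [hF]; exact hn) hT hY P h
    rw [hF] at h1
    refine h1.trans ?_
    rw [← mul_assoc]
    apply mul_le_mul_of_nonneg_left
    · apply Real.rpow_le_rpow_of_exponent_le hY
      have h2 : 1 / ε < 4 * (k : ℝ) - 2 := by linarith
      have h3 : 0 < 1 / ε := by positivity
      rw [div_le_iff₀ (by linarith)]
      have := mul_lt_mul_of_pos_left h2 hε
      rw [mul_one_div_cancel hε.ne'] at this
      linarith
    · positivity

end Pool.Agent.Lib.MP_695920_nt.TT
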