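import Mathlib

/-! # Residue classes on which a monic polynomial is divisible by a large number -/

namespace Pool.Agent.Lib.MP_695920_nt.TT

open Polynomial

theorem pow_dvd_right {p a b : ℤ} (hp : Prime p) {e m : ℕ} (ha : ¬ p ^ (m + 1) ∣ a)
    (h : p ^ e ∣ a * b) : p ^ (e - m) ∣ b := by
  have ha0 : a ≠ 0 := by
    rintro rfl
    exact ha (dvd_zero _)
  obtain ⟨k, c, hc, rfl⟩ := WfDvdMonoid.max_power_factor ha0 hp.irreducible
  have hk : k ≤ m := by
    by_contra hk
    push Not at hk
    exact ha (Dvd.dvd.mul_right (pow_dvd_pow p hk) c)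
  rcases le_total e k with h1 | h1
  · rw [Nat.sub_eq_zero_of_le (h1.trans hk)]
    simp
  · have h2 : p ^ (e - k) ∣ c * b := by
      have : p ^ e = p ^ k * p ^ (e - k) := by rw [← pow_add, Nat.add_sub_cancel' h1]
      rw [this, mul_assoc] at h
      exact (mul_dvd_mul_iff_left (pow_ne_zero k hp.ne_zero)).1 h
    have h3 : p ^ (e - k) ∣ b := hp.pow_dvd_of_dvd_mul_left (e - k) hc h2
    exact (pow_dvd_pow p (by omega)).trans h3

/-- At most `n` classes modulo `p ^ (m + 1)` if `n m < e`. -/
theorem card_le_of_pow_dvd {p : ℤ} (hp : Prime p) (m : ℕ) : ∀ (n : ℕ) (f : ℤ[X]), f.Monic →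
    f.natDegree = n → ∀ e : ℕ, n * m < e → ∀ P : Finset ℤ, (∀ x ∈ P, p ^ e ∣ f.eval x) →
    (∀ x ∈ P, ∀ y ∈ P, x ≠ y → ¬ p ^ (m + 1) ∣ x - y) → P.card ≤ n := by
  classical
  intro n
  induction n with
  | zero =>
    intro f hf hn e he P h1 _
    have hf1 : f = 1 := eq_one_of_monic_natDegree_zero hf hn
    by_contra hP
    push Not at hP
    obtain ⟨x, hx⟩ := Finset.card_pos.1 hP
    have := h1 x hx
    rw [hf1, eval_one] at this
    have h3 : p ∣ 1 := (dvd_pow_self p (by omega)).trans this
    exact hp.not_unit (isUnit_of_dvd_one h3)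
  | succ n ih =>
    intro f hf hn e he P h1 h2
    rcases P.eq_empty_or_nonempty with hP | ⟨x0, hx0⟩
    · simp [hP]
    · have hm : (X - C x0 : ℤ[X]).Monic := monic_X_sub_C x0
      set g := f /ₘ (X - C x0) with hg
      have hgd : g.natDegree = n := by
        rw [hg, natDegree_divByMonic _ hm, hn, natDegree_X_sub_C]
        simp
      have hgm : g.Monic := by
        have := leadingCoeff_divByMonic_of_monic (p := f) hm (by
          rw [degree_X_sub_C, degree_eq_natDegree hf.ne_zero, hn]
          exact_mod_cast Nat.succ_le_succ (Nat.zero_le n))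
        rw [Monic, hg, this]
        exact hf
      have hfx : ∀ x, f.eval x = (x - x0) * g.eval x + f.eval x0 := by
        intro x
        have h1 := modByMonic_add_div f (X - C x0)
        have h2 : f %ₘ (X - C x0) = C (f.eval x0) := modByMonic_X_sub_C_eq_C_eval _ _
        have h3 := congrArg (Polynomial.eval x) h1
        rw [h2] at h3
        simp only [eval_add, eval_mul, eval_sub, eval_X, eval_C] at h3
        rw [← h3]
        ring
      have h4 := ih g hgm hgd (e - m) (by
        rw [Nat.succ_mul] at he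
        omega) (P.erase x0) (by
        intro x hx
        obtain ⟨hx1, hx2⟩ := Finset.mem_erase.1 hx
        apply pow_dvd_right hp (h2 x hx2 x0 hx0 hx1)
        have : (x - x0) * g.eval x = f.eval x - f.eval x0 := by rw [hfx x]; ring
        rw [this]
        exact dvd_sub (h1 x hx2) (h1 x0 hx0))
        (by
          intro x hx y hy hxy
          exact h2 x (Finset.mem_erase.1 hx).2 y (Finset.mem_erase.1 hy).2 hxy)
      rw [Finset.card_erase_of_mem hx0] at h4
      omega

/-- The classes modulo `p ^ (m + 1)`. -/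
theorem card_image_le {p : ℕ} (hp : p.Prime) (m n : ℕ) (f : ℤ[X]) (hf : f.Monic)
    (hn : f.natDegree = n) (e : ℕ) (he : n * m < e) (P : Finset ℤ)
    (h : ∀ x ∈ P, (p : ℤ) ^ e ∣ f.eval x) :
    (P.image fun x : ℤ => (x : ZMod (p ^ (m + 1)))).card ≤ n := by
  classical
  -- choose representatives
  set I := P.image fun x : ℤ => (x : ZMod (p ^ (m + 1))) with hI
  have hrep : ∀ a ∈ I, ∃ x ∈ P, (x : ZMod (p ^ (m + 1))) = a := fun a ha => Finset.mem_image.1 ha
  choose! r hr1 hr2 using hrep
  have hinj : Set.InjOn r (I : Set (ZMod (p ^ (m + 1)))) := by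
    intro a ha b hb hab
    rw [← hr2 a ha, ← hr2 b hb, hab]
  have h1 := card_le_of_pow_dvd (Nat.prime_iff_prime_int.1 hp) m n f hf hn e he (I.image r)
    (by
      intro x hx
      obtain ⟨a, ha, rfl⟩ := Finset.mem_image.1 hx
      exact h _ (hr1 a ha))
    (by
      intro x hx y hy hxy hdvd
      obtain ⟨a, ha, rfl⟩ := Finset.mem_image.1 hx
      obtain ⟨b, hb, rfl⟩ := Finset.mem_image.1 hy
      apply hxy
      have : a = b := by
        rw [← hr2 a ha, ← hr2 b hb]
        symm
        rw [ZMod.intCast_eq_intCast_iff_dvd_sub]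
        exact_mod_cast hdvd
      rw [this])
  rwa [Finset.card_image_of_injOn hinj] at h1

/-- The modulus. -/
def modulus (n H : ℕ) : ℕ := ∏ p ∈ H.primeFactors, p ^ ((H.factorization p - 1) / n + 1)

theorem modulus_pos (n H : ℕ) : 0 < modulus n H :=
  Finset.prod_pos fun p hp => Nat.pos_of_ne_zero (pow_ne_zero _ (Nat.prime_of_mem_primeFactors hp).ne_zero)

theorem le_modulus_pow {n H : ℕ} (hn : 0 < n) (hH : H ≠ 0) : H ≤ modulus n H ^ n := by
  have h1 : H = ∏ p ∈ H.primeFactors, p ^ H.factorization p :=
    (Nat.factorization_prod_pow_eq_self hH).symm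
  conv_lhs => rw [h1]
  rw [modulus, ← Finset.prod_pow]
  apply Finset.prod_le_prod (fun _ _ => Nat.zero_le _)
  intro p hp
  rw [← pow_mul]
  apply Nat.pow_le_pow_right (Nat.prime_of_mem_primeFactors hp).pos
  have h2 : 0 < H.factorization p :=
    (Nat.prime_of_mem_primeFactors hp).factorization_pos_of_dvd hH (Nat.dvd_of_mem_primeFactors hp)
  have h3 := Nat.lt_mul_div_succ (H.factorization p - 1) hn
  rw [mul_comm] at h3
  omega

/-- The number of classes modulo `modulus n H` on which `f` is divisible by `H`. -/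
theorem card_classes {n H : ℕ} (hn : 0 < n) (hH : H ≠ 0) (f : ℤ[X]) (hf : f.Monic)
    (hfn : f.natDegree = n) (P : Finset ℤ) (h : ∀ x ∈ P, (H : ℤ) ∣ f.eval x) :
    (P.image fun x : ℤ => (x : ZMod (modulus n H))).card ≤ n ^ H.primeFactors.card := by
  classical
  let m : ℕ → ℕ := fun p => (H.factorization p - 1) / n
  let φ : ℤ → (∀ p : H.primeFactors, ZMod ((p : ℕ) ^ (m p + 1))) := fun x p => (x : ZMod _)
  have h1 : (P.image fun x : ℤ => (x : ZMod (modulus n H))).card ≤ (P.image φ).card := by
    apply Finset.card_le_card_of_surjOn (fun v => if hv : ∃ x ∈ P, φ x = v then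
      ((hv.choose : ℤ) : ZMod (modulus n H)) else 0)
    intro a ha
    obtain ⟨x, hx, rfl⟩ := Finset.mem_image.1 (Finset.mem_coe.1 ha)
    refine ⟨φ x, Finset.mem_coe.2 (Finset.mem_image_of_mem _ hx), ?_⟩
    have hv : ∃ x' ∈ P, φ x' = φ x := ⟨x, hx, rfl⟩
    simp only [dif_pos hv]
    obtain ⟨-, h2⟩ := hv.choose_spec
    symm
    rw [ZMod.intCast_eq_intCast_iff_dvd_sub, modulus]
    push_cast
    apply Finset.prod_dvd_of_coprime
    · intro p hp q hq hpq
      apply IsCoprime.pow
      apply Nat.isCoprime_iff_coprime.2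
      exact (Nat.coprime_primes (Nat.prime_of_mem_primeFactors hp)
        (Nat.prime_of_mem_primeFactors hq)).2 hpq
    · intro p hp
      have h3 := congrFun h2 ⟨p, hp⟩
      simp only [φ] at h3
      have h4 := (ZMod.intCast_eq_intCast_iff_dvd_sub _ _ _).1 h3.symm
      push_cast at h4
      exact h4
  refine h1.trans ?_
  calc (P.image φ).card ≤ (Fintype.piFinset fun p : H.primeFactors =>
        P.image fun x : ℤ => (x : ZMod ((p : ℕ) ^ (m p + 1)))).card := by
        apply Finset.card_le_card
        intro v hv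
        obtain ⟨x, hx, rfl⟩ := Finset.mem_image.1 hv
        rw [Fintype.mem_piFinset]
        intro p
        exact Finset.mem_image_of_mem _ hx
    _ = ∏ p : H.primeFactors, (P.image fun x : ℤ => (x : ZMod ((p : ℕ) ^ (m p + 1)))).card :=
        Fintype.card_piFinset _
    _ ≤ ∏ _p : H.primeFactors, n := by
        apply Finset.prod_le_prod (fun _ _ => Nat.zero_le _)
        intro p _
        have hp := Nat.prime_of_mem_primeFactors p.2
        have h2 : 0 < H.factorization p :=
          hp.factorization_pos_of_dvd hH (Nat.dvd_of_mem_primeFactors p.2)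
        apply card_image_le hp (m p) n f hf hfn (H.factorization p)
        · have h3 := Nat.div_mul_le_self (H.factorization p - 1) n
          have : n * m p ≤ H.factorization p - 1 := by
            rw [mul_comm]
            exact h3
          omega
        · intro x hx
          have h3 : (((p : ℕ) ^ H.factorization p : ℕ) : ℤ) ∣ f.eval x :=
            (Int.natCast_dvd_natCast.2 (Nat.ordProj_dvd H p)).trans (h x hx)
          exact_mod_cast h3
    _ = n ^ H.primeFactors.card := by simp

end Pool.Agent.Lib.MP_695920_nt.TT
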