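import Pool.Agent.Lib.MP_695920_nt.TT.BPMain
import Pool.Agent.Lib.MP_695920_nt.TT.Classes

/-! # Points near one root in one residue class -/

namespace Pool.Agent.Lib.MP_695920_nt.TT

open Polynomial

/-- The conclusion of `bp` for one `F`. -/
def BPBound (n : ℕ) (ε K : ℝ) : Prop :=
  ∀ F : ℤ[X], F.natDegree = n → ∀ T Y : ℝ, 1 ≤ T → 1 ≤ Y → ∀ P : Finset ℤ,
    (∀ t ∈ P, |(t : ℝ)| ≤ T ∧ |((F.eval t : ℤ) : ℝ)| ≤ Y ∧ IsSquare (F.eval t)) →
    (P.card : ℝ) ≤ K * √T * Y ^ ε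

theorem fiber_card {n : ℕ} {ε K : ℝ} (hK : 0 < K) (hbp : BPBound n ε K) (f : ℤ[X])
    (hfn : f.natDegree = n) {M : ℕ} (hM : 0 < M) {T Y : ℝ} (hT : 1 ≤ T) (hY : 1 ≤ Y)
    (P : Finset ℤ) (hmod : ∀ x ∈ P, ∀ y ∈ P, (M : ℤ) ∣ x - y)
    (hdist : ∀ x ∈ P, ∀ y ∈ P, |((x - y : ℤ) : ℝ)| ≤ T * M)
    (h : ∀ x ∈ P, |((f.eval x : ℤ) : ℝ)| ≤ Y ∧ IsSquare (f.eval x)) :
    (P.card : ℝ) ≤ K * √T * Y ^ ε := by
  classical
  rcases P.eq_empty_or_nonempty with hP | ⟨x0, hx0⟩
  · rw [hP]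
    simp only [Finset.card_empty, Nat.cast_zero]
    positivity
  · have hM' : (M : ℤ) ≠ 0 := by exact_mod_cast hM.ne'
    have hMr : (0 : ℝ) < M := by exact_mod_cast hM
    have hdiv : ∀ x ∈ P, (M : ℤ) * ((x - x0) / M) = x - x0 := fun x hx =>
      Int.mul_ediv_cancel' (hmod x hx x0 hx0)
    have hinj : Set.InjOn (fun x : ℤ => (x - x0) / (M : ℤ)) (P : Set ℤ) := by
      intro x hx y hy hxy
      have h1 := hdiv x hx
      have h2 := hdiv y hy
      simp only at hxy
      rw [hxy, h2] at h1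
      linarith
    rw [← Finset.card_image_of_injOn hinj]
    let F : ℤ[X] := f.comp (C (M : ℤ) * X + C x0)
    have hF : F.natDegree = n := by
      simp only [F]
      rw [natDegree_comp, natDegree_linear hM', mul_one, hfn]
    apply hbp F hF T Y hT hY
    intro t ht
    obtain ⟨x, hx, rfl⟩ := Finset.mem_image.1 ht
    have h1 := hdiv x hx
    have h2 : F.eval ((x - x0) / (M : ℤ)) = f.eval x := by
      simp only [F, eval_comp, eval_add, eval_mul, eval_C, eval_X]
      rw [h1]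
      congr 1
      ring
    rw [h2]
    refine ⟨?_, h x hx⟩
    have h3 : ((((x - x0) / (M : ℤ) : ℤ)) : ℝ) = ((x - x0 : ℤ) : ℝ) / M := by
      rw [eq_div_iff hMr.ne', mul_comm]
      exact_mod_cast h1
    rw [h3, abs_div, abs_of_pos hMr, div_le_iff₀ hMr]
    exact hdist x hx x0 hx0

theorem eval_eq_prod (f : ℤ[X]) (hf : f.Monic) (x : ℤ) :
    ((f.eval x : ℤ) : ℂ) = ((f.map (Int.castRingHom ℂ)).roots.map fun z => (x : ℂ) - z).prod := by
  have h1 : ((f.eval x : ℤ) : ℂ) = (f.map (Int.castRingHom ℂ)).eval (x : ℂ) := by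
    rw [← eq_intCast (Int.castRingHom ℂ) x, eval_map_apply]
    rfl
  rw [h1, (IsAlgClosed.splits (f.map (Int.castRingHom ℂ))).eval_eq_prod_roots_of_monic (hf.map _)]

theorem norm_int (a : ℤ) : ‖(a : ℂ)‖ = |(a : ℝ)| := by
  rw [← Complex.ofReal_intCast, Complex.norm_real, Real.norm_eq_abs]

theorem lt_norm_multiset_prod {s : Multiset ℂ} {B : ℝ} (hB : 0 ≤ B) (hs : 0 < Multiset.card s)
    (h : ∀ z ∈ s, B < ‖z‖) : B ^ Multiset.card s < ‖s.prod‖ := by
  induction s using Multiset.induction_on with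
  | empty => simp at hs
  | cons a s ih =>
    rw [Multiset.prod_cons, norm_mul, Multiset.card_cons, pow_succ, mul_comm]
    have ha := h a (Multiset.mem_cons_self a s)
    rcases Nat.eq_zero_or_pos (Multiset.card s) with h0 | h0
    · rw [Multiset.card_eq_zero] at h0
      subst h0
      simpa using ha
    · have h1 := ih h0 fun z hz => h z (Multiset.mem_cons_of_mem hz)
      exact mul_lt_mul'' ha h1 hB (pow_nonneg hB _)

/-- A point with a small value is near a root. -/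
theorem exists_root_near {n : ℕ} (hn : 0 < n) (f : ℤ[X]) (hf : f.Monic) (hfn : f.natDegree = n)
    {r : ℝ} (hr : 0 ≤ r) {x : ℤ} (h : |((f.eval x : ℤ) : ℝ)| ≤ r ^ n) :
    ∃ z ∈ (f.map (Int.castRingHom ℂ)).roots.toFinset, ‖(x : ℂ) - z‖ ≤ r := by
  classical
  by_contra hcon
  push Not at hcon
  have hcard : Multiset.card (f.map (Int.castRingHom ℂ)).roots = n := by
    rw [← (IsAlgClosed.splits (f.map (Int.castRingHom ℂ))).natDegree_eq_card_roots,
      hf.natDegree_map, hfn]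
  have h1 := lt_norm_multiset_prod hr
    (s := (f.map (Int.castRingHom ℂ)).roots.map fun z => (x : ℂ) - z)
    (by rw [Multiset.card_map, hcard]; exact hn)
    (by
      intro w hw
      obtain ⟨z, hz, rfl⟩ := Multiset.mem_map.1 hw
      exact hcon z (Multiset.mem_toFinset.2 hz))
  rw [← eval_eq_prod f hf x, norm_int, Multiset.card_map, hcard] at h1
  linarith

theorem abs_eval_le {n : ℕ} (f : ℤ[X]) (hf : f.Monic) (hfn : f.natDegree = n)
    {R : ℝ} (hR : 1 ≤ R) (hroots : ∀ z : ℂ, (f.map (Int.castRingHom ℂ)).IsRoot z → ‖z‖ ≤ R)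
    {x : ℤ} (hx : |(x : ℝ)| ≤ R) : |((f.eval x : ℤ) : ℝ)| ≤ (2 * R) ^ n := by
  have hcard : Multiset.card (f.map (Int.castRingHom ℂ)).roots = n := by
    rw [← (IsAlgClosed.splits (f.map (Int.castRingHom ℂ))).natDegree_eq_card_roots,
      hf.natDegree_map, hfn]
  rw [← norm_int, eval_eq_prod f hf x]
  have key : ∀ s : Multiset ℂ, (∀ z ∈ s, ‖z‖ ≤ R) →
      ‖(s.map fun z => (x : ℂ) - z).prod‖ ≤ (2 * R) ^ Multiset.card s := by
    intro s
    induction s using Multiset.induction_on with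
    | empty => intro _; simp
    | cons a s ih =>
      intro hs
      rw [Multiset.map_cons, Multiset.prod_cons, norm_mul, Multiset.card_cons, pow_succ, mul_comm]
      apply mul_le_mul (ih fun z hz => hs z (Multiset.mem_cons_of_mem hz)) _ (norm_nonneg _)
        (by positivity)
      calc ‖(x : ℂ) - a‖ ≤ ‖(x : ℂ)‖ + ‖a‖ := norm_sub_le _ _
        _ ≤ R + R := add_le_add (by rw [norm_int]; exact hx) (hs a (Multiset.mem_cons_self a s))
        _ = 2 * R := by ring
  have := key (f.map (Int.castRingHom ℂ)).roots (fun z hz => hroots z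
    ((mem_roots (hf.map _).ne_zero).1 hz))
  rwa [hcard] at this

end Pool.Agent.Lib.MP_695920_nt.TT
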