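import Pool.Agent.Lib.MP_695920_nt.TT.BadPoints

/-! # The number of bad integral points -/

namespace Pool.Agent.Lib.MP_695920_nt.TT

open Polynomial

theorem bad_card {n : ℕ} (hn0 : 0 < n) {ε K1 K2 K3 : ℝ} (hε : 0 < ε) (hK1 : 1 ≤ K1)
    (h1 : ∀ m : ℕ, m ≠ 0 → (m.divisors.card : ℝ) ≤ K1 * (m : ℝ) ^ ε) (hK2 : 0 < K2)
    (h2 : ∀ m : ℕ, m ≠ 0 → (n : ℝ) ^ m.primeFactors.card ≤ K2 * (m : ℝ) ^ ε)
    (hK3 : 0 < K3) (hbp : BPBound n ε K3) (f : ℤ[X])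
    (hf : f.Monic) (hfn : f.natDegree = n) (hsep : (f.map (Int.castRingHom ℚ)).Separable)
    {R L : ℝ} (hR : 1 ≤ R) (hL : 1 ≤ L)
    (hroots : ∀ z : ℂ, (f.map (Int.castRingHom ℂ)).IsRoot z → ‖z‖ ≤ R) (P : Finset ℤ)
    (hP : ∀ x ∈ P, |(x : ℝ)| ≤ R ∧ ∃ y : ℤ, 0 < y ∧ y ^ 2 = f.eval x ∧
      2 * (y : ℝ) ≤ L * (Int.gcd (2 * y) (f.derivative.eval x) : ℝ)) :
    (P.card : ℝ) ≤ K1 * n * K2 * K3 * √2 * (2 * R) ^ (ε * (3 * (n * n + 2) + n)) *
      L ^ (1 / (n : ℝ)) := by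
  classical
  have hnr : (0 : ℝ) < n := by exact_mod_cast hn0
  obtain ⟨a, b, D, hD0, hab, hD⟩ := disc_bound hn0 f hf hfn hsep hR hroots
  set W : ℝ := 2 * R with hW
  have hW2 : 2 ≤ W := by linarith
  have hW1 : 1 ≤ W := by linarith
  set N0 : ℕ := (4 * D).natAbs with hN0
  have hN00 : N0 ≠ 0 := Int.natAbs_ne_zero.2 (mul_ne_zero (by norm_num) hD0)
  have hN0W : (N0 : ℝ) ≤ W ^ (n * n + 2) := by
    have e1 : (N0 : ℝ) = |((4 * D : ℤ) : ℝ)| := by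
      rw [hN0, Nat.cast_natAbs, Int.cast_abs]
    rw [e1, Int.cast_mul, abs_mul, pow_add]
    push_cast
    rw [abs_of_pos (by norm_num : (0 : ℝ) < 4), mul_comm]
    apply mul_le_mul hD _ (by norm_num) (by positivity)
    nlinarith
  have hN01 : (1 : ℝ) ≤ N0 := by exact_mod_cast Nat.one_le_iff_ne_zero.2 hN00
  have hs : ∀ x : ℤ, ∃ y : ℤ, x ∈ P → (0 < y ∧ y ^ 2 = f.eval x ∧
      2 * (y : ℝ) ≤ L * (Int.gcd (2 * y) (f.derivative.eval x) : ℝ)) := by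
    intro x
    by_cases hx : x ∈ P
    · obtain ⟨y, hy⟩ := (hP x hx).2
      exact ⟨y, fun _ => hy⟩
    · exact ⟨0, fun h => absurd h hx⟩
  choose y hy using hs
  let G : ℤ → ℕ := fun x => Int.gcd (2 * y x) (f.derivative.eval x)
  have hG : ∀ x ∈ P, G x ∈ N0.divisors := by
    intro x hx
    rw [Nat.mem_divisors]
    refine ⟨?_, hN00⟩
    have e1 : ((G x : ℕ) : ℤ) ∣ 2 * y x := Int.gcd_dvd_left _ _
    have e2 : ((G x : ℕ) : ℤ) ∣ f.derivative.eval x := Int.gcd_dvd_right _ _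
    have e3 : ((G x : ℕ) : ℤ) ∣ 4 * D := by
      have e4 := congrArg (Polynomial.eval x) hab
      simp only [eval_add, eval_mul, eval_C] at e4
      have e5 : 4 * D = (2 * y x) * (2 * y x * a.eval x) + f.derivative.eval x * (4 * b.eval x) := by
        have e6 := (hy x hx).2.1
        rw [← e6] at e4
        linear_combination -4 * e4
      rw [e5]
      exact dvd_add (e1.mul_right _) (e2.mul_right _)
    rw [hN0]
    exact Int.natCast_dvd.1 e3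
  set Y : ℝ := W ^ n with hY
  have hY1 : 1 ≤ Y := one_le_pow₀ hW1
  have hL1 : 1 ≤ L ^ (2 / (n : ℝ)) := Real.one_le_rpow hL (by positivity)
  set Bd : ℝ := n * (K2 * W ^ (ε * (2 * (n * n + 2)))) *
      (K3 * √(2 * L ^ (2 / (n : ℝ))) * Y ^ ε) with hBd
  have hBd0 : 0 ≤ Bd := by positivity
  have hone : ∀ g ∈ N0.divisors, ((P.filter fun x => G x = g).card : ℝ) ≤ Bd := by
    intro g hg
    have hg0 : g ≠ 0 := (Nat.pos_of_mem_divisors hg).ne'
    have hgN : g ≤ N0 := Nat.divisor_le hg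
    obtain ⟨H, hH0, hH1, hH2, hH3⟩ := exists_large_divisor hg0
    have e1 := gcd_card hn0 hK3 hbp f hf hfn hL hY1 hH0 hH2 hH3 (P.filter fun x => G x = g) (by
      intro x hx
      obtain ⟨hx1, hx2⟩ := Finset.mem_filter.1 hx
      refine ⟨?_, y x, (hy x hx1).1, (hy x hx1).2.1, ?_, ?_⟩
      · exact abs_eval_le f hf hfn hR hroots (hP x hx1).1
      · rw [← hx2]
        exact Int.gcd_dvd_left _ _
      · rw [← hx2, mul_comm]
        rw [mul_comm (G x : ℝ) L]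
        have := (hy x hx1).2.2
        rw [mul_comm 2 (y x : ℝ)] at this
        exact this)
    refine e1.trans ?_
    rw [hBd]
    apply mul_le_mul_of_nonneg_right _ (by positivity)
    apply mul_le_mul_of_nonneg_left _ hnr.le
    push_cast
    refine (h2 H hH0).trans (mul_le_mul_of_nonneg_left ?_ hK2.le)
    have e2 : (H : ℝ) ≤ W ^ (2 * (n * n + 2)) := by
      calc (H : ℝ) ≤ ((g ^ 2 : ℕ) : ℝ) := by exact_mod_cast hH1
        _ ≤ (N0 : ℝ) ^ 2 := by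
            push_cast
            exact pow_le_pow_left₀ (Nat.cast_nonneg g) (by exact_mod_cast hgN) 2
        _ ≤ (W ^ (n * n + 2)) ^ 2 := pow_le_pow_left₀ (Nat.cast_nonneg _) hN0W 2
        _ = _ := by rw [← pow_mul]; ring_nf
    calc (H : ℝ) ^ ε ≤ (W ^ (2 * (n * n + 2))) ^ ε :=
          Real.rpow_le_rpow (Nat.cast_nonneg _) e2 hε.le
      _ = W ^ (ε * (2 * (n * n + 2))) := by
          rw [← Real.rpow_natCast, ← Real.rpow_mul (by linarith)]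
          congr 1
          push_cast
          ring
  have hsub : P ⊆ N0.divisors.biUnion fun g => P.filter fun x => G x = g := by
    intro x hx
    exact Finset.mem_biUnion.2 ⟨G x, hG x hx, Finset.mem_filter.2 ⟨hx, rfl⟩⟩
  have hsum : (P.card : ℝ) ≤ (N0.divisors.card : ℝ) * Bd := by
    calc (P.card : ℝ) ≤ ((∑ g ∈ N0.divisors, (P.filter fun x => G x = g).card : ℕ) : ℝ) := by
          exact_mod_cast (Finset.card_le_card hsub).trans Finset.card_biUnion_le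
      _ ≤ ∑ _g ∈ N0.divisors, Bd := by
          push_cast
          exact Finset.sum_le_sum hone
      _ = _ := by rw [Finset.sum_const, nsmul_eq_mul]
  have hdiv : (N0.divisors.card : ℝ) ≤ K1 * W ^ (ε * (n * n + 2)) := by
    refine (h1 N0 hN00).trans (mul_le_mul_of_nonneg_left ?_ (by linarith))
    calc (N0 : ℝ) ^ ε ≤ (W ^ (n * n + 2)) ^ ε :=
          Real.rpow_le_rpow (Nat.cast_nonneg _) hN0W hε.le
      _ = W ^ (ε * (n * n + 2)) := by
          rw [← Real.rpow_natCast, ← Real.rpow_mul (by linarith)]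
          congr 1
          push_cast
          ring
  refine hsum.trans ((mul_le_mul_of_nonneg_right hdiv hBd0).trans (le_of_eq ?_))
  have e1 : √(2 * L ^ (2 / (n : ℝ))) = √2 * L ^ (1 / (n : ℝ)) := by
    rw [Real.sqrt_mul (by norm_num), Real.sqrt_eq_rpow (L ^ (2 / (n : ℝ))),
      ← Real.rpow_mul (by linarith)]
    congr 2
    field_simp
  have e2 : Y ^ ε = W ^ (ε * n) := by
    rw [hY, ← Real.rpow_natCast, ← Real.rpow_mul (by linarith)]
    congr 1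
    ring
  have e3 : W ^ (ε * (3 * (n * n + 2) + n)) =
      W ^ (ε * ((n : ℝ) * n + 2)) * (W ^ (ε * (2 * ((n : ℝ) * n + 2))) * W ^ (ε * n)) := by
    rw [← Real.rpow_add (by linarith), ← Real.rpow_add (by linarith)]
    congr 1
    ring
  rw [hBd, e1, e2, e3]
  ring

/-- **The bad points.** All constants depend only on `n` and `ε`. -/
theorem bad_points (n : ℕ) (hn : Odd n) {ε : ℝ} (hε : 0 < ε) : ∃ C0 : ℝ, 0 < C0 ∧
    ∀ f : ℤ[X], f.Monic → f.natDegree = n → (f.map (Int.castRingHom ℚ)).Separable →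
    ∀ R L : ℝ, 1 ≤ R → 1 ≤ L →
    (∀ z : ℂ, (f.map (Int.castRingHom ℂ)).IsRoot z → ‖z‖ ≤ R) → ∀ P : Finset ℤ,
    (∀ x ∈ P, |(x : ℝ)| ≤ R ∧ ∃ y : ℤ, 0 < y ∧ y ^ 2 = f.eval x ∧
      2 * (y : ℝ) ≤ L * (Int.gcd (2 * y) (f.derivative.eval x) : ℝ)) →
    (P.card : ℝ) ≤ C0 * R ^ ε * L ^ (1 / (n : ℝ)) := by
  have hn0 : 0 < n := hn.pos
  have hnr : (0 : ℝ) < n := by exact_mod_cast hn0
  have hc : (0 : ℝ) < 3 * (n * n + 2) + n := by positivity
  set δ : ℝ := ε / (3 * (n * n + 2) + n) with hδ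
  have hδ0 : 0 < δ := by positivity
  have hδe : δ * (3 * (n * n + 2) + n) = ε := div_mul_cancel₀ _ hc.ne'
  obtain ⟨K1, hK1, h1⟩ := MP14ee70.card_divisors_le δ hδ0
  obtain ⟨K2, hK2, h2⟩ := Pool.Agent.Lib.MP_695920_nt.pow_omega_le (n : ℝ)
    (by exact_mod_cast hn0) δ hδ0
  obtain ⟨K3, hK3, h3⟩ := bp n hn hδ0
  refine ⟨K1 * n * K2 * K3 * √2 * 2 ^ ε, by positivity, ?_⟩
  intro f hf hfn hsep R L hR hL hroots P hP
  have := bad_card hn0 hδ0 hK1 h1 hK2 h2 hK3 h3 f hf hfn hsep hR hL hroots P hP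
  rw [hδe, Real.mul_rpow (by norm_num) (by linarith)] at this
  refine this.trans (le_of_eq ?_)
  ring

/-- The same with sets. -/
theorem bad_points_ncard (n : ℕ) (hn : Odd n) {ε : ℝ} (hε : 0 < ε) : ∃ C0 : ℝ, 0 < C0 ∧
    ∀ f : ℤ[X], f.Monic → f.natDegree = n → (f.map (Int.castRingHom ℚ)).Separable →
    ∀ R L : ℝ, 1 ≤ R → 1 ≤ L →
    (∀ z : ℂ, (f.map (Int.castRingHom ℂ)).IsRoot z → ‖z‖ ≤ R) →
    ({x : ℤ | |(x : ℝ)| ≤ R ∧ ∃ y : ℤ, 0 < y ∧ y ^ 2 = f.eval x ∧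
      2 * (y : ℝ) ≤ L * (Int.gcd (2 * y) (f.derivative.eval x) : ℝ)}.ncard : ℝ) ≤
      C0 * R ^ ε * L ^ (1 / (n : ℝ)) := by
  classical
  obtain ⟨C0, hC0, h⟩ := bad_points n hn hε
  refine ⟨C0, hC0, fun f hf hfn hsep R L hR hL hroots => ?_⟩
  set S : Set ℤ := {x : ℤ | |(x : ℝ)| ≤ R ∧ ∃ y : ℤ, 0 < y ∧ y ^ 2 = f.eval x ∧
      2 * (y : ℝ) ≤ L * (Int.gcd (2 * y) (f.derivative.eval x) : ℝ)} with hS
  have hfin : S.Finite := by
    apply (Set.finite_Icc (-(⌈R⌉ : ℤ)) ⌈R⌉).subset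
    intro x hx
    have h1 := abs_le.1 hx.1
    have h2 := Int.le_ceil R
    rw [Set.mem_Icc]
    constructor
    · have : (-(⌈R⌉ : ℤ) : ℝ) ≤ (x : ℝ) := by linarith [h1.1]
      exact_mod_cast this
    · have : (x : ℝ) ≤ (⌈R⌉ : ℤ) := by linarith [h1.2]
      exact_mod_cast this
  rw [Set.ncard_eq_toFinset_card S hfin]
  apply h f hf hfn hsep R L hR hL hroots
  intro x hx
  exact hfin.mem_toFinset.1 hx

end Pool.Agent.Lib.MP_695920_nt.TT
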