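import Mathlib

/-! # The resultant of `f` and its derivative -/

namespace Pool.Agent.Lib.MP_695920_nt.TT

open Polynomial

theorem norm_multiset_prod_le {s : Multiset ℂ} {B : ℝ} (hB : 0 ≤ B) (h : ∀ z ∈ s, ‖z‖ ≤ B) :
    ‖s.prod‖ ≤ B ^ Multiset.card s := by
  induction s using Multiset.induction_on with
  | empty => simp
  | cons a s ih =>
    rw [Multiset.prod_cons, norm_mul, Multiset.card_cons, pow_succ, mul_comm]
    exact mul_le_mul (ih fun z hz => h z (Multiset.mem_cons_of_mem hz))
      (h a (Multiset.mem_cons_self a s)) (norm_nonneg _) (pow_nonneg hB _)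

theorem norm_derivative_le {f : ℂ[X]} (hf : f.Monic) {R : ℝ} (hR : 1 ≤ R)
    (hroots : ∀ z ∈ f.roots, ‖z‖ ≤ R) {r : ℂ} (hr : r ∈ f.roots) :
    ‖(derivative f).eval r‖ ≤ (2 * R) ^ f.natDegree := by
  classical
  have hs : f.Splits := IsAlgClosed.splits f
  rw [hs.eval_root_derivative hf hr]
  refine (norm_multiset_prod_le (B := 2 * R) (by linarith) ?_).trans ?_
  · intro z hz
    obtain ⟨a, ha, rfl⟩ := Multiset.mem_map.1 hz
    calc ‖r - a‖ ≤ ‖r‖ + ‖a‖ := norm_sub_le _ _
      _ ≤ R + R := add_le_add (hroots r hr) (hroots a (Multiset.mem_of_mem_erase ha))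
      _ = 2 * R := by ring
  · rw [Multiset.card_map, Multiset.card_erase_of_mem hr]
    apply pow_le_pow_right₀ (by linarith)
    exact (Nat.pred_le _).trans (card_roots' f)

/-- A nonzero integer of polynomial size in the ideal generated by `f` and its derivative. -/
theorem disc_bound {n : ℕ} (hn : 0 < n) (f : ℤ[X]) (hf : f.Monic) (hfn : f.natDegree = n)
    (hsep : (f.map (Int.castRingHom ℚ)).Separable) {R : ℝ} (hR : 1 ≤ R)
    (hroots : ∀ z : ℂ, (f.map (Int.castRingHom ℂ)).IsRoot z → ‖z‖ ≤ R) :
    ∃ (a b : ℤ[X]) (D : ℤ), D ≠ 0 ∧ f * a + derivative f * b = C D ∧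
      |(D : ℝ)| ≤ (2 * R) ^ (n * n) := by
  obtain ⟨a, b, -, -, hab⟩ := exists_mul_add_mul_eq_C_resultant f (derivative f) le_rfl le_rfl
    (Or.inl (by omega))
  refine ⟨a, b, _, ?_, hab, ?_⟩
  · intro h0
    have h1 := congrArg (Int.castRingHom ℚ) h0
    rw [map_zero, ← resultant_map_map] at h1
    have h2 : (f.map (Int.castRingHom ℚ)).natDegree = f.natDegree :=
      natDegree_map_eq_of_injective Int.cast_injective f
    have h3 : ((derivative f).map (Int.castRingHom ℚ)).natDegree = (derivative f).natDegree :=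
      natDegree_map_eq_of_injective Int.cast_injective _
    rw [← h2, ← h3] at h1
    refine resultant_ne_zero _ _ ?_ h1
    rw [← derivative_map]
    exact hsep
  · have h2 : (f.map (Int.castRingHom ℂ)).natDegree = f.natDegree :=
      natDegree_map_eq_of_injective Int.cast_injective f
    have hm : (f.map (Int.castRingHom ℂ)).Monic := hf.map _
    have h4 := resultant_eq_prod_eval (f.map (Int.castRingHom ℂ))
      ((derivative f).map (Int.castRingHom ℂ)) (derivative f).natDegree natDegree_map_le
      (IsAlgClosed.splits _)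
    rw [h2, resultant_map_map, hm.leadingCoeff, one_pow, one_mul] at h4
    have h5 : ‖((resultant f (derivative f) : ℤ) : ℂ)‖ ≤ (2 * R) ^ (n * n) := by
      rw [eq_intCast] at h4
      rw [h4]
      have hroots' : ∀ z ∈ (f.map (Int.castRingHom ℂ)).roots, ‖z‖ ≤ R := fun z hz =>
        hroots z ((mem_roots hm.ne_zero).1 hz)
      refine (norm_multiset_prod_le (B := (2 * R) ^ n) (by positivity) ?_).trans ?_
      · intro z hz
        obtain ⟨r, hr, rfl⟩ := Multiset.mem_map.1 hz
        have := norm_derivative_le hm hR hroots' hr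
        rw [h2, hfn, derivative_map] at this
        exact this
      · rw [Multiset.card_map, pow_mul]
        apply pow_le_pow_right₀ (one_le_pow₀ (by linarith))
        have := card_roots' (f.map (Int.castRingHom ℂ))
        rw [h2, hfn] at this
        exact this
    have h6 : ‖((resultant f (derivative f) : ℤ) : ℂ)‖ =
        |((resultant f (derivative f) : ℤ) : ℝ)| := by
      rw [← Complex.ofReal_intCast, Complex.norm_real, Real.norm_eq_abs]
    rw [h6] at h5
    exact h5

end Pool.Agent.Lib.MP_695920_nt.TT
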