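import Pool.Agent.Lib.MP_695920_nt.TT.BadFiber
import Pool.Agent.Lib.MP_695920_nt.TT.DiscBound
import Pool.Agent.Lib.MP_695920_nt.Smooth
import Pool.Agent.Lib.MP_14ee70_nt.Div

/-! # Integral points with a large greatest common divisor or close to a root -/

namespace Pool.Agent.Lib.MP_695920_nt.TT

open Polynomial

/-- From `g ∣ 2 y` to a large divisor of `f x = y ^ 2`. -/
theorem exists_large_divisor {g : ℕ} (hg : g ≠ 0) : ∃ H : ℕ, H ≠ 0 ∧ H ≤ g ^ 2 ∧ g ^ 2 ≤ 4 * H ∧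
    ∀ y : ℤ, (g : ℤ) ∣ 2 * y → (H : ℤ) ∣ y ^ 2 := by
  refine ⟨g ^ 2 / Nat.gcd (g ^ 2) 4, ?_, Nat.div_le_self _ _, ?_, ?_⟩
  · have h1 : Nat.gcd (g ^ 2) 4 ≤ g ^ 2 :=
      Nat.gcd_le_left _ (Nat.pos_of_ne_zero (pow_ne_zero _ hg))
    exact (Nat.div_pos h1 (Nat.gcd_pos_of_pos_right _ (by norm_num))).ne'
  · have h1 : Nat.gcd (g ^ 2) 4 ≤ 4 := Nat.gcd_le_right _ (by norm_num)
    have h2 : g ^ 2 = Nat.gcd (g ^ 2) 4 * (g ^ 2 / Nat.gcd (g ^ 2) 4) :=
      (Nat.mul_div_cancel' (Nat.gcd_dvd_left _ _)).symm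
    calc g ^ 2 = Nat.gcd (g ^ 2) 4 * (g ^ 2 / Nat.gcd (g ^ 2) 4) := h2
      _ ≤ 4 * (g ^ 2 / Nat.gcd (g ^ 2) 4) := Nat.mul_le_mul_right _ h1
  · intro y hy
    have h1 : ((g ^ 2 : ℕ) : ℤ) ∣ 4 * y ^ 2 := by
      have := pow_dvd_pow_of_dvd hy 2
      have e : (2 * y) ^ 2 = 4 * y ^ 2 := by ring
      rw [e] at this
      exact_mod_cast this
    set d := Nat.gcd (g ^ 2) 4 with hd
    have hd0 : 0 < d := Nat.gcd_pos_of_pos_right _ (by norm_num)
    obtain ⟨a, ha⟩ : d ∣ g ^ 2 := Nat.gcd_dvd_left _ _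
    obtain ⟨b, hb⟩ : d ∣ 4 := Nat.gcd_dvd_right _ _
    have hcop : Nat.Coprime a b := by
      have := Nat.coprime_div_gcd_div_gcd (m := g ^ 2) (n := 4) (by rw [← hd]; exact hd0)
      rw [← hd, ha, hb, Nat.mul_div_cancel_left _ hd0, Nat.mul_div_cancel_left _ hd0] at this
      exact this
    rw [ha, Nat.mul_div_cancel_left _ hd0]
    rw [ha] at h1
    have h2 : ((d * a : ℕ) : ℤ) ∣ (d : ℤ) * ((b : ℤ) * y ^ 2) := by
      have e : (4 : ℤ) * y ^ 2 = (d : ℤ) * ((b : ℤ) * y ^ 2) := by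
        have : (4 : ℤ) = (d : ℤ) * (b : ℤ) := by exact_mod_cast hb
        rw [this]
        ring
      rwa [e] at h1
    rw [Nat.cast_mul] at h2
    have h3 : (a : ℤ) ∣ (b : ℤ) * y ^ 2 :=
      (mul_dvd_mul_iff_left (by exact_mod_cast hd0.ne')).1 h2
    exact (Nat.isCoprime_iff_coprime.2 hcop).dvd_of_dvd_mul_left h3

/-- The points with a given greatest common divisor. -/
theorem gcd_card {n : ℕ} (hn : 0 < n) {ε K : ℝ} (hK : 0 < K) (hbp : BPBound n ε K) (f : ℤ[X])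
    (hf : f.Monic) (hfn : f.natDegree = n) {L Y : ℝ} (hL : 1 ≤ L) (hY : 1 ≤ Y) {g H : ℕ}
    (hH0 : H ≠ 0) (hgH : g ^ 2 ≤ 4 * H) (hdiv : ∀ y : ℤ, (g : ℤ) ∣ 2 * y → (H : ℤ) ∣ y ^ 2)
    (P : Finset ℤ)
    (h : ∀ x ∈ P, |((f.eval x : ℤ) : ℝ)| ≤ Y ∧ ∃ y : ℤ, 0 < y ∧ y ^ 2 = f.eval x ∧
      (g : ℤ) ∣ 2 * y ∧ 2 * (y : ℝ) ≤ g * L) :
    (P.card : ℝ) ≤ n * (n ^ H.primeFactors.card : ℕ) *
      (K * √(2 * L ^ (2 / (n : ℝ))) * Y ^ ε) := by
  classical
  have hnr : (0 : ℝ) < n := by exact_mod_cast hn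
  set M := modulus n H with hM
  have hM0 : 0 < M := modulus_pos n H
  have hMn : H ≤ M ^ n := le_modulus_pow hn hH0
  set T : ℝ := 2 * L ^ (2 / (n : ℝ)) with hT
  have hL1 : 1 ≤ L ^ (2 / (n : ℝ)) := Real.one_le_rpow hL (by positivity)
  have hT1 : 1 ≤ T := by rw [hT]; linarith
  set r : ℝ := L ^ (2 / (n : ℝ)) * M with hr
  have hr0 : 0 ≤ r := by positivity
  have hLn : (L ^ (2 / (n : ℝ))) ^ n = L ^ 2 := by
    rw [← Real.rpow_natCast, ← Real.rpow_mul (by linarith), div_mul_cancel₀ _ hnr.ne']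
    exact_mod_cast Real.rpow_natCast L 2
  have hsmall : ∀ x ∈ P, |((f.eval x : ℤ) : ℝ)| ≤ r ^ n := by
    intro x hx
    obtain ⟨-, y, hy0, hy, -, hy2⟩ := h x hx
    rw [← hy]
    push_cast
    rw [abs_of_nonneg (by positivity), hr, mul_pow, hLn]
    have h1 : (0 : ℝ) < y := by exact_mod_cast hy0
    have h2 : (2 * (y : ℝ)) ^ 2 ≤ (g * L) ^ 2 := pow_le_pow_left₀ (by positivity) hy2 2
    have h3 : ((g : ℝ)) ^ 2 ≤ 4 * (M : ℝ) ^ n := by
      have : ((g ^ 2 : ℕ) : ℝ) ≤ ((4 * M ^ n : ℕ) : ℝ) := by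
        exact_mod_cast hgH.trans (Nat.mul_le_mul_left _ hMn)
      push_cast at this
      exact this
    have h4 := mul_le_mul_of_nonneg_right h3 (show 0 ≤ L ^ 2 by positivity)
    nlinarith
  set B : ℝ := K * √T * Y ^ ε with hB
  have hB0 : 0 ≤ B := by positivity
  -- one root
  have hone : ∀ z : ℂ, ((P.filter fun x : ℤ => ‖(x : ℂ) - z‖ ≤ r).card : ℝ) ≤
      (n ^ H.primeFactors.card : ℕ) * B := by
    intro z
    set Q := P.filter fun x : ℤ => ‖(x : ℂ) - z‖ ≤ r with hQ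
    have hQP : ∀ x ∈ Q, x ∈ P ∧ ‖(x : ℂ) - z‖ ≤ r := fun x hx => Finset.mem_filter.1 hx
    have h1 : Q.card ≤ ⌊B⌋₊ * (Q.image fun x : ℤ => (x : ZMod M)).card := by
      apply Finset.card_le_mul_card_image
      intro a _
      apply Nat.le_floor
      apply fiber_card hK hbp f hfn hM0 hT1 hY
      · intro x hx y hy
        have hx' := (Finset.mem_filter.1 hx).2
        have hy' := (Finset.mem_filter.1 hy).2
        apply (ZMod.intCast_eq_intCast_iff_dvd_sub _ _ _).1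
        rw [hx', hy']
      · intro x hx y hy
        have hx' := (hQP x (Finset.mem_filter.1 hx).1).2
        have hy' := (hQP y (Finset.mem_filter.1 hy).1).2
        rw [← norm_int]
        push_cast
        calc ‖(x : ℂ) - y‖ = ‖((x : ℂ) - z) - ((y : ℂ) - z)‖ := by ring_nf
          _ ≤ ‖(x : ℂ) - z‖ + ‖(y : ℂ) - z‖ := norm_sub_le _ _
          _ ≤ r + r := add_le_add hx' hy'
          _ = T * M := by rw [hr, hT]; ring
      · intro x hx
        have hx' := (hQP x (Finset.mem_filter.1 hx).1).1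
        obtain ⟨e1, y, -, e2, -⟩ := h x hx'
        exact ⟨e1, ⟨y, by rw [← e2]; ring⟩⟩
    have h2 := card_classes hn hH0 f hf hfn Q (by
      intro x hx
      obtain ⟨-, y, -, e2, e3, -⟩ := h x (hQP x hx).1
      rw [← e2]
      exact hdiv y e3)
    calc (Q.card : ℝ) ≤ ((⌊B⌋₊ * (Q.image fun x : ℤ => (x : ZMod M)).card : ℕ) : ℝ) := by
          exact_mod_cast h1
      _ = (⌊B⌋₊ : ℝ) * ((Q.image fun x : ℤ => (x : ZMod M)).card : ℝ) := by push_cast; ring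
      _ ≤ B * ((n ^ H.primeFactors.card : ℕ) : ℝ) :=
          mul_le_mul (Nat.floor_le hB0) (by exact_mod_cast h2) (Nat.cast_nonneg _) hB0
      _ = _ := by ring
  have hroots : ((f.map (Int.castRingHom ℂ)).roots.toFinset.card : ℝ) ≤ n := by
    have h1 := (Multiset.toFinset_card_le (f.map (Int.castRingHom ℂ)).roots).trans
      (card_roots' (f.map (Int.castRingHom ℂ)))
    rw [hf.natDegree_map, hfn] at h1
    exact_mod_cast h1
  have hsub : P ⊆ (f.map (Int.castRingHom ℂ)).roots.toFinset.biUnion fun z =>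
      P.filter fun x : ℤ => ‖(x : ℂ) - z‖ ≤ r := by
    intro x hx
    obtain ⟨z, hz, hz'⟩ := exists_root_near hn f hf hfn hr0 (hsmall x hx)
    exact Finset.mem_biUnion.2 ⟨z, hz, Finset.mem_filter.2 ⟨hx, hz'⟩⟩
  calc (P.card : ℝ) ≤ ((∑ z ∈ (f.map (Int.castRingHom ℂ)).roots.toFinset,
        (P.filter fun x : ℤ => ‖(x : ℂ) - z‖ ≤ r).card : ℕ) : ℝ) := by
        exact_mod_cast (Finset.card_le_card hsub).trans Finset.card_biUnion_le
    _ ≤ ∑ _z ∈ (f.map (Int.castRingHom ℂ)).roots.toFinset,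
        ((n ^ H.primeFactors.card : ℕ) : ℝ) * B := by
        push_cast
        apply Finset.sum_le_sum
        intro z _
        have := hone z
        push_cast at this
        exact this
    _ = ((f.map (Int.castRingHom ℂ)).roots.toFinset.card : ℝ) *
        (((n ^ H.primeFactors.card : ℕ) : ℝ) * B) := by
        rw [Finset.sum_const, nsmul_eq_mul]
    _ ≤ n * (((n ^ H.primeFactors.card : ℕ) : ℝ) * B) :=
        mul_le_mul_of_nonneg_right hroots (by positivity)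
    _ = _ := by ring

end Pool.Agent.Lib.MP_695920_nt.TT
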