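import Mathlib

set_option autoImplicit false

/-!
TEAM TWOTORSION, step 1(a): every class of order dividing two of the class group of a number field
contains an ideal whose square is generated by an element all of whose conjugates are at most
`2 |disc K|^(1/n)` (Minkowski), and the resulting bound for the number of these classes.
-/

namespace Pool.TT

open NumberField NumberField.InfinitePlace Module NumberField.mixedEmbedding nonZeroDivisors

variable (K : Type*) [Field K] [NumberField K]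

/-- Minkowski's theorem for an integral ideal `I` and prescribed sizes at the infinite places. -/
theorem exists_mem_ideal_lt (I : (Ideal (𝓞 K))⁰) (f : InfinitePlace K → ℝ) (hf : ∀ w, 0 < f w)
    (h : (Ideal.absNorm (I : Ideal (𝓞 K)) : ℝ) * √|(discr K : ℝ)| < ∏ w, f w ^ mult w) :
    ∃ a ∈ (I : Ideal (𝓞 K)), a ≠ 0 ∧ ∀ w : InfinitePlace K, w (a : K) < f w := by
  classical
  set f' : InfinitePlace K → NNReal := fun w => ⟨f w, (hf w).le⟩ with hf'
  have key : minkowskiBound K (FractionalIdeal.mk0 K I) <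
      MeasureTheory.volume (convexBodyLT K f') := by
    rw [convexBodyLT_volume, minkowskiBound, volume_fundamentalDomain_fractionalIdealLatticeBasis,
      volume_fundamentalDomain_latticeBasis]
    have hn : finrank ℝ (mixedSpace K) = nrRealPlaces K + 2 * nrComplexPlaces K := by
      rw [mixedEmbedding.finrank, ← card_add_two_mul_card_eq_rank]
    rw [hn]
    have hlt : ENNReal.ofReal ((FractionalIdeal.absNorm ((FractionalIdeal.mk0 K I) :
        FractionalIdeal (𝓞 K)⁰ K) : ℚ) : ℝ) *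
          ((2 : ENNReal)⁻¹ ^ nrComplexPlaces K * NNReal.sqrt ‖discr K‖₊) *
            2 ^ (nrRealPlaces K + 2 * nrComplexPlaces K) =
        ENNReal.ofReal ((Ideal.absNorm (I : Ideal (𝓞 K)) : ℝ) * √|(discr K : ℝ)| *
          (2 ^ nrRealPlaces K * 2 ^ nrComplexPlaces K)) := by
      rw [FractionalIdeal.coe_mk0, FractionalIdeal.coeIdeal_absNorm, Rat.cast_natCast]
      rw [ENNReal.ofReal_mul (by positivity), ENNReal.ofReal_mul (by positivity),
        ENNReal.ofReal_mul (by positivity)]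
      have h1 : ((NNReal.sqrt ‖discr K‖₊ : NNReal) : ENNReal) = ENNReal.ofReal √|(discr K : ℝ)| := by
        rw [ENNReal.ofReal, ENNReal.coe_inj]
        apply NNReal.eq
        rw [Real.coe_toNNReal _ (Real.sqrt_nonneg _), Real.coe_sqrt, coe_nnnorm,
          Int.norm_eq_abs]
      rw [h1, pow_add, pow_mul, ENNReal.ofReal_pow (by norm_num), ENNReal.ofReal_pow (by norm_num)]
      simp only [ENNReal.ofReal_ofNat]
      have h2 : (2 : ENNReal)⁻¹ ^ nrComplexPlaces K * (2 ^ 2) ^ nrComplexPlaces K =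
          2 ^ nrComplexPlaces K := by
        rw [← mul_pow, pow_two, ← mul_assoc, ENNReal.inv_mul_cancel (by norm_num) (by norm_num),
          one_mul]
      calc _ = ENNReal.ofReal (Ideal.absNorm (I : Ideal (𝓞 K)) : ℝ) *
            ENNReal.ofReal √|(discr K : ℝ)| * (2 ^ nrRealPlaces K *
            ((2 : ENNReal)⁻¹ ^ nrComplexPlaces K * (2 ^ 2) ^ nrComplexPlaces K)) := by ring
        _ = _ := by rw [h2]
    rw [hlt]
    have hrt : ((convexBodyLTFactor K : NNReal) : ENNReal) * ((∏ w, f' w ^ mult w : NNReal) : ENNReal)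
        = ENNReal.ofReal ((2 ^ nrRealPlaces K * Real.pi ^ nrComplexPlaces K) *
          ∏ w, f w ^ mult w) := by
      rw [← ENNReal.coe_mul, ENNReal.ofReal, ENNReal.coe_inj]
      apply NNReal.eq
      rw [Real.coe_toNNReal _ (by
        have := Real.pi_pos
        exact mul_nonneg (by positivity) (Finset.prod_nonneg fun w _ => pow_nonneg (hf w).le _))]
      push_cast
      rfl
    rw [hrt]
    rw [ENNReal.ofReal_lt_ofReal_iff (by
      exact mul_pos (by positivity) (Finset.prod_pos fun w _ => pow_pos (hf w) _))]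
    calc _ < (∏ w, f w ^ mult w) * (2 ^ nrRealPlaces K * 2 ^ nrComplexPlaces K) :=
          mul_lt_mul_of_pos_right h (by positivity)
      _ ≤ (∏ w, f w ^ mult w) * (2 ^ nrRealPlaces K * Real.pi ^ nrComplexPlaces K) := by
          apply mul_le_mul_of_nonneg_left _
            (Finset.prod_nonneg fun w _ => pow_nonneg (hf w).le _)
          apply mul_le_mul_of_nonneg_left _ (by positivity)
          exact pow_le_pow_left₀ (by norm_num) Real.two_le_pi _
      _ = _ := by ring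
  obtain ⟨a, ha, ha0, hlt⟩ := exists_ne_zero_mem_ideal_lt K (f := f') (FractionalIdeal.mk0 K I) key
  rw [FractionalIdeal.coe_mk0, FractionalIdeal.mem_coeIdeal] at ha
  obtain ⟨x, hx, rfl⟩ := ha
  exact ⟨x, hx, fun hx0 => ha0 (by simp [hx0]), fun w => hlt w⟩

theorem norm_pos_of_odd {b : 𝓞 K} (hb : b ≠ 0) (hodd : Odd (finrank ℚ K)) :
    ∃ u : 𝓞 K, (u = b ∨ u = -b) ∧ 0 < Algebra.norm ℤ u := by
  have h0 : Algebra.norm ℤ b ≠ 0 := Algebra.norm_ne_zero_iff.mpr hb
  rcases lt_or_gt_of_ne h0 with h | h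
  · refine ⟨-b, Or.inr rfl, ?_⟩
    have : Algebra.norm ℤ (-b) = - Algebra.norm ℤ b := by
      have h1 : ((Algebra.norm ℤ (-b) : ℤ) : ℚ) = ((- Algebra.norm ℤ b : ℤ) : ℚ) := by
        rw [Int.cast_neg, Algebra.coe_norm_int, Algebra.coe_norm_int]
        have h2 : ((-b : 𝓞 K) : K) = algebraMap ℚ K (-1) * (b : K) := by simp
        rw [h2, map_mul, Algebra.norm_algebraMap, hodd.neg_one_pow]
        ring
      exact_mod_cast h1
    omega
  · exact ⟨b, Or.inl rfl, h⟩

/-- Every class of order dividing two contains an ideal whose square is generated by an element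
all of whose conjugates are at most `2 |disc K|^(1/n)`. -/
theorem exists_sq_eq_span (c : ClassGroup (𝓞 K)) (hc : c ^ 2 = 1) :
    ∃ (I : (Ideal (𝓞 K))⁰) (β : 𝓞 K), ClassGroup.mk0 I = c ∧ β ≠ 0 ∧
      (I : Ideal (𝓞 K)) ^ 2 = Ideal.span {β} ∧
      ∀ w : InfinitePlace K, w (β : K) ≤ 2 * |(discr K : ℝ)| ^ ((1 : ℝ) / finrank ℚ K) := by
  classical
  obtain ⟨J, hJ⟩ := ClassGroup.mk0_surjective c⁻¹
  have hprin : ((J : Ideal (𝓞 K)) ^ 2).IsPrincipal := by
    have hmem : (J : Ideal (𝓞 K)) ^ 2 ∈ (Ideal (𝓞 K))⁰ := pow_mem J.2 2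
    rw [← ClassGroup.mk0_eq_one_iff hmem]
    have h1 : (⟨(J : Ideal (𝓞 K)) ^ 2, hmem⟩ : (Ideal (𝓞 K))⁰) = J ^ 2 := rfl
    rw [h1, map_pow, hJ, inv_pow, hc, inv_one]
  obtain ⟨b, hb⟩ := (Submodule.isPrincipal_iff _).mp hprin
  have hJ0 : (J : Ideal (𝓞 K)) ≠ ⊥ := nonZeroDivisors.coe_ne_zero J
  have hb' : (J : Ideal (𝓞 K)) ^ 2 = Ideal.span {b} := hb
  have hb0 : b ≠ 0 := by
    rintro rfl
    have : (J : Ideal (𝓞 K)) ^ 2 = ⊥ := by rw [hb']; simp
    exact hJ0 (pow_eq_zero_iff (two_ne_zero) |>.mp this)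
  have hbK : (b : K) ≠ 0 := by exact_mod_cast hb0
  set n := finrank ℚ K with hn
  have hnpos : 0 < n := finrank_pos
  set D : ℝ := |(discr K : ℝ)| with hD
  have hDpos : 0 < D := abs_pos.mpr (by exact_mod_cast discr_ne_zero K)
  set X : ℝ := D ^ ((1 : ℝ) / n) with hX
  have hXpos : 0 < X := Real.rpow_pos_of_pos hDpos _
  have hXn : X ^ n = D := by
    rw [hX, ← Real.rpow_natCast, ← Real.rpow_mul hDpos.le]
    rw [one_div, inv_mul_cancel₀ (by positivity), Real.rpow_one]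
  have hwb : ∀ w : InfinitePlace K, 0 < w (b : K) := fun w => w.pos_iff.mpr hbK
  set f : InfinitePlace K → ℝ := fun w => √(2 * X * w (b : K)) with hf
  have hfpos : ∀ w, 0 < f w := fun w => Real.sqrt_pos.mpr (by have := hwb w; positivity)
  have hfsq : ∀ w, f w ^ 2 = 2 * X * w (b : K) := fun w =>
    Real.sq_sqrt (by have := hwb w; positivity)
  have hprod : (∏ w, f w ^ mult w) ^ 2 =
      2 ^ n * D * (Ideal.absNorm (J : Ideal (𝓞 K)) : ℝ) ^ 2 := by
    rw [← Finset.prod_pow]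
    have h1 : ∀ w : InfinitePlace K, (f w ^ mult w) ^ 2 = (2 * X) ^ mult w * w (b : K) ^ mult w := by
      intro w
      rw [← pow_mul, mul_comm, pow_mul, hfsq, mul_pow]
    rw [Finset.prod_congr rfl fun w _ => h1 w, Finset.prod_mul_distrib, prod_eq_abs_norm,
      Finset.prod_pow_eq_pow_sum, sum_mult_eq, ← hn, mul_pow, hXn]
    congr 1
    have h2 : Ideal.absNorm ((J : Ideal (𝓞 K)) ^ 2) = (Algebra.norm ℤ b).natAbs := by
      rw [hb', Ideal.absNorm_span_singleton]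
    rw [map_pow] at h2
    have h3 : ((Ideal.absNorm (J : Ideal (𝓞 K)) : ℝ)) ^ 2 = ((Algebra.norm ℤ b).natAbs : ℝ) := by
      exact_mod_cast h2
    rw [h3, Nat.cast_natAbs, Int.cast_abs, Rat.cast_abs, ← Algebra.coe_norm_int]
    norm_cast
  have hNpos : 0 < (Ideal.absNorm (J : Ideal (𝓞 K)) : ℝ) := by
    exact_mod_cast Nat.pos_of_ne_zero (Ideal.absNorm_ne_zero_of_nonZeroDivisors J)
  have hlt : (Ideal.absNorm (J : Ideal (𝓞 K)) : ℝ) * √|(discr K : ℝ)| < ∏ w, f w ^ mult w := by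
    refine lt_of_pow_lt_pow_left₀ 2 (Finset.prod_nonneg fun w _ => pow_nonneg (hfpos w).le _) ?_
    rw [hprod, mul_pow, Real.sq_sqrt (abs_nonneg _)]
    have h2n : (1 : ℝ) < 2 ^ n := one_lt_pow₀ (by norm_num) hnpos.ne'
    have : 0 < (Ideal.absNorm (J : Ideal (𝓞 K)) : ℝ) ^ 2 * D := by positivity
    nlinarith
  obtain ⟨k, hkJ, hk0, hk⟩ := exists_mem_ideal_lt K J f hfpos hlt
  obtain ⟨I, hI⟩ : (J : Ideal (𝓞 K)) ∣ Ideal.span {k} := Ideal.dvd_span_singleton.mpr hkJ
  have hI0 : I ≠ ⊥ := by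
    rintro rfl
    apply hk0
    have : Ideal.span {k} = ⊥ := by rw [hI]; simp
    simpa using this
  have hImem : I ∈ (Ideal (𝓞 K))⁰ := mem_nonZeroDivisors_of_ne_zero hI0
  have hcI : ClassGroup.mk0 ⟨I, hImem⟩ = c := by
    have : ClassGroup.mk0 (⟨I, hImem⟩ : (Ideal (𝓞 K))⁰) = (ClassGroup.mk0 J)⁻¹ := by
      rw [ClassGroup.mk0_eq_mk0_inv_iff]
      exact ⟨k, hk0, by rw [mul_comm]; exact hI.symm⟩
    rw [this, hJ, inv_inv]
  have hsq : Ideal.span {k ^ 2} = Ideal.span {b} * I ^ 2 := by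
    rw [← Ideal.span_singleton_pow, hI, mul_pow, hb']
  obtain ⟨β, hβ⟩ : b ∣ k ^ 2 := by
    rw [← Ideal.span_singleton_le_span_singleton, hsq]
    exact Ideal.mul_le_left
  have hβ0 : β ≠ 0 := by
    rintro rfl
    exact hk0 (pow_eq_zero_iff two_ne_zero |>.mp (by rw [hβ, mul_zero]))
  refine ⟨⟨I, hImem⟩, β, hcI, hβ0, ?_, ?_⟩
  · have h1 : Ideal.span {b} * I ^ 2 = Ideal.span {b} * Ideal.span {β} := by
      rw [← hsq, hβ, Ideal.span_singleton_mul_span_singleton]
    have hne : Ideal.span {b} ≠ ⊥ := by simpa using hb0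
    exact mul_left_cancel₀ hne h1
  · intro w
    have h1 : w (k : K) ^ 2 = w (b : K) * w (β : K) := by
      rw [← map_pow, ← map_mul]
      congr 1
      exact_mod_cast congrArg (algebraMap (𝓞 K) K) hβ
    have h2 : w (k : K) ^ 2 ≤ 2 * X * w (b : K) := by
      rw [← hfsq w]
      exact pow_le_pow_left₀ (apply_nonneg _ _) (hk w).le 2
    have h3 : w (b : K) * w (β : K) ≤ w (b : K) * (2 * X) := by rw [← h1]; linarith
    exact le_of_mul_le_mul_left h3 (hwb w)

/-- The number of classes of order dividing two is at most the number of algebraic integers in the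
box of radius `2 |disc K|^(1/n)` whose norm is a nonzero perfect square. -/
theorem card_twoTorsion_le (hodd : Odd (finrank ℚ K)) :
    Nat.card {c : ClassGroup (𝓞 K) // c ^ 2 = 1} ≤
      Set.ncard {β : 𝓞 K | (∀ σ : K →+* ℂ,
        ‖σ (β : K)‖ ≤ 2 * |(discr K : ℝ)| ^ ((1 : ℝ) / finrank ℚ K)) ∧
        ∃ y : ℕ, 0 < y ∧ Algebra.norm ℤ β = (y : ℤ) ^ 2} := by
  classical
  set S : Set (𝓞 K) := {β : 𝓞 K | (∀ σ : K →+* ℂ,
        ‖σ (β : K)‖ ≤ 2 * |(discr K : ℝ)| ^ ((1 : ℝ) / finrank ℚ K)) ∧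
        ∃ y : ℕ, 0 < y ∧ Algebra.norm ℤ β = (y : ℤ) ^ 2} with hS
  have hfin : S.Finite := by
    have h1 := Embeddings.finite_of_norm_le K ℂ
      (2 * |(discr K : ℝ)| ^ ((1 : ℝ) / finrank ℚ K))
    refine Set.Finite.of_finite_image (f := fun β : 𝓞 K => (β : K)) (h1.subset ?_)
      (fun x _ y _ h => RingOfIntegers.coe_injective h)
    rintro _ ⟨β, hβ, rfl⟩
    exact ⟨β.isIntegral_coe, hβ.1⟩
  have hex : ∀ c : {c : ClassGroup (𝓞 K) // c ^ 2 = 1}, ∃ β : 𝓞 K, β ∈ S ∧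
      ∃ I : (Ideal (𝓞 K))⁰, ClassGroup.mk0 I = c.1 ∧ (I : Ideal (𝓞 K)) ^ 2 = Ideal.span {β} := by
    rintro ⟨c, hc⟩
    obtain ⟨I, b, hI, hb0, hIb, hb⟩ := exists_sq_eq_span K c hc
    obtain ⟨u, hu, hpos⟩ := norm_pos_of_odd K hb0 hodd
    have hspan : Ideal.span {u} = Ideal.span {b} := by
      rcases hu with rfl | rfl
      · rfl
      · exact Ideal.span_singleton_neg b
    refine ⟨u, ⟨fun σ => ?_, ?_⟩, I, hI, by rw [hspan]; exact hIb⟩
    · have h1 := hb (InfinitePlace.mk σ)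
      rw [InfinitePlace.apply] at h1
      rcases hu with rfl | rfl
      · exact h1
      · have h2 : ((-b : 𝓞 K) : K) = -(b : K) := by simp
        rw [h2, map_neg, norm_neg]
        exact h1
    · have hN : (Ideal.absNorm (I : Ideal (𝓞 K))) ^ 2 = (Algebra.norm ℤ u).natAbs := by
        rw [← map_pow, hIb, ← hspan, Ideal.absNorm_span_singleton]
      refine ⟨Ideal.absNorm (I : Ideal (𝓞 K)),
        Nat.pos_of_ne_zero (Ideal.absNorm_ne_zero_of_nonZeroDivisors I), ?_⟩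
      have h2 : ((Algebra.norm ℤ u).natAbs : ℤ) = Algebra.norm ℤ u := Int.natAbs_of_nonneg hpos.le
      rw [← h2, ← hN]
      push_cast
      rfl
  choose F hFS J hJc hJF using hex
  have hinj : Function.Injective fun c => (⟨F c, hFS c⟩ : S) := by
    intro c c' h
    have h1 : F c = F c' := congrArg Subtype.val h
    have h2 : (J c : Ideal (𝓞 K)) ^ 2 = (J c' : Ideal (𝓞 K)) ^ 2 := by
      rw [hJF, hJF, h1]
    have h3 : (J c : Ideal (𝓞 K)) = (J c' : Ideal (𝓞 K)) := by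
      apply le_antisymm
      · rw [← Ideal.dvd_iff_le]
        exact (UniqueFactorizationMonoid.pow_dvd_pow_iff_dvd two_ne_zero).mp (dvd_of_eq h2.symm)
      · rw [← Ideal.dvd_iff_le]
        exact (UniqueFactorizationMonoid.pow_dvd_pow_iff_dvd two_ne_zero).mp (dvd_of_eq h2)
    apply Subtype.ext
    rw [← hJc c, ← hJc c']
    congr 1
    exact Subtype.ext h3
  have : Finite S := hfin
  rw [← Nat.card_coe_set_eq]
  exact Nat.card_le_card_of_injective _ hinj

/-- A(a), form of helper66. -/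
theorem cl2_le (n : ℕ) (hodd : Odd n) : ∃ c : ℝ, 1 ≤ c ∧
    ∀ (K : Type) [Field K] [NumberField K], finrank ℚ K = n →
      (Nat.card {x : ClassGroup (𝓞 K) // x ^ 2 = 1} : ℝ) ≤
        Set.ncard {β : 𝓞 K | (∀ φ : K →+* ℂ,
          ‖φ (β : K)‖ ≤ c * |(discr K : ℝ)| ^ ((1 : ℝ) / n)) ∧
          ∃ y : ℤ, 0 < y ∧ y ^ 2 = Algebra.norm ℤ β} := by
  refine ⟨2, by norm_num, fun K _ _ hK => ?_⟩
  have h := card_twoTorsion_le K (by rw [hK]; exact hodd)
  rw [hK] at h
  have hset : {β : 𝓞 K | (∀ σ : K →+* ℂ,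
        ‖σ (β : K)‖ ≤ 2 * |(discr K : ℝ)| ^ ((1 : ℝ) / n)) ∧
        ∃ y : ℕ, 0 < y ∧ Algebra.norm ℤ β = (y : ℤ) ^ 2} =
      {β : 𝓞 K | (∀ φ : K →+* ℂ,
          ‖φ (β : K)‖ ≤ 2 * |(discr K : ℝ)| ^ ((1 : ℝ) / n)) ∧
          ∃ y : ℤ, 0 < y ∧ y ^ 2 = Algebra.norm ℤ β} := by
    ext β
    simp only [Set.mem_setOf_eq]
    refine and_congr_right fun _ => ⟨?_, ?_⟩
    · rintro ⟨y, hy, h1⟩
      exact ⟨y, by exact_mod_cast hy, h1.symm⟩
    · rintro ⟨y, hy, h1⟩
      lift y to ℕ using hy.le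
      exact ⟨y, by exact_mod_cast hy, h1.symm⟩
  rw [hset] at h
  exact_mod_cast h

end Pool.TT
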