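import Pool.Agent.Lib.MP_695920_nt.TT.Ideals1
import Pool.Agent.Lib.MP_695920_nt.TT.IdealForm

set_option autoImplicit false

/-!
TEAM TWOTORSION, D2: ideals of `ℚ[x,y]/(y^2 - f)`, `f` squarefree of odd degree.
-/

open Polynomial

namespace Pool.TT

variable (f : ℚ[X]) [hf : Fact (Odd f.natDegree)] [hs : Fact (Squarefree f)]

/-- D2a: `(w, y - v)(w, y + v) = (w)` (uses `f` squarefree: `gcd(w, 2v, (f - v^2)/w) = 1`). -/
theorem pt_mul_pt_neg (w v : ℚ[X]) (h : w ∣ f - v ^ 2) :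
    pt f w v * pt f w (-v) = Ideal.span {(⟨w, 0⟩ : Crd f)} :=
  pt_mul_conj f hs.out w v h

/-- D2b -/
theorem cl_neg (w v : ℚ[X]) (h : w ∣ f - v ^ 2) : cl f w (-v) = (cl f w v)⁻¹ := by
  refine eq_inv_of_mul_eq_one_right ?_
  rw [cl, cl, ← map_mul, ClassGroup.mk0_eq_one_iff]
  refine ⟨⟨(⟨w, 0⟩ : Crd f), ?_⟩⟩
  show pt f w v * pt f w (-v) = _
  rw [pt_mul_pt_neg f w v h]

/-- D2c: structure of ideals (Hermite form): `J = c (w, y - v)`. -/
theorem ideal_form (J : Ideal (Crd f)) (hJ : J ≠ ⊥) :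
    ∃ c w v : ℚ[X], c.Monic ∧ w.Monic ∧ v.degree < w.degree ∧ w ∣ f - v ^ 2 ∧
      J = Ideal.span {(⟨c, 0⟩ : Crd f)} * pt f w v :=
  ideal_form' f J hJ

/-- D2d: reduced representatives. -/
theorem exists_reduced (c : ClassGroup (Crd f)) :
    ∃ w v : ℚ[X], w.Monic ∧ 2 * w.natDegree < f.natDegree ∧ v.degree < w.degree ∧
      w ∣ f - v ^ 2 ∧ cl f w v = c :=
  exists_reduced' f c

/-- D2e: `(r^2, y - v) = (r, y - v)^2`. -/
theorem pt_sq (r v : ℚ[X]) (h : r ^ 2 ∣ f - v ^ 2) : pt f (r ^ 2) v = pt f r v ^ 2 :=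
  pt_sq' f hs.out r v h

/-- D2f: the sign of the leading coefficient of a norm. -/
theorem norm_leadingCoeff (hm : f.Monic) (φ : Crd f) (hφ : φ ≠ 0) :
    φ.norm ≠ 0 ∧ ∃ a : ℚ, a ≠ 0 ∧ φ.norm.leadingCoeff = (-1) ^ φ.norm.natDegree * a ^ 2 ∧
      2 * φ.re.natDegree ≤ φ.norm.natDegree ∧
      (φ.im ≠ 0 → f.natDegree + 2 * φ.im.natDegree ≤ φ.norm.natDegree) :=
  norm_leadingCoeff' f hf.out hm φ hφ

omit hf in
/-- The product of an ideal product with its conjugate. -/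
theorem prod_mul_conj {ι : Type*} (s : Finset ι) (w v : ι → ℚ[X]) (a : ι → ℕ)
    (h : ∀ i ∈ s, w i ∣ f - v i ^ 2) (φ : Crd f) :
    (Ideal.span {φ} * ∏ i ∈ s, pt f (w i) (v i) ^ a i) *
      (Ideal.span {φ} * ∏ i ∈ s, pt f (w i) (v i) ^ a i).map (conj f) =
      Ideal.span {algebraMap ℚ[X] (Crd f) (φ.norm * ∏ i ∈ s, w i ^ a i)} := by
  rw [Ideal.map_mul, Ideal.map_span, Set.image_singleton, conj_apply,
    show Ideal.map (conj f) (∏ i ∈ s, pt f (w i) (v i) ^ a i) =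
      ∏ i ∈ s, Ideal.map (conj f) (pt f (w i) (v i) ^ a i) from
        map_prod (Ideal.mapHom (conj f)) _ _]
  have h1 : (Ideal.span {φ} * ∏ i ∈ s, pt f (w i) (v i) ^ a i) *
      (Ideal.span {star φ} * ∏ i ∈ s, Ideal.map (conj f) (pt f (w i) (v i) ^ a i)) =
      (Ideal.span {φ} * Ideal.span {star φ}) *
        ∏ i ∈ s, (pt f (w i) (v i) ^ a i * Ideal.map (conj f) (pt f (w i) (v i) ^ a i)) := by
    rw [Finset.prod_mul_distrib]
    ring
  rw [h1]
  have h2 : ∀ i ∈ s, pt f (w i) (v i) ^ a i * Ideal.map (conj f) (pt f (w i) (v i) ^ a i) =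
      Ideal.span {algebraMap ℚ[X] (Crd f) (w i ^ a i)} := by
    intro i hi
    rw [Ideal.map_pow, map_conj_pt, ← mul_pow, pt_mul_conj f hs.out _ _ (h i hi),
      Ideal.span_singleton_pow, map_pow]
    rfl
  rw [Finset.prod_congr rfl h2, Ideal.prod_span_singleton, Ideal.span_singleton_mul_span_singleton,
    ← QuadraticAlgebra.algebraMap_norm_eq_mul_star, Ideal.span_singleton_mul_span_singleton,
    map_mul, map_prod]

/-- D2g: norms are multiplicative on ideals: two equal ideal products have equal norms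
up to a rational constant. -/
theorem norm_relation {ι κ : Type*} (s : Finset ι) (t : Finset κ) (w v : ι → ℚ[X])
    (w' v' : κ → ℚ[X]) (a : ι → ℕ) (a' : κ → ℕ)
    (h : ∀ i ∈ s, w i ∣ f - v i ^ 2) (h' : ∀ i ∈ t, w' i ∣ f - v' i ^ 2) (φ φ' : Crd f)
    (hI : Ideal.span {φ} * ∏ i ∈ s, pt f (w i) (v i) ^ a i =
      Ideal.span {φ'} * ∏ i ∈ t, pt f (w' i) (v' i) ^ a' i) :
    Associated (φ.norm * ∏ i ∈ s, w i ^ a i) (φ'.norm * ∏ i ∈ t, w' i ^ a' i) := by
  have h1 := prod_mul_conj f s w v a h φ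
  have h2 := prod_mul_conj f t w' v' a' h' φ'
  rw [hI, h2] at h1
  refine associated_of_dvd_dvd ?_ ?_
  · rw [← QuadraticAlgebra.algebraMap_dvd_iff_dvd (a := f) (b := 0),
      ← Ideal.span_singleton_le_span_singleton, h1]
  · rw [← QuadraticAlgebra.algebraMap_dvd_iff_dvd (a := f) (b := 0),
      ← Ideal.span_singleton_le_span_singleton, h1]

/-- D2h: a relation gives a function with the right norm. -/
theorem exists_function {ι : Type*} [Fintype ι] (hm : f.Monic) (w v : ι → ℚ[X]) (a : ι → ℕ)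
    (hw : ∀ i, (w i).Monic) (h : ∀ i, w i ∣ f - v i ^ 2)
    (hrel : ∏ i, cl f (w i) (v i) ^ a i = 1) :
    ∃ φ : Crd f, φ ≠ 0 ∧ Ideal.span {φ} = ∏ i, pt f (w i) (v i) ^ a i ∧
      (φ.norm = ∏ i, w i ^ a i ∨ φ.norm = -∏ i, w i ^ a i) := by
  classical
  have h1 : ∏ i, cl f (w i) (v i) ^ a i =
      ClassGroup.mk0 (∏ i, (⟨pt f (w i) (v i), mem_nonZeroDivisors_of_ne_zero
        (pt_ne_bot f (w i) (v i))⟩ : nonZeroDivisors (Ideal (Crd f))) ^ a i) := by
    rw [map_prod]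
    refine Finset.prod_congr rfl fun i _ => ?_
    rw [map_pow, cl]
  rw [h1, ClassGroup.mk0_eq_one_iff] at hrel
  have h2 : ((∏ i, (⟨pt f (w i) (v i), mem_nonZeroDivisors_of_ne_zero
        (pt_ne_bot f (w i) (v i))⟩ : nonZeroDivisors (Ideal (Crd f))) ^ a i :
        nonZeroDivisors (Ideal (Crd f))) : Ideal (Crd f)) = ∏ i, pt f (w i) (v i) ^ a i := by
    rw [Submonoid.coe_finsetProd]
    refine Finset.prod_congr rfl fun i _ => ?_
    rw [SubmonoidClass.coe_pow]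
  rw [h2] at hrel
  obtain ⟨φ, hφ⟩ := hrel.principal
  have hφ' : ∏ i, pt f (w i) (v i) ^ a i = Ideal.span {φ} := hφ
  have hφ0 : φ ≠ 0 := by
    rintro rfl
    have h3 : ∏ i, pt f (w i) (v i) ^ a i ≠ 0 := by
      rw [Finset.prod_ne_zero_iff]
      intro i _
      exact pow_ne_zero _ (pt_ne_bot f (w i) (v i))
    apply h3
    rw [hφ']
    simp
  have h4 : Associated (φ.norm * ∏ i ∈ (∅ : Finset ι), w i ^ a i)
      ((1 : Crd f).norm * ∏ i ∈ Finset.univ, w i ^ a i) := by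
    refine norm_relation f ∅ Finset.univ w v w v a a (by simp) (fun i _ => h i) φ 1 ?_
    rw [Finset.prod_empty, mul_one, hφ', Ideal.span_singleton_one, Ideal.one_eq_top.symm, one_mul]
  rw [Finset.prod_empty, mul_one, QuadraticAlgebra.norm_one, one_mul] at h4
  obtain ⟨hn0, α, hα0, hα, -, -⟩ := norm_leadingCoeff f hm φ hφ0
  have hWm : (∏ i, w i ^ a i).Monic := monic_prod_of_monic _ _ fun i _ => (hw i).pow _
  -- the constant
  have h5 : φ.norm = C φ.norm.leadingCoeff * ∏ i, w i ^ a i := by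
    obtain ⟨u, hu⟩ := h4.symm
    obtain ⟨c, hc⟩ := Polynomial.isUnit_iff.1 u.isUnit
    have h6 : φ.norm = C c * ∏ i, w i ^ a i := by
      rw [← hu, hc.2, mul_comm]
    have h7 : φ.norm.leadingCoeff = c := by
      rw [h6, leadingCoeff_mul, hWm.leadingCoeff, leadingCoeff_C, mul_one]
    rw [h7]
    exact h6
  refine ⟨algebraMap ℚ[X] (Crd f) (C α⁻¹) * φ, ?_, ?_, ?_⟩
  · refine mul_ne_zero ?_ hφ0
    intro h0
    have := congrArg QuadraticAlgebra.re h0
    rw [QuadraticAlgebra.algebraMap_re, QuadraticAlgebra.re_zero] at this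
    exact (inv_ne_zero hα0) (C_eq_zero.1 this)
  · rw [hφ']
    refine Ideal.span_singleton_eq_span_singleton.2 ?_
    have hu : IsUnit (algebraMap ℚ[X] (Crd f) (C α⁻¹)) :=
      (isUnit_C.2 (isUnit_iff_ne_zero.2 (inv_ne_zero hα0))).map _
    exact associated_unit_mul_left _ _ hu
  · have h8 : (algebraMap ℚ[X] (Crd f) (C α⁻¹) * φ).norm =
        C ((-1) ^ φ.norm.natDegree) * ∏ i, w i ^ a i := by
      have h9 : φ.norm = C ((-1) ^ φ.norm.natDegree * α ^ 2) * ∏ i, w i ^ a i := by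
        rw [← hα]
        exact h5
      have h10 : (C α⁻¹ : ℚ[X]) ^ 2 * C (α ^ 2) = 1 := by
        rw [← C_pow, ← C_mul, ← mul_pow, inv_mul_cancel₀ hα0, one_pow, C_1]
      rw [map_mul, QuadraticAlgebra.norm_algebraMap]
      calc (C α⁻¹ : ℚ[X]) ^ 2 * φ.norm =
          (C α⁻¹ : ℚ[X]) ^ 2 * (C ((-1) ^ φ.norm.natDegree * α ^ 2) * ∏ i, w i ^ a i) :=
            congrArg (fun r => (C α⁻¹ : ℚ[X]) ^ 2 * r) h9
        _ = ((C α⁻¹ : ℚ[X]) ^ 2 * C (α ^ 2)) * (C ((-1) ^ φ.norm.natDegree) *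
            ∏ i, w i ^ a i) := by
            rw [C_mul]
            ring
        _ = _ := by rw [h10, one_mul]
    rcases Nat.even_or_odd φ.norm.natDegree with h9 | h9
    · left
      rw [h8, h9.neg_one_pow, C_1, one_mul]
    · right
      rw [h8, h9.neg_one_pow, C_neg, C_1]
      ring

end Pool.TT
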