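import Pool.Agent.Lib.MP_695920_nt.TT.NTLoc

/-! TT, letter G, part G4c: the complex place and the finiteness of the polynomials `w`
(dnote of helper26, MP_695920_nt). -/

set_option autoImplicit false

namespace Pool.TT

open Polynomial

/-- the complex absolute value -/
noncomputable def vc : AbsoluteValue ℂ ℝ := IsAbsoluteValue.toAbsoluteValue (norm : ℂ → ℝ)

theorem vc_apply (z : ℂ) : vc z = ‖z‖ := rfl

/-- the conclusion of `complex_bound` -/
def CBound (f : ℤ[X]) (K : ℝ) : Prop :=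
  ∀ (M : ℕ) (Z : Multiset ℂ) (A B : ℝ[X]) (s : ℂ) (A₁ B₁ f₁ : ℂ[X]) (ξ η : ℂ),
      Multiset.card Z ≤ f.natDegree * M → ‖s‖ = 1 →
      (A ^ 2 - f.map (Int.castRingHom ℝ) * B ^ 2).map Complex.ofRealHom =
        C s * (Z.map (fun z => X - C z)).prod →
      η ^ 2 = (f.map (Int.castRingHom ℂ)).eval ξ → η ≠ 0 →
      (A.map Complex.ofRealHom).eval ξ + (B.map Complex.ofRealHom).eval ξ * η = 0 →
      f₁ * (X - C ξ) =
        f.map (Int.castRingHom ℂ) - C ((f.map (Int.castRingHom ℂ)).eval ξ) →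
      (algebraMap ℂ[X] (QuadraticAlgebra ℂ[X] (f.map (Int.castRingHom ℂ)) 0) f₁) ^ M *
          ⟨A.map Complex.ofRealHom, B.map Complex.ofRealHom⟩ =
        (⟨-C η, 1⟩ : QuadraticAlgebra ℂ[X] (f.map (Int.castRingHom ℂ)) 0) ^ M * ⟨A₁, B₁⟩ →
      ‖2 * (A.map Complex.ofRealHom).eval ξ‖ ^ 2 ≤
        K ^ M * (‖2 * η‖ ^ 2 / (max 1 ‖ξ‖) ^ f.natDegree) ^ M *
          (Z.map (fun z => max (max 1 ‖ξ‖) ‖z‖)).prod

theorem NTData.cplx_local {ι : Type*} [Fintype ι] {P : Pts ι} {w : ℚ[X]} (d : NTData P w)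
    {K : ℝ} (hK : CBound P.f0 K) (ξ : ℂ) (hξ : aeval ξ w = 0) :
      (vc (2 * aeval ξ d.φ.re)) ^ 2 ≤ K ^ d.M *
        ((vc (2 * aeval ξ d.v)) ^ 2 / (max 1 (vc ξ)) ^ P.f.natDegree) ^ d.M *
        (((d.M • (w.map (algebraMap ℚ ℂ)).roots +
          ∑ i, d.a i • ({(P.x i : ℂ)} : Multiset ℂ))).map
            (fun z => max (max 1 (vc ξ)) (vc z))).prod := by
  set al := algebraMap ℚ ℂ with hal
  have hF : P.f.map al = P.f0.map (Int.castRingHom ℂ) := by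
    rw [Pts.f, map_map]
    congr 1
  have hA : (d.φ.re.map (algebraMap ℚ ℝ)).map Complex.ofRealHom = d.φ.re.map al := by
    rw [map_map]; congr 1
  have hB : (d.φ.im.map (algebraMap ℚ ℝ)).map Complex.ofRealHom = d.φ.im.map al := by
    rw [map_map]; congr 1
  have hFR : (P.f0.map (Int.castRingHom ℝ)).map Complex.ofRealHom = P.f.map al := by
    rw [hF, map_map]; congr 1
  obtain ⟨s1, hs1, hN⟩ := d.norm_map (L := ℂ)
  have hdvdf : (X - C ξ) ∣ P.f.map al - C ((P.f.map al).eval ξ) := by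
    rw [dvd_iff_isRoot, IsRoot.def, eval_sub, eval_C, sub_self]
  obtain ⟨f1, hf1⟩ := hdvdf
  have hf1' : f1 * (X - C ξ) = P.f.map al - C ((P.f.map al).eval ξ) := by rw [hf1]; ring
  obtain ⟨A1, B1, hpsi⟩ := d.exists_psi hξ f1 hf1'
  have hpsi' : ∀ G : ℂ[X], G = P.f.map al →
      (algebraMap ℂ[X] (QuadraticAlgebra ℂ[X] G 0) f1) ^ d.M *
        ⟨d.φ.re.map al, d.φ.im.map al⟩ = ⟨-C (aeval ξ d.v), 1⟩ ^ d.M * ⟨A1, B1⟩ := by
    rintro G rfl
    exact hpsi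
  have hFn : P.f0.natDegree = P.f.natDegree := P.f_natDegree.symm
  have hsq : (aeval ξ d.v) ^ 2 = (P.f.map al).eval ξ := by
    rw [eval_map_algebraMap]; exact d.eta_sq hξ
  have h0 : (d.φ.re.map al).eval ξ + (d.φ.im.map al).eval ξ * aeval ξ d.v = 0 := by
    rw [eval_map_algebraMap, eval_map_algebraMap]; exact d.eval_eq hξ
  have hcard : Multiset.card (d.M • (w.map al).roots +
      ∑ i, d.a i • ({(P.x i : ℂ)} : Multiset ℂ)) ≤ P.f0.natDegree * d.M := by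
    have h1 : Multiset.card (w.map al).roots = w.natDegree := by
      rw [← natDegree_map al]
      exact (IsAlgClosed.splits (w.map al)).natDegree_eq_card_roots.symm
    rw [Multiset.card_add, Multiset.card_nsmul, h1, Multiset.card_sum]
    simp only [Multiset.card_nsmul, Multiset.card_singleton, mul_one]
    have := d.exp_nonneg
    rw [hFn]
    simpa [mul_comm] using this
  have h := hK d.M (d.M • (w.map al).roots + ∑ i, d.a i • ({(P.x i : ℂ)} : Multiset ℂ))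
    (d.φ.re.map (algebraMap ℚ ℝ)) (d.φ.im.map (algebraMap ℚ ℝ)) s1 A1 B1 f1 ξ (aeval ξ d.v) hcard
    (by rcases hs1 with h | h <;> rw [h] <;> simp)
    (by
      rw [Polynomial.map_sub, Polynomial.map_mul, Polynomial.map_pow, Polynomial.map_pow, hA, hB,
        hFR]
      exact hN)
    (by rw [← hF]; exact hsq) (d.eta_ne hξ) (by rw [hA, hB]; exact h0) (by rw [← hF]; exact hf1')
    (by rw [hA, hB]; exact hpsi' _ hF.symm)
  rw [hA, hFn, eval_map_algebraMap] at h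
  exact h

theorem NTData.cplx {ι : Type*} [Fintype ι] {P : Pts ι} {w : ℚ[X]} (d : NTData P w)
    {K X0 : ℝ} (hK1 : 1 ≤ K) (hK : CBound P.f0 K) (hX0 : 1 ≤ X0)
    (hx : ∀ i, ‖(P.x i : ℂ)‖ ≤ X0) {s0 : Multiset ℤ} {w1 : ℚ[X]} (hw1 : w1.Monic)
    (hw : w = (s0.map (fun k : ℤ => X - C (k : ℚ))).prod * w1)
    (hs0 : ∀ k ∈ s0, ∃ i, k = P.x i)
    (hw1x : ∀ i, w1.eval (P.x i : ℚ) ≠ 0) (e : ℕ)
    (he : P.f.natDegree * d.M =
      e + w1.natDegree * d.M + w.natDegree * d.M + ∑ i, d.a i) (r s : ℚ)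
    (hr : algebraMap ℚ ℂ r = (((w1.map (algebraMap ℚ ℂ)).roots).map
      (fun ξ => aeval ξ (C 2 * d.φ.re))).prod)
    (hs : algebraMap ℚ ℂ s = (((w1.map (algebraMap ℚ ℂ)).roots).map
      (fun ξ => aeval ξ (C 2 * d.v))).prod) :
    (|r| : ℝ) ^ 2 * (((w.map (algebraMap ℚ ℂ)).roots).map (fun z => max 1 ‖z‖)).prod ^ e ≤
      (X0 ^ (2 * P.f.natDegree ^ 2) * K ^ P.f.natDegree) ^ d.M * (|s| : ℝ) ^ (2 * d.M) := by
  set al := algebraMap ℚ ℂ with hal
  set n := P.f.natDegree with hn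
  set Λ := (((w.map al).roots).map (fun z => max 1 ‖z‖)).prod with hΛ
  set Λ1 := (((w1.map al).roots).map (fun z => max 1 ‖z‖)).prod with hΛ1
  have one_le : ∀ S : Multiset ℂ, 1 ≤ (S.map (fun z => max 1 ‖z‖)).prod := by
    intro S
    apply Multiset.one_le_prod
    intro x hx
    obtain ⟨z, _, rfl⟩ := Multiset.mem_map.1 hx
    exact le_max_left _ _
  have h1Λ : 1 ≤ Λ := one_le _
  have h1Λ1 : 1 ≤ Λ1 := one_le _
  have hdeg : w.natDegree = Multiset.card s0 + w1.natDegree := by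
    have h1 : Multiset.card (w.map al).roots = w.natDegree := by
      rw [← natDegree_map al]
      exact (IsAlgClosed.splits (w.map al)).natDegree_eq_card_roots.symm
    have h2 : Multiset.card (w1.map al).roots = w1.natDegree := by
      rw [← natDegree_map al]
      exact (IsAlgClosed.splits (w1.map al)).natDegree_eq_card_roots.symm
    rw [← h1, ← h2, roots_split hw1 hw, Multiset.card_add, Multiset.card_map]
  have hwn : w.natDegree ≤ n := by have := d.hdeg; omega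
  have hΛle : Λ ≤ X0 ^ n * Λ1 := by
    rw [hΛ, roots_split hw1 hw, Multiset.map_add, Multiset.prod_add, Multiset.map_map]
    apply mul_le_mul_of_nonneg_right _ (by linarith)
    have : ∀ S : Multiset ℤ, (∀ k ∈ S, ∃ i, k = P.x i) →
        (S.map ((fun z => max 1 ‖z‖) ∘ fun k : ℤ => (k : ℂ))).prod ≤ X0 ^ (Multiset.card S) := by
      intro S
      induction S using Multiset.induction_on with
      | empty => intro _; simp
      | cons k S ih =>
        intro hS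
        rw [Multiset.map_cons, Multiset.prod_cons, Multiset.card_cons, pow_succ, mul_comm]
        apply mul_le_mul (ih (fun j hj => hS j (Multiset.mem_cons_of_mem hj))) _
          (le_max_of_le_left zero_le_one) (by positivity)
        obtain ⟨i, hi⟩ := hS k (Multiset.mem_cons_self k S)
        change max 1 ‖(k : ℂ)‖ ≤ X0
        rw [hi]
        exact max_le hX0 (hx i)
    refine (this s0 hs0).trans (pow_le_pow_right₀ hX0 (by omega))
  have hloc := d.local_prod (L := ℂ) vc (by linarith) hX0 hx w1 hw1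
    ⟨_, by rw [hw, mul_comm]⟩ hw1x (e + w1.natDegree * d.M) he r s hr hs
    (fun ξ hξ _ => d.cplx_local hK ξ hξ)
  have er : vc (al r) = (|r| : ℝ) := by
    rw [vc_apply]; simp
  have es : vc (al s) = (|s| : ℝ) := by
    rw [vc_apply]; simp
  rw [er, es] at hloc
  change (|r| : ℝ) ^ 2 * Λ1 ^ (e + w1.natDegree * d.M) ≤
    (K ^ d.M * X0 ^ (∑ i, d.a i) * Λ ^ d.M) ^ w1.natDegree * (|s| : ℝ) ^ (2 * d.M) at hloc
  have hΛ0 : 0 < Λ := by linarith
  have hK0 : 0 < K := by linarith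
  have hX00 : 0 < X0 := by linarith
  set E := e + w1.natDegree * d.M with hE
  have hEn : E ≤ n * d.M := by
    rw [he, hE]; omega
  have h3 : (|r| : ℝ) ^ 2 * Λ ^ E ≤ X0 ^ (n * E) * ((K ^ d.M * X0 ^ (∑ i, d.a i) * Λ ^ d.M) ^
      w1.natDegree * (|s| : ℝ) ^ (2 * d.M)) := by
    calc (|r| : ℝ) ^ 2 * Λ ^ E ≤ (|r| : ℝ) ^ 2 * (X0 ^ n * Λ1) ^ E := by gcongr
      _ = X0 ^ (n * E) * ((|r| : ℝ) ^ 2 * Λ1 ^ E) := by rw [mul_pow, ← pow_mul]; ring
      _ ≤ _ := mul_le_mul_of_nonneg_left hloc (by positivity)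
  have h4 : (|r| : ℝ) ^ 2 * Λ ^ e * Λ ^ (w1.natDegree * d.M) ≤
      (X0 ^ (n * E + (∑ i, d.a i) * w1.natDegree) * K ^ (d.M * w1.natDegree) *
        (|s| : ℝ) ^ (2 * d.M)) * Λ ^ (w1.natDegree * d.M) := by
    calc (|r| : ℝ) ^ 2 * Λ ^ e * Λ ^ (w1.natDegree * d.M) = (|r| : ℝ) ^ 2 * Λ ^ E := by
          rw [hE, pow_add]; ring
      _ ≤ _ := h3
      _ = _ := by
          rw [mul_pow, mul_pow, ← pow_mul, ← pow_mul, ← pow_mul, pow_add, mul_comm d.M w1.natDegree]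
          ring
  have h5 := le_of_mul_le_mul_right h4 (by positivity)
  refine h5.trans ?_
  apply mul_le_mul_of_nonneg_right _ (by positivity)
  rw [mul_pow, ← pow_mul, ← pow_mul]
  have hw1n : w1.natDegree ≤ n := by omega
  have hn1 : 1 ≤ n := by have := d.hdeg; omega
  have hsum : ∑ i, d.a i ≤ d.M := by have := d.ha; omega
  apply mul_le_mul _ _ (by positivity) (by positivity)
  · apply pow_le_pow_right₀ hX0
    calc n * E + (∑ i, d.a i) * w1.natDegree ≤ n * (n * d.M) + d.M * n := by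
          apply Nat.add_le_add (Nat.mul_le_mul_left _ hEn) (Nat.mul_le_mul hsum hw1n)
      _ ≤ 2 * n ^ 2 * d.M := by nlinarith [Nat.mul_le_mul_right (n * d.M) hn1]
  · apply pow_le_pow_right₀ hK1
    rw [mul_comm]
    exact Nat.mul_le_mul_right _ hw1n

/-- the polynomials `w` of near-torsion classes are finitely many -/
theorem finite_w {ι : Type*} [Fintype ι] (P : Pts ι) :
    {w : ℚ[X] | Nonempty (NTData P w)}.Finite := by
  classical
  obtain ⟨a, b, D, hD, hab⟩ := exists_bezout P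
  obtain ⟨K, hK1, hK⟩ := complex_bound P.f0 P.monic P.odd ⟨a, b, D, hD, hab⟩
  have hK' : CBound P.f0 K := hK
  set X0 : ℝ := 1 + ∑ i, ‖(P.x i : ℂ)‖ with hX0d
  have hX0 : 1 ≤ X0 := by
    rw [hX0d]
    have : 0 ≤ ∑ i, ‖(P.x i : ℂ)‖ := Finset.sum_nonneg (fun i _ => norm_nonneg _)
    linarith
  have hx : ∀ i, ‖(P.x i : ℂ)‖ ≤ X0 := by
    intro i
    have : ‖(P.x i : ℂ)‖ ≤ ∑ i, ‖(P.x i : ℂ)‖ :=
      Finset.single_le_sum (f := fun i => ‖(P.x i : ℂ)‖) (fun i _ => norm_nonneg _)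
        (Finset.mem_univ i)
    rw [hX0d]; linarith
  set n := P.f.natDegree with hn
  set δ : ℝ := |((4 * (D : ℚ) ^ 2 : ℚ) : ℝ)| with hδ
  have hδ1 : 1 ≤ δ := by
    rw [hδ]
    have h1 : (1 : ℤ) ≤ D ^ 2 := by
      have := sq_nonneg D
      have h2 : D ^ 2 ≠ 0 := pow_ne_zero 2 hD
      omega
    have h3 : (1 : ℝ) ≤ (D : ℝ) ^ 2 := by exact_mod_cast h1
    push_cast
    rw [abs_of_nonneg (by positivity)]
    linarith
  set B : ℝ := X0 ^ (2 * n ^ 2) * K ^ n * δ ^ n with hB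
  have hB1 : 1 ≤ B := by
    rw [hB]
    have h1 : 1 ≤ X0 ^ (2 * n ^ 2) := one_le_pow₀ hX0
    have h2 : 1 ≤ K ^ n := one_le_pow₀ hK1
    have h3 : 1 ≤ δ ^ n := one_le_pow₀ hδ1
    exact one_le_mul_of_one_le_of_one_le (one_le_mul_of_one_le_of_one_le h1 h2) h3
  have hBn : 0 ≤ B ^ 2 := by positivity
  have hfin := Polynomial.finite_mahlerMeasure_le n (⟨B ^ 2, hBn⟩ : NNReal)
  refine (hfin.image (fun W : ℤ[X] =>
    C ((W.map (Int.castRingHom ℚ)).leadingCoeff)⁻¹ * W.map (Int.castRingHom ℚ))).subset ?_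
  rintro w ⟨d⟩
  obtain ⟨s0, w1, hw1, hw, hs0, hw1x⟩ := exists_split (Finset.univ.image P.x) w d.hw
  have hs0' : ∀ k ∈ s0, ∃ i, k = P.x i := by
    intro k hk
    obtain ⟨i, _, hi⟩ := Finset.mem_image.1 (hs0 k hk)
    exact ⟨i, hi.symm⟩
  have hw1x' : ∀ i, w1.eval (P.x i : ℚ) ≠ 0 := fun i => hw1x _ (Finset.mem_image_of_mem _ (Finset.mem_univ i))
  have hw1le : w1.natDegree ≤ w.natDegree := natDegree_le_of_dvd ⟨_, by rw [hw, mul_comm]⟩ d.hw.ne_zero
  -- the exponent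
  obtain ⟨e, he, he2⟩ : ∃ e : ℕ, n * d.M =
      e + w1.natDegree * d.M + w.natDegree * d.M + ∑ i, d.a i ∧ d.M ≤ 2 * e := by
    have h1 : (2 * w.natDegree + 1) * d.M ≤ n * d.M := Nat.mul_le_mul_right _ d.hdeg
    have h2 : w1.natDegree * d.M ≤ w.natDegree * d.M := Nat.mul_le_mul_right _ hw1le
    have h3 := d.ha
    refine ⟨n * d.M - (w1.natDegree * d.M + w.natDegree * d.M + ∑ i, d.a i), ?_, ?_⟩
    · have : w1.natDegree * d.M + w.natDegree * d.M + ∑ i, d.a i ≤ n * d.M := by nlinarith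
      omega
    · have h4 : (2 * w.natDegree + 1) * d.M = 2 * (w.natDegree * d.M) + d.M := by ring
      omega
  obtain ⟨r, hr⟩ := exists_rat_prod w1 (C 2 * d.φ.re) hw1
  obtain ⟨s, hs⟩ := exists_rat_prod w1 (C 2 * d.v) hw1
  obtain ⟨W, c, hc0, hW, hWc⟩ := exists_primitive d.hw.ne_zero
  -- roots of `w1`
  have hroot : ∀ ξ ∈ (w1.map (algebraMap ℚ ℂ)).roots, aeval ξ w = 0 ∧ ∀ i, ξ ≠ (P.x i : ℂ) := by
    intro ξ hξ
    have hξ1 : aeval ξ w1 = 0 := by
      have := (mem_roots ((hw1.map _).ne_zero)).1 hξ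
      rwa [IsRoot.def, eval_map_algebraMap] at this
    refine ⟨?_, ?_⟩
    · rw [hw, map_mul, hξ1, mul_zero]
    · intro i hi
      apply hw1x' i
      rw [hi] at hξ1
      have h2 : aeval ((P.x i : ℂ)) w1 = algebraMap ℚ ℂ (w1.eval (P.x i : ℚ)) := by
        rw [← aeval_algebraMap_apply_eq_algebraMap_eval]
        simp
      rw [h2] at hξ1
      exact (map_eq_zero (algebraMap ℚ ℂ)).1 hξ1
  have hr0 : r ≠ 0 := by
    intro h0
    have h := hr ℂ
    rw [h0, map_zero] at h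
    have h1 := Multiset.prod_eq_zero_iff.1 h.symm
    obtain ⟨ξ, hξ, hξ0⟩ := Multiset.mem_map.1 h1
    obtain ⟨hξw, hξx⟩ := hroot ξ hξ
    rw [map_mul, aeval_C] at hξ0
    rcases mul_eq_zero.1 hξ0 with h2 | h2
    · simp at h2
    · exact d.re_ne hξw hξx h2
  have hs0n : s ≠ 0 := by
    intro h0
    have h := hs ℂ
    rw [h0, map_zero] at h
    have h1 := Multiset.prod_eq_zero_iff.1 h.symm
    obtain ⟨ξ, hξ, hξ0⟩ := Multiset.mem_map.1 h1
    obtain ⟨hξw, _⟩ := hroot ξ hξ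
    rw [map_mul, aeval_C] at hξ0
    rcases mul_eq_zero.1 hξ0 with h2 | h2
    · simp at h2
    · exact d.eta_ne hξw h2
  set q : ℚ := r ^ 2 * (4 * (D : ℚ) ^ 2) ^ (w1.natDegree * d.M) / (s ^ (2 * d.M) * c ^ e) with hq
  have hD4 : (4 * (D : ℚ) ^ 2) ≠ 0 := by
    have : (D : ℚ) ≠ 0 := by exact_mod_cast hD
    positivity
  have hq0 : q ≠ 0 := by
    rw [hq]
    apply div_ne_zero (mul_ne_zero (pow_ne_zero _ hr0) (pow_ne_zero _ hD4))
      (mul_ne_zero (pow_ne_zero _ hs0n) (pow_ne_zero _ hc0))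
  have hq1 : 1 ≤ |q| := by
    apply one_le_abs_of_padic hq0
    intro p hp
    have h := d.padic p hD hab hw1 hw hw1x' e he r s (hr (PadicAlgCl p)) (hs (PadicAlgCl p)) hW hWc
    have hsn : ‖(s : ℚ_[p])‖ ≠ 0 := by
      rw [norm_ne_zero_iff]; exact_mod_cast hs0n
    have hcn : ‖(c : ℚ_[p])‖ ≠ 0 := by
      rw [norm_ne_zero_iff]; exact_mod_cast hc0
    have h1 : ‖(q : ℚ_[p])‖ = ‖(r : ℚ_[p])‖ ^ 2 *
        ‖((4 * (D : ℚ) ^ 2 : ℚ) : ℚ_[p])‖ ^ (w1.natDegree * d.M) /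
        (‖(s : ℚ_[p])‖ ^ (2 * d.M) * ‖(c : ℚ_[p])‖ ^ e) := by
      rw [hq, Rat.cast_div, Rat.cast_mul, Rat.cast_mul, Rat.cast_pow, Rat.cast_pow, Rat.cast_pow,
        Rat.cast_pow, norm_div, norm_mul, norm_mul, norm_pow, norm_pow, norm_pow, norm_pow]
    rw [h1, div_le_one (by positivity)]
    exact h
  have hcp := d.cplx hK1 hK' hX0 hx hw1 hw hs0' hw1x' e he r s (hr ℂ) (hs ℂ)
  set Λ := (((w.map (algebraMap ℚ ℂ)).roots).map (fun z => max 1 ‖z‖)).prod with hΛ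
  have hΛ1 : 1 ≤ Λ := by
    apply Multiset.one_le_prod
    intro x hx
    obtain ⟨z, _, rfl⟩ := Multiset.mem_map.1 hx
    exact le_max_left _ _
  have hsp : 0 < (|(s : ℝ)|) := abs_pos.2 (by exact_mod_cast hs0n)
  have hcpos : 0 < (|(c : ℝ)|) := abs_pos.2 (by exact_mod_cast hc0)
  -- archimedean form of `1 ≤ |q|`
  have hq2 : |(s : ℝ)| ^ (2 * d.M) * |(c : ℝ)| ^ e ≤ |(r : ℝ)| ^ 2 * δ ^ (w1.natDegree * d.M) := by
    have h1 : (1 : ℝ) ≤ |(q : ℝ)| := by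
      have : ((1 : ℚ) : ℝ) ≤ ((|q| : ℚ) : ℝ) := by exact_mod_cast hq1
      simpa using this
    have h2 : |(q : ℝ)| = |(r : ℝ)| ^ 2 * δ ^ (w1.natDegree * d.M) /
        (|(s : ℝ)| ^ (2 * d.M) * |(c : ℝ)| ^ e) := by
      rw [hq, hδ, Rat.cast_div, Rat.cast_mul, Rat.cast_mul, Rat.cast_pow, Rat.cast_pow,
        Rat.cast_pow, Rat.cast_pow, abs_div, abs_mul, abs_mul, abs_pow, abs_pow, abs_pow, abs_pow]
    rw [h2, one_le_div (by positivity)] at h1
    exact h1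
  have hfinal : (|(c : ℝ)| * Λ) ^ e ≤ B ^ d.M := by
    have hw1n : w1.natDegree ≤ n := by
      have := d.hdeg
      omega
    have h1 : |(s : ℝ)| ^ (2 * d.M) * ((|(c : ℝ)| * Λ) ^ e) ≤
        |(s : ℝ)| ^ (2 * d.M) * B ^ d.M := by
      calc |(s : ℝ)| ^ (2 * d.M) * ((|(c : ℝ)| * Λ) ^ e)
          = (|(s : ℝ)| ^ (2 * d.M) * |(c : ℝ)| ^ e) * Λ ^ e := by rw [mul_pow]; ring
        _ ≤ (|(r : ℝ)| ^ 2 * δ ^ (w1.natDegree * d.M)) * Λ ^ e :=
            mul_le_mul_of_nonneg_right hq2 (by positivity)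
        _ = (|(r : ℝ)| ^ 2 * Λ ^ e) * δ ^ (w1.natDegree * d.M) := by ring
        _ ≤ ((X0 ^ (2 * n ^ 2) * K ^ n) ^ d.M * |(s : ℝ)| ^ (2 * d.M)) *
              δ ^ (w1.natDegree * d.M) := mul_le_mul_of_nonneg_right hcp (by positivity)
        _ ≤ ((X0 ^ (2 * n ^ 2) * K ^ n) ^ d.M * |(s : ℝ)| ^ (2 * d.M)) * δ ^ (n * d.M) := by
            apply mul_le_mul_of_nonneg_left _ (by positivity)
            exact pow_le_pow_right₀ hδ1 (Nat.mul_le_mul_right _ hw1n)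
        _ = _ := by rw [hB, mul_pow (X0 ^ (2 * n ^ 2) * K ^ n), ← pow_mul δ]; ring
    exact le_of_mul_le_mul_left h1 (by positivity)
  have hbound : |(c : ℝ)| * Λ ≤ B ^ 2 := by
    by_cases hle : |(c : ℝ)| * Λ ≤ 1
    · exact hle.trans (one_le_pow₀ hB1)
    · rw [not_le] at hle
      have h1 : (|(c : ℝ)| * Λ) ^ d.M ≤ (B ^ 2) ^ d.M := by
        calc (|(c : ℝ)| * Λ) ^ d.M ≤ (|(c : ℝ)| * Λ) ^ (2 * e) := pow_le_pow_right₀ hle.le he2
          _ = ((|(c : ℝ)| * Λ) ^ e) ^ 2 := by rw [← pow_mul, mul_comm 2 e]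
          _ ≤ (B ^ d.M) ^ 2 := pow_le_pow_left₀ (by positivity) hfinal 2
          _ = (B ^ 2) ^ d.M := by rw [← pow_mul, ← pow_mul, mul_comm]
      exact le_of_pow_le_pow_left₀ d.hM.ne' (by positivity) h1
  -- the Mahler measure of `W`
  have hWC : W.map (Int.castRingHom ℂ) = C ((c : ℚ) : ℂ) * w.map (algebraMap ℚ ℂ) := by
    have h3 := congrArg (Polynomial.map (algebraMap ℚ ℂ)) hWc
    rw [map_map, Polynomial.map_mul, map_C] at h3
    have h4 : (algebraMap ℚ ℂ).comp (Int.castRingHom ℚ) = Int.castRingHom ℂ := RingHom.ext_int _ _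
    rw [h4] at h3
    simpa using h3
  refine ⟨W, ⟨?_, ?_⟩, ?_⟩
  · have h1 : (W.map (Int.castRingHom ℚ)).natDegree = W.natDegree :=
      natDegree_map_eq_of_injective (by exact Int.cast_injective) _
    rw [← h1, hWc, natDegree_C_mul hc0]
    have := d.hdeg
    omega
  · change (W.map (Int.castRingHom ℂ)).mahlerMeasure ≤ B ^ 2
    rw [mahlerMeasure_eq_leadingCoeff_mul_prod_roots, hWC, roots_C_mul _ (by exact_mod_cast hc0),
      leadingCoeff_mul, leadingCoeff_C, (d.hw.map _).leadingCoeff, mul_one]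
    have h1 : ‖((c : ℚ) : ℂ)‖ = |(c : ℝ)| := by
      simp
    rw [h1]
    exact hbound
  · simp only
    rw [hWc, leadingCoeff_mul, leadingCoeff_C, d.hw.leadingCoeff, mul_one, ← mul_assoc, ← C_mul,
      inv_mul_cancel₀ hc0, C_1, one_mul]

end Pool.TT
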