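import Mathlib

/-! TT, letter G, part G0: a finite near-torsion set bounds the rank by the dimension of `G / G^2`
(dnote of helper26, MP_695920_nt). -/

namespace Pool.TT

open Finset

/-- representatives modulo `2^k`-th powers -/
theorem exists_reps {G : Type*} [CommGroup G] {r : ℕ}
    [Finite (G ⧸ (powMonoidHom 2 : G →* G).range)]
    (hr : Nat.card (G ⧸ (powMonoidHom 2 : G →* G).range) ≤ 2 ^ r) (k : ℕ) :
    ∃ T : Finset G, T.card ≤ 2 ^ (r * k) ∧ ∀ a : G, ∃ t ∈ T, ∃ b : G, a = t * b ^ (2 ^ k) := by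
  classical
  have := Fintype.ofFinite (G ⧸ (powMonoidHom 2 : G →* G).range)
  induction k with
  | zero =>
    refine ⟨{1}, by simp, fun a => ⟨1, by simp, a, by simp⟩⟩
  | succ k ih =>
    obtain ⟨T, hT, hT'⟩ := ih
    refine ⟨(T ×ˢ (Finset.univ : Finset (G ⧸ (powMonoidHom 2 : G →* G).range))).image
      (fun p => p.1 * (Quotient.out p.2) ^ (2 ^ k)), ?_, ?_⟩
    · refine card_image_le.trans ?_
      rw [card_product, mul_add, mul_one, pow_add]
      refine Nat.mul_le_mul hT ?_
      rw [Finset.card_univ, ← Nat.card_eq_fintype_card]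
      exact hr
    · intro a
      obtain ⟨t, ht, b, hb⟩ := hT' a
      have h1 : ((Quotient.out (b : G ⧸ (powMonoidHom 2 : G →* G).range) : G) :
          G ⧸ (powMonoidHom 2 : G →* G).range) = (b : G ⧸ (powMonoidHom 2 : G →* G).range) :=
        Quotient.out_eq _
      rw [QuotientGroup.eq] at h1
      obtain ⟨c, hc⟩ := h1
      refine ⟨t * (Quotient.out (b : G ⧸ (powMonoidHom 2 : G →* G).range)) ^ (2 ^ k), ?_, c, ?_⟩
      · exact mem_image.2 ⟨(t, (b : G ⧸ (powMonoidHom 2 : G →* G).range)), by simp [ht], rfl⟩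
      · have h2 : b = (Quotient.out (b : G ⧸ (powMonoidHom 2 : G →* G).range)) * c ^ 2 := by
          have : (powMonoidHom 2 : G →* G) c = c ^ 2 := rfl
          rw [← this, hc]
          group
        rw [hb]
        conv_lhs => rw [h2]
        rw [mul_pow, ← pow_mul, mul_assoc]
        congr 3
        rw [pow_succ]
        ring

/-- `S` with more than `r` elements supports a relation, if the near-torsion set is finite. -/
theorem exists_dependent {G : Type*} [CommGroup G] {ι : Type*} [Fintype ι] (g : ι → G) (r : ℕ)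
    (hfin : {c : G | ∃ (M : ℕ) (m : ι → ℤ), 0 < M ∧ c ^ M = ∏ i, g i ^ m i ∧
      2 * ∑ i, |m i| ≤ (M : ℤ)}.Finite)
    [Finite (G ⧸ (powMonoidHom 2 : G →* G).range)]
    (hr : Nat.card (G ⧸ (powMonoidHom 2 : G →* G).range) ≤ 2 ^ r)
    (S : Finset ι) (hS : r < S.card) :
    ∃ m : ι → ℤ, m ≠ 0 ∧ (∀ i, i ∉ S → m i = 0) ∧ ∏ i, g i ^ m i = 1 := by
  classical
  set A : Set G := {c : G | ∃ (M : ℕ) (m : ι → ℤ), 0 < M ∧ c ^ M = ∏ i, g i ^ m i ∧
      2 * ∑ i, |m i| ≤ (M : ℤ)} with hA
  set n := S.card with hn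
  set B := hfin.toFinset.card with hB
  -- parameters
  set j : ℕ := (B + 1) * 2 ^ (r * (1 + n)) with hj
  set k : ℕ := j + 1 + n with hk
  obtain ⟨T, hT, hT'⟩ := exists_reps hr k
  choose t ht b hb using hT'
  -- the exponent vector of a box point
  let e : (S → Fin (2 ^ j)) → ι → ℤ := fun m i => if h : i ∈ S then ((m ⟨i, h⟩ : ℕ) : ℤ) else 0
  have he : Function.Injective e := by
    intro m m' h
    funext i
    have := congrFun h i.1
    simp only [e, i.2, dif_pos] at this
    apply Fin.ext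
    exact_mod_cast this
  let P : (S → Fin (2 ^ j)) → G := fun m => ∏ i, g i ^ e m i
  -- pigeonhole 1
  have hcard : T.card * B < (Finset.univ : Finset (S → Fin (2 ^ j))).card := by
    rw [Finset.card_univ, Fintype.card_fun, Fintype.card_fin, Fintype.card_coe, ← hn, ← pow_mul]
    calc T.card * B ≤ 2 ^ (r * k) * B := Nat.mul_le_mul_right _ hT
      _ = 2 ^ (r * j) * (B * 2 ^ (r * (1 + n))) := by rw [hk]; ring
      _ < 2 ^ (r * j) * 2 ^ j := by
          apply Nat.mul_lt_mul_of_pos_left _ (by positivity)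
          calc B * 2 ^ (r * (1 + n)) ≤ j := by
                rw [hj]; exact Nat.mul_le_mul_right _ (Nat.le_succ _)
            _ < 2 ^ j := Nat.lt_two_pow_self
      _ = 2 ^ (j * (r + 1)) := by rw [← pow_add]; congr 1; ring
      _ ≤ 2 ^ (j * n) := Nat.pow_le_pow_right (by norm_num) (Nat.mul_le_mul_left _ hS)
  obtain ⟨t0, _, hfib⟩ := exists_lt_card_fiber_of_mul_lt_card_of_maps_to
    (f := fun m => t (P m)) (s := Finset.univ) (t := T) (n := B) (fun m _ => ht _) hcard
  set F := (Finset.univ : Finset (S → Fin (2 ^ j))).filter (fun m => t (P m) = t0) with hF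
  have hne : F.Nonempty := by
    rw [← card_pos]; omega
  obtain ⟨m0, hm0⟩ := hne
  have hm0' : t (P m0) = t0 := (mem_filter.1 hm0).2
  -- map to the near-torsion set
  have hmaps : ∀ m ∈ F, b (P m) / b (P m0) ∈ hfin.toFinset := by
    intro m hm
    have hm' : t (P m) = t0 := (mem_filter.1 hm).2
    rw [Set.Finite.mem_toFinset, hA]
    refine ⟨2 ^ k, fun i => e m i - e m0 i, by positivity, ?_, ?_⟩
    · have h1 := hb (P m)
      have h2 := hb (P m0)
      rw [hm'] at h1
      rw [hm0'] at h2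
      rw [div_pow]
      have h3 : b (P m) ^ 2 ^ k / b (P m0) ^ 2 ^ k = P m / P m0 := by
        rw [h1, h2] 
        rw [mul_div_mul_left_eq_div]
        rw [← h1, ← h2]
      rw [h3]
      simp only [P, zpow_sub, Finset.prod_mul_distrib, Finset.prod_inv_distrib, div_eq_mul_inv]
    · have hb1 : ∀ i, |e m i - e m0 i| ≤ if i ∈ S then (2 : ℤ) ^ j else 0 := by
        intro i
        by_cases h : i ∈ S
        · simp only [e, h, dif_pos, if_true]
          have h1 : ((m ⟨i, h⟩ : ℕ) : ℤ) < 2 ^ j := by exact_mod_cast (m ⟨i, h⟩).2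
          have h2 : ((m0 ⟨i, h⟩ : ℕ) : ℤ) < 2 ^ j := by exact_mod_cast (m0 ⟨i, h⟩).2
          rw [abs_le]
          constructor <;> omega
        · simp [e, h]
      calc 2 * ∑ i, |e m i - e m0 i| ≤ 2 * ∑ i, (if i ∈ S then (2 : ℤ) ^ j else 0) := by
            gcongr with i; exact hb1 i
        _ = 2 * (n * 2 ^ j) := by
            rw [Finset.sum_ite_mem, Finset.univ_inter, Finset.sum_const, nsmul_eq_mul]
        _ ≤ 2 * (2 ^ n * 2 ^ j) := by
            have : (n : ℤ) ≤ 2 ^ n := by exact_mod_cast Nat.lt_two_pow_self.le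
            gcongr
        _ = ((2 ^ k : ℕ) : ℤ) := by rw [hk]; push_cast; ring
  obtain ⟨m1, hm1, m2, hm2, hne, heq⟩ := exists_ne_map_eq_of_card_lt_of_maps_to
    (s := F) (t := hfin.toFinset) (f := fun m => b (P m) / b (P m0)) (by rw [← hB]; exact hfib)
    (fun m hm => hmaps m hm)
  have hb12 : b (P m1) = b (P m2) := by
    have : b (P m1) / b (P m0) = b (P m2) / b (P m0) := heq
    exact div_left_injective this
  have hP : P m1 = P m2 := by
    have h1 := hb (P m1)
    have h2 := hb (P m2)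
    rw [(mem_filter.1 hm1).2, hb12] at h1
    rw [(mem_filter.1 hm2).2] at h2
    rw [h1]; exact h2.symm
  refine ⟨fun i => e m1 i - e m2 i, ?_, ?_, ?_⟩
  · intro h0
    apply hne
    apply he
    funext i
    have := congrFun h0 i
    simp only [Pi.zero_apply] at this
    linarith
  · intro i hi
    simp [e, hi]
  · have : ∏ i, g i ^ (e m1 i - e m2 i) = P m1 / P m2 := by
      simp only [P, zpow_sub, Finset.prod_mul_distrib, Finset.prod_inv_distrib, div_eq_mul_inv]
    rw [this, hP, div_self']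

end Pool.TT
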