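import Pool.Agent.Lib.MP_695920_nt.TT.Pts
import Pool.Agent.Lib.MP_695920_nt.TT.Ideals
import Pool.Agent.Lib.MP_695920_nt.TT.NTPigeon
import Pool.Agent.Lib.MP_695920_nt.TT.NTFin

set_option autoImplicit false

/-!
TEAM TWOTORSION, G: final statement of letter G (helper26).
-/

open Polynomial

namespace Pool.TT

/-- finitely many classes for one `w` -/
theorem nt_finite_fibre (f : ℚ[X]) [hf : Fact (Odd f.natDegree)] [hs : Fact (Squarefree f)]
    (w : ℚ[X]) (hw : w ≠ 0) :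
    {c : ClassGroup (Crd f) | ∃ v : ℚ[X], w ∣ f - v ^ 2 ∧ cl f w v = c}.Finite := by
  classical
  have hne : Ideal.span {(⟨w, 0⟩ : Crd f)} ≠ ⊥ := by
    rw [Ne, Ideal.span_singleton_eq_bot]
    intro h
    exact hw (congrArg QuadraticAlgebra.re h)
  have hfin : {J : Ideal (Crd f) | J ∣ Ideal.span {(⟨w, 0⟩ : Crd f)}}.Finite := by
    rw [← Set.finite_coe_iff]
    exact @Finite.of_fintype _
      (UniqueFactorizationMonoid.fintypeSubtypeDvd (Ideal.span {(⟨w, 0⟩ : Crd f)}) hne)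
  let F : Ideal (Crd f) → ClassGroup (Crd f) := fun J =>
    if h : J ≠ ⊥ then ClassGroup.mk0 ⟨J, mem_nonZeroDivisors_of_ne_zero h⟩ else 1
  refine (hfin.image F).subset ?_
  rintro c ⟨v, hv, hc⟩
  refine ⟨pt f w v, ⟨pt f w (-v), (pt_mul_pt_neg f w v hv).symm⟩, ?_⟩
  simp only [F]
  rw [dif_pos (pt_ne_bot f w v)]
  exact hc

/-- data from a near-torsion relation -/
theorem nt_data {ι : Type*} [Fintype ι] (P : Pts ι) (c : ClassGroup (Crd P.f)) (M : ℕ)
    (m : ι → ℤ) (hM : 0 < M) (hc : c ^ M = ∏ i, P.cls i ^ m i) (hm : 2 * ∑ i, |m i| ≤ (M : ℤ)) :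
    ∃ w v : ℚ[X], w ∣ P.f - v ^ 2 ∧ cl P.f w v = c ∧ Nonempty (NTData P w) := by
  classical
  obtain ⟨w, v, hw, hdeg, -, hdvd, hcl⟩ := exists_reduced P.f c
  refine ⟨w, v, hdvd, hcl, ?_⟩
  let e : ι → ℤ := fun i => if 0 ≤ m i then -P.y i else P.y i
  let a : ι → ℕ := fun i => (m i).natAbs
  have hpt : ∀ i, (X - C (P.x i : ℚ)) ∣ P.f - (C (P.y i : ℚ)) ^ 2 := by
    intro i
    rw [dvd_iff_isRoot, IsRoot.def, eval_sub, eval_pow, eval_C, Pts.f, eval_intCast_map]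
    have h := P.eq i
    have h2 : ((P.f0.eval (P.x i) : ℤ) : ℚ) = (P.y i : ℚ) ^ 2 := by
      rw [← h]; push_cast; ring
    simp only [eq_intCast, Int.cast_id]
    rw [h2]; ring
  have hpte : ∀ i, (X - C (P.x i : ℚ)) ∣ P.f - (C (e i : ℚ)) ^ 2 := by
    intro i
    have h1 : (C (e i : ℚ) : ℚ[X]) ^ 2 = (C (P.y i : ℚ)) ^ 2 := by
      simp only [e]
      split_ifs
      · push_cast
        rw [C_neg, neg_sq]
      · rfl
    rw [h1]
    exact hpt i
  have hcle : ∀ i, cl P.f (X - C (P.x i : ℚ)) (C (e i : ℚ)) ^ a i = (P.cls i ^ m i)⁻¹ := by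
    intro i
    simp only [e, a]
    by_cases h : 0 ≤ m i
    · rw [if_pos h]
      have h1 : (C (((-P.y i : ℤ)) : ℚ) : ℚ[X]) = -C (P.y i : ℚ) := by
        push_cast
        rw [C_neg]
      rw [h1, cl_neg P.f _ _ (hpt i)]
      change (P.cls i)⁻¹ ^ (m i).natAbs = _
      obtain ⟨k, hk⟩ := Int.eq_ofNat_of_zero_le h
      rw [hk]
      simp
    · rw [if_neg h]
      change (P.cls i) ^ (m i).natAbs = _
      rw [← zpow_natCast, Int.ofNat_natAbs_of_nonpos (by omega), zpow_neg]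
  have hrel : ∏ j : Option ι, cl P.f (j.elim w (fun i => X - C (P.x i : ℚ)))
      (j.elim v (fun i => C (e i : ℚ))) ^ (j.elim M a) = 1 := by
    rw [Fintype.prod_option]
    simp only [Option.elim]
    rw [Finset.prod_congr rfl (fun i _ => hcle i), hcl, hc, Finset.prod_inv_distrib,
      mul_inv_cancel]
  obtain ⟨φ, hφ0, hspan, hnorm⟩ := exists_function P.f P.f_monic
    (fun j : Option ι => j.elim w (fun i => X - C (P.x i : ℚ)))
    (fun j : Option ι => j.elim v (fun i => C (e i : ℚ))) (fun j => j.elim M a)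
    (by rintro (_ | i)
        · exact hw
        · exact monic_X_sub_C _)
    (by rintro (_ | i)
        · exact hdvd
        · exact hpte i) hrel
  rw [Fintype.prod_option] at hspan
  rw [Fintype.prod_option] at hnorm
  simp only [Option.elim] at hspan hnorm
  refine ⟨⟨v, M, a, e, φ, hw, hdeg, hdvd, hM, ?_, hφ0, hspan, hnorm⟩⟩
  have h1 : ((2 * ∑ i, a i : ℕ) : ℤ) ≤ (M : ℤ) := by
    push_cast
    simp only [a, Int.natCast_natAbs]
    exact hm
  exact_mod_cast h1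

/-- K: `Cl/Cl^2` bounds the rank of the classes of integral points. -/
theorem class_rank {ι : Type*} [Fintype ι] (P : Pts ι) (r : ℕ)
    (hfin : Finite (ClassGroup (Crd P.f) ⧸ (powMonoidHom 2 : ClassGroup (Crd P.f) →* _).range))
    (hr : Nat.card (ClassGroup (Crd P.f) ⧸ (powMonoidHom 2 : ClassGroup (Crd P.f) →* _).range) ≤
      2 ^ r) (S : Finset ι) (hS : r < S.card) :
    ∃ m : ι → ℤ, m ≠ 0 ∧ (∀ i, i ∉ S → m i = 0) ∧ ∏ i, P.cls i ^ m i = 1 := by
  refine exists_dependent P.cls r ?_ hr S hS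
  have hW := finite_w P
  refine (hW.biUnion (t := fun w => {c : ClassGroup (Crd P.f) |
    ∃ v : ℚ[X], w ∣ P.f - v ^ 2 ∧ cl P.f w v = c}) ?_).subset ?_
  · rintro w ⟨d⟩
    exact nt_finite_fibre P.f w d.hw.ne_zero
  · rintro c ⟨M, m, hM, hc, hm⟩
    obtain ⟨w, v, hdvd, hcl, hd⟩ := nt_data P c M m hM hc hm
    exact Set.mem_biUnion hd ⟨v, hdvd, hcl⟩

end Pool.TT
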