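import Mathlib

/-! # Divisibility of determinants of polynomial values in one residue class -/

namespace Pool.Agent.Lib.MP_695920_nt.TT

open Polynomial

/-- If all `t i` are congruent modulo `q`, the determinant of the values of `s` integer
polynomials at the `t i` is divisible by `q ^ (s (s - 1) / 2)`. -/
theorem det_dvd (q : ℤ) : ∀ (s : ℕ) (h : Fin s → ℤ[X]) (t : Fin s → ℤ),
    (∀ i j, q ∣ t i - t j) →
    q ^ (s * (s - 1) / 2) ∣ (Matrix.of fun i j => (h j).eval (t i)).det := by
  intro s
  induction s with
  | zero => intro h t _; simp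
  | succ s ih =>
    intro h t ht
    have e0 : (s + 1) * (s + 1 - 1) / 2 = s + s * (s - 1) / 2 := by
      rcases s with _ | s
      · simp
      · have : (s + 1 + 1) * (s + 1 + 1 - 1) = 2 * (s + 1) + (s + 1) * (s + 1 - 1) := by
          simp only [Nat.add_sub_cancel]
          ring
        rw [this, Nat.mul_add_div (by norm_num)]
    rw [e0]
    set a := t 0 with ha
    let g : Fin (s + 1) → ℤ[X] := fun j => (h j) /ₘ (X - C a)
    have hg : ∀ j x, (h j).eval x = (x - a) * (g j).eval x + (h j).eval a := by
      intro j x
      have h1 := modByMonic_add_div (h j) (X - C a)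
      have h2 : (h j) %ₘ (X - C a) = C ((h j).eval a) := modByMonic_X_sub_C_eq_C_eval _ _
      have h3 := congrArg (Polynomial.eval x) h1
      rw [h2] at h3
      simp only [eval_add, eval_mul, eval_sub, eval_X, eval_C] at h3
      rw [← h3]
      simp only [g]
      ring
    let B : Matrix (Fin (s + 1)) (Fin (s + 1)) ℤ := Matrix.of fun i j =>
      if i = 0 then (h j).eval a else (t i - a) * (g j).eval (t i)
    have hB : (Matrix.of fun i j => (h j).eval (t i)).det = B.det := by
      apply Matrix.det_eq_of_forall_row_eq_smul_add_const (fun i => if i = 0 then 0 else 1) 0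
      · simp
      · intro i j
        by_cases hi : i = 0
        · subst hi
          simp [B, ha]
        · simp only [B, Matrix.of_apply, hi, if_false, if_true, one_mul]
          rw [hg j (t i)]
    rw [hB, Matrix.det_succ_row_zero]
    apply Finset.dvd_sum
    intro j _
    apply Dvd.dvd.mul_left
    have e1 : B.submatrix Fin.succ (Fin.succAbove j) = Matrix.of fun i k =>
        (t i.succ - a) * (Matrix.of fun i k => (g (Fin.succAbove j k)).eval (t (Fin.succ i))) i k := by
      ext i k
      simp [B, Matrix.submatrix_apply, Fin.succ_ne_zero]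
    rw [e1, Matrix.det_mul_column]
    rw [pow_add]
    apply mul_dvd_mul
    · calc q ^ s = ∏ _i : Fin s, q := by simp
        _ ∣ ∏ i : Fin s, (t i.succ - a) := Finset.prod_dvd_prod_of_dvd _ _ fun i _ => ht _ _
    · exact ih (fun k => g (Fin.succAbove j k)) (fun i => t (Fin.succ i)) fun i j => ht _ _

end Pool.Agent.Lib.MP_695920_nt.TT
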