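import Mathlib

/-!
MP_695920_nt, TT: size of the discriminant, and `exp (A ω(m)) ≤ C m^δ`.
-/

set_option autoImplicit false

namespace Pool.TT

open Polynomial

private lemma norm_prod_le {α : Type*} (s : Multiset α) (g : α → ℂ) {B : ℝ} (hB0 : 0 ≤ B)
    (hB : ∀ a ∈ s, ‖g a‖ ≤ B) : ‖(s.map g).prod‖ ≤ B ^ s.card := by
  induction s using Multiset.induction_on with
  | empty => simp
  | cons a s ih =>
    rw [Multiset.map_cons, Multiset.prod_cons, Multiset.card_cons, norm_mul, pow_succ, mul_comm]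
    exact mul_le_mul (ih fun b hb => hB b (Multiset.mem_cons_of_mem hb))
      (hB a (Multiset.mem_cons_self a s)) (norm_nonneg _) (by positivity)

theorem discr_bound (f : ℤ[X]) (hf : f.Monic) (hn : 1 ≤ f.natDegree) {ρ : ℝ} (hρ : 0 ≤ ρ)
    (h : ∀ z : ℂ, (f.map (Int.castRingHom ℂ)).IsRoot z → ‖z‖ ≤ ρ) :
    |(f.discr : ℝ)| ≤ ((2 * ρ) ^ (f.natDegree - 1)) ^ f.natDegree := by
  classical
  set F : ℂ[X] := f.map (Int.castRingHom ℂ) with hF
  have hFm : F.Monic := hf.map _
  have hFn : F.natDegree = f.natDegree := hf.natDegree_map _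
  have hsp : F.Splits := IsAlgClosed.splits F
  have hcard : F.roots.card = f.natDegree := by rw [← hsp.natDegree_eq_card_roots, hFn]
  have h1 := resultant_deriv (f := f) (natDegree_pos_iff_degree_pos.1 hn)
  rw [hf.leadingCoeff, mul_one] at h1
  have h2 := resultant_map_map f f.derivative f.natDegree (f.natDegree - 1) (Int.castRingHom ℂ)
  rw [h1, ← hF, ← derivative_map, ← hF] at h2
  have h3 := resultant_eq_prod_eval F F.derivative (f.natDegree - 1)
    (by rw [← hFn]; exact natDegree_derivative_le F) hsp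
  rw [hFm.leadingCoeff, one_pow, one_mul, hFn, h2] at h3
  have h4 : ‖(F.roots.map (fun z => F.derivative.eval z)).prod‖ ≤
      ((2 * ρ) ^ (f.natDegree - 1)) ^ F.roots.card := by
    refine norm_prod_le _ _ (by positivity) fun z hz => ?_
    rw [hsp.eval_root_derivative hFm hz]
    have h5 : (F.roots.erase z).card = f.natDegree - 1 := by
      rw [Multiset.card_erase_of_mem hz, hcard]
      rfl
    rw [← h5]
    refine norm_prod_le _ _ (by positivity) fun z' hz' => ?_
    have h6 : z' ∈ F.roots := Multiset.mem_of_mem_erase hz'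
    have h7 := h z (isRoot_of_mem_roots hz)
    have h8 := h z' (isRoot_of_mem_roots h6)
    calc ‖z - z'‖ ≤ ‖z‖ + ‖z'‖ := norm_sub_le _ _
      _ ≤ 2 * ρ := by linarith
  rw [hcard] at h4
  have h5 := congrArg norm h3
  rw [← h5] at h4
  have h6 : ‖(Int.castRingHom ℂ) ((-1) ^ (f.natDegree * (f.natDegree - 1) / 2) * f.discr)‖ =
      |(f.discr : ℝ)| := by
    rw [map_mul, norm_mul, map_pow, norm_pow]
    simp
  rw [h6] at h4
  exact h4

/-- `exp (A ω(m)) ≤ C m^δ` -/
theorem exp_omega_le (A : ℝ) {δ : ℝ} (hδ : 0 < δ) : ∃ C : ℝ, 0 < C ∧ ∀ m : ℕ, m ≠ 0 →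
    Real.exp (A * (m.primeFactors.card : ℝ)) ≤ C * (m : ℝ) ^ δ := by
  classical
  wlog hA : 0 ≤ A
  · obtain ⟨C, hC, h⟩ := this 0 hδ le_rfl
    refine ⟨C, hC, fun m hm => le_trans ?_ (h m hm)⟩
    apply Real.exp_le_exp.2
    exact mul_le_mul_of_nonneg_right (not_le.1 hA).le (Nat.cast_nonneg _)
  obtain ⟨P, hP⟩ := exists_nat_ge (Real.exp (A / δ))
  refine ⟨Real.exp (A * P), Real.exp_pos _, fun m hm => ?_⟩
  have h1 : Real.exp (A * (m.primeFactors.card : ℝ)) = ∏ _p ∈ m.primeFactors, Real.exp A := by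
    rw [Finset.prod_const, ← Real.exp_nat_mul]
    ring_nf
  have h2 : ∏ _p ∈ m.primeFactors, Real.exp A ≤
      ∏ p ∈ m.primeFactors, ((if p < P then Real.exp A else 1) * (p : ℝ) ^ δ) := by
    refine Finset.prod_le_prod (fun _ _ => (Real.exp_pos _).le) fun p hp => ?_
    have hp1 : (1 : ℝ) ≤ p := by exact_mod_cast (Nat.prime_of_mem_primeFactors hp).one_lt.le
    have hpδ : 1 ≤ (p : ℝ) ^ δ := Real.one_le_rpow hp1 hδ.le
    split_ifs with hpP
    · exact le_mul_of_one_le_right (Real.exp_pos _).le hpδ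
    · rw [one_mul]
      have h3 : Real.exp (A / δ) ≤ p := hP.trans (by exact_mod_cast not_lt.1 hpP)
      calc Real.exp A = (Real.exp (A / δ)) ^ δ := by
            rw [← Real.exp_mul]
            congr 1
            field_simp
        _ ≤ (p : ℝ) ^ δ := Real.rpow_le_rpow (Real.exp_pos _).le h3 hδ.le
  have h3 : ∏ p ∈ m.primeFactors, (if p < P then Real.exp A else 1) ≤ Real.exp (A * P) := by
    rw [← Finset.prod_filter]
    rw [Finset.prod_const, ← Real.exp_nat_mul]
    apply Real.exp_le_exp.2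
    rw [mul_comm]
    refine mul_le_mul_of_nonneg_left ?_ hA
    have : (m.primeFactors.filter (fun p => p < P)).card ≤ (Finset.range P).card :=
      Finset.card_le_card fun p hp => Finset.mem_range.2 (Finset.mem_filter.1 hp).2
    rw [Finset.card_range] at this
    exact_mod_cast this
  have h4 : ∏ p ∈ m.primeFactors, (p : ℝ) ^ δ ≤ (m : ℝ) ^ δ := by
    rw [Real.finsetProd_rpow _ _ (fun p _ => Nat.cast_nonneg p)]
    apply Real.rpow_le_rpow (Finset.prod_nonneg fun p _ => Nat.cast_nonneg p) _ hδ.le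
    have h5 := Nat.le_of_dvd (Nat.pos_of_ne_zero hm) (Nat.prod_primeFactors_dvd m)
    have h6 : ((∏ p ∈ m.primeFactors, p : ℕ) : ℝ) ≤ (m : ℝ) := Nat.cast_le.2 h5
    rwa [Nat.cast_prod] at h6
  rw [h1]
  refine h2.trans ?_
  rw [Finset.prod_mul_distrib]
  exact mul_le_mul h3 h4 (Finset.prod_nonneg fun p _ => by positivity) (Real.exp_pos _).le

end Pool.TT
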