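import Mathlib

/-!
# Extrapolation of polynomials from a real interval
-/

namespace Pool.Agent.Lib.MP_695920_nt.TT

open Polynomial Finset

private theorem prod_dist (k i : ℕ) (hi : i ≤ k) :
    ∏ j ∈ (range (k + 1)).erase i, |(i : ℝ) - j| = i.factorial * (k - i).factorial := by
  have h1 : (range (k + 1)).erase i = range i ∪ Ico (i + 1) (k + 1) := by
    ext j
    simp only [mem_erase, mem_range, mem_union, mem_Ico]
    omega
  have h2 : Disjoint (range i) (Ico (i + 1) (k + 1)) := by
    rw [Finset.disjoint_left]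
    intro j hj hj'
    simp only [mem_range, mem_Ico] at hj hj'
    omega
  rw [h1, prod_union h2]
  congr 1
  · rw [← prod_range_reflect, ← prod_range_add_one_eq_factorial]
    push_cast
    refine prod_congr rfl fun j hj => ?_
    rw [mem_range] at hj
    have h3 : ((i - 1 - j : ℕ) : ℝ) = (i : ℝ) - 1 - j := by
      rw [Nat.cast_sub (by omega), Nat.cast_sub (by omega)]
      simp
    rw [h3]
    have h4 : (i : ℝ) - ((i : ℝ) - 1 - j) = j + 1 := by ring
    rw [h4, abs_of_nonneg (by positivity)]
  · rw [prod_Ico_eq_prod_range, ← prod_range_add_one_eq_factorial]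
    have h3 : k + 1 - (i + 1) = k - i := by omega
    rw [h3]
    push_cast
    refine prod_congr rfl fun j _ => ?_
    have h4 : (i : ℝ) - (i + 1 + j) = -(j + 1) := by ring
    rw [h4, abs_neg, abs_of_nonneg (by positivity)]

private theorem sum_inv_factorial (k : ℕ) :
    ∑ i ∈ range (k + 1), (1 : ℝ) / (i.factorial * (k - i).factorial) = 2 ^ k / k.factorial := by
  have h1 : ∀ i ∈ range (k + 1), (1 : ℝ) / (i.factorial * (k - i).factorial) =
      (k.choose i : ℝ) / k.factorial := by
    intro i hi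
    rw [mem_range] at hi
    have h2 := Nat.choose_mul_factorial_mul_factorial (Nat.lt_succ_iff.1 hi)
    have h3 : (k.choose i : ℝ) * i.factorial * (k - i).factorial = k.factorial := by
      exact_mod_cast h2
    have h4 : (i.factorial : ℝ) ≠ 0 := by exact_mod_cast i.factorial_ne_zero
    have h5 : ((k - i).factorial : ℝ) ≠ 0 := by exact_mod_cast (k - i).factorial_ne_zero
    have h6 : (k.factorial : ℝ) ≠ 0 := by exact_mod_cast k.factorial_ne_zero
    rw [div_eq_div_iff (mul_ne_zero h4 h5) h6, ← h3]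
    ring
  rw [sum_congr rfl h1, ← sum_div]
  congr 1
  have := Nat.sum_range_choose k
  exact_mod_cast this

/-- **Extrapolation.** A polynomial of degree at most `k` which is bounded by `S` on the real interval
`[a, a + h]` is bounded by `(2 e L) ^ k * S` at every complex point whose distance from all points of
the interval is at most `L * h`. -/
theorem extrap (P : ℂ[X]) (k : ℕ) (hP : P.natDegree ≤ k) (a h S L : ℝ) (hh : 0 < h)
    (hS : ∀ t : ℝ, a ≤ t → t ≤ a + h → ‖P.eval (t : ℂ)‖ ≤ S) (z : ℂ)
    (hz : ∀ t : ℝ, a ≤ t → t ≤ a + h → ‖z - t‖ ≤ L * h) :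
    ‖P.eval z‖ ≤ (2 * Real.exp 1 * L) ^ k * S := by
  have hS0 : 0 ≤ S := (norm_nonneg _).trans (hS a le_rfl (by linarith))
  have hL0 : 0 ≤ L := by
    have h1 := (norm_nonneg _).trans (hz a le_rfl (by linarith))
    by_contra hcon
    push Not at hcon
    nlinarith
  rcases Nat.eq_zero_or_pos k with hk | hk
  · subst hk
    have h1 : P = C (P.coeff 0) := eq_C_of_natDegree_le_zero hP
    rw [pow_zero, one_mul]
    have h2 := hS a le_rfl (by linarith)
    rw [h1, eval_C] at h2 ⊢
    exact h2
  have hk' : (0 : ℝ) < k := by exact_mod_cast hk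
  let v : ℕ → ℂ := fun i => ((a + i * (h / k) : ℝ) : ℂ)
  have hv : Set.InjOn v (range (k + 1) : Finset ℕ) := by
    intro i _ j _ hij
    have h1 : a + i * (h / k) = a + j * (h / k) := by
      have : ((a + i * (h / k) : ℝ) : ℂ) = ((a + j * (h / k) : ℝ) : ℂ) := hij
      exact_mod_cast this
    have h2 : (i : ℝ) * (h / k) = j * (h / k) := by linarith
    have h3 : h / k ≠ 0 := by positivity
    have h4 := mul_right_cancel₀ h3 h2
    exact_mod_cast h4
  have hin : ∀ i ∈ range (k + 1), a ≤ a + i * (h / k) ∧ a + i * (h / k) ≤ a + h := by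
    intro i hi
    rw [mem_range] at hi
    have h1 : (i : ℝ) ≤ k := by exact_mod_cast Nat.lt_succ_iff.1 hi
    constructor
    · have : 0 ≤ (i : ℝ) * (h / k) := by positivity
      linarith
    · have h2 : (i : ℝ) * (h / k) ≤ k * (h / k) := by
        exact mul_le_mul_of_nonneg_right h1 (by positivity)
      rw [mul_div_cancel₀ _ hk'.ne'] at h2
      linarith
  have hdeg : P.degree < (range (k + 1)).card := by
    rw [card_range]
    exact lt_of_le_of_lt (degree_le_of_natDegree_le hP) (by exact_mod_cast Nat.lt_succ_self k)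
  have hrep := Lagrange.eq_interpolate hv hdeg
  have hev : P.eval z = ∑ i ∈ range (k + 1), P.eval (v i) *
      ∏ j ∈ (range (k + 1)).erase i, ((v i - v j)⁻¹ * (z - v j)) := by
    conv_lhs => rw [hrep]
    rw [Lagrange.interpolate_apply, eval_finsetSum]
    refine sum_congr rfl fun i _ => ?_
    rw [eval_mul, eval_C, Lagrange.basis, eval_prod]
    congr 1
    refine prod_congr rfl fun j _ => ?_
    rw [Lagrange.basisDivisor, eval_mul, eval_C, eval_sub, eval_X, eval_C]
  have hterm : ∀ i ∈ range (k + 1), ‖P.eval (v i) *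
      ∏ j ∈ (range (k + 1)).erase i, ((v i - v j)⁻¹ * (z - v j))‖ ≤
      S * (L * k) ^ k * (1 / (i.factorial * (k - i).factorial)) := by
    intro i hi
    have h1 := hin i hi
    have h2 : ‖P.eval (v i)‖ ≤ S := hS _ h1.1 h1.2
    have hi' : i ≤ k := Nat.lt_succ_iff.1 (mem_range.1 hi)
    have h3 : ‖∏ j ∈ (range (k + 1)).erase i, ((v i - v j)⁻¹ * (z - v j))‖ ≤
        ∏ j ∈ (range (k + 1)).erase i, ((L * k) * |(i : ℝ) - j|⁻¹) := by
      rw [norm_prod]
      refine prod_le_prod (fun _ _ => norm_nonneg _) fun j hj => ?_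
      have hj1 := (mem_erase.1 hj)
      have h4 := hz _ (hin j hj1.2).1 (hin j hj1.2).2
      have h5 : v i - v j = (((i : ℝ) - j) * (h / k) : ℝ) := by
        show ((a + i * (h / k) : ℝ) : ℂ) - ((a + j * (h / k) : ℝ) : ℂ) = _
        push_cast
        ring
      have h6 : ‖v i - v j‖ = |(i : ℝ) - j| * (h / k) := by
        rw [h5, Complex.norm_real, Real.norm_eq_abs, abs_mul, abs_of_pos (by positivity : 0 < h / k)]
      rw [norm_mul, norm_inv, h6, mul_inv]
      have h7 : (0 : ℝ) < |(i : ℝ) - j| := by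
        rw [abs_pos, sub_ne_zero]
        exact_mod_cast hj1.1.symm
      calc |(i : ℝ) - j|⁻¹ * (h / k)⁻¹ * ‖z - v j‖ ≤ |(i : ℝ) - j|⁻¹ * (h / k)⁻¹ * (L * h) :=
            mul_le_mul_of_nonneg_left h4 (by positivity)
        _ = L * k * |(i : ℝ) - j|⁻¹ := by
            field_simp
    have h8 : ∏ j ∈ (range (k + 1)).erase i, ((L * k) * |(i : ℝ) - j|⁻¹) =
        (L * k) ^ k * (1 / (i.factorial * (k - i).factorial)) := by
      rw [prod_mul_distrib, prod_const, card_erase_of_mem hi, card_range, prod_inv_distrib,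
        prod_dist k i hi', Nat.add_sub_cancel, one_div]
    rw [h8] at h3
    rw [norm_mul, mul_assoc]
    exact mul_le_mul h2 h3 (norm_nonneg _) hS0
  calc ‖P.eval z‖ ≤ ∑ i ∈ range (k + 1), ‖P.eval (v i) *
      ∏ j ∈ (range (k + 1)).erase i, ((v i - v j)⁻¹ * (z - v j))‖ := by
        rw [hev]
        exact norm_sum_le _ _
    _ ≤ ∑ i ∈ range (k + 1), S * (L * k) ^ k * (1 / (i.factorial * (k - i).factorial)) :=
        sum_le_sum hterm
    _ = S * (L * k) ^ k * (2 ^ k / k.factorial) := by rw [← mul_sum, sum_inv_factorial]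
    _ = (2 * L) ^ k * ((k : ℝ) ^ k / k.factorial) * S := by
        rw [mul_pow, mul_pow]
        ring
    _ ≤ (2 * L) ^ k * Real.exp k * S := by
        have h1 := Real.pow_div_factorial_le_exp (k : ℝ) hk'.le k
        have h2 : 0 ≤ (2 * L) ^ k := by positivity
        exact mul_le_mul_of_nonneg_right (mul_le_mul_of_nonneg_left h1 h2) hS0
    _ = (2 * Real.exp 1 * L) ^ k * S := by
        have h1 : Real.exp k = Real.exp 1 ^ k := by
          rw [← Real.exp_nat_mul, mul_one]
        rw [h1, ← mul_pow]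
        congr 2
        ring

end Pool.Agent.Lib.MP_695920_nt.TT
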