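import Mathlib

/-!
Step 4 of the bound for the 2-torsion of class groups: a family of elements of an abelian group
such that in every relation between them each coefficient is small in comparison with the others
is small, if its rank is small.
-/

set_option autoImplicit false

open Finset Module

namespace Pool.Agent.Lib.MP_695920_nt.TT

/-! ### dimension of the space of polynomials of bounded degree -/

/-- exponent vectors of bounded degree -/
private abbrev Ex (ι : Type) (D : ℕ) : Type := {n : ι →₀ ℕ | (n.sum fun _ e => e) ≤ D}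

private noncomputable def exEquiv (ι : Type) [Fintype ι] (D : ℕ) :
    Ex ι D ≃ {P : Option ι → ℕ // ∑ i, P i = D} where
  toFun n := ⟨fun o => o.elim (D - (n : ι →₀ ℕ).sum fun _ e => e) (fun i => (n : ι →₀ ℕ) i), by
    rw [Fintype.sum_option]
    simp only [Option.elim_none, Option.elim_some]
    have h := n.2
    simp only [Set.mem_ofPred_eq] at h
    have h2 : (n : ι →₀ ℕ).sum (fun _ e => e) = ∑ i, (n : ι →₀ ℕ) i :=
      Finsupp.sum_fintype _ _ (fun _ => rfl)
    rw [h2] at h ⊢
    omega⟩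
  invFun P := ⟨Finsupp.equivFunOnFinite.symm (fun i => P.1 (some i)), by
    have h := P.2
    rw [Fintype.sum_option] at h
    simp only [Set.mem_ofPred_eq]
    rw [Finsupp.sum_fintype _ _ (fun _ => rfl)]
    simp only [Finsupp.equivFunOnFinite_symm_apply_apply]
    omega⟩
  left_inv n := by
    apply Subtype.ext
    ext i
    simp
  right_inv P := by
    apply Subtype.ext
    funext o
    have h := P.2
    rw [Fintype.sum_option] at h
    cases o with
    | none =>
      simp only [Option.elim_none]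
      rw [Finsupp.sum_fintype _ _ (fun _ => rfl)]
      simp only [Finsupp.equivFunOnFinite_symm_apply_apply]
      omega
    | some i => simp

private instance exFinite (ι : Type) [Fintype ι] (D : ℕ) : Finite (Ex ι D) := by
  classical
  exact Finite.of_equiv _ ((exEquiv ι D).trans (Sym.equivNatSumOfFintype (Option ι) D).symm).symm

private theorem card_ex (ι : Type) [Fintype ι] (D : ℕ) :
    Nat.card (Ex ι D) = (Fintype.card ι + D).choose D := by
  classical
  rw [Nat.card_congr ((exEquiv ι D).trans (Sym.equivNatSumOfFintype (Option ι) D).symm)]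
  rw [Nat.card_eq_fintype_card, Sym.card_sym_eq_choose, Fintype.card_option]
  congr 1
  omega

private theorem finrank_rtd (ι : Type) [Fintype ι] (D : ℕ) :
    finrank ℝ (MvPolynomial.restrictTotalDegree ι ℝ D) = (Fintype.card ι + D).choose D := by
  rw [← card_ex]
  exact finrank_eq_nat_card_basis
    (MvPolynomial.basisRestrictSupport ℝ {n : ι →₀ ℕ | (n.sum fun _ e => e) ≤ D})

private instance finite_rtd (ι : Type) [Fintype ι] (D : ℕ) :
    Module.Finite ℝ (MvPolynomial.restrictTotalDegree ι ℝ D) :=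
  Module.Finite.of_basis
    (MvPolynomial.basisRestrictSupport ℝ {n : ι →₀ ℕ | (n.sum fun _ e => e) ≤ D})

/-! ### the rank of entrywise polynomials -/

/-- a polynomial of degree at most `k`, applied to the entries of a matrix of rank at most `r`,
gives a matrix of rank at most `(r + k).choose k` -/
theorem rank_entrywise {ι : Type} [Fintype ι] {r k : ℕ} (x y : ι → Fin r → ℝ) (p : Polynomial ℝ)
    (hp : p.natDegree ≤ k) :
    (Matrix.of fun i j => p.eval (∑ a, x i a * y j a)).rank ≤ (r + k).choose k := by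
  classical
  set A : Matrix ι ι ℝ := Matrix.of fun i j => p.eval (∑ a, x i a * y j a) with hA
  let ev : MvPolynomial.restrictTotalDegree (Fin r) ℝ k →ₗ[ℝ] (ι → ℝ) :=
    (LinearMap.pi fun i => (MvPolynomial.aeval (x i) :
      MvPolynomial (Fin r) ℝ →ₐ[ℝ] ℝ).toLinearMap) ∘ₗ Submodule.subtype _
  have hcol : Submodule.span ℝ (Set.range A.col) ≤ LinearMap.range ev := by
    rw [Submodule.span_le]
    rintro _ ⟨j, rfl⟩
    set L : MvPolynomial (Fin r) ℝ := ∑ a, MvPolynomial.C (y j a) * MvPolynomial.X a with hL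
    have hLd : L.totalDegree ≤ 1 := by
      refine (MvPolynomial.totalDegree_finsetSum _ _).trans ?_
      refine Finset.sup_le fun a _ => ?_
      refine (MvPolynomial.totalDegree_mul _ _).trans ?_
      rw [MvPolynomial.totalDegree_C, MvPolynomial.totalDegree_X]
    have hq : (Polynomial.aeval L p).totalDegree ≤ k := by
      rw [Polynomial.aeval_eq_sum_range]
      refine (MvPolynomial.totalDegree_finsetSum _ _).trans ?_
      refine Finset.sup_le fun l hl => ?_
      refine (MvPolynomial.totalDegree_smul_le _ _).trans ?_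
      refine (MvPolynomial.totalDegree_pow _ _).trans ?_
      have h1 : l ≤ p.natDegree := by
        have := Finset.mem_range.1 hl
        omega
      calc l * L.totalDegree ≤ l * 1 := Nat.mul_le_mul_left _ hLd
        _ ≤ k := by omega
    refine ⟨⟨Polynomial.aeval L p, (MvPolynomial.mem_restrictTotalDegree _ _ _).2 hq⟩, ?_⟩
    funext i
    change MvPolynomial.aeval (x i) (Polynomial.aeval L p) = A i j
    rw [← Polynomial.aeval_algHom_apply]
    have h2 : MvPolynomial.aeval (x i) L = ∑ a, x i a * y j a := by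
      rw [hL, map_sum]
      refine Finset.sum_congr rfl fun a _ => ?_
      rw [map_mul, MvPolynomial.aeval_C, MvPolynomial.aeval_X, mul_comm]
      rfl
    rw [h2, hA]
    simp [Polynomial.aeval_def]
  have h1 : A.rank = finrank ℝ (Submodule.span ℝ (Set.range A.col)) :=
    Matrix.rank_eq_finrank_span_cols A
  rw [h1]
  refine (Submodule.finrank_mono hcol).trans ?_
  refine (LinearMap.finrank_range_le ev).trans ?_
  rw [finrank_rtd, Fintype.card_fin]

/-! ### the trace and the rank -/

/-- the square of the trace of a real matrix is at most the rank times the sum of the squares of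
the entries -/
theorem trace_sq_le {ι : Type} [Fintype ι] (A : Matrix ι ι ℝ) {r : ℕ} (hr : A.rank ≤ r) :
    (∑ i, A i i) ^ 2 ≤ r * ∑ i, ∑ j, A i j ^ 2 := by
  classical
  let col : ι → EuclideanSpace ℝ ι := fun j => WithLp.toLp 2 (fun i => A i j)
  let U : Submodule ℝ (EuclideanSpace ℝ ι) := Submodule.span ℝ (Set.range col)
  have hU : finrank ℝ U = A.rank := by
    rw [Matrix.rank_eq_finrank_span_cols]
    have h1 : Submodule.span ℝ (Set.range A.col) =
        U.map (WithLp.linearEquiv 2 ℝ (ι → ℝ)).toLinearMap := by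
      rw [Submodule.map_span]
      congr 1
      ext z
      constructor
      · rintro ⟨j, rfl⟩
        exact ⟨col j, ⟨j, rfl⟩, rfl⟩
      · rintro ⟨_, ⟨j, rfl⟩, rfl⟩
        exact ⟨j, rfl⟩
    rw [h1, LinearEquiv.finrank_map_eq]
  let b := stdOrthonormalBasis ℝ U
  have hmem : ∀ j, col j ∈ U := fun j => Submodule.subset_span ⟨j, rfl⟩
  have hsum : ∀ j, (∑ s, inner ℝ (b s) (⟨col j, hmem j⟩ : U) • (b s : EuclideanSpace ℝ ι)) =
      col j := by
    intro j
    have h1 := b.sum_repr' (⟨col j, hmem j⟩ : U)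
    have h2 := congrArg (fun z : U => (z : EuclideanSpace ℝ ι)) h1
    simpa using h2
  have hdiag : ∀ j, A j j = ∑ s, inner ℝ (b s) (⟨col j, hmem j⟩ : U) *
      (b s : EuclideanSpace ℝ ι) j := by
    intro j
    have h1 := congrArg (fun z : EuclideanSpace ℝ ι => z j) (hsum j)
    have h2 : (col j) j = A j j := rfl
    simp only at h1
    rw [h2] at h1
    rw [← h1]
    simp
  have hcs : (∑ i, A i i) ^ 2 ≤
      (∑ q : ι × Fin (finrank ℝ U), (inner ℝ (b q.2) (⟨col q.1, hmem q.1⟩ : U)) ^ 2) *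
      ∑ q : ι × Fin (finrank ℝ U), ((b q.2 : EuclideanSpace ℝ ι) q.1) ^ 2 := by
    have h1 : ∑ i, A i i = ∑ q : ι × Fin (finrank ℝ U),
        inner ℝ (b q.2) (⟨col q.1, hmem q.1⟩ : U) * (b q.2 : EuclideanSpace ℝ ι) q.1 := by
      rw [Fintype.sum_prod_type]
      exact Finset.sum_congr rfl fun i _ => hdiag i
    rw [h1]
    exact Finset.sum_mul_sq_le_sq_mul_sq _ _ _
  have h2 : ∑ q : ι × Fin (finrank ℝ U), ((b q.2 : EuclideanSpace ℝ ι) q.1) ^ 2 =
      finrank ℝ U := by
    rw [Fintype.sum_prod_type_right]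
    have h3 : ∀ s, ∑ i, ((b s : EuclideanSpace ℝ ι) i) ^ 2 = 1 := by
      intro s
      have h4 : ‖(b s : EuclideanSpace ℝ ι)‖ = 1 := by
        have := b.orthonormal.1 s
        rwa [Submodule.coe_norm] at this
      rw [EuclideanSpace.norm_eq, Real.sqrt_eq_one] at h4
      simpa using h4
    rw [Finset.sum_congr rfl fun s _ => h3 s]
    simp
  have h3 : ∑ q : ι × Fin (finrank ℝ U), (inner ℝ (b q.2) (⟨col q.1, hmem q.1⟩ : U)) ^ 2 =
      ∑ i, ∑ j, A i j ^ 2 := by
    rw [Fintype.sum_prod_type, Finset.sum_comm (s := univ) (t := univ) (f := fun i j => A i j ^ 2)]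
    refine Finset.sum_congr rfl fun j _ => ?_
    have h4 := b.sum_sq_norm_inner_right (⟨col j, hmem j⟩ : U)
    have h5 : ‖(⟨col j, hmem j⟩ : U)‖ ^ 2 = ∑ i, A i j ^ 2 := by
      rw [Submodule.coe_norm]
      change ‖col j‖ ^ 2 = _
      rw [EuclideanSpace.norm_eq, Real.sq_sqrt (Finset.sum_nonneg fun i _ => sq_nonneg _)]
      exact Finset.sum_congr rfl fun i _ => by rw [Real.norm_eq_abs, sq_abs]
    rw [← h5, ← h4]
    exact Finset.sum_congr rfl fun s _ => by rw [Real.norm_eq_abs, sq_abs]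
  rw [h2, h3] at hcs
  refine hcs.trans ?_
  rw [mul_comm]
  refine mul_le_mul_of_nonneg_right ?_
    (Finset.sum_nonneg fun i _ => Finset.sum_nonneg fun j _ => sq_nonneg _)
  rw [hU]
  exact_mod_cast hr

/-! ### the functionals -/

/-- the theorem of Hahn and Banach for the maximum norm -/
theorem exists_functional {ι : Type} [Fintype ι] [DecidableEq ι] (W : Submodule ℝ (ι → ℝ)) {c : ℝ}
    (hc : 0 ≤ c) (j : ι) (hW : ∀ w ∈ W, |w j| ≤ c * ∑ i ∈ univ.erase j, |w i|) :
    ∃ B : (ι → ℝ) →ₗ[ℝ] ℝ, (∀ w ∈ W, B w = 0) ∧ B (Pi.single j 1) = 1 ∧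
      ∀ i, i ≠ j → |B (Pi.single i 1)| ≤ c := by
  obtain ⟨B, hB1, hB2⟩ := exists_extension_of_le_sublinear (⟨W, 0⟩ : (ι → ℝ) →ₗ.[ℝ] ℝ)
    (fun x => x j + c * ∑ i ∈ univ.erase j, |x i|)
    (by
      intro a ha x
      simp only [Pi.smul_apply, smul_eq_mul, abs_mul, abs_of_pos ha]
      rw [← Finset.mul_sum]
      ring)
    (by
      intro x y
      simp only [Pi.add_apply]
      have h1 : ∑ i ∈ univ.erase j, |x i + y i| ≤
          ∑ i ∈ univ.erase j, |x i| + ∑ i ∈ univ.erase j, |y i| := by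
        rw [← Finset.sum_add_distrib]
        exact Finset.sum_le_sum fun i _ => abs_add_le _ _
      have h2 := mul_le_mul_of_nonneg_left h1 hc
      linarith)
    (by
      rintro ⟨w, hw⟩
      have h1 := hW w hw
      have h2 := neg_abs_le (w j)
      change (0 : ℝ) ≤ w j + c * ∑ i ∈ univ.erase j, |w i|
      linarith)
  have hs : ∀ (i : ι) (t : ℝ), B (Pi.single i t) ≤ (Pi.single i t : ι → ℝ) j +
      c * ∑ l ∈ univ.erase j, |(Pi.single i t : ι → ℝ) l| := fun i t => hB2 _
  have hjj : ∀ t : ℝ, ∑ l ∈ univ.erase j, |(Pi.single j t : ι → ℝ) l| = 0 := by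
    intro t
    refine Finset.sum_eq_zero fun l hl => ?_
    rw [Pi.single_eq_of_ne (Finset.ne_of_mem_erase hl), abs_zero]
  have hneg : ∀ i, B (Pi.single i (-1)) = -B (Pi.single i 1) := by
    intro i
    rw [← map_neg, ← Pi.single_neg]
  refine ⟨B, fun w hw => hB1 ⟨w, hw⟩, ?_, ?_⟩
  · have h1 := hs j 1
    have h2 := hs j (-1)
    rw [hjj, Pi.single_eq_same] at h1 h2
    rw [hneg] at h2
    linarith
  · intro i hi
    have hil : ∀ t : ℝ, ∑ l ∈ univ.erase j, |(Pi.single i t : ι → ℝ) l| = |t| := by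
      intro t
      rw [Finset.sum_eq_single i]
      · rw [Pi.single_eq_same]
      · intro l _ hl
        rw [Pi.single_eq_of_ne hl, abs_zero]
      · intro h
        exact absurd (Finset.mem_erase.2 ⟨hi, Finset.mem_univ i⟩) h
    have h1 := hs i 1
    have h2 := hs i (-1)
    rw [hil, Pi.single_eq_of_ne hi.symm, abs_one] at h1
    rw [hil, Pi.single_eq_of_ne hi.symm, abs_neg, abs_one, hneg] at h2
    rw [abs_le]
    constructor <;> linarith

/-! ### real relations -/

/-- the inequality for the relations extends to their real combinations -/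
theorem star_span {ι : Type} [Fintype ι] [DecidableEq ι] {c : ℝ} (Λ : AddSubgroup (ι → ℤ))
    (hΛ : ∀ m ∈ Λ, ∀ j, (|m j| : ℝ) ≤ c * ∑ i ∈ univ.erase j, (|m i| : ℝ)) :
    ∀ w ∈ Submodule.span ℝ ((fun (m : ι → ℤ) (i : ι) => (m i : ℝ)) '' Λ), ∀ j,
      |w j| ≤ c * ∑ i ∈ univ.erase j, |w i| := by
  intro w hw j
  -- finite combinations
  obtain ⟨s, a, m, hm, rfl⟩ : ∃ (s : ℕ) (a : Fin s → ℝ) (m : Fin s → ι → ℤ), (∀ l, m l ∈ Λ) ∧
      w = ∑ l, a l • (fun i => (m l i : ℝ)) := by
    obtain ⟨s, a, x, hx⟩ := (Submodule.mem_span_set' (s :=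
      (fun (m : ι → ℤ) (i : ι) => (m i : ℝ)) '' Λ)).1 hw
    choose m hm hmx using fun l : Fin s => (x l).2
    refine ⟨s, a, m, hm, ?_⟩
    rw [← hx]
    exact Finset.sum_congr rfl fun l _ => by rw [← hmx l]
  set ev : (Fin s → ℝ) → ι → ℝ := fun a i => ∑ l, a l * (m l i : ℝ) with hev
  have hevw : (∑ l, a l • fun i => (m l i : ℝ)) = ev a := by
    funext i
    simp [hev]
  rw [hevw]
  -- integral combinations
  have hint : ∀ b : Fin s → ℤ, |ev (fun l => (b l : ℝ)) j| ≤
      c * ∑ i ∈ univ.erase j, |ev (fun l => (b l : ℝ)) i| := by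
    intro b
    have h1 := hΛ (∑ l, b l • m l) (sum_mem fun l _ => Λ.zsmul_mem (hm l) _) j
    have h2 : ∀ i, (((∑ l, b l • m l) i : ℤ) : ℝ) = ev (fun l => (b l : ℝ)) i := by
      intro i
      simp [hev]
    simp only [h2] at h1
    exact h1
  -- rational combinations
  have hrat : ∀ q : Fin s → ℚ, |ev (fun l => (q l : ℝ)) j| ≤
      c * ∑ i ∈ univ.erase j, |ev (fun l => (q l : ℝ)) i| := by
    intro q
    set D : ℕ := ∏ l, (q l).den with hD
    have hD0 : (0 : ℝ) < D := by
      have : 0 < D := Finset.prod_pos fun l _ => (q l).den_pos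
      exact_mod_cast this
    have hb : ∀ l, ∃ b : ℤ, (b : ℝ) = D * q l := by
      intro l
      obtain ⟨e, he⟩ : (q l).den ∣ D := Finset.dvd_prod_of_mem _ (Finset.mem_univ l)
      refine ⟨e * (q l).num, ?_⟩
      have h3 : ((q l : ℚ) : ℝ) = (q l).num / (q l).den := by
        exact_mod_cast (Rat.num_div_den (q l)).symm
      have h4 : ((q l).den : ℝ) ≠ 0 := by exact_mod_cast (q l).den_nz
      rw [h3, he]
      push_cast
      field_simp
    choose b hb using hb
    have h1 := hint b
    have h2 : ∀ i, ev (fun l => (b l : ℝ)) i = D * ev (fun l => (q l : ℝ)) i := by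
      intro i
      simp only [hev]
      rw [Finset.mul_sum]
      exact Finset.sum_congr rfl fun l _ => by rw [hb]; ring
    simp only [h2, abs_mul, abs_of_pos hD0] at h1
    rw [← Finset.mul_sum] at h1
    have h3 : (D : ℝ) * |ev (fun l => (q l : ℝ)) j| ≤
        D * (c * ∑ i ∈ univ.erase j, |ev (fun l => (q l : ℝ)) i|) := by
      refine h1.trans (le_of_eq ?_)
      ring
    exact le_of_mul_le_mul_left h3 hD0
  -- density
  have hdense : DenseRange (fun (q : Fin s → ℚ) (l : Fin s) => (q l : ℝ)) := by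
    have h1 : DenseRange (Pi.map (fun (_ : Fin s) (q : ℚ) => (q : ℝ))) :=
      DenseRange.piMap fun _ => Rat.denseRange_cast
    exact h1
  refine hdense.induction_on (p := fun a : Fin s → ℝ =>
    |ev a j| ≤ c * ∑ i ∈ univ.erase j, |ev a i|) a ?_ hrat
  refine isClosed_le ?_ ?_
  · simp only [hev]
    fun_prop
  · simp only [hev]
    fun_prop

/-! ### the bound -/

/-- the bound in terms of the space of real relations -/
theorem card_le_of_relations {ι : Type} [Fintype ι] [DecidableEq ι] (W : Submodule ℝ (ι → ℝ))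
    {c : ℝ} (hc : 0 ≤ c) (hW : ∀ w ∈ W, ∀ j, |w j| ≤ c * ∑ i ∈ univ.erase j, |w i|) {ρ k : ℕ}
    (hρ : finrank ℝ ((ι → ℝ) ⧸ W) ≤ ρ) (p : Polynomial ℝ) (hp : p.natDegree ≤ k)
    (hpc : ∀ t, |t| ≤ c → |p.eval t| ≤ 1) (h1 : 0 < p.eval 1)
    (hk : 2 * ((ρ + k).choose k : ℝ) ≤ (p.eval 1) ^ 2) :
    (Fintype.card ι : ℝ) ≤ (p.eval 1) ^ 2 := by
  choose B hBW hBj hBi using fun j => exists_functional W hc j fun w hw => hW w hw j
  let r := finrank ℝ ((ι → ℝ) ⧸ W)
  let b : Basis (Fin r) ℝ ((ι → ℝ) ⧸ W) := Module.finBasis ℝ _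
  let Bq : ι → ((ι → ℝ) ⧸ W) →ₗ[ℝ] ℝ := fun j => W.liftQ (B j) fun w hw => hBW j w hw
  have hBq : ∀ j x, Bq j (W.mkQ x) = B j x := fun j x => rfl
  let x : ι → Fin r → ℝ := fun i a => b.repr (W.mkQ (Pi.single i 1)) a
  let y : ι → Fin r → ℝ := fun j a => Bq j (b a)
  have hxy : ∀ i j, ∑ a, x i a * y j a = B j (Pi.single i 1) := by
    intro i j
    rw [← hBq]
    conv_rhs => rw [← b.sum_repr (W.mkQ (Pi.single i 1))]
    rw [map_sum]
    exact Finset.sum_congr rfl fun a _ => by rw [map_smul, smul_eq_mul]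
  set A : Matrix ι ι ℝ := Matrix.of fun i j => p.eval (∑ a, x i a * y j a) with hA
  have hAij : ∀ i j, A i j = p.eval (B j (Pi.single i 1)) := by
    intro i j
    rw [hA, Matrix.of_apply, hxy]
  have hrank : A.rank ≤ (ρ + k).choose k :=
    (rank_entrywise x y p hp).trans (Nat.choose_le_choose k (Nat.add_le_add_right hρ k))
  have htr := trace_sq_le A hrank
  set T := p.eval 1 with hT
  set n : ℝ := (Fintype.card ι : ℝ) with hn
  set R : ℝ := ((ρ + k).choose k : ℝ) with hR
  have hR0 : 0 < R := by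
    have : 0 < (ρ + k).choose k := Nat.choose_pos (Nat.le_add_left _ _)
    rw [hR]
    exact_mod_cast this
  have hdiag : ∑ i, A i i = n * T := by
    rw [Finset.sum_congr rfl fun i _ => by rw [hAij, hBj]]
    rw [Finset.sum_const, nsmul_eq_mul, Finset.card_univ]
  have hoff : ∀ i, ∑ j, A i j ^ 2 ≤ T ^ 2 + (n - 1) := by
    intro i
    rw [← Finset.add_sum_erase _ _ (Finset.mem_univ i)]
    have h2 : A i i ^ 2 = T ^ 2 := by rw [hAij, hBj]
    rw [h2]
    have h3 : ∑ j ∈ univ.erase i, A i j ^ 2 ≤ ∑ _j ∈ univ.erase i, (1 : ℝ) := by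
      refine Finset.sum_le_sum fun j hj => ?_
      rw [hAij]
      have h4 := hpc _ (hBi j i (Finset.ne_of_mem_erase hj).symm)
      have h5 := abs_nonneg (p.eval (B j (Pi.single i 1)))
      rw [← sq_abs]
      nlinarith
    have h4 : ∑ _j ∈ univ.erase i, (1 : ℝ) = n - 1 := by
      rw [Finset.sum_const, nsmul_eq_mul, mul_one, Finset.card_erase_of_mem (Finset.mem_univ i),
        Finset.card_univ, Nat.cast_pred (Fintype.card_pos_iff.2 ⟨i⟩)]
    linarith
  have hall : ∑ i, ∑ j, A i j ^ 2 ≤ n * (T ^ 2 + (n - 1)) := by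
    refine (Finset.sum_le_sum fun i _ => hoff i).trans ?_
    rw [Finset.sum_const, nsmul_eq_mul, Finset.card_univ]
  by_contra hlt
  push Not at hlt
  have hn0 : 0 < n := lt_trans (by positivity) hlt
  have h3 : (n * T) ^ 2 ≤ R * (n * (T ^ 2 + (n - 1))) := by
    rw [hdiag] at htr
    refine htr.trans ?_
    exact mul_le_mul_of_nonneg_left hall hR0.le
  have h4 : n * T ^ 2 ≤ R * (T ^ 2 + (n - 1)) := by
    have h5 : n * (n * T ^ 2) ≤ n * (R * (T ^ 2 + (n - 1))) := by
      calc n * (n * T ^ 2) = (n * T) ^ 2 := by ring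
        _ ≤ _ := h3
        _ = _ := by ring
    exact le_of_mul_le_mul_left h5 hn0
  have h5 : R * (T ^ 2 + (n - 1)) < R * (2 * n) := by
    apply mul_lt_mul_of_pos_left _ hR0
    linarith
  have h6 : n * T ^ 2 < n * (2 * R) := by
    calc n * T ^ 2 < R * (2 * n) := lt_of_le_of_lt h4 h5
      _ = n * (2 * R) := by ring
  have h7 := lt_of_mul_lt_mul_left h6 hn0.le
  linarith

/-- **the number of the elements is small if their rank is small**: `p` is any polynomial of degree
at most `k` which is bounded by `1` on `[-c, c]` -/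
theorem rank_bound {G : Type*} [AddCommGroup G] {ι : Type} [Fintype ι] [DecidableEq ι] {ρ k : ℕ}
    (g : ι → G) {c : ℝ} (hc : 0 ≤ c)
    (star : ∀ m : ι → ℤ, ∑ i, m i • g i = 0 → ∀ j,
      (|m j| : ℝ) ≤ c * ∑ i ∈ univ.erase j, (|m i| : ℝ))
    (hρ : ∀ f : Fin (ρ + 1) → ι, ¬ LinearIndependent ℤ fun s => g (f s))
    (p : Polynomial ℝ) (hp : p.natDegree ≤ k)
    (hpc : ∀ t, |t| ≤ c → |p.eval t| ≤ 1) (h1 : 0 < p.eval 1)
    (hk : 2 * ((ρ + k).choose k : ℝ) ≤ (p.eval 1) ^ 2) :
    (Fintype.card ι : ℝ) ≤ (p.eval 1) ^ 2 := by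
  let φ : (ι → ℤ) →+ G :=
    { toFun := fun m => ∑ i, m i • g i
      map_zero' := by simp
      map_add' := fun m m' => by
        simp only [Pi.add_apply, add_smul]
        rw [Finset.sum_add_distrib] }
  have hφ : ∀ m, φ m = ∑ i, m i • g i := fun m => rfl
  set W : Submodule ℝ (ι → ℝ) :=
    Submodule.span ℝ ((fun (m : ι → ℤ) (i : ι) => (m i : ℝ)) '' φ.ker) with hW
  refine card_le_of_relations W hc (star_span φ.ker fun m hm j => ?_) (ρ := ρ) ?_ p hp hpc h1 hk
  · have h2 := star m hm j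
    exact h2
  · by_contra hlt
    push Not at hlt
    set v : ι → (ι → ℝ) ⧸ W := fun i => W.mkQ (Pi.single i 1) with hv
    have hspan : Submodule.span ℝ (Set.range v) = ⊤ := by
      have h2 : Submodule.span ℝ (Set.range v) =
          (Submodule.span ℝ (Set.range fun i : ι => (Pi.single i 1 : ι → ℝ))).map W.mkQ := by
        rw [Submodule.map_span, ← Set.range_comp]
        rfl
      have h3 : Submodule.span ℝ (Set.range fun i : ι => (Pi.single i 1 : ι → ℝ)) = ⊤ := by
        have := (Pi.basisFun ℝ ι).span_eq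
        rw [← this]
        congr 1
        ext z
        simp [Pi.basisFun_apply]
      rw [h2, h3, Submodule.map_top, Submodule.range_mkQ]
    obtain ⟨f, hf, -, hind⟩ := Submodule.exists_fun_fin_finrank_span_eq ℝ (Set.range v)
    have hle : ρ + 1 ≤ finrank ℝ (Submodule.span ℝ (Set.range v)) := by
      rw [hspan, finrank_top]
      exact hlt
    choose e he using hf
    refine hρ (fun s => e (Fin.castLE hle s)) ?_
    have hind2 : LinearIndependent ℝ fun s : Fin (ρ + 1) => v (e (Fin.castLE hle s)) := by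
      have h2 := hind.comp (Fin.castLE hle) (Fin.castLE_injective hle)
      have h3 : (fun s : Fin (ρ + 1) => v (e (Fin.castLE hle s))) = f ∘ Fin.castLE hle := by
        funext s
        exact he _
      rw [h3]
      exact h2
    rw [Fintype.linearIndependent_iff]
    intro m hm s
    set m' : ι → ℤ := ∑ s, m s • (Pi.single (e (Fin.castLE hle s)) 1 : ι → ℤ) with hm'
    have hmem : m' ∈ φ.ker := by
      rw [AddMonoidHom.mem_ker, hm', map_sum, ← hm]
      refine Finset.sum_congr rfl fun s _ => ?_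
      rw [map_zsmul, hφ]
      congr 1
      rw [Finset.sum_eq_single (e (Fin.castLE hle s))]
      · simp
      · intro i _ hi
        rw [Pi.single_eq_of_ne hi, zero_smul]
      · intro h
        exact absurd (Finset.mem_univ _) h
    have hz : W.mkQ (fun i => (m' i : ℝ)) = 0 := by
      rw [Submodule.mkQ_apply, Submodule.Quotient.mk_eq_zero]
      exact Submodule.subset_span ⟨m', hmem, rfl⟩
    have hz2 : ∑ s, (m s : ℝ) • v (e (Fin.castLE hle s)) = 0 := by
      rw [← hz]
      have h2 : (fun i => (m' i : ℝ)) =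
          ∑ s, (m s : ℝ) • (Pi.single (e (Fin.castLE hle s)) 1 : ι → ℝ) := by
        funext i
        rw [hm']
        simp only [Finset.sum_apply, Pi.smul_apply, smul_eq_mul]
        push_cast
        refine Finset.sum_congr rfl fun s _ => ?_
        by_cases h3 : i = e (Fin.castLE hle s)
        · subst h3
          simp
        · rw [Pi.single_eq_of_ne h3, Pi.single_eq_of_ne h3]
          simp
      rw [h2, map_sum]
      exact Finset.sum_congr rfl fun s _ => by rw [map_smul]
    have h2 := Fintype.linearIndependent_iff.1 hind2 (fun s => (m s : ℝ)) hz2 s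
    exact_mod_cast h2

/-- **the number of the elements is small if their rank is small** -/
theorem rank_bound_chebyshev {G : Type*} [AddCommGroup G] {ι : Type} [Fintype ι] [DecidableEq ι]
    {ρ k : ℕ} (g : ι → G) {c : ℝ} (hc : 0 < c) (hc1 : c ≤ 1)
    (star : ∀ m : ι → ℤ, ∑ i, m i • g i = 0 → ∀ j,
      (|m j| : ℝ) ≤ c * ∑ i ∈ univ.erase j, (|m i| : ℝ))
    (hρ : ∀ f : Fin (ρ + 1) → ι, ¬ LinearIndependent ℤ fun s => g (f s))
    (hk : 2 * ((ρ + k).choose k : ℝ) ≤ ((Polynomial.Chebyshev.T ℝ k).eval (1 / c)) ^ 2) :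
    (Fintype.card ι : ℝ) ≤ ((Polynomial.Chebyshev.T ℝ k).eval (1 / c)) ^ 2 := by
  set p : Polynomial ℝ := (Polynomial.Chebyshev.T ℝ k).comp
    (Polynomial.C (1 / c) * Polynomial.X) with hp
  have hev : ∀ t, p.eval t = (Polynomial.Chebyshev.T ℝ k).eval (t / c) := by
    intro t
    rw [hp, Polynomial.eval_comp]
    congr 1
    simp
    ring
  have h1 : p.eval 1 = (Polynomial.Chebyshev.T ℝ k).eval (1 / c) := hev 1
  have hone : 1 ≤ 1 / c := by
    rw [le_div_iff₀ hc]
    linarith
  have h2 : 1 ≤ p.eval 1 := by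
    rw [h1]
    exact Polynomial.Chebyshev.one_le_eval_T_real k hone
  rw [← h1] at hk ⊢
  refine rank_bound g hc.le star hρ p ?_ ?_ (by linarith) hk
  · rw [hp]
    refine Polynomial.natDegree_comp_le.trans ?_
    have h3 : (Polynomial.Chebyshev.T ℝ k).natDegree = k := by
      rw [Polynomial.Chebyshev.natDegree_T]
      rfl
    rw [h3]
    calc k * (Polynomial.C (1 / c) * Polynomial.X).natDegree ≤ k * 1 :=
          Nat.mul_le_mul_left _ ((Polynomial.natDegree_C_mul_le _ _).trans
            Polynomial.natDegree_X_le)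
      _ = k := mul_one k
  · intro t ht
    rw [hev]
    apply Polynomial.Chebyshev.abs_eval_T_real_le_one
    rw [abs_div, abs_of_pos hc, div_le_one hc]
    exact ht

/-- the same bound in terms of the group of relations -/
theorem rank_bound_relations {N ρ k : ℕ} (Λ : AddSubgroup (Fin N → ℤ)) {c : ℝ} (hc : 0 < c)
    (hc1 : c ≤ 1)
    (hrep : ∀ m ∈ Λ, ∀ j, (|m j| : ℝ) ≤ c * ∑ i ∈ univ.erase j, (|m i| : ℝ))
    (hdep : ∀ S : Finset (Fin N), S.card = ρ + 1 → ∃ m ∈ Λ, m ≠ 0 ∧ ∀ i, i ∉ S → m i = 0)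
    (hk : 2 * ((ρ + k).choose k : ℝ) ≤ ((Polynomial.Chebyshev.T ℝ k).eval (1 / c)) ^ 2) :
    (N : ℝ) ≤ ((Polynomial.Chebyshev.T ℝ k).eval (1 / c)) ^ 2 := by
  let g : Fin N → (Fin N → ℤ) ⧸ Λ := fun i => QuotientAddGroup.mk' Λ (Pi.single i 1)
  have hg : ∀ m : Fin N → ℤ, ∑ i, m i • g i = QuotientAddGroup.mk' Λ m := by
    intro m
    have h1 : m = ∑ i, m i • (Pi.single i 1 : Fin N → ℤ) := by
      funext j
      simp [Finset.sum_apply, Pi.single_apply]
    conv_rhs => rw [h1]
    rw [map_sum]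
    exact Finset.sum_congr rfl fun i _ => by rw [map_zsmul]
  have hmem : ∀ m : Fin N → ℤ, ∑ i, m i • g i = 0 ↔ m ∈ Λ := by
    intro m
    rw [hg]
    exact QuotientAddGroup.eq_zero_iff m
  have h := rank_bound_chebyshev g hc hc1 (ρ := ρ) (k := k)
    (fun m hm j => hrep m ((hmem m).1 hm) j) ?_ hk
  · simpa using h
  · intro f hf
    have hinj : Function.Injective f := by
      have h1 := hf.injective
      intro s t hst
      apply h1
      simp only
      rw [hst]
    obtain ⟨m, hm, hm0, hms⟩ := hdep (Finset.univ.image f) (by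
      rw [Finset.card_image_of_injective _ hinj, Finset.card_univ, Fintype.card_fin])
    apply hm0
    rw [Fintype.linearIndependent_iff] at hf
    have h2 : ∑ s, m (f s) • g (f s) = 0 := by
      rw [← (hmem m).2 hm]
      rw [← Finset.sum_image (f := fun i => m i • g i) (g := f)
        (fun x _ y _ hxy => hinj hxy)]
      refine Finset.sum_subset (Finset.subset_univ _) fun i _ hi => ?_
      rw [hms i hi, zero_smul]
    have h3 := hf (fun s => m (f s)) h2
    funext i
    by_cases hi : i ∈ Finset.univ.image f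
    · obtain ⟨s, -, rfl⟩ := Finset.mem_image.1 hi
      exact h3 s
    · exact hms i hi

end Pool.Agent.Lib.MP_695920_nt.TT
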