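import Pool.Agent.Lib.MP_695920_nt.TT.Ring

set_option autoImplicit false

/-!
TEAM TWOTORSION: integral points on `y^2 = f(x)`, `f` monic irreducible of odd degree.
-/

open Polynomial

namespace Pool.TT

/-- `f0` monic irreducible of odd degree over `ℤ`; integral points `(x i, y i)`, `y i > 0`,
with distinct abscissas. -/
structure Pts (ι : Type*) where
  f0 : ℤ[X]
  monic : f0.Monic
  odd : Odd f0.natDegree
  irr : Irreducible f0
  three : 3 ≤ f0.natDegree
  x : ι → ℤ
  y : ι → ℤ
  inj : Function.Injective x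
  pos : ∀ i, 0 < y i
  eq : ∀ i, y i ^ 2 = f0.eval (x i)

namespace Pts

variable {ι : Type*} (P : Pts ι)

/-- `f` over `ℚ` -/
noncomputable def f : ℚ[X] := P.f0.map (Int.castRingHom ℚ)

theorem f_monic : P.f.Monic := P.monic.map _

theorem f_natDegree : P.f.natDegree = P.f0.natDegree := by
  rw [f, P.monic.natDegree_map]

theorem f_irr : Irreducible P.f :=
  (Polynomial.Monic.irreducible_iff_irreducible_map_fraction_map (K := ℚ) P.monic).1 P.irr

instance : Fact (Odd P.f.natDegree) := ⟨by rw [P.f_natDegree]; exact P.odd⟩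

instance : Fact (Squarefree P.f) := ⟨P.f_irr.squarefree⟩

/-- class of the point `i` -/
noncomputable def cls (i : ι) : ClassGroup (Crd P.f) :=
  cl P.f (X - C (P.x i : ℚ)) (C (P.y i : ℚ))

/-- `g_i = gcd(2 y_i, f'(x_i))` -/
noncomputable def g (i : ι) : ℕ := Int.gcd (2 * P.y i) (P.f0.derivative.eval (P.x i))

end Pts

end Pool.TT
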