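import Pool.Agent.Lib.MP_695920_nt.TT.RepCore
import Pool.Agent.Lib.MP_695920_nt.TT.Ideals
import Pool.Agent.Lib.MP_695920_nt.TT.Pts

/-!
# Repulsion of integral points
-/

open Polynomial

namespace Pool.TT

/-- a monic polynomial of odd degree is negative to the left of its roots -/
theorem eval_neg_of_lt (f0 : ℤ[X]) (hm : f0.Monic) (hodd : Odd f0.natDegree) (ρ : ℝ)
    (hroots : ∀ z : ℂ, (f0.map (Int.castRingHom ℂ)).IsRoot z → ‖z‖ ≤ ρ) (t : ℝ) (ht : t < -ρ) :
    (f0.map (Int.castRingHom ℝ)).eval t < 0 := by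
  set g : ℝ[X] := f0.map (Int.castRingHom ℝ) with hg
  have hne : ∀ s : ℝ, s < -ρ → g.eval s ≠ 0 := by
    intro s hs h0
    have h1 : (f0.map (Int.castRingHom ℂ)).IsRoot (s : ℂ) := by
      have h2 : f0.map (Int.castRingHom ℂ) = g.map Complex.ofRealHom := by
        rw [hg, Polynomial.map_map]
        congr 1
      rw [IsRoot, h2, eval_map, ← Complex.ofRealHom_eq_coe, eval₂_at_apply, h0, map_zero]
    have h3 := hroots _ h1
    rw [Complex.norm_real, Real.norm_eq_abs] at h3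
    have h4 := neg_abs_le s
    linarith
  by_contra hcon
  push Not at hcon
  have hpos : 0 < g.eval t := lt_of_le_of_ne hcon (Ne.symm (hne t ht))
  have hgm : g.Monic := hm.map _
  have hgd : Odd g.natDegree := by rwa [hg, hm.natDegree_map]
  have hlc : (g.comp (-X)).leadingCoeff = -1 := by
    rw [leadingCoeff_comp (by simp), leadingCoeff_neg, leadingCoeff_X, hgm.leadingCoeff, one_mul]
    exact hgd.neg_one_pow
  have hdeg : 0 < (g.comp (-X)).degree := by
    rw [← natDegree_pos_iff_degree_pos, natDegree_comp, natDegree_neg, natDegree_X, mul_one]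
    exact hgd.pos
  have hlim := (g.comp (-X)).tendsto_atBot_of_leadingCoeff_nonpos hdeg (by rw [hlc]; norm_num)
  obtain ⟨s, hs1, hs2⟩ := ((hlim.eventually (Filter.eventually_lt_atBot (0 : ℝ))).and
    (Filter.eventually_gt_atTop (-t))).exists
  rw [eval_comp, eval_neg, eval_X] at hs1
  have hcont : ContinuousOn (fun s => g.eval s) (Set.Icc (-s) t) := g.continuous.continuousOn
  have hle : -s ≤ t := by linarith
  obtain ⟨r, hr, hr0⟩ := intermediate_value_Icc hle hcont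
    (show (0 : ℝ) ∈ Set.Icc (g.eval (-s)) (g.eval t) from ⟨hs1.le, hpos.le⟩)
  exact hne r (lt_of_le_of_lt hr.2 ht) hr0

/-- the size of the function at a point -/
theorem size {ι : Type*} [Fintype ι] (f0 : ℤ[X]) (hm : f0.Monic) (hodd : Odd f0.natDegree)
    (ρ : ℝ) (hρ : 1 ≤ ρ)
    (hroots : ∀ z : ℂ, (f0.map (Int.castRingHom ℂ)).IsRoot z → ‖z‖ ≤ ρ) (x : ι → ℤ) (a : ι → ℕ)
    (hx : ∀ i, |(x i : ℝ)| ≤ ρ) (A B : ℤ[X])
    (hAB : A ^ 2 - f0 * B ^ 2 = ∏ i, (X - C (x i)) ^ a i ∨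
      A ^ 2 - f0 * B ^ 2 = -∏ i, (X - C (x i)) ^ a i) (j : ι) :
    |((A.eval (x j) : ℤ) : ℝ)| ^ 2 ≤ (32 * Real.exp 1 * ρ) ^ (∑ i, a i) := by
  set m := ∑ i, a i with hmdef
  have hdegW : (∏ i, (X - C (x i)) ^ a i : ℤ[X]).natDegree = m := by
    rw [natDegree_prod_of_monic _ _ fun i _ => (monic_X_sub_C _).pow _]
    refine Finset.sum_congr rfl fun i _ => ?_
    rw [(monic_X_sub_C _).natDegree_pow, natDegree_X_sub_C, mul_one]
  have hdegA : 2 * A.natDegree ≤ m := by
    have h1 := (Agent.Lib.MP_695920_nt.TT.natDegree_le_of_norm (A := A) (B := B) hm hodd).1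
    rcases hAB with h | h
    · rwa [h, hdegW] at h1
    · rwa [h, natDegree_neg, hdegW] at h1
  set AR : ℝ[X] := A.map (Int.castRingHom ℝ) with hAR
  have hρ0 : 0 < ρ := by linarith
  have hbound : ∀ t : ℝ, -3 * ρ ≤ t → t ≤ -3 * ρ + ρ → |AR.eval t| ^ 2 ≤ (4 * ρ) ^ m := by
    intro t h1 h2
    have hneg := eval_neg_of_lt f0 hm hodd ρ hroots t (by linarith)
    have h3 : AR.eval t ^ 2 - (f0.map (Int.castRingHom ℝ)).eval t *
        (B.map (Int.castRingHom ℝ)).eval t ^ 2 = ∏ i, (t - x i) ^ a i ∨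
        AR.eval t ^ 2 - (f0.map (Int.castRingHom ℝ)).eval t *
        (B.map (Int.castRingHom ℝ)).eval t ^ 2 = -∏ i, (t - x i) ^ a i := by
      have hW : ((∏ i, (X - C (x i)) ^ a i : ℤ[X]).map (Int.castRingHom ℝ)).eval t =
          ∏ i, (t - x i) ^ a i := by
        rw [Polynomial.map_prod, eval_prod]
        refine Finset.prod_congr rfl fun i _ => ?_
        simp
      rcases hAB with h | h
      · left
        have h4 := congrArg (fun P => (P.map (Int.castRingHom ℝ)).eval t) h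
        simp only [Polynomial.map_sub, Polynomial.map_mul, Polynomial.map_pow, eval_sub, eval_mul,
          eval_pow] at h4
        rw [← hW, ← h4]
      · right
        have h4 := congrArg (fun P => (P.map (Int.castRingHom ℝ)).eval t) h
        simp only [Polynomial.map_sub, Polynomial.map_mul, Polynomial.map_pow, Polynomial.map_neg,
          eval_sub, eval_mul, eval_pow, eval_neg] at h4
        rw [← hW, ← h4]
    have h4 : |∏ i, (t - x i) ^ a i| ≤ (4 * ρ) ^ m := by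
      rw [Finset.abs_prod, hmdef, ← Finset.prod_pow_eq_pow_sum]
      refine Finset.prod_le_prod (fun _ _ => abs_nonneg _) fun i _ => ?_
      rw [abs_pow]
      refine pow_le_pow_left₀ (abs_nonneg _) ?_ _
      have h5 := hx i
      rw [abs_le] at h5 ⊢
      constructor <;> linarith
    have h5 : 0 ≤ -((f0.map (Int.castRingHom ℝ)).eval t *
        (B.map (Int.castRingHom ℝ)).eval t ^ 2) := by
      have := mul_nonneg (neg_nonneg.2 hneg.le) (sq_nonneg ((B.map (Int.castRingHom ℝ)).eval t))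
      linarith
    rw [sq_abs]
    rcases h3 with h3 | h3
    · have h6 := le_abs_self (∏ i, (t - x i) ^ a i)
      linarith
    · have h6 := neg_abs_le (∏ i, (t - x i) ^ a i)
      linarith
  have hS : ∀ t : ℝ, -3 * ρ ≤ t → t ≤ -3 * ρ + ρ →
      ‖(AR.map Complex.ofRealHom).eval (t : ℂ)‖ ≤ Real.sqrt ((4 * ρ) ^ m) := by
    intro t h1 h2
    rw [eval_map, ← Complex.ofRealHom_eq_coe, eval₂_at_apply, Complex.ofRealHom_eq_coe,
      Complex.norm_real, Real.norm_eq_abs]
    exact Real.le_sqrt_of_sq_le (hbound t h1 h2)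
  have hz : ∀ t : ℝ, -3 * ρ ≤ t → t ≤ -3 * ρ + ρ → ‖((x j : ℝ) : ℂ) - t‖ ≤ 4 * ρ := by
    intro t h1 h2
    rw [← Complex.ofReal_sub, Complex.norm_real, Real.norm_eq_abs]
    have h5 := hx j
    rw [abs_le] at h5 ⊢
    constructor <;> linarith
  have hmain := Agent.Lib.MP_695920_nt.TT.extrap (AR.map Complex.ofRealHom) A.natDegree (by
      rw [hAR, Polynomial.map_map]
      exact natDegree_map_le) (-3 * ρ) ρ _ 4 hρ0 hS _ hz
  rw [eval_map, ← Complex.ofRealHom_eq_coe, eval₂_at_apply, Complex.ofRealHom_eq_coe,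
    Complex.norm_real, Real.norm_eq_abs, hAR, eval_intCast_map] at hmain
  have he : 1 ≤ 2 * Real.exp 1 * 4 := by
    have := Real.add_one_le_exp (1 : ℝ)
    linarith
  have h1 : |((A.eval (x j) : ℤ) : ℝ)| ^ 2 ≤
      ((2 * Real.exp 1 * 4) ^ A.natDegree * Real.sqrt ((4 * ρ) ^ m)) ^ 2 := by
    refine pow_le_pow_left₀ (abs_nonneg _) ?_ 2
    simpa using hmain
  refine h1.trans ?_
  rw [mul_pow, Real.sq_sqrt (by positivity), ← pow_mul, mul_comm A.natDegree 2]
  calc (2 * Real.exp 1 * 4) ^ (2 * A.natDegree) * (4 * ρ) ^ m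
      ≤ (2 * Real.exp 1 * 4) ^ m * (4 * ρ) ^ m :=
        mul_le_mul_of_nonneg_right (pow_le_pow_right₀ he hdegA) (by positivity)
    _ = (32 * Real.exp 1 * ρ) ^ m := by
        rw [← mul_pow]
        congr 1
        ring

/-- **Repulsion.** -/
theorem repulsion {ι : Type*} [Fintype ι] (P : Pts ι) (ρ : ℝ) (hρ : 1 ≤ ρ)
    (hroots : ∀ z : ℂ, (P.f0.map (Int.castRingHom ℂ)).IsRoot z → ‖z‖ ≤ ρ)
    (hx : ∀ i, |(P.x i : ℝ)| ≤ ρ) (m : ι → ℤ) (hm : ∏ i, P.cls i ^ m i = 1) (j : ι) :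
    |(m j : ℝ)| * Real.log (2 * P.y j / P.g j) ≤
      (∑ i, |(m i : ℝ)|) * Real.log (100 * Real.sqrt ρ) := by
  classical
  have hlog0 : 0 ≤ Real.log (100 * Real.sqrt ρ) := by
    apply Real.log_nonneg
    have : 1 ≤ Real.sqrt ρ := by
      rw [Real.one_le_sqrt]
      exact hρ
    linarith
  have hsum0 : 0 ≤ ∑ i, |(m i : ℝ)| := Finset.sum_nonneg fun _ _ => abs_nonneg _
  by_cases hmj : m j = 0
  · rw [hmj, Int.cast_zero, abs_zero, zero_mul]
    exact mul_nonneg hsum0 hlog0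
  let v : ι → ℤ := fun i => if m i < 0 then -P.y i else P.y i
  let a : ι → ℕ := fun i => (m i).natAbs
  have hv2 : ∀ i, v i ^ 2 = P.f0.eval (P.x i) := by
    intro i
    rw [← P.eq i]
    show (if m i < 0 then -P.y i else P.y i) ^ 2 = _
    split_ifs
    · ring
    · rfl
  have hv0 : ∀ i, v i ≠ 0 := by
    intro i
    have := (P.pos i).ne'
    show (if m i < 0 then -P.y i else P.y i) ≠ 0
    split_ifs
    · exact neg_ne_zero.2 this
    · exact this
  have hdvd : ∀ (i : ι) (u : ℤ), u ^ 2 = P.f0.eval (P.x i) →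
      (X - C (P.x i : ℚ)) ∣ P.f - C (u : ℚ) ^ 2 := by
    intro i u hu
    have h1 : P.f.eval (P.x i : ℚ) = (u : ℚ) ^ 2 := by
      rw [Pts.f, eval_intCast_map, Int.cast_id, ← hu]
      simp
    rw [← C_pow, ← h1]
    exact X_sub_C_dvd_sub_C_eval
  have hrel : ∏ i, cl P.f (X - C (P.x i : ℚ)) (C (v i : ℚ)) ^ a i = 1 := by
    rw [← hm]
    refine Finset.prod_congr rfl fun i _ => ?_
    rcases lt_or_ge (m i) 0 with h | h
    · have h1 : v i = -P.y i := if_pos h
      have h2 : (C ((v i : ℤ) : ℚ) : ℚ[X]) = -C (P.y i : ℚ) := by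
        rw [h1]
        simp
      rw [h2, cl_neg P.f _ _ (hdvd i _ (P.eq i)), inv_pow, ← zpow_natCast, ← zpow_neg]
      congr 1
      show -((m i).natAbs : ℤ) = m i
      omega
    · have h1 : v i = P.y i := if_neg (not_lt.2 h)
      rw [h1, ← zpow_natCast]
      congr 1
      show ((m i).natAbs : ℤ) = m i
      omega
  obtain ⟨φ, -, hφ, hN⟩ := exists_function P.f P.f_monic (fun i => X - C (P.x i : ℚ))
    (fun i => C (v i : ℚ)) a (fun i => monic_X_sub_C _) (fun i => hdvd i _ (hv2 i)) hrel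
  have haj : a j ≠ 0 := Int.natAbs_ne_zero.2 hmj
  obtain ⟨A, B, hAB, hA0, hdiv⟩ := core P.f0 P.monic P.odd P.x v a P.inj hv0 hv2 P.f rfl φ hφ hN
    j haj
  have hsize := size P.f0 P.monic P.odd ρ hρ hroots P.x a hx A B hAB j
  have hg : (Int.gcd (2 * v j) (P.f0.derivative.eval (P.x j)) : ℤ) = P.g j := by
    rw [Pts.g]
    rcases lt_or_ge (m j) 0 with h | h
    · have h1 : v j = -P.y j := if_pos h
      rw [h1, mul_neg, Int.neg_gcd]
    · have h1 : v j = P.y j := if_neg (not_lt.2 h)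
      rw [h1]
  have hg0 : P.g j ≠ 0 := by
    intro h0
    rw [Pts.g] at h0
    have h1 := (Int.gcd_eq_zero_iff.1 h0).1
    have := (P.pos j).ne'
    omega
  rw [hg] at hdiv
  have hA0' : 2 * A.eval (P.x j) ≠ 0 := mul_ne_zero two_ne_zero hA0
  have h1 := Int.le_of_dvd (abs_pos.2 hA0') ((dvd_abs _ _).2 ((abs_dvd _ _).2 hdiv))
  rw [abs_pow] at h1
  have hgdvd : (P.g j : ℤ) ∣ 2 * v j := by
    rw [← hg]
    exact Int.gcd_dvd_left _ _
  have habs : |((2 * v j / (P.g j : ℤ) : ℤ) : ℝ)| = 2 * P.y j / P.g j := by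
    have hg0' : ((P.g j : ℤ) : ℝ) ≠ 0 := by exact_mod_cast hg0
    rw [Int.cast_div hgdvd (by exact_mod_cast hg0)]
    push_cast
    rw [abs_div, abs_mul]
    have h2 : |(v j : ℝ)| = P.y j := by
      have hy : (0 : ℝ) < P.y j := by exact_mod_cast P.pos j
      rcases lt_or_ge (m j) 0 with h | h
      · have h1 : v j = -P.y j := if_pos h
        rw [h1]
        push_cast
        rw [abs_neg, abs_of_pos hy]
      · have h1 : v j = P.y j := if_neg (not_lt.2 h)
        rw [h1, abs_of_pos hy]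
    rw [h2]
    simp
  have h2 : (2 * (P.y j : ℝ) / P.g j) ^ a j ≤ 2 * |((A.eval (P.x j) : ℤ) : ℝ)| := by
    rw [← habs]
    have h3 : ((|2 * v j / (P.g j : ℤ)| ^ a j : ℤ) : ℝ) ≤ ((|2 * A.eval (P.x j)| : ℤ) : ℝ) := by
      exact_mod_cast h1
    rw [Int.cast_pow, Int.cast_abs, Int.cast_abs, Int.cast_mul, abs_mul] at h3
    simpa using h3
  have hM1 : 1 ≤ ∑ i, a i :=
    (Nat.one_le_iff_ne_zero.2 haj).trans (Finset.single_le_sum (f := a)
      (fun _ _ => Nat.zero_le _) (Finset.mem_univ j))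
  have hpos : (0 : ℝ) < 2 * (P.y j : ℝ) / P.g j := by
    have hy : (0 : ℝ) < P.y j := by exact_mod_cast P.pos j
    have hgp : (0 : ℝ) < P.g j := by exact_mod_cast Nat.pos_of_ne_zero hg0
    positivity
  have h3 : ((2 * (P.y j : ℝ) / P.g j) ^ a j) ^ 2 ≤ (10000 * ρ) ^ (∑ i, a i) := by
    calc ((2 * (P.y j : ℝ) / P.g j) ^ a j) ^ 2 ≤ (2 * |((A.eval (P.x j) : ℤ) : ℝ)|) ^ 2 :=
          pow_le_pow_left₀ (by positivity) h2 2
      _ = 4 * |((A.eval (P.x j) : ℤ) : ℝ)| ^ 2 := by ring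
      _ ≤ 4 ^ (∑ i, a i) * (32 * Real.exp 1 * ρ) ^ (∑ i, a i) := by
          refine mul_le_mul ?_ hsize (by positivity) (by positivity)
          exact le_self_pow₀ (by norm_num) (by omega)
      _ = (128 * Real.exp 1 * ρ) ^ (∑ i, a i) := by
          rw [← mul_pow]
          congr 1
          ring
      _ ≤ (10000 * ρ) ^ (∑ i, a i) := by
          refine pow_le_pow_left₀ (by positivity) ?_ _
          have h4 := Real.exp_one_lt_d9
          nlinarith
  have h4 := Real.log_le_log (by positivity) h3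
  rw [Real.log_pow, Real.log_pow, Real.log_pow] at h4
  have h5 : Real.log (10000 * ρ) = 2 * Real.log (100 * Real.sqrt ρ) := by
    have h6 : 10000 * ρ = (100 * Real.sqrt ρ) ^ 2 := by
      rw [mul_pow, Real.sq_sqrt (by linarith)]
      norm_num
    rw [h6, Real.log_pow]
    norm_num
  rw [h5] at h4
  have h6 : ∀ i, ((a i : ℕ) : ℝ) = |(m i : ℝ)| := by
    intro i
    show (((m i).natAbs : ℕ) : ℝ) = _
    rw [Nat.cast_natAbs, Int.cast_abs]
  rw [h6 j] at h4
  push_cast at h4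
  simp only [h6] at h4
  linarith

end Pool.TT
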