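import Pool.Agent.Lib.MP_695920_nt.TT.Num
import Pool.Agent.Lib.MP_695920_nt.TT.DiscOmega
import Pool.Agent.Lib.MP_695920_nt.TT.RankBound
import Pool.Agent.Lib.MP_695920_nt.TT.Repulsion
import Pool.Agent.Lib.MP_695920_nt.TT.Descent
import Pool.Agent.Lib.MP_695920_nt.TT.ClassRank
import Pool.Agent.Lib.MP_695920_nt.TT.BadMain

/-!
MP_695920_nt, TT: the bound for the integral points on one line (LINE).
-/

set_option autoImplicit false

namespace Pool.TT

open NumberField Module Real

/-- the lattice of relations -/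
noncomputable def relL {N : ℕ} (P : Pts (Fin N)) : AddSubgroup (Fin N → ℤ) where
  carrier := {m | ∏ i, P.cls i ^ m i = 1}
  zero_mem' := by simp
  add_mem' := by
    intro a b ha hb
    simp only [Set.mem_ofPred_eq, Pi.add_apply, zpow_add, Finset.prod_mul_distrib] at *
    rw [ha, hb, one_mul]
  neg_mem' := by
    intro a ha
    simp only [Set.mem_ofPred_eq, Pi.neg_apply, zpow_neg, Finset.prod_inv_distrib] at *
    rw [ha, inv_one]

/-- good points are few -/
theorem good_bound {N : ℕ} (P : Pts (Fin N)) (K : Type) [Field K] [NumberField K]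
    (θ : 𝓞 K) (hθ : minpoly ℤ θ = P.f0) (hK : finrank ℚ K = P.f0.natDegree)
    {w ρ : ℝ} (hw : 1 < w) (hw2 : exp 1 < w ^ 2) (hρ : 1 ≤ ρ)
    (hroots : ∀ z : ℂ, (P.f0.map (Int.castRingHom ℂ)).IsRoot z → ‖z‖ ≤ ρ)
    (hx : ∀ i, |(P.x i : ℝ)| ≤ ρ)
    (hgood : ∀ i, ((w + w⁻¹) / 2 + 1) * log (100 * √ρ) ≤ log (2 * P.y i / P.g i)) :
    (N : ℝ) ≤ exp (2 * log w * ((Nat.clog 2 (Nat.card {x : ClassGroup (𝓞 K) // x ^ 2 = 1}) +
      P.f0.natDegree * (1 + (2 * P.f0.discr).natAbs.primeFactors.card) : ℕ) * tt w +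
        log 8 + 1)) := by
  classical
  set h : ℕ := Nat.card {x : ClassGroup (𝓞 K) // x ^ 2 = 1} with hh
  set om : ℕ := P.f0.natDegree * (1 + (2 * P.f0.discr).natAbs.primeFactors.card) with hom
  set r : ℕ := Nat.clog 2 h + om with hr
  set z : ℝ := (w + w⁻¹) / 2 with hz
  have hw0 : 0 < w := by linarith
  have hz1 : 1 < z := by
    have h1 : 0 < (w - 1) ^ 2 := by
      have : w - 1 ≠ 0 := by linarith
      positivity
    have h2 : z - 1 = (w - 1) ^ 2 / (2 * w) := by
      rw [hz]
      field_simp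
      ring
    have h3 : 0 < z - 1 := by rw [h2]; positivity
    linarith
  have hLρ : 0 < log (100 * √ρ) := by
    apply log_pos
    have : 1 ≤ √ρ := by rw [one_le_sqrt]; exact hρ
    linarith
  obtain ⟨k, hk1, hk2⟩ := exists_k hw hw2 r
  obtain ⟨hfin, hcard⟩ := two_descent P K θ hθ hK
  have hcard' : Nat.card (ClassGroup (Crd P.f) ⧸
      (powMonoidHom 2 : ClassGroup (Crd P.f) →* _).range) ≤ 2 ^ r := by
    refine hcard.trans ?_
    rw [hr, pow_add]
    exact Nat.mul_le_mul_right _ (Nat.le_pow_clog (by norm_num) _)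
  have hmain := Pool.Agent.Lib.MP_695920_nt.TT.rank_bound_relations (N := N) (ρ := r) (k := k)
    (relL P) (c := 1 / z) (by positivity) (by
      rw [div_le_one (by linarith)]
      exact hz1.le) ?_ ?_ ?_
  · rw [one_div_one_div] at hmain
    exact hmain.trans hk2
  · intro m hm j
    have h1 := repulsion P ρ hρ hroots hx m hm j
    have h2 := mul_le_mul_of_nonneg_left (hgood j) (abs_nonneg (m j : ℝ))
    have h3 : ∑ i, |(m i : ℝ)| = |(m j : ℝ)| + ∑ i ∈ Finset.univ.erase j, |(m i : ℝ)| := by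
      rw [← Finset.add_sum_erase _ _ (Finset.mem_univ j)]
    rw [h3] at h1
    have h4 : (|(m j : ℝ)| * (z + 1)) * log (100 * √ρ) ≤
        (|(m j : ℝ)| + ∑ i ∈ Finset.univ.erase j, |(m i : ℝ)|) * log (100 * √ρ) := by
      calc _ = |(m j : ℝ)| * ((z + 1) * log (100 * √ρ)) := by ring
        _ ≤ _ := h2
        _ ≤ _ := h1
    have h5 := le_of_mul_le_mul_right h4 hLρ
    have h6 : |(m j : ℝ)| * z ≤ ∑ i ∈ Finset.univ.erase j, |(m i : ℝ)| := by linarith
    have h7 : |(m j : ℝ)| ≤ 1 / z * ∑ i ∈ Finset.univ.erase j, |(m i : ℝ)| := by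
      rw [one_div, ← div_eq_inv_mul, le_div_iff₀ (by linarith)]
      exact h6
    exact_mod_cast h7
  · intro S hS
    obtain ⟨m, hm0, hmS, hm⟩ := class_rank P r hfin hcard' S (by omega)
    exact ⟨m, hm, hm0, hmS⟩
  · rw [one_div_one_div]
    exact hk1


lemma clog_le (h : ℕ) (hh : 1 ≤ h) : (Nat.clog 2 h : ℝ) ≤ log h / log 2 + 1 := by
  rcases Nat.lt_or_ge 1 h with h1 | h1
  · have h2 : 1 ≤ Nat.clog 2 h := Nat.clog_pos (by norm_num) h1
    have h3 : 2 ^ (Nat.clog 2 h - 1) < h := Nat.pow_pred_clog_lt_self (by norm_num) h1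
    have h4 : ((2 : ℝ) ^ (Nat.clog 2 h - 1)) < h := by exact_mod_cast h3
    have h5 := log_lt_log (by positivity) h4
    rw [log_pow] at h5
    have hl : 0 < log 2 := log_pos (by norm_num)
    have h6 : ((Nat.clog 2 h - 1 : ℕ) : ℝ) < log h / log 2 := by
      rw [lt_div_iff₀ hl]
      exact h5
    rw [Nat.cast_sub h2] at h6
    push_cast at h6
    linarith
  · have h2 : h = 1 := by omega
    subst h2
    simp

/-- the bound for the points on one line -/
theorem line_bound (n : ℕ) (hodd : Odd n) (h3 : 3 ≤ n) {w s₀ : ℝ} (hw : 1 < w)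
    (hw2 : exp 1 < w ^ 2) (hs0 : 0 < s₀) (hsn : s₀ < n) (hz : (w + w⁻¹) / 2 < n - 1 - s₀)
    {c ε : ℝ} (hc : 1 ≤ c) (hε : 0 < ε) :
    ∃ C' : ℝ, 0 < C' ∧ ∀ (K : Type) [Field K] [NumberField K], finrank ℚ K = n → ∀ θ : 𝓞 K,
      (minpoly ℤ θ).natDegree = n →
      (∀ z : ℂ, ((minpoly ℤ θ).map (Int.castRingHom ℂ)).IsRoot z →
        ‖z‖ ≤ c * |(discr K : ℝ)| ^ ((1 : ℝ) / n)) →
      (Set.ncard {p : ℤ × ℤ | |(p.1 : ℝ)| ≤ c * |(discr K : ℝ)| ^ ((1 : ℝ) / n) ∧
        0 < p.2 ∧ p.2 ^ 2 = (minpoly ℤ θ).eval p.1} : ℝ) ≤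
      C' * (|(discr K : ℝ)| ^ ((1 - s₀ / n) / (2 * n) + ε) +
        (Nat.card {x : ClassGroup (𝓞 K) // x ^ 2 = 1} : ℝ) ^ sg w * |(discr K : ℝ)| ^ ε) := by
  classical
  set z : ℝ := (w + w⁻¹) / 2 with hzdef
  have hn0 : (0 : ℝ) < n := by have : 0 < n := by omega
                               exact_mod_cast this
  have hn3 : (3 : ℝ) ≤ n := by exact_mod_cast h3
  have hw0 : 0 < w := by linarith
  have hlw : 0 < log w := log_pos hw
  have htt : 0 < tt w := div_pos (exp_pos 1) (by linarith)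
  have hl2 : 0 < log 2 := log_pos (by norm_num)
  have hz0 : 0 < z := by positivity
  obtain ⟨C0, hC0, hbad⟩ := Pool.Agent.Lib.MP_695920_nt.TT.bad_points n hodd
    (ε := n * ε) (by positivity)
  set A : ℝ := 2 * log w * tt w * n with hA
  set δ : ℝ := ε / (n - 1) with hδ
  have hδ0 : 0 < δ := div_pos hε (by linarith)
  obtain ⟨C1, hC1, hom⟩ := exp_omega_le A hδ0
  set ℓ₀ : ℝ := 2 * (z + 1) * log (100 * √c) / (n - 1 - s₀ - z) with hℓ₀
  have hgap : 0 < n - 1 - s₀ - z := by linarith
  -- the constants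
  set B1 : ℝ := C0 * c ^ (n * ε) with hB1
  set E1 : ℝ := exp (2 * log w * tt w + A + 2 * log w * (log 8 + 1)) with hE1
  set M : ℝ := 2 * (2 * c) ^ (n * (n - 1)) with hM
  have hM0 : 0 < M := by positivity
  set B2 : ℝ := E1 * (C1 * M ^ δ + 1) with hB2
  set B3 : ℝ := 2 * c * exp ℓ₀ + 1 with hB3
  have hc0 : 0 < c := by linarith
  have hB1' : 0 < B1 := by positivity
  have hE1' : 0 < E1 := exp_pos _
  have hB2' : 0 < B2 := by positivity
  have hB3' : 0 < B3 := by positivity
  refine ⟨B1 + B2 + B3, by positivity, fun K _ _ hK θ hθn hroots => ?_⟩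
  set D : ℝ := |(discr K : ℝ)| with hD
  have hD1 : 1 ≤ D := by
    have h1 : (1 : ℤ) ≤ |discr K| := Int.one_le_abs (NumberField.discr_ne_zero K)
    have h2 : ((1 : ℤ) : ℝ) ≤ ((|discr K| : ℤ) : ℝ) := by exact_mod_cast h1
    rw [hD]
    push_cast at h2
    exact h2
  have hD0 : 0 < D := by linarith
  set X : ℝ := D ^ ((1 : ℝ) / n) with hX
  have hX1 : 1 ≤ X := one_le_rpow hD1 (by positivity)
  have hX0 : 0 < X := by linarith
  set h : ℕ := Nat.card {x : ClassGroup (𝓞 K) // x ^ 2 = 1} with hh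
  have hh1 : 1 ≤ h := by
    have : Nonempty {x : ClassGroup (𝓞 K) // x ^ 2 = 1} := ⟨⟨1, one_pow 2⟩⟩
    exact Nat.card_pos
  have hh1' : (1 : ℝ) ≤ h := by exact_mod_cast hh1
  set f0 := minpoly ℤ θ with hf0
  have hint : IsIntegral ℤ θ := NumberField.RingOfIntegers.isIntegral θ
  have hmon : f0.Monic := minpoly.monic hint
  have hirr : Irreducible f0 := minpoly.irreducible hint
  have hρ1 : 1 ≤ c * X := one_le_mul_of_one_le_of_one_le hc hX1
  set S : Set (ℤ × ℤ) := {p : ℤ × ℤ | |(p.1 : ℝ)| ≤ c * X ∧ 0 < p.2 ∧ p.2 ^ 2 = f0.eval p.1}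
    with hS
  have hinj : Set.InjOn Prod.fst S := by
    rintro ⟨x, y⟩ ⟨-, h1, h2⟩ ⟨x', y'⟩ ⟨-, h1', h2'⟩ hxx
    simp only at h1 h2 h1' h2' hxx
    subst hxx
    have h4 : y ^ 2 = y' ^ 2 := by rw [h2, h2']
    have h5 : y = y' := by
      rcases sq_eq_sq_iff_eq_or_eq_neg.1 h4 with h6 | h6
      · exact h6
      · omega
    rw [h5]
  have hSfin : S.Finite := by
    apply Set.Finite.of_finite_image (f := Prod.fst) _ hinj
    apply (Set.finite_Icc ⌈-(c * X)⌉ ⌊c * X⌋).subset
    rintro _ ⟨p, ⟨hp, -, -⟩, rfl⟩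
    rw [abs_le] at hp
    exact ⟨Int.ceil_le.mpr hp.1, Int.le_floor.mpr hp.2⟩
  set Lm : ℝ := X ^ (((n : ℝ) - s₀) / 2) with hLm
  have hLm1 : 1 ≤ Lm := one_le_rpow hX1 (by linarith)
  have hpos1 : 0 ≤ (h : ℝ) ^ sg w * D ^ ε := by positivity
  have hpos2 : 0 ≤ D ^ ((1 - s₀ / n) / (2 * n) + ε) := by positivity
  -- finset of all points
  set T : Finset (ℤ × ℤ) := hSfin.toFinset with hT
  have hTS : ∀ p ∈ T, p ∈ S := fun p hp => hSfin.mem_toFinset.1 hp
  have hcard : S.ncard = T.card := Set.ncard_eq_toFinset_card S hSfin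
  rw [hcard]
  set isBad : ℤ × ℤ → Prop := fun p =>
    2 * (p.2 : ℝ) ≤ Lm * (Int.gcd (2 * p.2) (f0.derivative.eval p.1) : ℝ) with hisBad
  set Tb : Finset (ℤ × ℤ) := T.filter isBad with hTb
  set Tg : Finset (ℤ × ℤ) := T.filter (fun p => ¬ isBad p) with hTg
  have hsplit : (T.card : ℝ) = Tb.card + Tg.card := by
    have := Finset.card_filter_add_card_filter_not (s := T) isBad
    exact_mod_cast this.symm
  -- bad points
  have hsep : (f0.map (Int.castRingHom ℚ)).Separable := by
    have : Irreducible (f0.map (Int.castRingHom ℚ)) :=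
      (Polynomial.Monic.irreducible_iff_irreducible_map_fraction_map (K := ℚ) hmon).1 hirr
    exact this.separable
  have hb : (Tb.card : ℝ) ≤ B1 * D ^ ((1 - s₀ / n) / (2 * n) + ε) := by
    have h1 : Tb.card = (Tb.image Prod.fst).card := by
      rw [Finset.card_image_of_injOn]
      exact fun a ha b hb hab => hinj (hTS a (Finset.mem_filter.1 ha).1)
        (hTS b (Finset.mem_filter.1 hb).1) hab
    have h2 := hbad f0 hmon hθn hsep (c * X) Lm hρ1 hLm1 hroots (Tb.image Prod.fst) (by
      intro x hx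
      obtain ⟨p, hp, rfl⟩ := Finset.mem_image.1 hx
      obtain ⟨hp1, hp2⟩ := Finset.mem_filter.1 hp
      obtain ⟨h5, h6, h7⟩ := hTS p hp1
      exact ⟨h5, p.2, h6, h7, hp2⟩)
    rw [← h1] at h2
    refine h2.trans (le_of_eq ?_)
    rw [mul_rpow hc0.le hX0.le, hLm, ← rpow_mul hX0.le, hX, ← rpow_mul hD0.le, ← rpow_mul hD0.le,
      hB1]
    have e1 : D ^ ((1 - s₀ / n) / (2 * n) + ε) =
        D ^ (1 / (n : ℝ) * (n * ε)) * D ^ (1 / (n : ℝ) * ((n - s₀) / 2 * (1 / n))) := by
      rw [← rpow_add hD0]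
      congr 1
      field_simp
      ring
    rw [e1]
    ring
  rcases le_or_gt ℓ₀ (log X) with hbig | hsmall
  · -- good points
    have hg : (Tg.card : ℝ) ≤ B2 * ((h : ℝ) ^ sg w * D ^ ε) := by
      let e := Tg.equivFin
      have hmem : ∀ i, ((e.symm i : Tg) : ℤ × ℤ) ∈ S := fun i =>
        hTS _ (Finset.mem_filter.1 (e.symm i).2).1
      let P : Pts (Fin Tg.card) :=
        { f0 := f0
          monic := hmon
          odd := by rw [hθn]; exact hodd
          irr := hirr
          three := by rw [hθn]; exact h3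
          x := fun i => ((e.symm i : Tg) : ℤ × ℤ).1
          y := fun i => ((e.symm i : Tg) : ℤ × ℤ).2
          inj := fun i j hij => e.symm.injective (Subtype.ext (hinj (hmem i) (hmem j) hij))
          pos := fun i => (hmem i).2.1
          eq := fun i => (hmem i).2.2 }
      have h1 := good_bound P K θ rfl (by rw [hK]; exact hθn.symm) hw hw2 hρ1 hroots
        (fun i => (hmem i).1) (by
          intro i
          have h2 : ¬ isBad ((e.symm i : Tg) : ℤ × ℤ) := (Finset.mem_filter.1 (e.symm i).2).2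
          rw [hisBad] at h2
          simp only [not_le] at h2
          have hgpos : 0 < (P.g i : ℝ) := by
            have h3 : P.g i ≠ 0 := by
              intro h4
              have h5 : (2 * P.y i) = 0 := by
                have : Int.gcd (2 * P.y i) (P.f0.derivative.eval (P.x i)) = 0 := h4
                exact (Int.gcd_eq_zero_iff.1 this).1
              have := P.pos i
              omega
            exact_mod_cast Nat.pos_of_ne_zero h3
          have h3 : Lm ≤ 2 * P.y i / P.g i := by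
            rw [le_div_iff₀ hgpos]
            exact h2.le
          have h4 : log Lm ≤ log (2 * P.y i / P.g i) := log_le_log (by linarith) h3
          refine le_trans ?_ h4
          rw [hLm, log_rpow hX0]
          have h5 : log (100 * √(c * X)) = log (100 * √c) + log X / 2 := by
            rw [sqrt_mul hc0.le, ← mul_assoc, log_mul (by positivity) (by positivity),
              log_sqrt hX0.le]
          rw [h5]
          have h6 : 2 * (z + 1) * log (100 * √c) ≤ log X * (n - 1 - s₀ - z) := by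
            rw [hℓ₀, div_le_iff₀ hgap] at hbig
            exact hbig
          rw [← hzdef]
          linarith)
      have h2 : P.f0 = f0 := rfl
      rw [h2, hθn] at h1
      refine h1.trans ?_
      set om : ℕ := (2 * f0.discr).natAbs.primeFactors.card with hom'
      have h3 : 2 * log w * ((Nat.clog 2 h + n * (1 + om) : ℕ) * tt w + log 8 + 1) ≤
          sg w * log h + (2 * log w * tt w + A + 2 * log w * (log 8 + 1)) + A * om := by
        have h4 := clog_le h hh1
        have h5 : 0 < 2 * log w * tt w := by positivity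
        have h6 := mul_le_mul_of_nonneg_left h4 h5.le
        have h7 : 2 * log w * tt w * (log h / log 2 + 1) = sg w * log h + 2 * log w * tt w := by
          unfold sg
          field_simp
        rw [h7] at h6
        push_cast
        rw [hA]
        linarith
      have h4 : exp (sg w * log h) = (h : ℝ) ^ sg w := by
        rw [rpow_def_of_pos (by linarith), mul_comm]
      have h5 : exp (A * om) ≤ (C1 * M ^ δ + 1) * D ^ ε := by
        have hDε : 1 ≤ D ^ ε := one_le_rpow hD1 hε.le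
        rcases eq_or_ne (2 * f0.discr).natAbs 0 with h0 | h0
        · have : om = 0 := by rw [hom', h0]; simp
          rw [this]
          simp only [Nat.cast_zero, mul_zero, exp_zero]
          have : 0 < C1 * M ^ δ := by positivity
          nlinarith
        · have h6 := hom _ h0
          rw [← hom'] at h6
          refine h6.trans ?_
          have h7 : (((2 * f0.discr).natAbs : ℕ) : ℝ) ≤ M * D ^ ((n : ℝ) - 1) := by
            have h8 := discr_bound f0 hmon (by omega) (by linarith : 0 ≤ c * X) hroots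
            rw [hθn] at h8
            have h9 : (((2 * f0.discr).natAbs : ℕ) : ℝ) = 2 * |(f0.discr : ℝ)| := by
              rw [Nat.cast_natAbs]
              push_cast
              rw [abs_mul]
              simp
            rw [h9]
            have h10 : ((2 * (c * X)) ^ (n - 1)) ^ n = (2 * c) ^ (n * (n - 1)) * X ^ (n * (n - 1)) := by
              rw [← pow_mul, ← mul_assoc, mul_pow, mul_comm (n - 1) n]
            have h11 : X ^ (n * (n - 1)) = D ^ ((n : ℝ) - 1) := by
              rw [hX, ← rpow_natCast, ← rpow_mul hD0.le]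
              congr 1
              rw [Nat.cast_mul, Nat.cast_sub (by omega)]
              field_simp
              simp
            rw [h10, h11] at h8
            rw [hM]
            linarith
          have h8 : (((2 * f0.discr).natAbs : ℕ) : ℝ) ^ δ ≤ M ^ δ * D ^ ε := by
            refine (rpow_le_rpow (Nat.cast_nonneg _) h7 hδ0.le).trans (le_of_eq ?_)
            rw [mul_rpow hM0.le (by positivity), ← rpow_mul hD0.le]
            congr 2
            rw [hδ]
            have : (n : ℝ) - 1 ≠ 0 := by linarith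
            field_simp
          calc C1 * (((2 * f0.discr).natAbs : ℕ) : ℝ) ^ δ ≤ C1 * (M ^ δ * D ^ ε) :=
                mul_le_mul_of_nonneg_left h8 hC1.le
            _ ≤ (C1 * M ^ δ + 1) * D ^ ε := by nlinarith
      calc exp (2 * log w * ((Nat.clog 2 h + n * (1 + om) : ℕ) * tt w + log 8 + 1)) ≤
            exp (sg w * log h + (2 * log w * tt w + A + 2 * log w * (log 8 + 1)) + A * om) :=
            exp_le_exp.2 h3
        _ = (h : ℝ) ^ sg w * E1 * exp (A * om) := by rw [exp_add, exp_add, h4]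
        _ ≤ (h : ℝ) ^ sg w * E1 * ((C1 * M ^ δ + 1) * D ^ ε) :=
            mul_le_mul_of_nonneg_left h5 (by positivity)
        _ = B2 * ((h : ℝ) ^ sg w * D ^ ε) := by rw [hB2]; ring
    rw [hsplit]
    nlinarith
  · -- bounded discriminant
    have hXb : X ≤ exp ℓ₀ := by
      rw [← exp_log hX0]
      exact exp_le_exp.2 hsmall.le
    have h1 : (T.card : ℝ) ≤ B3 := by
      have h2 : T.card = (T.image Prod.fst).card := by
        rw [Finset.card_image_of_injOn]
        exact fun a ha b hb hab => hinj (hTS a ha) (hTS b hb) hab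
      have h3 : T.image Prod.fst ⊆ Finset.Icc ⌈-(c * X)⌉ ⌊c * X⌋ := by
        intro x hx
        obtain ⟨p, hp, rfl⟩ := Finset.mem_image.1 hx
        obtain ⟨h5, -, -⟩ := hTS p hp
        rw [abs_le] at h5
        exact Finset.mem_Icc.2 ⟨Int.ceil_le.mpr h5.1, Int.le_floor.mpr h5.2⟩
      have h4 := Finset.card_le_card h3
      rw [← h2, Int.card_Icc] at h4
      have h5 : ((⌊c * X⌋ + 1 - ⌈-(c * X)⌉).toNat : ℝ) ≤ 2 * (c * X) + 1 := by
        have h6 : (0 : ℤ) ≤ ⌊c * X⌋ + 1 - ⌈-(c * X)⌉ := by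
          rw [Int.ceil_neg]
          have : (0 : ℤ) ≤ ⌊c * X⌋ := Int.floor_nonneg.2 (by positivity)
          omega
        have h7 : (((⌊c * X⌋ + 1 - ⌈-(c * X)⌉).toNat : ℤ) : ℝ) =
            ((⌊c * X⌋ + 1 - ⌈-(c * X)⌉ : ℤ) : ℝ) := by
          rw [Int.toNat_of_nonneg h6]
        rw [Int.cast_natCast] at h7
        rw [h7, Int.ceil_neg]
        push_cast
        have := Int.floor_le (c * X)
        linarith
      have h6 : (T.card : ℝ) ≤ ((⌊c * X⌋ + 1 - ⌈-(c * X)⌉).toNat : ℝ) := by exact_mod_cast h4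
      have h7 : c * X ≤ c * exp ℓ₀ := mul_le_mul_of_nonneg_left hXb hc0.le
      rw [hB3]
      linarith
    have h2 : 1 ≤ D ^ ((1 - s₀ / n) / (2 * n) + ε) := by
      apply one_le_rpow hD1
      have : 0 < (1 - s₀ / n) / (2 * n) := by
        apply div_pos _ (by positivity)
        rw [sub_pos, div_lt_one hn0]
        exact hsn
      linarith
    have h3 : B3 * 1 ≤ B3 * (D ^ ((1 - s₀ / n) / (2 * n) + ε) + (h : ℝ) ^ sg w * D ^ ε) :=
      mul_le_mul_of_nonneg_left (by linarith) hB3'.le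
    have h4 : B3 * (D ^ ((1 - s₀ / n) / (2 * n) + ε) + (h : ℝ) ^ sg w * D ^ ε) ≤
        (B1 + B2 + B3) * (D ^ ((1 - s₀ / n) / (2 * n) + ε) + (h : ℝ) ^ sg w * D ^ ε) :=
      mul_le_mul_of_nonneg_right (by linarith) (by positivity)
    linarith

end Pool.TT
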