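import Pool.Agent.Lib.MP_695920_nt.TT.LinesA
import Pool.Agent.Lib.MP_695920_nt.TT.Line

set_option autoImplicit false

/-!
TEAM TWOTORSION, FINAL: from the sum over the curves and the bound for one curve to the bound
for the number of classes of order dividing two.
-/

namespace Pool.TT

open NumberField Module Real

theorem bootstrap {σ B D h Δ : ℝ} (hσ : σ < 1) (hB : 0 < B) (hD : 1 ≤ D)
    (hh : 0 ≤ h) (hyp : h ≤ B * D ^ Δ + B * D ^ (Δ * (1 - σ)) * h ^ σ) :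
    h ≤ max (2 * B) ((2 * B) ^ (1 / (1 - σ))) * D ^ Δ := by
  have hD0 : 0 < D := by linarith
  have hDΔ : 0 < D ^ Δ := rpow_pos_of_pos hD0 _
  by_cases hc : h ≤ 2 * B * D ^ Δ
  · exact hc.trans (mul_le_mul_of_nonneg_right (le_max_left _ _) hDΔ.le)
  · push Not at hc
    have hh0 : 0 < h := lt_of_le_of_lt (by positivity) hc
    have h1 : h ≤ 2 * B * D ^ (Δ * (1 - σ)) * h ^ σ := by nlinarith
    have h2 : h = h ^ (1 - σ) * h ^ σ := by
      rw [← rpow_add hh0]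
      simp
    have h3 : h ^ (1 - σ) ≤ 2 * B * D ^ (Δ * (1 - σ)) := by
      have h4 : 0 < h ^ σ := rpow_pos_of_pos hh0 _
      rw [h2] at h1
      have h5 : h ^ (1 - σ) * h ^ σ ≤ 2 * B * D ^ (Δ * (1 - σ)) * h ^ σ := by
        rw [← h2] at h1 ⊢
        exact h1
      exact le_of_mul_le_mul_right h5 h4
    have hσ1 : 0 < 1 - σ := by linarith
    have h6 : h = (h ^ (1 - σ)) ^ (1 / (1 - σ)) := by
      rw [← rpow_mul hh0.le, mul_one_div, div_self hσ1.ne', rpow_one]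
    have h7 : (h ^ (1 - σ)) ^ (1 / (1 - σ)) ≤ (2 * B * D ^ (Δ * (1 - σ))) ^ (1 / (1 - σ)) :=
      rpow_le_rpow (rpow_nonneg hh0.le _) h3 (by positivity)
    have h8 : (2 * B * D ^ (Δ * (1 - σ))) ^ (1 / (1 - σ)) = (2 * B) ^ (1 / (1 - σ)) * D ^ Δ := by
      rw [mul_rpow (by positivity) (rpow_nonneg hD0.le _), ← rpow_mul hD0.le]
      congr 2
      field_simp
    rw [h6]
    refine h7.trans ?_
    rw [h8]
    exact mul_le_mul_of_nonneg_right (le_max_right _ _) hDΔ.le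

/-- The conclusion of `lines_of_cosets`. -/
def LinesStmt (n : ℕ) : Prop :=
  ∃ c : ℝ, 1 ≤ c ∧ ∀ (K : Type) [Field K] [NumberField K], finrank ℚ K = n →
      ∃ 𝓕 : Finset (𝓞 K), (𝓕.card : ℝ) ≤ c * |(discr K : ℝ)| ^ ((1 : ℝ) / 2 - 1 / n) ∧
        (∀ θ ∈ 𝓕, (minpoly ℤ θ).natDegree = n ∧
          ∀ z : ℂ, ((minpoly ℤ θ).map (Int.castRingHom ℂ)).IsRoot z →
            ‖z‖ ≤ c * |(discr K : ℝ)| ^ ((1 : ℝ) / n)) ∧
        (Nat.card {x : ClassGroup (𝓞 K) // x ^ 2 = 1} : ℝ) ≤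
          c * |(discr K : ℝ)| ^ ((1 : ℝ) / 3) +
          ∑ θ ∈ 𝓕, (Set.ncard {p : ℤ × ℤ | |(p.1 : ℝ)| ≤ c * |(discr K : ℝ)| ^ ((1 : ℝ) / n) ∧
            0 < p.2 ∧ p.2 ^ 2 = (minpoly ℤ θ).eval p.1} : ℝ)

theorem final_bound (n : ℕ) (hodd : Odd n) (h3 : 3 ≤ n) (hL : LinesStmt n) {w s₀ : ℝ}
    (hw : 1 < w) (hw2 : exp 1 < w ^ 2) (hs0 : 0 < s₀) (hsn : s₀ < n)
    (hz : (w + w⁻¹) / 2 < n - 1 - s₀) (hσ : sg w < 1) {Δ : ℝ} (hΔ1 : 1 / 3 ≤ Δ)
    (hΔ2 : (1 : ℝ) / 2 - 1 / n + (1 - s₀ / n) / (2 * n) < Δ)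
    (hΔ3 : (1 : ℝ) / 2 - 1 / n < Δ * (1 - sg w)) :
    ∃ C : ℝ, ∀ (K : Type) [Field K] [NumberField K], finrank ℚ K = n →
      (Nat.card {x : ClassGroup (𝓞 K) // x ^ 2 = 1} : ℝ) ≤ C * |(discr K : ℝ)| ^ Δ := by
  obtain ⟨c, hc, hlines⟩ := hL
  set ε : ℝ := min (Δ - ((1 : ℝ) / 2 - 1 / n + (1 - s₀ / n) / (2 * n)))
    (Δ * (1 - sg w) - ((1 : ℝ) / 2 - 1 / n)) with hε
  have hεpos : 0 < ε := lt_min (by linarith) (by linarith)
  have hε1 : ε ≤ Δ - ((1 : ℝ) / 2 - 1 / n + (1 - s₀ / n) / (2 * n)) := min_le_left _ _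
  have hε2 : ε ≤ Δ * (1 - sg w) - ((1 : ℝ) / 2 - 1 / n) := min_le_right _ _
  obtain ⟨C', hC', hbound⟩ := line_bound n hodd h3 hw hw2 hs0 hsn hz hc hεpos
  refine ⟨max (2 * (c + c * C')) ((2 * (c + c * C')) ^ (1 / (1 - sg w))),
    fun K _ _ hK => ?_⟩
  obtain ⟨F, hcard, hprop, hsum⟩ := hlines K hK
  set D : ℝ := |(discr K : ℝ)| with hD
  set h : ℝ := (Nat.card {x : ClassGroup (𝓞 K) // x ^ 2 = 1} : ℝ) with hh
  have hD1 : 1 ≤ D := by
    have : (1 : ℤ) ≤ |discr K| := Int.one_le_abs (NumberField.discr_ne_zero K)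
    rw [hD]
    exact_mod_cast this
  have hD0 : 0 < D := by linarith
  have hh0 : 0 ≤ h := Nat.cast_nonneg _
  apply bootstrap hσ (by positivity) hD1 hh0
  have hcpos : 0 < c := by linarith
  have e1 : c * D ^ ((1 : ℝ) / 3) ≤ c * D ^ Δ :=
    mul_le_mul_of_nonneg_left (rpow_le_rpow_of_exponent_le hD1 hΔ1) hcpos.le
  have e2 : ∑ θ ∈ F, (Set.ncard {p : ℤ × ℤ | |(p.1 : ℝ)| ≤ c * D ^ ((1 : ℝ) / n) ∧
            0 < p.2 ∧ p.2 ^ 2 = (minpoly ℤ θ).eval p.1} : ℝ) ≤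
      (F.card : ℝ) * (C' * (D ^ ((1 - s₀ / n) / (2 * n) + ε) + h ^ sg w * D ^ ε)) := by
    rw [← nsmul_eq_mul]
    apply Finset.sum_le_card_nsmul
    intro θ hθ
    exact hbound K hK θ (hprop θ hθ).1 (hprop θ hθ).2
  have hhσ : 0 ≤ h ^ sg w := rpow_nonneg hh0 _
  have e3 : (F.card : ℝ) * (C' * (D ^ ((1 - s₀ / n) / (2 * n) + ε) + h ^ sg w * D ^ ε)) ≤
      (c * D ^ ((1 : ℝ) / 2 - 1 / n)) *
        (C' * (D ^ ((1 - s₀ / n) / (2 * n) + ε) + h ^ sg w * D ^ ε)) := by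
    apply mul_le_mul_of_nonneg_right hcard
    positivity
  have e4 : D ^ ((1 : ℝ) / 2 - 1 / n) * D ^ ((1 - s₀ / n) / (2 * n) + ε) ≤ D ^ Δ := by
    rw [← rpow_add hD0]
    apply rpow_le_rpow_of_exponent_le hD1
    linarith
  have e5 : D ^ ((1 : ℝ) / 2 - 1 / n) * D ^ ε ≤ D ^ (Δ * (1 - sg w)) := by
    rw [← rpow_add hD0]
    apply rpow_le_rpow_of_exponent_le hD1
    linarith
  have hDΔ : 0 ≤ D ^ Δ := rpow_nonneg hD0.le _
  have hDΔσ : 0 ≤ D ^ (Δ * (1 - sg w)) := rpow_nonneg hD0.le _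
  calc h ≤ c * D ^ ((1 : ℝ) / 3) + _ := hsum
    _ ≤ c * D ^ Δ + (c * D ^ ((1 : ℝ) / 2 - 1 / n)) *
        (C' * (D ^ ((1 - s₀ / n) / (2 * n) + ε) + h ^ sg w * D ^ ε)) :=
          add_le_add e1 (e2.trans e3)
    _ = c * D ^ Δ + c * C' * (D ^ ((1 : ℝ) / 2 - 1 / n) * D ^ ((1 - s₀ / n) / (2 * n) + ε)) +
        c * C' * (D ^ ((1 : ℝ) / 2 - 1 / n) * D ^ ε) * h ^ sg w := by ring
    _ ≤ c * D ^ Δ + c * C' * D ^ Δ + c * C' * D ^ (Δ * (1 - sg w)) * h ^ sg w := by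
          gcongr
    _ ≤ (c + c * C') * D ^ Δ + (c + c * C') * D ^ (Δ * (1 - sg w)) * h ^ sg w := by
          have : 0 ≤ c * D ^ (Δ * (1 - sg w)) * h ^ sg w := by positivity
          nlinarith

/-- Every odd degree `n ≥ 7`: an exponent below `1/2 - 1/(2n)`. -/
theorem final_seven (hL : ∀ n : ℕ, Odd n → 3 ≤ n → LinesStmt n) (n : ℕ) (hodd : Odd n)
    (h7 : 7 ≤ n) :
    ∃ Δ : ℝ, Δ < 1 / 2 - 1 / (2 * n) ∧ ∃ C : ℝ, ∀ (K : Type) [Field K] [NumberField K],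
      finrank ℚ K = n →
      (Nat.card {x : ClassGroup (𝓞 K) // x ^ 2 = 1} : ℝ) ≤ C * |(discr K : ℝ)| ^ Δ := by
  have hn : (7 : ℝ) ≤ n := by exact_mod_cast h7
  have hn0 : (0 : ℝ) < n := by linarith
  obtain ⟨w, s₀, hw, hw2, hs0, hsn, hz, hsg⟩ := num_w hn
  have hσ : sg w < 1 := by
    by_contra hcon
    push Not at hcon
    nlinarith
  have hσ1 : 0 < 1 - sg w := by linarith
  set M : ℝ := max (1 / 3) (max ((1 : ℝ) / 2 - 1 / n + (1 - s₀ / n) / (2 * n))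
    (((1 : ℝ) / 2 - 1 / n) / (1 - sg w))) with hM
  have hMlt : M < 1 / 2 - 1 / (2 * n) := by
    have h2n : 1 / (2 * (n : ℝ)) = (1 / n) / 2 := by rw [div_div, mul_comm]
    have h1n : 1 / (n : ℝ) ≤ 1 / 7 := one_div_le_one_div_of_le (by norm_num) hn
    apply max_lt
    · rw [h2n]; linarith
    · apply max_lt
      · have : (1 - s₀ / n) / (2 * n) < 1 / (2 * n) := by
          apply div_lt_div_of_pos_right _ (by positivity)
          have : 0 < s₀ / n := by positivity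
          linarith
        rw [h2n] at *
        linarith
      · rw [div_lt_iff₀ hσ1]
        have h1 : 1 / (n : ℝ) * n = 1 := by field_simp
        have h2 : (n - 1 : ℝ) * sg w < 1 := hsg
        have h3 : (1 / 2 - 1 / (2 * (n : ℝ))) = (n - 1) / (2 * n) := by field_simp
        have h4 : ((1 : ℝ) / 2 - 1 / n) = (n - 2) / (2 * n) := by field_simp
        rw [h3, h4, div_mul_eq_mul_div]
        apply div_lt_div_of_pos_right _ (by positivity)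
        nlinarith
  obtain ⟨Δ, hΔ1, hΔ2⟩ := exists_between hMlt
  refine ⟨Δ, hΔ2, ?_⟩
  have hM1 : 1 / 3 ≤ M := le_max_left _ _
  have hM2 : (1 : ℝ) / 2 - 1 / n + (1 - s₀ / n) / (2 * n) ≤ M :=
    (le_max_left _ _).trans (le_max_right _ _)
  have hM3 : ((1 : ℝ) / 2 - 1 / n) / (1 - sg w) ≤ M :=
    (le_max_right _ _).trans (le_max_right _ _)
  apply final_bound n hodd (by omega) (hL n hodd (by omega)) hw hw2 hs0 hsn hz hσ
  · linarith
  · linarith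
  · have : ((1 : ℝ) / 2 - 1 / n) / (1 - sg w) < Δ := by linarith
    rwa [div_lt_iff₀ hσ1] at this

/-- The saving `1/(2n)` is doubled asymptotically. -/
theorem final_lim (hL : ∀ n : ℕ, Odd n → 3 ≤ n → LinesStmt n) {δ : ℝ} (hδ : 0 < δ) :
    ∃ n₀ : ℕ, ∀ n : ℕ, n₀ ≤ n → Odd n → ∃ C : ℝ, ∀ (K : Type) [Field K] [NumberField K],
      finrank ℚ K = n → (Nat.card {x : ClassGroup (𝓞 K) // x ^ 2 = 1} : ℝ) ≤
        C * |(discr K : ℝ)| ^ ((1 : ℝ) / 2 - (1 - δ) / n) := by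
  set δ' : ℝ := min δ (1 / 2) with hδ'
  have hδ'0 : 0 < δ' := lt_min hδ (by norm_num)
  have hδ'1 : δ' < 1 := lt_of_le_of_lt (min_le_right _ _) (by norm_num)
  obtain ⟨n₀, hn₀⟩ := num_lim hδ'0 hδ'1
  refine ⟨⌈n₀⌉₊, fun n hn hodd => ?_⟩
  obtain ⟨h7, w, s₀, hw, hw2, hs0, hsn, hz, hs, hsg⟩ := hn₀ n (Nat.ceil_le.mp hn)
  have hn0 : (0 : ℝ) < n := by linarith
  have h7' : 7 ≤ n := by exact_mod_cast h7
  have hσ : sg w < 1 := by
    by_contra hcon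
    push Not at hcon
    nlinarith
  have hσ0 : 0 ≤ sg w := by
    unfold sg tt
    have h1 : 0 ≤ log w := log_nonneg hw.le
    have h2 : 0 ≤ log 2 := log_nonneg (by norm_num)
    have h3 : 0 ≤ w ^ 2 - exp 1 := by linarith
    have h4 := (exp_pos 1).le
    positivity
  obtain ⟨C, hC⟩ := final_bound n hodd (by omega) (hL n hodd (by omega)) hw hw2 hs0 hsn hz hσ
    (Δ := (1 : ℝ) / 2 - (1 - δ') / n) (by
      have : (1 - δ') / n ≤ 1 / 7 := by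
        rw [div_le_iff₀ hn0]
        nlinarith
      linarith) (by
      have h1 : (1 - s₀ / n) / (2 * n) < (2 * δ') / (2 * n) :=
        div_lt_div_of_pos_right hs (by positivity)
      have h2 : (2 * δ') / (2 * n) = δ' / n := by field_simp
      have h3 : (1 - δ') / (n : ℝ) = 1 / n - δ' / n := by rw [sub_div]
      rw [h3]
      linarith) (by
      have h4 : ((1 : ℝ) / 2 - 1 / n) = (n - 2) / (2 * n) := by field_simp
      have h5 : ((1 : ℝ) / 2 - (1 - δ') / n) = (n - 2 + 2 * δ') / (2 * n) := by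
        field_simp
        ring
      rw [h4, h5, div_mul_eq_mul_div]
      apply div_lt_div_of_pos_right _ (by positivity)
      nlinarith [mul_nonneg hσ0 (by linarith : (0 : ℝ) ≤ 1 - δ')])
  refine ⟨max C 0, fun K _ _ hK => (hC K hK).trans ?_⟩
  have hD1 : 1 ≤ |(discr K : ℝ)| := by
    have : (1 : ℤ) ≤ |discr K| := Int.one_le_abs (NumberField.discr_ne_zero K)
    exact_mod_cast this
  have hD0 : 0 < |(discr K : ℝ)| := by linarith
  calc C * |(discr K : ℝ)| ^ ((1 : ℝ) / 2 - (1 - δ') / n)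
      ≤ max C 0 * |(discr K : ℝ)| ^ ((1 : ℝ) / 2 - (1 - δ') / n) :=
        mul_le_mul_of_nonneg_right (le_max_left _ _) (rpow_nonneg hD0.le _)
    _ ≤ max C 0 * |(discr K : ℝ)| ^ ((1 : ℝ) / 2 - (1 - δ) / n) := by
        apply mul_le_mul_of_nonneg_left _ (le_max_right _ _)
        apply rpow_le_rpow_of_exponent_le hD1
        have : (1 - δ) / (n : ℝ) ≤ (1 - δ') / n := by
          apply div_le_div_of_nonneg_right _ hn0.le
          have := min_le_left δ (1 / 2)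
          linarith
        linarith

end Pool.TT
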