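import Mathlib

/-!
# The parity form of the lemma of Gauss
-/

namespace Pool.Agent.Lib.MP_695920_nt.TT

open Polynomial

/-- In a domain `A ^ 2 = f * B ^ 2` with `f` monic of odd degree only if `A = B = 0`. -/
theorem eq_zero_of_sq_eq {R : Type*} [CommRing R] [IsDomain R] {f A B : R[X]} (hf : f.Monic)
    (hodd : Odd f.natDegree) (h : A ^ 2 = f * B ^ 2) : A = 0 ∧ B = 0 := by
  have hB : B = 0 := by
    by_contra hB
    have h1 := congrArg natDegree h
    rw [natDegree_pow, natDegree_mul hf.ne_zero (pow_ne_zero 2 hB), natDegree_pow] at h1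
    obtain ⟨c, hc⟩ := hodd
    omega
  rw [hB] at h
  refine ⟨?_, hB⟩
  have h2 : A ^ 2 = 0 := by rw [h]; ring
  exact pow_eq_zero_iff (two_ne_zero) |>.1 h2

/-- The degrees of `A` and `B` when `A ^ 2 - f * B ^ 2` is given. -/
theorem natDegree_le_of_norm {R : Type*} [CommRing R] [IsDomain R] {f A B : R[X]} (hf : f.Monic)
    (hodd : Odd f.natDegree) :
    2 * A.natDegree ≤ (A ^ 2 - f * B ^ 2).natDegree ∧
      (B ≠ 0 → f.natDegree + 2 * B.natDegree ≤ (A ^ 2 - f * B ^ 2).natDegree) := by
  obtain ⟨c, hc⟩ := hodd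
  by_cases hB : B = 0
  · subst hB
    refine ⟨?_, fun h => absurd rfl h⟩
    rw [← natDegree_pow]
    exact le_of_eq (by congr 1; ring)
  · have h2 : (f * B ^ 2).natDegree = f.natDegree + 2 * B.natDegree := by
      rw [natDegree_mul hf.ne_zero (pow_ne_zero 2 hB), natDegree_pow]
    have h1 : (A ^ 2).natDegree = 2 * A.natDegree := natDegree_pow _ _
    rcases lt_trichotomy (A ^ 2).natDegree (f * B ^ 2).natDegree with h | h | h
    · have h3 := natDegree_sub_eq_right_of_natDegree_lt h
      rw [h3, h2]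
      refine ⟨?_, fun _ => le_rfl⟩
      omega
    · omega
    · have h3 := natDegree_sub_eq_left_of_natDegree_lt h
      rw [h3, h1]
      refine ⟨le_rfl, fun _ => ?_⟩
      omega

theorem dvd_of_norm_dvd {R : Type*} [CommRing R] [IsDomain R] [UniqueFactorizationMonoid R]
    {f : R[X]} (hf : f.Monic) (hodd : Odd f.natDegree) (d : R) (hd : d ≠ 0) :
    ∀ A B : R[X], C (d ^ 2) ∣ A ^ 2 - f * B ^ 2 → C d ∣ A ∧ C d ∣ B := by
  induction d using UniqueFactorizationMonoid.induction_on_prime with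
  | h₁ => exact absurd rfl hd
  | h₂ x hx =>
    intro A B _
    have h1 : IsUnit (C x) := hx.map C
    exact ⟨h1.dvd, h1.dvd⟩
  | h₃ e p he hp ih =>
    intro A B h
    have hpI : (Ideal.span {p}).IsPrime := (Ideal.span_singleton_prime hp.ne_zero).2 hp
    have hC : ∀ P : R[X], P.map (Ideal.Quotient.mk (Ideal.span {p})) = 0 ↔ C p ∣ P := by
      intro P
      rw [C_dvd_iff_dvd_coeff]
      constructor
      · intro h i
        have h2 := congrArg (fun Q => coeff Q i) h
        simp only [coeff_map, coeff_zero] at h2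
        rwa [Ideal.Quotient.eq_zero_iff_mem, Ideal.mem_span_singleton] at h2
      · intro h
        ext i
        rw [coeff_map, coeff_zero, Ideal.Quotient.eq_zero_iff_mem, Ideal.mem_span_singleton]
        exact h i
    have h1 : C p ∣ A ^ 2 - f * B ^ 2 := by
      refine dvd_trans ?_ h
      exact ⟨C (p * e ^ 2), by rw [← C_mul]; congr 1; ring⟩
    rw [← hC, Polynomial.map_sub, Polynomial.map_mul, Polynomial.map_pow, Polynomial.map_pow,
      sub_eq_zero] at h1
    have hfm := hf.map (Ideal.Quotient.mk (Ideal.span {p}))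
    have hfd : Odd (f.map (Ideal.Quotient.mk (Ideal.span {p}))).natDegree := by
      rwa [hf.natDegree_map]
    obtain ⟨hA, hB⟩ := eq_zero_of_sq_eq hfm hfd h1
    rw [hC] at hA hB
    obtain ⟨A', rfl⟩ := hA
    obtain ⟨B', rfl⟩ := hB
    have h2 : C (e ^ 2) ∣ A' ^ 2 - f * B' ^ 2 := by
      have h3 : (C p * A') ^ 2 - f * (C p * B') ^ 2 = C (p ^ 2) * (A' ^ 2 - f * B' ^ 2) := by
        rw [C_pow]
        ring
      rw [h3, mul_pow, C_mul] at h
      exact (mul_dvd_mul_iff_left (C_ne_zero.2 (pow_ne_zero 2 hp.ne_zero))).1 h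
    obtain ⟨h3, h4⟩ := ih he A' B' h2
    rw [C_mul]
    exact ⟨mul_dvd_mul_left _ h3, mul_dvd_mul_left _ h4⟩

/-- **Parity form of the lemma of Gauss.** If `f` is monic of odd degree with integral coefficients and
`A ^ 2 - f * B ^ 2` has integral coefficients, then so do `A` and `B`. -/
theorem integral_of_norm {R K : Type*} [CommRing R] [IsDomain R] [UniqueFactorizationMonoid R]
    [Field K] [Algebra R K] [IsFractionRing R K] {f : R[X]} (hf : f.Monic)
    (hodd : Odd f.natDegree) (A B : K[X]) (N : R[X])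
    (h : A ^ 2 - f.map (algebraMap R K) * B ^ 2 = N.map (algebraMap R K)) :
    ∃ A' B' : R[X], A = A'.map (algebraMap R K) ∧ B = B'.map (algebraMap R K) ∧
      A' ^ 2 - f * B' ^ 2 = N := by
  have hinj : Function.Injective (algebraMap R K) := IsFractionRing.injective R K
  have hden : ∀ P : K[X], ∃ b : R, b ≠ 0 ∧ ∃ Q : R[X], Q.map (algebraMap R K) =
      C (algebraMap R K b) * P := by
    intro P
    obtain ⟨b, hb0, hb⟩ := IsLocalization.integerNormalization_spec (nonZeroDivisors R) P
    refine ⟨b, nonZeroDivisors.ne_zero hb0, _, hb.trans ?_⟩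
    rw [← smul_eq_C_mul, algebraMap_smul]
  obtain ⟨a, ha, A1, hA1⟩ := hden A
  obtain ⟨b, hb, B1, hB1⟩ := hden B
  have hab : a * b ≠ 0 := mul_ne_zero ha hb
  have hA2 : (C b * A1).map (algebraMap R K) = C (algebraMap R K (a * b)) * A := by
    rw [Polynomial.map_mul, map_C, hA1, map_mul, C_mul]
    ring
  have hB2 : (C a * B1).map (algebraMap R K) = C (algebraMap R K (a * b)) * B := by
    rw [Polynomial.map_mul, map_C, hB1, map_mul, C_mul]
    ring
  have hN : (C b * A1) ^ 2 - f * (C a * B1) ^ 2 = C ((a * b) ^ 2) * N := by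
    apply map_injective _ hinj
    rw [Polynomial.map_sub, Polynomial.map_mul, Polynomial.map_pow, Polynomial.map_pow, hA2, hB2,
      Polynomial.map_mul, map_C, ← h, map_pow, C_pow]
    ring
  obtain ⟨⟨A', hA'⟩, ⟨B', hB'⟩⟩ := dvd_of_norm_dvd hf hodd (a * b) hab _ _ ⟨N, hN⟩
  have hc : C (algebraMap R K (a * b)) ≠ 0 := by
    rw [Ne, C_eq_zero]
    exact fun h => hab (hinj (h.trans (map_zero _).symm))
  have e1 : A = A'.map (algebraMap R K) := by
    rw [hA', Polynomial.map_mul, map_C] at hA2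
    exact (mul_left_cancel₀ hc hA2).symm
  have e2 : B = B'.map (algebraMap R K) := by
    rw [hB', Polynomial.map_mul, map_C] at hB2
    exact (mul_left_cancel₀ hc hB2).symm
  refine ⟨A', B', e1, e2, ?_⟩
  apply map_injective _ hinj
  rw [← h, e1, e2, Polynomial.map_sub, Polynomial.map_mul, Polynomial.map_pow, Polynomial.map_pow]

end Pool.Agent.Lib.MP_695920_nt.TT
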