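import Mathlib

/-!
# Parity form of the lemma of Gauss (letter D, (3.1))

If `f` is a monic integer polynomial of odd degree and `A`, `B` are rational polynomials such that
`A ^ 2 - f B ^ 2` has integer coefficients, then `A` and `B` have integer coefficients. Also the
degree bounds which follow from the parity of the degrees of `A ^ 2` and `f B ^ 2`.
-/

set_option autoImplicit false

open Polynomial

namespace Pool.TT

/-- Parity: over a domain, `A ^ 2 = f B ^ 2` with `f` of odd degree forces `A = B = 0`. -/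
theorem sq_eq_mul_sq {k : Type*} [CommRing k] [IsDomain k] {f A B : k[X]}
    (hf : Odd f.natDegree) (h : A ^ 2 = f * B ^ 2) : A = 0 ∧ B = 0 := by
  have hf0 : f ≠ 0 := by
    rintro rfl
    simp at hf
  by_cases hB : B = 0
  · subst hB
    refine ⟨?_, rfl⟩
    simpa using h
  · exfalso
    have h1 := congrArg natDegree h
    rw [natDegree_pow, natDegree_mul hf0 (pow_ne_zero 2 hB), natDegree_pow] at h1
    obtain ⟨m, hm⟩ := hf
    omega

/-- Over a domain, with `f` of odd degree, the degree of `A ^ 2 - f B ^ 2` is the maximum of the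
degrees of the two terms: bound for `A`. -/
theorem natDegree_A_le {k : Type*} [CommRing k] [IsDomain k] {f A B : k[X]}
    (hf : Odd f.natDegree) :
    2 * A.natDegree ≤ (A ^ 2 - f * B ^ 2).natDegree := by
  have hf0 : f ≠ 0 := by
    rintro rfl
    simp at hf
  by_cases hB : B = 0
  · subst hB
    simp
  by_cases hA : A = 0
  · subst hA
    simp
  have h1 : (A ^ 2).natDegree = 2 * A.natDegree := by rw [natDegree_pow]
  have h2 : (f * B ^ 2).natDegree = f.natDegree + 2 * B.natDegree := by
    rw [natDegree_mul hf0 (pow_ne_zero 2 hB), natDegree_pow]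
  obtain ⟨m, hm⟩ := hf
  rcases lt_or_gt_of_ne (show (A ^ 2).natDegree ≠ (f * B ^ 2).natDegree by omega) with h | h
  · rw [natDegree_sub_eq_right_of_natDegree_lt h]
    omega
  · rw [natDegree_sub_eq_left_of_natDegree_lt h]
    omega

/-- Bound for the degree of `B`. -/
theorem natDegree_B_le {k : Type*} [CommRing k] [IsDomain k] {f A B : k[X]}
    (hf : Odd f.natDegree) (hB : B ≠ 0) :
    f.natDegree + 2 * B.natDegree ≤ (A ^ 2 - f * B ^ 2).natDegree := by
  have hf0 : f ≠ 0 := by
    rintro rfl
    simp at hf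
  have h2 : (f * B ^ 2).natDegree = f.natDegree + 2 * B.natDegree := by
    rw [natDegree_mul hf0 (pow_ne_zero 2 hB), natDegree_pow]
  by_cases hA : A = 0
  · subst hA
    have : (0 : k[X]) ^ 2 - f * B ^ 2 = -(f * B ^ 2) := by ring
    rw [this, natDegree_neg, h2]
  have h1 : (A ^ 2).natDegree = 2 * A.natDegree := by rw [natDegree_pow]
  obtain ⟨m, hm⟩ := hf
  rcases lt_or_gt_of_ne (show (A ^ 2).natDegree ≠ (f * B ^ 2).natDegree by omega) with h | h
  · rw [natDegree_sub_eq_right_of_natDegree_lt h]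
    omega
  · rw [natDegree_sub_eq_left_of_natDegree_lt h]
    omega

/-- The leading coefficient of `A ^ 2 - f B ^ 2` is a square up to sign (`f` monic of odd
degree). -/
theorem leadingCoeff_norm {k : Type*} [CommRing k] [IsDomain k] {f A B : k[X]}
    (hfm : f.Monic) (hf : Odd f.natDegree) :
    (A ^ 2 - f * B ^ 2).leadingCoeff = A.leadingCoeff ^ 2 ∨
      (A ^ 2 - f * B ^ 2).leadingCoeff = -B.leadingCoeff ^ 2 := by
  have hf0 : f ≠ 0 := hfm.ne_zero
  by_cases hB : B = 0
  · subst hB
    left
    simp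
  by_cases hA : A = 0
  · subst hA
    right
    have : (0 : k[X]) ^ 2 - f * B ^ 2 = -(f * B ^ 2) := by ring
    rw [this, leadingCoeff_neg, leadingCoeff_mul, hfm.leadingCoeff, leadingCoeff_pow, one_mul]
  have h1 : (A ^ 2).natDegree = 2 * A.natDegree := by rw [natDegree_pow]
  have h2 : (f * B ^ 2).natDegree = f.natDegree + 2 * B.natDegree := by
    rw [natDegree_mul hf0 (pow_ne_zero 2 hB), natDegree_pow]
  obtain ⟨m, hm⟩ := hf
  rcases lt_or_gt_of_ne (show (A ^ 2).natDegree ≠ (f * B ^ 2).natDegree by omega) with h | h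
  · right
    have h3 : (A ^ 2).degree < (f * B ^ 2).degree := degree_lt_degree h
    rw [sub_eq_add_neg, leadingCoeff_add_of_degree_lt (by rwa [degree_neg]), leadingCoeff_neg,
      leadingCoeff_mul, hfm.leadingCoeff, leadingCoeff_pow, one_mul]
  · left
    have h3 : (f * B ^ 2).degree < (A ^ 2).degree := degree_lt_degree h
    rw [leadingCoeff_sub_of_degree_lt h3, leadingCoeff_pow]

/-- One prime step of the parity form of the lemma of Gauss. -/
theorem gauss_step {f a b : ℤ[X]} (hfm : f.Monic) (hf : Odd f.natDegree) {p : ℕ} (hp : p.Prime)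
    (h : C (p : ℤ) ∣ a ^ 2 - f * b ^ 2) : C (p : ℤ) ∣ a ∧ C (p : ℤ) ∣ b := by
  have : Fact p.Prime := ⟨hp⟩
  have key : ∀ q : ℤ[X], C (p : ℤ) ∣ q ↔ q.map (Int.castRingHom (ZMod p)) = 0 := by
    intro q
    rw [C_dvd_iff_dvd_coeff]
    constructor
    · intro hq
      ext i
      rw [coeff_map, coeff_zero, eq_intCast]
      exact (ZMod.intCast_zmod_eq_zero_iff_dvd _ _).2 (hq i)
    · intro hq i
      have := congrArg (fun r => coeff r i) hq
      simp only [coeff_map, coeff_zero, eq_intCast] at this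
      exact (ZMod.intCast_zmod_eq_zero_iff_dvd _ _).1 this
  rw [key, Polynomial.map_sub, Polynomial.map_mul, Polynomial.map_pow, Polynomial.map_pow,
    sub_eq_zero] at h
  rw [key, key]
  refine sq_eq_mul_sq ?_ h
  rw [hfm.natDegree_map]
  exact hf

/-- Cleared form: if `d A` and `d B` are integral and `A ^ 2 - f B ^ 2` is integral then `A` and `B`
are integral. -/
theorem gauss_aux {f G : ℤ[X]} (hfm : f.Monic) (hf : Odd f.natDegree) (d : ℕ) (hd : d ≠ 0) :
    ∀ (A B : ℚ[X]) (a b : ℤ[X]), C (d : ℚ) * A = a.map (Int.castRingHom ℚ) →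
      C (d : ℚ) * B = b.map (Int.castRingHom ℚ) →
      A ^ 2 - f.map (Int.castRingHom ℚ) * B ^ 2 = G.map (Int.castRingHom ℚ) →
      (∃ A' : ℤ[X], A = A'.map (Int.castRingHom ℚ)) ∧
        ∃ B' : ℤ[X], B = B'.map (Int.castRingHom ℚ) := by
  induction d using Nat.strong_induction_on with
  | _ d ih =>
    intro A B a b hA hB hG
    by_cases h1 : d = 1
    · subst h1
      refine ⟨⟨a, ?_⟩, ⟨b, ?_⟩⟩
      · simpa using hA
      · simpa using hB
    · have hp : (d.minFac).Prime := Nat.minFac_prime h1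
      set p := d.minFac with hpdef
      obtain ⟨e, he⟩ : p ∣ d := Nat.minFac_dvd d
      have he0 : e ≠ 0 := by
        rintro rfl
        simp at he
        exact hd he
      have hinj : Function.Injective (Polynomial.map (Int.castRingHom ℚ)) :=
        Polynomial.map_injective _ (RingHom.injective_int _)
      have h2 : a ^ 2 - f * b ^ 2 = C ((d : ℤ) ^ 2) * G := by
        apply hinj
        rw [Polynomial.map_sub, Polynomial.map_mul, Polynomial.map_pow, Polynomial.map_pow,
          Polynomial.map_mul, ← hA, ← hB, ← hG, map_C]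
        simp only [map_pow, eq_intCast, Int.cast_natCast]
        ring
      have h3 : C (p : ℤ) ∣ a ^ 2 - f * b ^ 2 := by
        rw [h2]
        refine Dvd.dvd.mul_right ?_ _
        refine map_dvd (C : ℤ →+* ℤ[X]) ?_
        refine Dvd.dvd.trans ?_ (dvd_pow_self _ two_ne_zero)
        exact_mod_cast Nat.minFac_dvd d
      obtain ⟨⟨a', ha'⟩, ⟨b', hb'⟩⟩ := gauss_step hfm hf hp h3
      have hpQ : (p : ℚ) ≠ 0 := by exact_mod_cast hp.ne_zero
      refine ih e ?_ he0 A B a' b' ?_ ?_ hG
      · rw [he]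
        have := hp.two_le
        have h0 : 0 < e := Nat.pos_of_ne_zero he0
        nlinarith
      · have : C (p : ℚ) * (C (e : ℚ) * A) = C (p : ℚ) * a'.map (Int.castRingHom ℚ) := by
          rw [← mul_assoc, ← C_mul]
          have h5 : ((p : ℚ) * (e : ℚ)) = (d : ℚ) := by
            rw [he]
            push_cast
            ring
          rw [h5, hA, ha', Polynomial.map_mul, map_C]
          simp
        exact mul_left_cancel₀ (C_ne_zero.2 hpQ) this
      · have : C (p : ℚ) * (C (e : ℚ) * B) = C (p : ℚ) * b'.map (Int.castRingHom ℚ) := by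
          rw [← mul_assoc, ← C_mul]
          have h5 : ((p : ℚ) * (e : ℚ)) = (d : ℚ) := by
            rw [he]
            push_cast
            ring
          rw [h5, hB, hb', Polynomial.map_mul, map_C]
          simp
        exact mul_left_cancel₀ (C_ne_zero.2 hpQ) this

/-- A rational polynomial has a positive integer multiple with integer coefficients. -/
theorem exists_clear (A : ℚ[X]) : ∃ d : ℕ, d ≠ 0 ∧ ∃ a : ℤ[X],
    C (d : ℚ) * A = a.map (Int.castRingHom ℚ) := by
  obtain ⟨b, hbm, hb⟩ := IsLocalization.integerNormalization_spec (nonZeroDivisors ℤ) A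
  have hb2 : b ≠ 0 := nonZeroDivisors.ne_zero hbm
  refine ⟨b.natAbs, Int.natAbs_ne_zero.2 hb2, ?_⟩
  rcases Int.natAbs_eq b with h | h
  · refine ⟨IsLocalization.integerNormalization (nonZeroDivisors ℤ) A, ?_⟩
    have h1 : (b : ℚ) = ((b.natAbs : ℕ) : ℚ) := by
      conv_lhs => rw [h]
      simp
    rw [← h1]
    have h2 : algebraMap ℤ ℚ = Int.castRingHom ℚ := rfl
    rw [← h2, hb]
    ext i
    simp [Algebra.smul_def]
  · refine ⟨-IsLocalization.integerNormalization (nonZeroDivisors ℤ) A, ?_⟩
    have h1 : (b : ℚ) = -((b.natAbs : ℕ) : ℚ) := by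
      conv_lhs => rw [h]
      simp
    have h2 : algebraMap ℤ ℚ = Int.castRingHom ℚ := rfl
    rw [Polynomial.map_neg, ← h2, hb]
    ext i
    have h3 : ((b.natAbs : ℕ) : ℚ) = -(b : ℚ) := by rw [h1]; ring
    rw [coeff_C_mul, h3]
    simp [Algebra.smul_def]

/-- **(3.1), the parity form of the lemma of Gauss.** -/
theorem gauss_parity {f G : ℤ[X]} (hfm : f.Monic) (hf : Odd f.natDegree) {A B : ℚ[X]}
    (hG : A ^ 2 - f.map (Int.castRingHom ℚ) * B ^ 2 = G.map (Int.castRingHom ℚ)) :
    (∃ A' : ℤ[X], A = A'.map (Int.castRingHom ℚ)) ∧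
      ∃ B' : ℤ[X], B = B'.map (Int.castRingHom ℚ) := by
  obtain ⟨d, hd, a, ha⟩ := exists_clear A
  obtain ⟨e, he, b, hb⟩ := exists_clear B
  refine gauss_aux hfm hf (d * e) (mul_ne_zero hd he) A B (C (e : ℤ) * a) (C (d : ℤ) * b) ?_ ?_ hG
  · rw [Polynomial.map_mul, ← ha, map_C]
    push_cast
    simp only [C_mul, eq_intCast, Int.cast_natCast]
    ring
  · rw [Polynomial.map_mul, ← hb, map_C]
    push_cast
    simp only [C_mul, eq_intCast, Int.cast_natCast]
    ring

end Pool.TT
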