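import Mathlib
import Pool.Agent.Lib.MP_695920_nt.TT.Rep1

set_option autoImplicit false

/-!
TEAM TWOTORSION: the coordinate ring `F[x,y]/(y^2 - f)` and the ideals `(w, y - v)`.
-/

open Polynomial

namespace Pool.TT

/-- The coordinate ring `F[x,y]/(y^2 - f)`. The element `⟨A, B⟩` is `A + B y`
(`QuadraticAlgebra.norm ⟨A, B⟩ = A^2 - f B^2`, `star ⟨A, B⟩ = ⟨A, -B⟩`). -/
abbrev Crd {F : Type*} [Field F] (f : F[X]) : Type _ := QuadraticAlgebra F[X] f 0

/-- The ideal `(w, y - v)`. -/
noncomputable def pt {F : Type*} [Field F] (f w v : F[X]) : Ideal (Crd f) :=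
  Ideal.span {(⟨w, 0⟩ : Crd f), ⟨-v, 1⟩}

/-- The norm as `A ^ 2 - f B ^ 2`. -/
theorem norm_crd {F : Type*} [Field F] (f : F[X]) (z : Crd f) :
    z.norm = z.re ^ 2 - f * z.im ^ 2 := by
  rw [QuadraticAlgebra.norm_def]
  ring

/-- The norm of a nonzero element is nonzero. -/
theorem norm_crd_ne_zero {F : Type*} [Field F] {f : F[X]} (hf : Odd f.natDegree) {z : Crd f}
    (hz : z ≠ 0) : z.norm ≠ 0 := by
  intro h
  rw [norm_crd, sub_eq_zero] at h
  obtain ⟨h1, h2⟩ := sq_eq_mul_sq hf h
  exact hz (QuadraticAlgebra.ext h1 h2)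

/-- D1a -/
theorem isDomain_crd {F : Type*} [Field F] (f : F[X]) (hf : Odd f.natDegree) :
    IsDomain (Crd f) := by
  have : NoZeroDivisors (Crd f) := by
    refine ⟨fun {a b} hab => ?_⟩
    by_contra hcon
    push Not at hcon
    have h1 := norm_crd_ne_zero hf hcon.1
    have h2 := norm_crd_ne_zero hf hcon.2
    have h3 : (a * b).norm = 0 := by rw [hab, QuadraticAlgebra.norm_zero]
    rw [map_mul] at h3
    exact (mul_ne_zero h1 h2) h3
  exact NoZeroDivisors.to_isDomain _

section ded

variable (f : ℚ[X])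

/-- The quadratic extension of the field of rational functions. -/
abbrev Crf : Type := QuadraticAlgebra (FractionRing ℚ[X]) (algebraMap ℚ[X] (FractionRing ℚ[X]) f) 0

/-- The map of the coordinate ring into the quadratic extension. -/
noncomputable def toCrf : Crd f →+* Crf f where
  toFun z := ⟨algebraMap _ _ z.re, algebraMap _ _ z.im⟩
  map_zero' := by ext <;> simp
  map_one' := by ext <;> simp [QuadraticAlgebra.re_one, QuadraticAlgebra.im_one]
  map_add' a b := by ext <;> simp
  map_mul' a b := by ext <;> simp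

theorem toCrf_re (z : Crd f) : (toCrf f z).re = algebraMap _ _ z.re := rfl
theorem toCrf_im (z : Crd f) : (toCrf f z).im = algebraMap _ _ z.im := rfl

/-- Squares in the field of rational functions. -/
theorem no_root (hf : Odd f.natDegree) (r : FractionRing ℚ[X]) :
    r ^ 2 ≠ algebraMap ℚ[X] (FractionRing ℚ[X]) f + 0 * r := by
  intro h
  rw [zero_mul, add_zero] at h
  obtain ⟨u, w, hw, rfl⟩ := IsFractionRing.div_surjective (A := ℚ[X]) r
  have hw0 : w ≠ 0 := nonZeroDivisors.ne_zero hw
  have hw1 : algebraMap ℚ[X] (FractionRing ℚ[X]) w ≠ 0 := by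
    intro h0
    exact hw0 ((IsFractionRing.injective ℚ[X] (FractionRing ℚ[X])) (by rw [h0, map_zero]))
  rw [div_pow, div_eq_iff (pow_ne_zero 2 hw1), ← map_pow, ← map_pow, ← map_mul] at h
  have h1 := (IsFractionRing.injective ℚ[X] (FractionRing ℚ[X])) h
  exact hw0 (sq_eq_mul_sq hf h1).2

/-- Conjugation of the quadratic extension as an algebra map. -/
noncomputable def conjCrf : Crf f →ₐ[ℚ[X]] Crf f where
  toFun z := star z
  map_zero' := by simp
  map_one' := by simp
  map_add' a b := by simp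
  map_mul' a b := by rw [star_mul, mul_comm]
  commutes' r := by
    have h : (algebraMap ℚ[X] (Crf f) r).im = 0 := rfl
    ext
    · simp [QuadraticAlgebra.re_star]
    · rw [QuadraticAlgebra.im_star, h, neg_zero]

theorem conjCrf_apply (z : Crf f) : conjCrf f z = star z := rfl

/-- The coordinate ring is the integral closure of `ℚ[X]` in the quadratic extension. -/
theorem int_iff (hs : Squarefree f) (x : Crf f) :
    IsIntegral ℚ[X] x ↔ ∃ y : Crd f, toCrf f y = x := by
  have hinj : Function.Injective (algebraMap ℚ[X] (FractionRing ℚ[X])) :=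
    IsFractionRing.injective ℚ[X] (FractionRing ℚ[X])
  have hinj2 : Function.Injective (algebraMap (FractionRing ℚ[X]) (Crf f)) :=
    QuadraticAlgebra.algebraMap_injective
  have hf0 : f ≠ 0 := hs.ne_zero
  constructor
  · intro hx
    have hxs : IsIntegral ℚ[X] (star x) := hx.map (conjCrf f)
    have htr : IsIntegral ℚ[X] (2 * x.re) := by
      rw [← isIntegral_algebraMap_iff hinj2]
      have : algebraMap (FractionRing ℚ[X]) (Crf f) (2 * x.re) = x + star x := by
        ext <;> simp [QuadraticAlgebra.re_star, QuadraticAlgebra.im_star, two_mul]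
      rw [this]
      exact hx.add hxs
    have hno : IsIntegral ℚ[X] x.norm := by
      rw [← isIntegral_algebraMap_iff hinj2, QuadraticAlgebra.algebraMap_norm_eq_mul_star]
      exact hx.mul hxs
    obtain ⟨a, ha⟩ := IsIntegrallyClosed.isIntegral_iff.1 htr
    obtain ⟨c, hc⟩ := IsIntegrallyClosed.isIntegral_iff.1 hno
    have ha' : algebraMap ℚ[X] (FractionRing ℚ[X]) (C (1 / 2 : ℚ) * a) = x.re := by
      have h2 : (2 : ℚ[X]) * (C (1 / 2 : ℚ) * a) = a := by
        rw [← mul_assoc]
        have : (2 : ℚ[X]) * C (1 / 2 : ℚ) = 1 := by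
          rw [← C_ofNat, ← C_mul]
          norm_num
        rw [this, one_mul]
      have h3 := congrArg (algebraMap ℚ[X] (FractionRing ℚ[X])) h2
      rw [map_mul, ha, map_ofNat] at h3
      have h4 : (2 : FractionRing ℚ[X]) ≠ 0 := by
        intro h0
        have : algebraMap ℚ[X] (FractionRing ℚ[X]) 2 = algebraMap ℚ[X] (FractionRing ℚ[X]) 0 := by
          rw [map_ofNat, h0, map_zero]
        have := hinj this
        norm_num at this
      exact mul_left_cancel₀ h4 h3
    set A := C (1 / 2 : ℚ) * a with hA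
    -- `f b` is integral
    have hn : x.norm = x.re ^ 2 - algebraMap ℚ[X] (FractionRing ℚ[X]) f * x.im ^ 2 := by
      rw [QuadraticAlgebra.norm_def]
      ring
    have h5 : (algebraMap ℚ[X] (FractionRing ℚ[X]) f * x.im) ^ 2 =
        algebraMap ℚ[X] (FractionRing ℚ[X]) (f * (A ^ 2 - c)) := by
      rw [map_mul, map_sub, map_pow, ha', hc, hn]
      ring
    have h6 : IsIntegral ℚ[X] (algebraMap ℚ[X] (FractionRing ℚ[X]) f * x.im) := by
      refine IsIntegral.of_pow (n := 2) (by norm_num) ?_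
      rw [h5]
      exact isIntegral_algebraMap
    obtain ⟨h, hh⟩ := IsIntegrallyClosed.isIntegral_iff.1 h6
    have h7 : h ^ 2 = f * (A ^ 2 - c) := by
      apply hinj
      rw [map_pow, hh, h5]
    have h8 : f ∣ h := (hs.dvd_pow_iff_dvd two_ne_zero).1 (by rw [h7]; exact dvd_mul_right _ _)
    obtain ⟨B, hB⟩ := h8
    have h9 : algebraMap ℚ[X] (FractionRing ℚ[X]) B = x.im := by
      have h10 : algebraMap ℚ[X] (FractionRing ℚ[X]) f ≠ 0 := by
        intro h0
        exact hf0 (hinj (by rw [h0, map_zero]))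
      refine mul_left_cancel₀ h10 ?_
      rw [← map_mul, ← hB, hh]
    exact ⟨⟨A, B⟩, QuadraticAlgebra.ext ha' h9⟩
  · rintro ⟨y, rfl⟩
    have h1 : toCrf f y = algebraMap ℚ[X] (Crf f) y.re +
        algebraMap ℚ[X] (Crf f) y.im * (⟨0, 1⟩ : Crf f) := by
      have h2 : ∀ r : ℚ[X], algebraMap ℚ[X] (Crf f) r =
          algebraMap (FractionRing ℚ[X]) (Crf f) (algebraMap _ _ r) := fun r => rfl
      rw [h2, h2]
      ext
      · simp [toCrf_re]
      · simp [toCrf_im]
    have h3 : IsIntegral ℚ[X] (⟨0, 1⟩ : Crf f) := by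
      refine IsIntegral.of_pow (n := 2) (by norm_num) ?_
      have h4 : (⟨0, 1⟩ : Crf f) ^ 2 = algebraMap ℚ[X] (Crf f) f := by
        have h2 : ∀ r : ℚ[X], algebraMap ℚ[X] (Crf f) r =
            algebraMap (FractionRing ℚ[X]) (Crf f) (algebraMap _ _ r) := fun r => rfl
        rw [h2, sq]
        ext <;> simp
      rw [h4]
      exact isIntegral_algebraMap
    rw [h1]
    exact isIntegral_algebraMap.add (isIntegral_algebraMap.mul h3)

end ded

instance {F : Type*} [Field F] (f : F[X]) [hf : Fact (Odd f.natDegree)] :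
    IsDomain (Crd f) := isDomain_crd f hf.out

/-- D1b -/
theorem isDedekind_crd (f : ℚ[X]) [hf : Fact (Odd f.natDegree)] (hs : Squarefree f) :
    IsDedekindDomain (Crd f) := by
  have : Fact (∀ r : FractionRing ℚ[X], r ^ 2 ≠
      algebraMap ℚ[X] (FractionRing ℚ[X]) f + 0 * r) := ⟨no_root f hf.out⟩
  let _ : Algebra (Crd f) (Crf f) := (toCrf f).toAlgebra
  have ht : IsScalarTower ℚ[X] (Crd f) (Crf f) := by
    refine IsScalarTower.of_algebraMap_eq fun r => ?_
    show _ = toCrf f _
    ext
    · rw [toCrf_re]; rfl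
    · rw [toCrf_im, QuadraticAlgebra.algebraMap_im, map_zero]; rfl
  have hcl : IsIntegralClosure (Crd f) ℚ[X] (Crf f) := by
    refine ⟨?_, fun {x} => int_iff f hs x⟩
    intro a b hab
    have h1 := congrArg QuadraticAlgebra.re hab
    have h2 := congrArg QuadraticAlgebra.im hab
    have hinj : Function.Injective (algebraMap ℚ[X] (FractionRing ℚ[X])) :=
      IsFractionRing.injective ℚ[X] (FractionRing ℚ[X])
    exact QuadraticAlgebra.ext (hinj h1) (hinj h2)
  exact IsIntegralClosure.isDedekindDomain ℚ[X] (FractionRing ℚ[X]) (Crf f) (Crd f)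

instance (f : ℚ[X]) [hf : Fact (Odd f.natDegree)] [hs : Fact (Squarefree f)] :
    IsDedekindDomain (Crd f) := isDedekind_crd f hs.out

theorem pt_ne_bot {F : Type*} [Field F] (f w v : F[X]) : pt f w v ≠ ⊥ := by
  intro h
  have h1 : (⟨-v, 1⟩ : Crd f) ∈ pt f w v := Ideal.subset_span (by simp)
  rw [h, Ideal.mem_bot] at h1
  have h2 := congrArg QuadraticAlgebra.im h1
  simp at h2

/-- the class of `(w, y - v)` -/
noncomputable def cl (f : ℚ[X]) [hf : Fact (Odd f.natDegree)] [hs : Fact (Squarefree f)]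
    (w v : ℚ[X]) : ClassGroup (Crd f) :=
  ClassGroup.mk0 ⟨pt f w v, mem_nonZeroDivisors_of_ne_zero (pt_ne_bot f w v)⟩

end Pool.TT
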