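import Pool.Agent.Lib.MP_695920_nt.TT.Ring

set_option autoImplicit false

/-!
TEAM TWOTORSION, D2: the ideals `(w, y - v)` of `ℚ[x,y]/(y^2 - f)`, `f` squarefree of odd degree:
products with the conjugate, norms of ideals, the function of a relation.
-/

open Polynomial

namespace Pool.TT

section basic

variable (f : ℚ[X])

/-- Bezout from squarefreeness. -/
theorem bezout_sqf {f w v q : ℚ[X]} (hs : Squarefree f) (h : f - v ^ 2 = w * q) :
    ∃ a b c : ℚ[X], a * w + b * v + c * q = 1 := by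
  obtain ⟨g, hg⟩ := (IsPrincipalIdealRing.principal (Ideal.span {w, v, q})).principal
  have hg' : Ideal.span {w, v, q} = Ideal.span {g} := hg
  have h1 : ∀ r ∈ ({w, v, q} : Set ℚ[X]), g ∣ r := by
    intro r hr
    have : r ∈ Ideal.span {w, v, q} := Ideal.subset_span hr
    rw [hg', Ideal.mem_span_singleton] at this
    exact this
  have hw := h1 w (by simp)
  have hv := h1 v (by simp)
  have hq := h1 q (by simp)
  have hgg : g * g ∣ f := by
    have : f = v ^ 2 + w * q := by rw [← h]; ring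
    rw [this, sq]
    exact dvd_add (mul_dvd_mul hv hv) (mul_dvd_mul hw hq)
  have hu : IsUnit g := hs g hgg
  have h2 : (1 : ℚ[X]) ∈ Ideal.span {w, v, q} := by
    rw [hg', Ideal.span_singleton_eq_top.2 hu]
    trivial
  rw [Ideal.mem_span_insert] at h2
  obtain ⟨a, z, hz, h3⟩ := h2
  rw [Ideal.mem_span_insert] at hz
  obtain ⟨b, z', hz', h4⟩ := hz
  rw [Ideal.mem_span_singleton] at hz'
  obtain ⟨c, hc⟩ := hz'
  refine ⟨a, b, c, ?_⟩
  rw [h3, h4, hc]
  ring

theorem mem_pt_w (w v : ℚ[X]) : (⟨w, 0⟩ : Crd f) ∈ pt f w v := Ideal.subset_span (by simp)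

theorem mem_pt_y (w v : ℚ[X]) : (⟨-v, 1⟩ : Crd f) ∈ pt f w v := Ideal.subset_span (by simp)

/-- An element `⟨p, 0⟩` with `p` a combination. -/
theorem mem_of_comb (I : Ideal (Crd f)) {w v q p : ℚ[X]} (hp : (⟨p * w, 0⟩ : Crd f) ∈ I)
    (hv : (⟨p * v, 0⟩ : Crd f) ∈ I) (hq : (⟨p * q, 0⟩ : Crd f) ∈ I)
    (h : ∃ a b c : ℚ[X], a * w + b * v + c * q = 1) : (⟨p, 0⟩ : Crd f) ∈ I := by
  obtain ⟨a, b, c, habc⟩ := h
  have h1 : (⟨p, 0⟩ : Crd f) = ⟨a, 0⟩ * ⟨p * w, 0⟩ + ⟨b, 0⟩ * ⟨p * v, 0⟩ + ⟨c, 0⟩ * ⟨p * q, 0⟩ := by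
    apply QuadraticAlgebra.ext
    · simp only [QuadraticAlgebra.re_add, QuadraticAlgebra.re_mul]
      linear_combination (-p) * habc
    · simp
  rw [h1]
  exact I.add_mem (I.add_mem (I.mul_mem_left _ hp) (I.mul_mem_left _ hv)) (I.mul_mem_left _ hq)

/-- D2a without the type classes. -/
theorem pt_mul_conj (hs : Squarefree f) (w v : ℚ[X]) (h : w ∣ f - v ^ 2) :
    pt f w v * pt f w (-v) = Ideal.span {(⟨w, 0⟩ : Crd f)} := by
  obtain ⟨q, hq⟩ := h
  apply le_antisymm
  · rw [pt, pt, Ideal.span_mul_span', Ideal.span_le]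
    rintro _ ⟨x, hx, y, hy, rfl⟩
    simp only [Set.mem_insert_iff, Set.mem_singleton_iff] at hx hy
    simp only [SetLike.mem_coe, Ideal.mem_span_singleton]
    rcases hx with rfl | rfl <;> rcases hy with rfl | rfl
    · exact dvd_mul_right _ _
    · exact dvd_mul_right _ _
    · exact dvd_mul_left _ _
    · refine ⟨⟨q, 0⟩, ?_⟩
      apply QuadraticAlgebra.ext
      · simp only [QuadraticAlgebra.re_mul]
        linear_combination hq
      · simp
  · rw [Ideal.span_le, Set.singleton_subset_iff]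
    have hA : (⟨w * w, 0⟩ : Crd f) ∈ pt f w v * pt f w (-v) := by
      have := Ideal.mul_mem_mul (mem_pt_w f w v) (mem_pt_w f w (-v))
      convert this using 1
      ext <;> simp
    have hB : (⟨w * v, 0⟩ : Crd f) ∈ pt f w v * pt f w (-v) := by
      have h1 := Ideal.mul_mem_mul (mem_pt_w f w v) (mem_pt_y f w (-v))
      have h2 := Ideal.mul_mem_mul (mem_pt_y f w v) (mem_pt_w f w (-v))
      have h3 := Ideal.mul_mem_left _ (⟨C (1 / 2), 0⟩ : Crd f) (Ideal.sub_mem _ h1 h2)
      convert h3 using 1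
      have h4 : C (1 / 2 : ℚ) * 2 = 1 := by
        rw [← C_ofNat, ← C_mul]
        norm_num
      apply QuadraticAlgebra.ext
      · simp only [QuadraticAlgebra.re_mul, QuadraticAlgebra.re_sub, QuadraticAlgebra.im_mul,
          QuadraticAlgebra.im_sub]
        linear_combination (-w * v) * h4
      · simp
    have hC : (⟨w * q, 0⟩ : Crd f) ∈ pt f w v * pt f w (-v) := by
      have h1 := Ideal.mul_mem_mul (mem_pt_y f w v) (mem_pt_y f w (-v))
      convert h1 using 1
      apply QuadraticAlgebra.ext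
      · simp only [QuadraticAlgebra.re_mul]
        linear_combination -hq
      · simp
    exact mem_of_comb f _ hA hB hC (bezout_sqf hs hq)

/-- D2e without the type classes. -/
theorem pt_sq' (hs : Squarefree f) (r v : ℚ[X]) (h : r ^ 2 ∣ f - v ^ 2) :
    pt f (r ^ 2) v = pt f r v ^ 2 := by
  obtain ⟨q, hq⟩ := h
  apply le_antisymm
  · rw [pt, Ideal.span_le]
    rintro x hx
    simp only [Set.mem_insert_iff, Set.mem_singleton_iff] at hx
    have hrr : (⟨r ^ 2, 0⟩ : Crd f) ∈ pt f r v ^ 2 := by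
      rw [sq (pt f r v)]
      have := Ideal.mul_mem_mul (mem_pt_w f r v) (mem_pt_w f r v)
      convert this using 1
      apply QuadraticAlgebra.ext
      · simp only [QuadraticAlgebra.re_mul]
        ring
      · simp
    rcases hx with rfl | rfl
    · exact hrr
    · have h1 : (⟨r, 0⟩ : Crd f) * ⟨-v, 1⟩ ∈ pt f r v ^ 2 := by
        rw [sq (pt f r v)]
        exact Ideal.mul_mem_mul (mem_pt_w f r v) (mem_pt_y f r v)
      have h2 : (⟨v, 0⟩ : Crd f) * ⟨-v, 1⟩ ∈ pt f r v ^ 2 := by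
        have h3 : (⟨-v, 1⟩ : Crd f) * ⟨-v, 1⟩ ∈ pt f r v ^ 2 := by
          rw [sq (pt f r v)]
          exact Ideal.mul_mem_mul (mem_pt_y f r v) (mem_pt_y f r v)
        have h4 : (⟨q, 0⟩ : Crd f) * ⟨r ^ 2, 0⟩ ∈ pt f r v ^ 2 := Ideal.mul_mem_left _ _ hrr
        have h5 := Ideal.mul_mem_left _ (⟨C (1 / 2), 0⟩ : Crd f) (Ideal.sub_mem _ h4 h3)
        convert h5 using 1
        have h6 : C (1 / 2 : ℚ) * 2 = 1 := by
          rw [← C_ofNat, ← C_mul]
          norm_num
        apply QuadraticAlgebra.ext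
        · simp only [QuadraticAlgebra.re_mul, QuadraticAlgebra.re_sub, QuadraticAlgebra.im_mul,
            QuadraticAlgebra.im_sub]
          linear_combination (v ^ 2) * h6 + C (1 / 2 : ℚ) * hq
        · simp only [QuadraticAlgebra.re_mul, QuadraticAlgebra.re_sub, QuadraticAlgebra.im_mul,
            QuadraticAlgebra.im_sub]
          linear_combination (-v) * h6
      obtain ⟨a, b, c, habc⟩ := bezout_sqf (w := r) (v := v) (q := r * q) hs (by rw [hq]; ring)
      have h7 : (⟨-v, 1⟩ : Crd f) = (⟨a + c * q, 0⟩ : Crd f) * (⟨r, 0⟩ * ⟨-v, 1⟩) +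
          ⟨b, 0⟩ * (⟨v, 0⟩ * ⟨-v, 1⟩) := by
        apply QuadraticAlgebra.ext
        · simp only [QuadraticAlgebra.re_mul, QuadraticAlgebra.re_add, QuadraticAlgebra.im_mul,
            QuadraticAlgebra.im_add]
          linear_combination v * habc
        · simp only [QuadraticAlgebra.re_mul, QuadraticAlgebra.re_add, QuadraticAlgebra.im_mul,
            QuadraticAlgebra.im_add]
          linear_combination -habc
      rw [h7]
      exact Ideal.add_mem _ (Ideal.mul_mem_left _ _ h1) (Ideal.mul_mem_left _ _ h2)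
  · have h0 : ∀ x ∈ pt f r v ^ 2, x ∈ pt f (r ^ 2) v := by
      intro x hx
      rw [sq, pt, Ideal.span_mul_span'] at hx
      refine (Ideal.span_le.2 ?_ : _ ≤ pt f (r ^ 2) v) hx
      rintro _ ⟨x, hx, y, hy, rfl⟩
      simp only [Set.mem_insert_iff, Set.mem_singleton_iff] at hx hy
      simp only [SetLike.mem_coe]
      rcases hx with rfl | rfl <;> rcases hy with rfl | rfl
      · have := mem_pt_w f (r ^ 2) v
        convert this using 1
        apply QuadraticAlgebra.ext
        · simp only [QuadraticAlgebra.re_mul]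
          ring
        · simp
      · exact Ideal.mul_mem_left _ _ (mem_pt_y f _ v)
      · exact Ideal.mul_mem_right _ _ (mem_pt_y f _ v)
      · exact Ideal.mul_mem_left _ _ (mem_pt_y f _ v)
    exact h0

/-- Parity of the degree and the leading coefficient of a norm. -/
theorem norm_leadingCoeff' (hf : Odd f.natDegree) (hm : f.Monic) (φ : Crd f) (hφ : φ ≠ 0) :
    φ.norm ≠ 0 ∧ ∃ a : ℚ, a ≠ 0 ∧ φ.norm.leadingCoeff = (-1) ^ φ.norm.natDegree * a ^ 2 ∧
      2 * φ.re.natDegree ≤ φ.norm.natDegree ∧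
      (φ.im ≠ 0 → f.natDegree + 2 * φ.im.natDegree ≤ φ.norm.natDegree) := by
  have h0 := norm_crd_ne_zero hf hφ
  refine ⟨h0, ?_⟩
  have hA := natDegree_A_le (f := f) (A := φ.re) (B := φ.im) hf
  have hB := natDegree_B_le (f := f) (A := φ.re) (B := φ.im) hf
  have h1 := norm_crd f φ
  rw [← h1] at hA hB
  obtain ⟨m, hm1⟩ := hf
  by_cases hB0 : φ.im = 0
  · have hA0 : φ.re ≠ 0 := by
      intro h
      exact hφ (QuadraticAlgebra.ext h hB0)
    have h2 : φ.norm = φ.re ^ 2 := by rw [h1, hB0]; ring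
    refine ⟨φ.re.leadingCoeff, leadingCoeff_ne_zero.2 hA0, ?_, hA, hB⟩
    rw [h2, leadingCoeff_pow, natDegree_pow]
    simp
  by_cases hA0 : φ.re = 0
  · have h2 : φ.norm = -(f * φ.im ^ 2) := by rw [h1, hA0]; ring
    refine ⟨φ.im.leadingCoeff, leadingCoeff_ne_zero.2 hB0, ?_, hA, hB⟩
    rw [h2, leadingCoeff_neg, leadingCoeff_mul, hm.leadingCoeff, leadingCoeff_pow, natDegree_neg,
      natDegree_mul hm.ne_zero (pow_ne_zero 2 hB0), natDegree_pow, one_mul]
    rw [Odd.neg_one_pow (by rw [hm1]; exact ⟨m + φ.im.natDegree, by ring⟩)]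
    ring
  have h3 : (φ.re ^ 2).natDegree = 2 * φ.re.natDegree := by rw [natDegree_pow]
  have h4 : (f * φ.im ^ 2).natDegree = f.natDegree + 2 * φ.im.natDegree := by
    rw [natDegree_mul hm.ne_zero (pow_ne_zero 2 hB0), natDegree_pow]
  rcases lt_or_gt_of_ne (show (φ.re ^ 2).natDegree ≠ (f * φ.im ^ 2).natDegree by omega) with h | h
  · have h5 : (φ.re ^ 2).degree < (f * φ.im ^ 2).degree := degree_lt_degree h
    refine ⟨φ.im.leadingCoeff, leadingCoeff_ne_zero.2 hB0, ?_, hA, hB⟩
    have h6 : φ.norm.natDegree = f.natDegree + 2 * φ.im.natDegree := by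
      rw [h1, natDegree_sub_eq_right_of_natDegree_lt h, h4]
    rw [h6, Odd.neg_one_pow (by rw [hm1]; exact ⟨m + φ.im.natDegree, by ring⟩), h1,
      sub_eq_add_neg, leadingCoeff_add_of_degree_lt (by rwa [degree_neg]), leadingCoeff_neg,
      leadingCoeff_mul, hm.leadingCoeff, leadingCoeff_pow]
    ring
  · have h5 : (f * φ.im ^ 2).degree < (φ.re ^ 2).degree := degree_lt_degree h
    refine ⟨φ.re.leadingCoeff, leadingCoeff_ne_zero.2 hA0, ?_, hA, hB⟩
    have h6 : φ.norm.natDegree = 2 * φ.re.natDegree := by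
      rw [h1, natDegree_sub_eq_left_of_natDegree_lt h, h3]
    rw [h6, h1, leadingCoeff_sub_of_degree_lt h5, leadingCoeff_pow]
    simp

/-- Conjugation as a ring homomorphism. -/
noncomputable def conj : Crd f →+* Crd f := starRingEnd (Crd f)

theorem conj_apply (z : Crd f) : conj f z = star z := rfl

theorem map_conj_pt (w v : ℚ[X]) : (pt f w v).map (conj f) = pt f w (-v) := by
  rw [pt, Ideal.map_span, Set.image_pair, conj_apply, conj_apply]
  have h1 : star (⟨w, 0⟩ : Crd f) = ⟨w, 0⟩ := by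
    ext <;> simp [QuadraticAlgebra.re_star, QuadraticAlgebra.im_star]
  have h2 : star (⟨-v, 1⟩ : Crd f) = -⟨v, 1⟩ := by
    ext <;> simp [QuadraticAlgebra.re_star, QuadraticAlgebra.im_star]
  rw [h1, h2, pt, neg_neg]
  apply le_antisymm
  · rw [Ideal.span_le]
    rintro x hx
    simp only [Set.mem_insert_iff, Set.mem_singleton_iff] at hx
    rcases hx with rfl | rfl
    · exact Ideal.subset_span (by simp)
    · exact (Ideal.neg_mem_iff _).2 (Ideal.subset_span (by simp))
  · rw [Ideal.span_le]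
    rintro x hx
    simp only [Set.mem_insert_iff, Set.mem_singleton_iff] at hx
    rcases hx with rfl | rfl
    · exact Ideal.subset_span (by simp)
    · exact (Ideal.neg_mem_iff _).1 (Ideal.subset_span (by simp))

end basic

end Pool.TT
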