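import Pool.Agent.Lib.MP_695920_nt.TT.Cl2

set_option autoImplicit false

/-!
TEAM TWOTORSION: from the count of cosets (step 1(b),(c)) to the sum over the curves
`y^2 = f(x)`, `f` the minimal polynomial of an algebraic integer of full degree.
-/

open NumberField Module Polynomial

namespace Pool.TT

variable {K : Type} [Field K] [NumberField K]

theorem map_minpoly_int (θ : 𝓞 K) :
    (minpoly ℤ θ).map (Int.castRingHom ℚ) = minpoly ℚ (θ : K) := by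
  have h1 : minpoly ℚ (algebraMap (𝓞 K) K θ) = (minpoly ℤ θ).map (algebraMap ℤ ℚ) :=
    minpoly.isIntegrallyClosed_eq_field_fractions ℚ K (RingOfIntegers.isIntegral θ)
  exact h1.symm

theorem natDegree_minpoly_int (θ : 𝓞 K) :
    (minpoly ℤ θ).natDegree = (minpoly ℚ (θ : K)).natDegree := by
  rw [← map_minpoly_int θ, (minpoly.monic (RingOfIntegers.isIntegral θ)).natDegree_map]

theorem natDegree_minpoly_of_injective (θ : 𝓞 K)
    (h : Function.Injective fun σ : K →+* ℂ => σ (θ : K)) :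
    (minpoly ℤ θ).natDegree = finrank ℚ K := by
  rw [natDegree_minpoly_int]
  apply le_antisymm (minpoly.natDegree_le (θ : K))
  have h1 : Fintype.card (K →+* ℂ) = finrank ℚ K := Embeddings.card K ℂ
  have h2 : Set.range (fun σ : K →+* ℂ => σ (θ : K)) = (minpoly ℚ (θ : K)).rootSet ℂ :=
    Embeddings.range_eval_eq_rootSet_minpoly K ℂ (θ : K)
  classical
  have h3 : Fintype.card (K →+* ℂ) ≤ ((minpoly ℚ (θ : K)).aroots ℂ).toFinset.card := by
    rw [← Finset.card_univ, ← Finset.card_image_of_injective _ h]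
    apply Finset.card_le_card
    intro z hz
    rw [Finset.mem_image] at hz
    obtain ⟨σ, -, rfl⟩ := hz
    have : σ (θ : K) ∈ (minpoly ℚ (θ : K)).rootSet ℂ := by rw [← h2]; exact ⟨σ, rfl⟩
    rw [rootSet] at this
    exact_mod_cast this
  rw [← h1]
  refine h3.trans ((Multiset.toFinset_card_le _).trans ?_)
  refine (card_roots' _).trans ?_
  rw [natDegree_map]

theorem eval_minpoly_eq_norm (θ : 𝓞 K) (h : (minpoly ℤ θ).natDegree = finrank ℚ K) (x : ℤ) :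
    (minpoly ℤ θ).eval x = Algebra.norm ℤ ((x : 𝓞 K) - θ) := by
  have hK : (minpoly ℚ (θ : K)).natDegree = finrank ℚ K := by rw [← natDegree_minpoly_int, h]
  have hmin : minpoly ℚ (Algebra.lmul ℚ K (θ : K)) = minpoly ℚ (θ : K) :=
    minpoly.algHom_eq (Algebra.lmul ℚ K) Algebra.lmul_injective (θ : K)
  have hchar : (Algebra.lmul ℚ K (θ : K)).charpoly = minpoly ℚ (θ : K) := by
    apply Polynomial.eq_of_monic_of_dvd_of_natDegree_le
    · exact minpoly.monic (Algebra.IsIntegral.isIntegral (θ : K))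
    · exact LinearMap.charpoly_monic _
    · rw [← hmin]
      exact LinearMap.minpoly_dvd_charpoly _
    · rw [LinearMap.charpoly_natDegree, hK]
  have h1 : ((Algebra.norm ℤ ((x : 𝓞 K) - θ) : ℤ) : ℚ) =
      (minpoly ℚ (θ : K)).eval (x : ℚ) := by
    rw [Algebra.coe_norm_int, ← hchar, LinearMap.eval_charpoly, Algebra.norm_apply]
    congr 1
    have : (((x : 𝓞 K) - θ : 𝓞 K) : K) = algebraMap ℚ K x - (θ : K) := by
      push_cast
      simp
    rw [this, map_sub]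
    congr 1
    ext k
    simp [Algebra.smul_def]
  have h2 : (((minpoly ℤ θ).eval x : ℤ) : ℚ) = (minpoly ℚ (θ : K)).eval (x : ℚ) := by
    rw [← map_minpoly_int, eval_intCast_map]
    simp
  exact_mod_cast h2.trans h1.symm

theorem root_bound (θ : 𝓞 K) (R : ℝ) (h : ∀ σ : K →+* ℂ, ‖σ (θ : K)‖ ≤ R) (z : ℂ)
    (hz : ((minpoly ℤ θ).map (Int.castRingHom ℂ)).IsRoot z) : ‖z‖ ≤ R := by
  have h1 : (minpoly ℤ θ).map (Int.castRingHom ℂ) =
      (minpoly ℚ (θ : K)).map (algebraMap ℚ ℂ) := by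
    rw [← map_minpoly_int, Polynomial.map_map]
    congr 1
  rw [h1] at hz
  have h2 : z ∈ (minpoly ℚ (θ : K)).rootSet ℂ := by
    rw [mem_rootSet]
    refine ⟨minpoly.ne_zero (Algebra.IsIntegral.isIntegral _), ?_⟩
    rw [aeval_def, ← eval_map]
    exact hz
  rw [← Embeddings.range_eval_eq_rootSet_minpoly K ℂ (θ : K)] at h2
  obtain ⟨σ, rfl⟩ := h2
  exact h σ

theorem finite_curve (f : ℤ[X]) (R : ℝ) :
    {p : ℤ × ℤ | |(p.1 : ℝ)| ≤ R ∧ 0 < p.2 ∧ p.2 ^ 2 = f.eval p.1}.Finite := by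
  apply Set.Finite.of_finite_image (f := Prod.fst)
  · apply (Set.finite_Icc ⌈-R⌉ ⌊R⌋).subset
    rintro _ ⟨p, ⟨hp, -, -⟩, rfl⟩
    rw [abs_le] at hp
    exact ⟨Int.ceil_le.mpr hp.1, Int.le_floor.mpr hp.2⟩
  · rintro ⟨a, b⟩ ⟨-, hb, hb2⟩ ⟨a', b'⟩ ⟨-, hb', hb2'⟩ h
    simp only at h hb hb2 hb' hb2'
    subst h
    have : b ^ 2 = b' ^ 2 := by rw [hb2, hb2']
    have h2 : b = b' := by nlinarith [sq_nonneg (b - b')]
    rw [h2]

theorem lines_of_cosets (n : ℕ) (hodd : Odd n)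
    (hco : ∀ C : ℝ, 1 ≤ C → ∃ C' : ℝ, 0 < C' ∧ ∀ (K : Type) [Field K] [NumberField K],
      finrank ℚ K = n → ∃ Θ : Finset (𝓞 K),
        (Θ.card : ℝ) ≤ C' * |(discr K : ℝ)| ^ ((1 : ℝ) / 2 - 1 / n) ∧
        (∀ θ ∈ Θ, (∀ σ : K →+* ℂ, ‖σ (θ : K)‖ ≤ C * |(discr K : ℝ)| ^ ((1 : ℝ) / n)) ∧
          ∀ σ τ : K →+* ℂ, σ ≠ τ → σ (θ : K) ≠ τ (θ : K)) ∧
        (Set.ncard {β : 𝓞 K | (∀ σ : K →+* ℂ,
          ‖σ (β : K)‖ ≤ C * |(discr K : ℝ)| ^ ((1 : ℝ) / n)) ∧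
          ¬ ∃ θ ∈ Θ, ∃ x : ℤ, β = θ + x} : ℝ) ≤ C' * |(discr K : ℝ)| ^ ((1 : ℝ) / 3)) :
    ∃ c : ℝ, 1 ≤ c ∧ ∀ (K : Type) [Field K] [NumberField K], finrank ℚ K = n →
      ∃ 𝓕 : Finset (𝓞 K), (𝓕.card : ℝ) ≤ c * |(discr K : ℝ)| ^ ((1 : ℝ) / 2 - 1 / n) ∧
        (∀ θ ∈ 𝓕, (minpoly ℤ θ).natDegree = n ∧
          ∀ z : ℂ, ((minpoly ℤ θ).map (Int.castRingHom ℂ)).IsRoot z →
            ‖z‖ ≤ c * |(discr K : ℝ)| ^ ((1 : ℝ) / n)) ∧
        (Nat.card {x : ClassGroup (𝓞 K) // x ^ 2 = 1} : ℝ) ≤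
          c * |(discr K : ℝ)| ^ ((1 : ℝ) / 3) +
          ∑ θ ∈ 𝓕, (Set.ncard {p : ℤ × ℤ | |(p.1 : ℝ)| ≤ c * |(discr K : ℝ)| ^ ((1 : ℝ) / n) ∧
            0 < p.2 ∧ p.2 ^ 2 = (minpoly ℤ θ).eval p.1} : ℝ) := by
  classical
  obtain ⟨c₀, hc₀, hcl⟩ := cl2_le n hodd
  obtain ⟨C', hC', hΘ⟩ := hco c₀ hc₀
  refine ⟨max (2 * c₀) C', le_max_of_le_left (by linarith), fun K _ _ hK => ?_⟩
  obtain ⟨Θ, hcard, hprop, hexc⟩ := hΘ K hK
  set D : ℝ := |(discr K : ℝ)| with hD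
  have hDpos : 0 < D := abs_pos.mpr (by exact_mod_cast discr_ne_zero K)
  set c := max (2 * c₀) C' with hc
  have hcC : C' ≤ c := le_max_right _ _
  have hcc : 2 * c₀ ≤ c := le_max_left _ _
  set X : ℝ := D ^ ((1 : ℝ) / n) with hX
  have hXpos : 0 < X := Real.rpow_pos_of_pos hDpos _
  have hneg : Function.Injective (fun θ : 𝓞 K => -θ) := neg_injective
  refine ⟨Θ.image fun θ => -θ, ?_, ?_, ?_⟩
  · rw [Finset.card_image_of_injective _ hneg]
    exact hcard.trans (mul_le_mul_of_nonneg_right hcC (Real.rpow_nonneg hDpos.le _))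
  · intro η hη
    obtain ⟨θ, hθ, rfl⟩ := Finset.mem_image.mp hη
    have hcoe : ((-θ : 𝓞 K) : K) = -(θ : K) := by simp
    constructor
    · rw [← hK]
      apply natDegree_minpoly_of_injective
      intro σ τ hst
      by_contra hne
      apply (hprop θ hθ).2 σ τ hne
      simp only [hcoe, map_neg, neg_inj] at hst
      exact hst
    · intro z hz
      refine (root_bound (-θ) (c₀ * X) (fun σ => ?_) z hz).trans
        (mul_le_mul_of_nonneg_right (by linarith) hXpos.le)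
      rw [hcoe, map_neg, norm_neg]
      exact (hprop θ hθ).1 σ
  · refine (hcl K hK).trans ?_
    set S : Set (𝓞 K) := {β : 𝓞 K | (∀ φ : K →+* ℂ, ‖φ (β : K)‖ ≤ c₀ * D ^ ((1 : ℝ) / n)) ∧
          ∃ y : ℤ, 0 < y ∧ y ^ 2 = Algebra.norm ℤ β} with hS
    set E : Set (𝓞 K) := {β : 𝓞 K | (∀ σ : K →+* ℂ,
          ‖σ (β : K)‖ ≤ c₀ * D ^ ((1 : ℝ) / n)) ∧ ¬ ∃ θ ∈ Θ, ∃ x : ℤ, β = θ + x} with hE
    have hfinbox : {β : 𝓞 K | ∀ σ : K →+* ℂ, ‖σ (β : K)‖ ≤ c₀ * D ^ ((1 : ℝ) / n)}.Finite := by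
      refine Set.Finite.of_finite_image (f := fun β : 𝓞 K => (β : K))
        ((Embeddings.finite_of_norm_le K ℂ (c₀ * D ^ ((1 : ℝ) / n))).subset ?_)
        (fun x _ y _ h => RingOfIntegers.coe_injective h)
      rintro _ ⟨β, hβ, rfl⟩
      exact ⟨β.isIntegral_coe, hβ⟩
    have hfinE : E.Finite := hfinbox.subset fun β hβ => hβ.1
    set T : 𝓞 K → Set (𝓞 K) := fun θ => {β : 𝓞 K | β ∈ S ∧ ∃ x : ℤ, β = θ + x} with hT
    have hfinT : ∀ θ, (T θ).Finite := fun θ => hfinbox.subset fun β hβ => hβ.1.1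
    have hcover : S ⊆ E ∪ ⋃ θ ∈ Θ, T θ := by
      intro β hβ
      by_cases h : ∃ θ ∈ Θ, ∃ x : ℤ, β = θ + x
      · obtain ⟨θ, hθ, x, hx⟩ := h
        right
        simp only [Set.mem_iUnion]
        exact ⟨θ, hθ, hβ, x, hx⟩
      · left
        exact ⟨hβ.1, h⟩
    have h1 : S.ncard ≤ E.ncard + ∑ θ ∈ Θ, (T θ).ncard := by
      have hfinU : (⋃ θ ∈ Θ, T θ).Finite := Θ.finite_toSet.biUnion fun θ _ => hfinT θ
      refine (Set.ncard_le_ncard hcover (hfinE.union hfinU)).trans ?_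
      refine (Set.ncard_union_le _ _).trans ?_
      exact Nat.add_le_add_left (Finset.set_ncard_biUnion_le _ _) _
    have h2 : ∀ θ ∈ Θ, (T θ).ncard ≤
        Set.ncard {p : ℤ × ℤ | |(p.1 : ℝ)| ≤ c * D ^ ((1 : ℝ) / n) ∧
            0 < p.2 ∧ p.2 ^ 2 = (minpoly ℤ (-θ)).eval p.1} := by
      intro θ hθ
      have hcoe : ((-θ : 𝓞 K) : K) = -(θ : K) := by simp
      have hdeg : (minpoly ℤ (-θ)).natDegree = finrank ℚ K := by
        apply natDegree_minpoly_of_injective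
        intro σ τ hst
        by_contra hne
        apply (hprop θ hθ).2 σ τ hne
        simp only [hcoe, map_neg, neg_inj] at hst
        exact hst
      have hex : ∀ β : T θ, ∃ p : ℤ × ℤ, (|(p.1 : ℝ)| ≤ c * D ^ ((1 : ℝ) / n) ∧
            0 < p.2 ∧ p.2 ^ 2 = (minpoly ℤ (-θ)).eval p.1) ∧ (β : 𝓞 K) = θ + (p.1 : 𝓞 K) := by
        rintro ⟨β, ⟨hbox, y, hy, hyN⟩, x, hx⟩
        refine ⟨(x, y), ⟨?_, hy, ?_⟩, hx⟩
        · obtain ⟨σ⟩ : Nonempty (K →+* ℂ) := inferInstance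
          have e1 : ((x : ℤ) : ℂ) = σ (β : K) - σ (θ : K) := by
            rw [hx]
            simp
          have e2 : ‖((x : ℤ) : ℂ)‖ = |(x : ℝ)| := by
            rw [← Complex.ofReal_intCast, Complex.norm_real, Real.norm_eq_abs]
          simp only
          rw [← e2, e1]
          calc _ ≤ ‖σ (β : K)‖ + ‖σ (θ : K)‖ := norm_sub_le _ _
            _ ≤ c₀ * X + c₀ * X := add_le_add (hbox σ) ((hprop θ hθ).1 σ)
            _ = 2 * c₀ * X := by ring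
            _ ≤ c * X := mul_le_mul_of_nonneg_right hcc hXpos.le
        · simp only
          rw [eval_minpoly_eq_norm _ hdeg, hyN, hx]
          congr 1
          ring
      choose g hg hgβ using hex
      have hfin : {p : ℤ × ℤ | |(p.1 : ℝ)| ≤ c * D ^ ((1 : ℝ) / n) ∧
            0 < p.2 ∧ p.2 ^ 2 = (minpoly ℤ (-θ)).eval p.1}.Finite := finite_curve _ _
      have : Finite {p : ℤ × ℤ | |(p.1 : ℝ)| ≤ c * D ^ ((1 : ℝ) / n) ∧
            0 < p.2 ∧ p.2 ^ 2 = (minpoly ℤ (-θ)).eval p.1} := hfin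
      rw [← Nat.card_coe_set_eq, ← Nat.card_coe_set_eq]
      refine Nat.card_le_card_of_injective (fun β => ⟨g β, hg β⟩) ?_
      intro β β' hh
      have hgg : g β = g β' := congrArg Subtype.val hh
      apply Subtype.ext
      rw [hgβ β, hgβ β', hgg]
    have h3 : ∑ θ ∈ Θ, (T θ).ncard ≤ ∑ η ∈ Θ.image (fun θ => -θ),
        Set.ncard {p : ℤ × ℤ | |(p.1 : ℝ)| ≤ c * D ^ ((1 : ℝ) / n) ∧
            0 < p.2 ∧ p.2 ^ 2 = (minpoly ℤ η).eval p.1} := by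
      rw [Finset.sum_image (fun a _ b _ h => hneg h)]
      exact Finset.sum_le_sum h2
    have h4 : (S.ncard : ℝ) ≤ (E.ncard : ℝ) + ∑ η ∈ Θ.image (fun θ => -θ),
        (Set.ncard {p : ℤ × ℤ | |(p.1 : ℝ)| ≤ c * D ^ ((1 : ℝ) / n) ∧
            0 < p.2 ∧ p.2 ^ 2 = (minpoly ℤ η).eval p.1} : ℝ) := by
      exact_mod_cast h1.trans (Nat.add_le_add_left h3 _)
    refine h4.trans (add_le_add_left ?_ _)
    exact hexc.trans (mul_le_mul_of_nonneg_right hcC (Real.rpow_nonneg hDpos.le _))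

end Pool.TT
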