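import Pool.Agent.Lib.MP_695920_nt.TT.Final
import Pool.Agent.Lib.MP_695920_nt.TT.BCosets

set_option autoImplicit false

/-!
TEAM TWOTORSION, the theorem.
-/

namespace Pool.TT

open NumberField Module

theorem linesStmt (n : ℕ) (hodd : Odd n) (_h3 : 3 ≤ n) : LinesStmt n := by
  refine lines_of_cosets n hodd fun C hC => ?_
  obtain ⟨C', hC', h⟩ := cosets n hodd hC
  exact ⟨C', by linarith, fun K _ _ hK => h K hK⟩

/-- Bounds for the number of ideal classes of order dividing two of number fields of odd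
degree `n`: an exponent below `1/2 - 1/(2n)` for every odd `n ≥ 7`, and the exponent
`1/2 - (1 - δ)/n` for every `δ > 0` and all large odd `n`. -/
theorem main :
    (∀ n : ℕ, Odd n → 7 ≤ n → ∃ Δ : ℝ, Δ < 1 / 2 - 1 / (2 * n) ∧ ∃ C : ℝ,
      ∀ (K : Type) [Field K] [NumberField K], finrank ℚ K = n →
        (Nat.card {x : ClassGroup (𝓞 K) // x ^ 2 = 1} : ℝ) ≤ C * |(discr K : ℝ)| ^ Δ) ∧
    (∀ δ : ℝ, 0 < δ → ∃ n₀ : ℕ, ∀ n : ℕ, n₀ ≤ n → Odd n → ∃ C : ℝ,
      ∀ (K : Type) [Field K] [NumberField K], finrank ℚ K = n →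
        (Nat.card {x : ClassGroup (𝓞 K) // x ^ 2 = 1} : ℝ) ≤
          C * |(discr K : ℝ)| ^ ((1 : ℝ) / 2 - (1 - δ) / n)) :=
  ⟨fun n hodd h7 => final_seven linesStmt n hodd h7, fun _ hδ => final_lim linesStmt hδ⟩

end Pool.TT
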