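import Mathlib

/-! TT, letter G, part G3p: the local bound at a nonarchimedean place
(dnote of helper26, MP_695920_nt). -/

namespace Pool.TT

open Polynomial

section Last

variable {L : Type*} [Field L] {v : AbsoluteValue L ℝ} {c : ℝ}

/-- `i` is the last index at which the Gauss norm is attained -/
def Last (v : AbsoluteValue L ℝ) (c : ℝ) (P : L[X]) (i : ℕ) : Prop :=
  v (P.coeff i) * c ^ i = P.gaussNorm v c ∧ ∀ j, i < j → v (P.coeff j) * c ^ j < P.gaussNorm v c

theorem gaussNorm_pos (hc : 0 < c) {P : L[X]} (hP : P ≠ 0) : 0 < P.gaussNorm v c := by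
  have h := P.gaussNorm_nonneg v hc.le
  have h2 : P.gaussNorm v c ≠ 0 := by
    intro h0
    exact hP ((gaussNorm_eq_zero_iff v P (fun x hx => (AbsoluteValue.eq_zero v).mp hx) hc).1 h0)
  exact lt_of_le_of_ne h (Ne.symm h2)

theorem exists_last (hc : 0 < c) {P : L[X]} (hP : P ≠ 0) : ∃ i, Last v c P i := by
  classical
  have hpos := gaussNorm_pos (v := v) hc hP
  obtain ⟨i, hi⟩ := P.exists_eq_gaussNorm v c
  have hb : ∀ j, v (P.coeff j) * c ^ j = P.gaussNorm v c → j ≤ P.natDegree := by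
    intro j hj
    by_contra hlt
    rw [coeff_eq_zero_of_natDegree_lt (not_le.1 hlt), map_zero, zero_mul] at hj
    exact hpos.ne hj
  refine ⟨Nat.findGreatest (fun j => v (P.coeff j) * c ^ j = P.gaussNorm v c) P.natDegree, ?_, ?_⟩
  · exact Nat.findGreatest_spec (P := fun j => v (P.coeff j) * c ^ j = P.gaussNorm v c)
      (hb i hi.symm) hi.symm
  · intro j hj
    refine lt_of_le_of_ne (P.le_gaussNorm v hc.le j) ?_
    intro h
    exact Nat.findGreatest_is_greatest hj (hb j h) h

theorem Last.mul (hna : IsNonarchimedean v) (hc : 0 < c) {P Q : L[X]} {i j : ℕ}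
    (hP0 : P ≠ 0) (hQ0 : Q ≠ 0) (hP : Last v c P i) (hQ : Last v c Q j) :
    Last v c (P * Q) (i + j) := by
  have hPp := gaussNorm_pos (v := v) hc hP0
  have hQp := gaussNorm_pos (v := v) hc hQ0
  have hterm : ∀ a b : ℕ, (i < a ∨ j < b) →
      v (P.coeff a * Q.coeff b) * c ^ (a + b) < P.gaussNorm v c * Q.gaussNorm v c := by
    intro a b hab
    have e : v (P.coeff a * Q.coeff b) * c ^ (a + b) =
        (v (P.coeff a) * c ^ a) * (v (Q.coeff b) * c ^ b) := by
      rw [map_mul, pow_add]; ring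
    rw [e]
    have hPa := P.le_gaussNorm v hc.le a
    have hQb := Q.le_gaussNorm v hc.le b
    have h0a : 0 ≤ v (P.coeff a) * c ^ a := mul_nonneg (v.nonneg _) (pow_nonneg hc.le _)
    have h0b : 0 ≤ v (Q.coeff b) * c ^ b := mul_nonneg (v.nonneg _) (pow_nonneg hc.le _)
    rcases hab with h | h
    · calc _ ≤ (v (P.coeff a) * c ^ a) * Q.gaussNorm v c := mul_le_mul_of_nonneg_left hQb h0a
        _ < _ := mul_lt_mul_of_pos_right (hP.2 a h) hQp
    · calc _ ≤ P.gaussNorm v c * (v (Q.coeff b) * c ^ b) := mul_le_mul_of_nonneg_right hPa h0b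
        _ < _ := mul_lt_mul_of_pos_left (hQ.2 b h) hPp
  have hsum : ∀ k, i + j < k → v ((P * Q).coeff k) * c ^ k < P.gaussNorm v c * Q.gaussNorm v c := by
    intro k hk
    rw [coeff_mul]
    obtain ⟨p, hp, hp2⟩ := IsNonarchimedean.finset_image_add_of_nonempty hna
      (fun x : ℕ × ℕ => P.coeff x.1 * Q.coeff x.2) (t := Finset.HasAntidiagonal.antidiagonal k)
      ⟨(0, k), by simp⟩
    refine lt_of_le_of_lt (mul_le_mul_of_nonneg_right hp2 (pow_nonneg hc.le _)) ?_
    have hpk : p.1 + p.2 = k := Finset.HasAntidiagonal.mem_antidiagonal.1 hp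
    rw [← hpk]
    exact hterm _ _ (by omega)
  constructor
  · rw [gaussNorm_mul hna hc]
    apply le_antisymm
    · rw [← gaussNorm_mul hna hc]; exact (P * Q).le_gaussNorm v hc.le _
    · obtain ⟨k, hk⟩ := (P * Q).exists_eq_gaussNorm v c
      have e : v ((P * Q).coeff (i + j)) = v (P.coeff i * Q.coeff j) := by
        rw [coeff_mul]
        refine (IsNonarchimedean.apply_sum_eq_of_lt hna (fun a => (v.map_neg a).symm)
          (l := fun x : ℕ × ℕ => P.coeff x.1 * Q.coeff x.2) (k := (i, j)) ?_ ?_)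
        · simp
        · intro x hx hne
          have hx' : x.1 + x.2 = i + j := Finset.HasAntidiagonal.mem_antidiagonal.1 hx
          have h1 := hterm x.1 x.2 (by
            by_contra hcon
            push Not at hcon
            apply hne
            ext <;> simp <;> omega)
          have h2 : v (P.coeff i * Q.coeff j) * c ^ (i + j) =
              P.gaussNorm v c * Q.gaussNorm v c := by
            rw [← hP.1, ← hQ.1, map_mul, pow_add]; ring
          rw [← h2, hx'] at h1
          exact lt_of_mul_lt_mul_right h1 (pow_nonneg hc.le _)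
      rw [e, ← hP.1, ← hQ.1, map_mul, pow_add]
      apply le_of_eq; ring
  · intro k hk
    rw [gaussNorm_mul hna hc]
    exact hsum k hk

/-- different last indices: the Gauss norm of the difference is the maximum -/
theorem Last.sub (hna : IsNonarchimedean v) (hc : 0 < c) {P Q : L[X]} {i j : ℕ}
    (hP : Last v c P i) (hQ : Last v c Q j) (hij : i ≠ j) :
    max (P.gaussNorm v c) (Q.gaussNorm v c) ≤ (P - Q).gaussNorm v c := by
  have key : ∀ {P Q : L[X]} {i j : ℕ}, Last v c P i → Last v c Q j → i ≠ j →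
      Q.gaussNorm v c ≤ P.gaussNorm v c → P.gaussNorm v c ≤ (P - Q).gaussNorm v c ∨
      (P.gaussNorm v c = Q.gaussNorm v c ∧ i < j) := by
    intro P Q i j hP hQ hij hle
    by_cases h : v (Q.coeff i) * c ^ i < P.gaussNorm v c
    · left
      refine le_trans ?_ ((P - Q).le_gaussNorm v hc.le i)
      rw [coeff_sub]
      rw [← hP.1] at h ⊢
      have h' : v (Q.coeff i) < v (P.coeff i) := lt_of_mul_lt_mul_right h (pow_nonneg hc.le _)
      have : v (P.coeff i - Q.coeff i) = v (P.coeff i) := by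
        have h3 := IsNonarchimedean.add_eq_left_of_lt (f := v) hna
          (x := P.coeff i) (y := - Q.coeff i) (by rwa [v.map_neg])
        rwa [← sub_eq_add_neg] at h3
      rw [this]
    · right
      have h1 := Q.le_gaussNorm v hc.le i
      have h2 : P.gaussNorm v c = Q.gaussNorm v c := by
        apply le_antisymm _ hle
        exact (not_lt.1 h).trans h1
      refine ⟨h2, ?_⟩
      by_contra hlt
      have h3 : j < i := lt_of_le_of_ne (not_lt.1 hlt) (Ne.symm hij)
      have := hQ.2 i h3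
      rw [← h2] at this
      exact h this
  have hsym : (P - Q).gaussNorm v c = (Q - P).gaussNorm v c := by
    rw [← neg_sub, ← neg_one_mul, gaussNorm_mul hna hc]
    have : (-1 : L[X]) = C (-1) := by simp
    rw [this, gaussNorm_C, v.map_neg, map_one, one_mul]
  rcases le_total (Q.gaussNorm v c) (P.gaussNorm v c) with h | h
  · rw [max_eq_left h]
    rcases key hP hQ hij h with h1 | ⟨h1, h2⟩
    · exact h1
    · rcases key hQ hP hij.symm h1.le with h3 | ⟨_, h4⟩
      · rw [h1, hsym]; exact h3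
      · omega
  · rw [max_eq_right h]
    rcases key hQ hP hij.symm h with h1 | ⟨h1, h2⟩
    · rw [hsym]; exact h1
    · rcases key hP hQ hij h1.le with h3 | ⟨_, h4⟩
      · rw [h1]; exact h3
      · omega

/-- parity: no cancellation in `A^2 - F B^2`, `F` monic integral of odd degree -/
theorem parity (hna : IsNonarchimedean v) (hc : 1 ≤ c) {F A B : L[X]} (hF : F.Monic)
    (hodd : Odd F.natDegree) (hFc : ∀ i, v (F.coeff i) ≤ 1) :
    (A.gaussNorm v c) ^ 2 ≤ (A ^ 2 - F * B ^ 2).gaussNorm v c ∧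
    c ^ F.natDegree * (B.gaussNorm v c) ^ 2 ≤ (A ^ 2 - F * B ^ 2).gaussNorm v c := by
  have hc0 : 0 < c := by linarith
  have hFg : F.gaussNorm v c = c ^ F.natDegree := by
    apply le_antisymm
    · obtain ⟨i, hi⟩ := F.exists_eq_gaussNorm v c
      rw [hi]
      by_cases h : i ≤ F.natDegree
      · calc v (F.coeff i) * c ^ i ≤ 1 * c ^ F.natDegree := by
              apply mul_le_mul (hFc i) (pow_le_pow_right₀ hc h) (by positivity) zero_le_one
          _ = _ := one_mul _
      · rw [coeff_eq_zero_of_natDegree_lt (not_le.1 h), map_zero, zero_mul]; positivity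
    · have := F.le_gaussNorm v hc0.le F.natDegree
      rwa [Monic.coeff_natDegree hF, map_one, one_mul] at this
  have hFl : Last v c F F.natDegree := by
    refine ⟨?_, ?_⟩
    · rw [hFg, Monic.coeff_natDegree hF, map_one, one_mul]
    · intro j hj
      rw [coeff_eq_zero_of_natDegree_lt hj, map_zero, zero_mul, hFg]; positivity
  have hF0 : F ≠ 0 := hF.ne_zero
  have eB : (F * B ^ 2).gaussNorm v c = c ^ F.natDegree * (B.gaussNorm v c) ^ 2 := by
    rw [gaussNorm_mul hna hc0, pow_two, gaussNorm_mul hna hc0, hFg]; ring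
  have eA : (A ^ 2).gaussNorm v c = (A.gaussNorm v c) ^ 2 := by
    rw [pow_two, gaussNorm_mul hna hc0]; ring
  rw [← eA, ← eB]
  by_cases hA : A = 0
  · subst hA
    have e2 : (0 : L[X]) ^ 2 - F * B ^ 2 = - (F * B ^ 2) := by ring
    have e3 : (-(F * B ^ 2)).gaussNorm v c = (F * B ^ 2).gaussNorm v c := by
      rw [← neg_one_mul, gaussNorm_mul hna hc0]
      have : (-1 : L[X]) = C (-1) := by simp
      rw [this, gaussNorm_C, v.map_neg, map_one, one_mul]
    rw [e2, e3]
    refine ⟨?_, le_rfl⟩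
    have e4 : (0 : L[X]) ^ 2 = 0 := by ring
    rw [e4, gaussNorm_zero]
    exact gaussNorm_nonneg v _ hc0.le
  by_cases hB : B = 0
  · subst hB
    have e2 : A ^ 2 - F * (0 : L[X]) ^ 2 = A ^ 2 := by ring
    have e3 : F * (0 : L[X]) ^ 2 = 0 := by ring
    rw [e2, e3, gaussNorm_zero]
    exact ⟨le_rfl, gaussNorm_nonneg v _ hc0.le⟩
  obtain ⟨i, hi⟩ := exists_last (v := v) hc0 hA
  obtain ⟨j, hj⟩ := exists_last (v := v) hc0 hB
  have h1 : Last v c (A ^ 2) (i + i) := by rw [pow_two]; exact hi.mul hna hc0 hA hA hi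
  have h2 : Last v c (F * B ^ 2) (F.natDegree + (j + j)) := by
    rw [pow_two]
    exact hFl.mul hna hc0 hF0 (mul_ne_zero hB hB) (hj.mul hna hc0 hB hB hj)
  have hne : i + i ≠ F.natDegree + (j + j) := by
    obtain ⟨k, hk⟩ := hodd
    omega
  have := h1.sub hna hc0 h2 hne
  exact ⟨(le_max_left _ _).trans this, (le_max_right _ _).trans this⟩

theorem eval_le_gaussNorm (hna : IsNonarchimedean v) (hc : 0 < c) (P : L[X]) {ξ : L}
    (hξ : v ξ ≤ c) : v (P.eval ξ) ≤ P.gaussNorm v c := by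
  rw [eval_eq_sum_range]
  obtain ⟨i, _, hi⟩ := IsNonarchimedean.finset_image_add_of_nonempty hna
      (fun i : ℕ => P.coeff i * ξ ^ i) (t := Finset.range (P.natDegree + 1)) ⟨0, by simp⟩
  refine hi.trans (le_trans ?_ (P.le_gaussNorm v hc.le i))
  rw [map_mul, map_pow]
  exact mul_le_mul_of_nonneg_left (pow_le_pow_left₀ (v.nonneg _) hξ _) (v.nonneg _)

end Last

/-- evaluation of the ring `K[x,y]/(y^2 - F)` at a point `(ξ, η)` over `L` -/
noncomputable def evalAt {K L : Type*} [Field K] [Field L] [Algebra K L] {F : K[X]} (ξ η : L)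
    (h : η ^ 2 = aeval ξ F) : QuadraticAlgebra K[X] F 0 →+* L where
  toFun z := aeval ξ z.re + aeval ξ z.im * η
  map_one' := by simp [QuadraticAlgebra.re_one, QuadraticAlgebra.im_one]
  map_zero' := by simp
  map_mul' z w := by
    simp only [QuadraticAlgebra.re_mul, QuadraticAlgebra.im_mul, map_add, map_mul, zero_mul,
      add_zero]
    linear_combination (-(aeval ξ z.im * aeval ξ w.im)) * h
  map_add' z w := by
    simp only [QuadraticAlgebra.re_add, QuadraticAlgebra.im_add, map_add]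
    ring

theorem evalAt_apply {K L : Type*} [Field K] [Field L] [Algebra K L] {F : K[X]} (ξ η : L)
    (h : η ^ 2 = aeval ξ F) (z : QuadraticAlgebra K[X] F 0) :
    evalAt ξ η h z = aeval ξ z.re + aeval ξ z.im * η := rfl

section Local

variable {L : Type*} [Field L] {v : AbsoluteValue L ℝ} {c : ℝ}

theorem gaussNorm_monic_le (hc : 1 ≤ c) {F : L[X]} (hFc : ∀ i, v (F.coeff i) ≤ 1) :
    F.gaussNorm v c ≤ c ^ F.natDegree := by
  obtain ⟨i, hi⟩ := F.exists_eq_gaussNorm v c
  rw [hi]
  by_cases h : i ≤ F.natDegree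
  · calc v (F.coeff i) * c ^ i ≤ 1 * c ^ F.natDegree := by
          apply mul_le_mul (hFc i) (pow_le_pow_right₀ hc h) (by positivity) zero_le_one
      _ = _ := one_mul _
  · rw [coeff_eq_zero_of_natDegree_lt (not_le.1 h), map_zero, zero_mul]; positivity

theorem gaussNorm_neg' (hna : IsNonarchimedean v) (hc : 0 < c) (P : L[X]) :
    (-P).gaussNorm v c = P.gaussNorm v c := by
  rw [← neg_one_mul, gaussNorm_mul hna hc]
  have : (-1 : L[X]) = C (-1) := by simp
  rw [this, gaussNorm_C, v.map_neg, map_one, one_mul]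

theorem gaussNorm_X_sub_C (hc : 0 < c) (z : L) : (X - C z).gaussNorm v c = max c (v z) := by
  apply le_antisymm
  · obtain ⟨i, hi⟩ := (X - C z).exists_eq_gaussNorm v c
    rw [hi]
    match i with
    | 0 => simp [coeff_X]
    | 1 => simp [coeff_X, coeff_C]
    | (k + 2) =>
      rw [coeff_eq_zero_of_natDegree_lt (by rw [natDegree_X_sub_C]; omega), map_zero, zero_mul]
      exact le_max_of_le_left hc.le
  · apply max_le
    · have := (X - C z).le_gaussNorm v hc.le 1
      simpa [coeff_X, coeff_C] using this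
    · have := (X - C z).le_gaussNorm v hc.le 0
      simpa [coeff_X] using this

theorem gaussNorm_prod (hna : IsNonarchimedean v) (hc : 0 < c) (Z : Multiset L) :
    ((Z.map (fun z => X - C z)).prod).gaussNorm v c = (Z.map (fun z => max c (v z))).prod := by
  induction Z using Multiset.induction_on with
  | empty =>
    simp only [Multiset.map_zero, Multiset.prod_zero]
    rw [← C_1, gaussNorm_C, map_one]
  | cons a s ih =>
    rw [Multiset.map_cons, Multiset.prod_cons, gaussNorm_mul hna hc, ih, gaussNorm_X_sub_C hc,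
      Multiset.map_cons, Multiset.prod_cons]

theorem gaussNorm_pow' (hna : IsNonarchimedean v) (hc : 0 < c) (P : L[X]) (k : ℕ) :
    (P ^ k).gaussNorm v c = (P.gaussNorm v c) ^ k := by
  induction k with
  | zero => rw [pow_zero, pow_zero, ← C_1, gaussNorm_C, map_one]
  | succ k ih => rw [pow_succ, gaussNorm_mul hna hc, ih, pow_succ]

/-- a function with norm form `A^2 - F B^2` is small at every point -/
theorem point_bound (hna : IsNonarchimedean v) {F A B : L[X]} (hF : F.Monic)
    (hodd : Odd F.natDegree) (hFc : ∀ i, v (F.coeff i) ≤ 1) {ξ η : L} (hη : η ^ 2 = F.eval ξ) :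
    (v (A.eval ξ + B.eval ξ * η)) ^ 2 ≤ (A ^ 2 - F * B ^ 2).gaussNorm v (max 1 (v ξ)) := by
  have hc : (1 : ℝ) ≤ max 1 (v ξ) := le_max_left _ _
  have hc0 : (0 : ℝ) < max 1 (v ξ) := by linarith
  have hξ : v ξ ≤ max 1 (v ξ) := le_max_right _ _
  obtain ⟨h1, h2⟩ := parity (v := v) hna hc (A := A) (B := B) hF hodd hFc
  have hv : (v η) ^ 2 ≤ (max 1 (v ξ)) ^ F.natDegree := by
    rw [← map_pow, hη]
    exact (eval_le_gaussNorm hna hc0 F hξ).trans (gaussNorm_monic_le hc hFc)
  have hA := eval_le_gaussNorm hna hc0 A hξ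
  have hB := eval_le_gaussNorm hna hc0 B hξ
  rcases le_max_iff.1 (hna (A.eval ξ) (B.eval ξ * η)) with h | h
  · calc _ ≤ (v (A.eval ξ)) ^ 2 := pow_le_pow_left₀ (v.nonneg _) h 2
      _ ≤ (A.gaussNorm v (max 1 (v ξ))) ^ 2 := pow_le_pow_left₀ (v.nonneg _) hA 2
      _ ≤ _ := h1
  · calc _ ≤ (v (B.eval ξ * η)) ^ 2 := pow_le_pow_left₀ (v.nonneg _) h 2
      _ = (v η) ^ 2 * (v (B.eval ξ)) ^ 2 := by rw [map_mul]; ring
      _ ≤ (max 1 (v ξ)) ^ F.natDegree * (B.gaussNorm v (max 1 (v ξ))) ^ 2 := by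
          apply mul_le_mul hv (pow_le_pow_left₀ (v.nonneg _) hB 2) (by positivity) (by positivity)
      _ ≤ _ := h2

theorem eval_big (hna : IsNonarchimedean v) {F : L[X]} (hF : F.Monic)
    (hFc : ∀ i, v (F.coeff i) ≤ 1) {ξ : L} (hξ : 1 < v ξ) :
    v (F.eval ξ) = (v ξ) ^ F.natDegree := by
  rw [eval_eq_sum_range]
  rw [IsNonarchimedean.apply_sum_eq_of_lt hna (fun a => (v.map_neg a).symm)
    (l := fun i : ℕ => F.coeff i * ξ ^ i) (k := F.natDegree)]
  · rw [Monic.coeff_natDegree hF, one_mul, map_pow]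
  · simp
  · intro j hj hne
    have hj' : j < F.natDegree := by
      have := Finset.mem_range.1 hj
      omega
    rw [Monic.coeff_natDegree hF, one_mul, map_mul, map_pow, map_pow]
    calc v (F.coeff j) * v ξ ^ j ≤ 1 * v ξ ^ j := by
          apply mul_le_mul_of_nonneg_right (hFc j) (by positivity)
      _ = v ξ ^ j := one_mul _
      _ < _ := pow_lt_pow_right₀ hξ hj'

/-- the local bound at a nonarchimedean place -/
theorem padic_bound (hna : IsNonarchimedean v) {F a b : L[X]} {D : L} (hF : F.Monic)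
    (hodd : Odd F.natDegree) (hFc : ∀ i, v (F.coeff i) ≤ 1) (ha : ∀ i, v (a.coeff i) ≤ 1)
    (hb : ∀ i, v (b.coeff i) ≤ 1) (hD : D ≠ 0) (hD1 : v D ≤ 1) (h2 : (2 : L) ≠ 0)
    (h21 : v 2 ≤ 1)
    (hab : a * F + b * derivative F = C D) (M : ℕ) (Z : Multiset L) (A B : L[X]) (s : L)
    (hs : v s = 1) (hN : A ^ 2 - F * B ^ 2 = C s * (Z.map (fun z => X - C z)).prod)
    (A1 B1 f1 : L[X]) (ξ η : L) (hη : η ^ 2 = F.eval ξ)
    (h0 : A.eval ξ + B.eval ξ * η = 0)
    (hf1 : f1 * (X - C ξ) = F - C (F.eval ξ))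
    (hpsi : (algebraMap L[X] (QuadraticAlgebra L[X] F 0) f1) ^ M * ⟨A, B⟩ =
      ⟨-C η, 1⟩ ^ M * ⟨A1, B1⟩) :
    (v (2 * A.eval ξ)) ^ 2 ≤ ((v (4 * D ^ 2))⁻¹) ^ M *
      ((v (2 * η)) ^ 2 / (max 1 (v ξ)) ^ F.natDegree) ^ M *
      (Z.map (fun z => max (max 1 (v ξ)) (v z))).prod := by
  set ρ := max 1 (v ξ) with hρ
  have hρ1 : (1 : ℝ) ≤ ρ := le_max_left _ _
  have hρ0 : (0 : ℝ) < ρ := by linarith
  have hE : (A ^ 2 - F * B ^ 2).gaussNorm v ρ =
      (Z.map (fun z => max ρ (v z))).prod := by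
    rw [hN, gaussNorm_mul hna hρ0, gaussNorm_C, hs, one_mul, gaussNorm_prod hna hρ0]
  set E := (Z.map (fun z => max ρ (v z))).prod with hEdef
  have hE0 : 0 ≤ E := by rw [← hE]; exact gaussNorm_nonneg v _ hρ0.le
  have hη' : (-η) ^ 2 = F.eval ξ := by rw [neg_sq]; exact hη
  have h2A : A.eval ξ + B.eval ξ * (-η) = 2 * A.eval ξ := by linear_combination -h0
  have hvD : 0 < v D := v.pos hD
  have h4 : v (4 * D ^ 2) = (v 2) ^ 2 * (v D) ^ 2 := by
    rw [show (4 : L) = 2 ^ 2 by norm_num, map_mul, map_pow, map_pow]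
  have hv2 : 0 < v 2 := v.pos h2
  by_cases hcase : v (F.eval ξ) < v D
  · -- here `ρ = 1` and `F'(ξ)` is large
    have hξ1 : v ξ ≤ 1 := by
      by_contra hgt
      rw [not_le] at hgt
      have := eval_big hna hF hFc hgt
      have h1 : (1 : ℝ) ≤ (v ξ) ^ F.natDegree := one_le_pow₀ hgt.le
      linarith
    have hρe : ρ = 1 := by rw [hρ]; exact max_eq_left hξ1
    have evle : ∀ P : L[X], (∀ i, v (P.coeff i) ≤ 1) → v (P.eval ξ) ≤ 1 := by
      intro P hP
      have h1 := eval_le_gaussNorm hna one_pos P hξ1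
      have h2 := gaussNorm_monic_le (c := 1) le_rfl hP
      rw [one_pow] at h2
      exact h1.trans h2
    have hder : derivative F = derivative f1 * (X - C ξ) + f1 := by
      have h := congrArg derivative hf1
      rw [derivative_sub, derivative_C, sub_zero, derivative_mul, derivative_sub, derivative_X,
        derivative_C, sub_zero, mul_one] at h
      exact h.symm
    have hf1ξ : (derivative F).eval ξ = f1.eval ξ := by
      rw [hder]; simp
    have hDle : v D ≤ v (f1.eval ξ) := by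
      have h := congrArg (eval ξ) hab
      rw [eval_C, eval_add, eval_mul, eval_mul, hf1ξ] at h
      have h3 := hna (a.eval ξ * F.eval ξ) (b.eval ξ * f1.eval ξ)
      rw [h] at h3
      rcases le_max_iff.1 h3 with h4 | h4
      · exfalso
        rw [map_mul] at h4
        have h5 : v (a.eval ξ) * v (F.eval ξ) ≤ 1 * v (F.eval ξ) :=
          mul_le_mul_of_nonneg_right (evle a ha) (v.nonneg _)
        linarith
      · rw [map_mul] at h4
        have h5 : v (b.eval ξ) * v (f1.eval ξ) ≤ 1 * v (f1.eval ξ) :=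
          mul_le_mul_of_nonneg_right (evle b hb) (v.nonneg _)
        linarith
    have hf10 : f1 ≠ 0 := by
      intro h
      rw [h, eval_zero, map_zero] at hDle
      linarith
    -- evaluation at `(ξ, -η)`
    have hev := congrArg (evalAt (K := L) ξ (-η) (by rw [hη']; simp)) hpsi
    rw [map_mul, map_mul, map_pow, map_pow] at hev
    simp only [evalAt_apply, QuadraticAlgebra.algebraMap_re, QuadraticAlgebra.algebraMap_im,
      map_zero, zero_mul, add_zero, map_neg, aeval_C, map_one, one_mul,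
      Algebra.algebraMap_self, RingHom.id_apply, coe_aeval_eq_eval] at hev
    rw [h2A] at hev
    -- norms
    have hnorm := congrArg QuadraticAlgebra.norm hpsi
    rw [map_mul, map_mul, map_pow, map_pow, QuadraticAlgebra.norm_algebraMap] at hnorm
    simp only [QuadraticAlgebra.norm_def] at hnorm
    have hnorm2 : f1 ^ M * (A ^ 2 - F * B ^ 2) =
        (-1) ^ M * ((X - C ξ) ^ M * (A1 ^ 2 - F * B1 ^ 2)) := by
      have e1 : (-C η * -C η + 0 * -C η * 1 - F * 1 * 1 : L[X]) = - (f1 * (X - C ξ)) := by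
        rw [hf1, ← hη, C_pow]; ring
      rw [e1] at hnorm
      have e2 : f1 ^ M * (f1 ^ M * (A ^ 2 - F * B ^ 2)) =
          f1 ^ M * ((-1) ^ M * ((X - C ξ) ^ M * (A1 ^ 2 - F * B1 ^ 2))) := by
        have e3 : (-(f1 * (X - C ξ))) ^ M = (-1) ^ M * (f1 ^ M * (X - C ξ) ^ M) := by
          rw [neg_pow, mul_pow]
        rw [e3] at hnorm
        linear_combination hnorm
      exact mul_left_cancel₀ (pow_ne_zero _ hf10) e2
    have hgn : (A1 ^ 2 - F * B1 ^ 2).gaussNorm v ρ ≤ E := by
      have h : (f1 ^ M * (A ^ 2 - F * B ^ 2)).gaussNorm v ρ =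
          ((-1) ^ M * ((X - C ξ) ^ M * (A1 ^ 2 - F * B1 ^ 2))).gaussNorm v ρ := by rw [hnorm2]
      rw [gaussNorm_mul hna hρ0, gaussNorm_mul hna hρ0, gaussNorm_mul hna hρ0,
        gaussNorm_pow' hna hρ0, gaussNorm_pow' hna hρ0, gaussNorm_pow' hna hρ0,
        gaussNorm_X_sub_C hρ0, gaussNorm_neg' hna hρ0, hE] at h
      have e1 : (1 : L[X]).gaussNorm v ρ = 1 := by rw [← C_1, gaussNorm_C, map_one]
      have e2 : max ρ (v ξ) = 1 := by rw [hρe]; exact max_eq_left hξ1
      rw [e1, e2, one_pow, one_mul, one_mul] at h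
      rw [← h]
      have hf1le : f1.gaussNorm v ρ ≤ 1 := by
        have h3 : (f1 * (X - C ξ)).gaussNorm v ρ = (F - C (F.eval ξ)).gaussNorm v ρ := by rw [hf1]
        rw [gaussNorm_mul hna hρ0, gaussNorm_X_sub_C hρ0, e2, mul_one] at h3
        rw [h3, sub_eq_add_neg]
        refine (isNonarchimedean_gaussNorm v hna hρ0.le _ _).trans (max_le ?_ ?_)
        · have := gaussNorm_monic_le hρ1 hFc
          rw [hρe, one_pow] at this
          rw [hρe]; exact this
        · rw [gaussNorm_neg' hna hρ0, gaussNorm_C]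
          linarith [hD1]
      calc f1.gaussNorm v ρ ^ M * E ≤ 1 * E := by
            apply mul_le_mul_of_nonneg_right _ hE0
            exact pow_le_one₀ (gaussNorm_nonneg v _ hρ0.le) hf1le
        _ = E := one_mul _
    have hpt := point_bound hna (A := A1) (B := B1) hF hodd hFc hη'
    rw [← hρ] at hpt
    have hpt2 := hpt.trans hgn
    have hfin : (v (f1.eval ξ)) ^ (2 * M) * (v (2 * A.eval ξ)) ^ 2 ≤ (v (2 * η)) ^ (2 * M) * E := by
      have h : v (f1.eval ξ) ^ M * v (2 * A.eval ξ) =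
          v (-η + -η) ^ M * v (A1.eval ξ + B1.eval ξ * -η) := by
        rw [← map_pow, ← map_mul, hev, map_mul, map_pow]
      have e1 : v (-η + -η) = v (2 * η) := by
        rw [show -η + -η = -(2 * η) by ring, v.map_neg]
      rw [e1] at h
      calc (v (f1.eval ξ)) ^ (2 * M) * (v (2 * A.eval ξ)) ^ 2
          = (v (f1.eval ξ) ^ M * v (2 * A.eval ξ)) ^ 2 := by ring
        _ = (v (2 * η)) ^ (2 * M) * (v (A1.eval ξ + B1.eval ξ * -η)) ^ 2 := by rw [h]; ring
        _ ≤ _ := mul_le_mul_of_nonneg_left hpt2 (by positivity)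
    rw [hρe, one_pow, div_one, h4]
    have hDM : (v D) ^ (2 * M) ≤ (v (f1.eval ξ)) ^ (2 * M) := pow_le_pow_left₀ hvD.le hDle _
    have h6 : (v D) ^ (2 * M) * (v (2 * A.eval ξ)) ^ 2 ≤ (v (2 * η)) ^ (2 * M) * E :=
      (mul_le_mul_of_nonneg_right hDM (by positivity)).trans hfin
    have h7 : (v 2) ^ (2 * M) ≤ 1 := pow_le_one₀ hv2.le h21
    have e5 : (((v 2) ^ 2 * (v D) ^ 2)⁻¹) ^ M * ((v (2 * η)) ^ 2) ^ M * E =
        ((v (2 * η)) ^ (2 * M) * E) / ((v 2) ^ (2 * M) * (v D) ^ (2 * M)) := by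
      rw [inv_pow, mul_pow, ← pow_mul, ← pow_mul, ← pow_mul]; field_simp
    rw [e5, le_div_iff₀ (by positivity)]
    calc (v (2 * A.eval ξ)) ^ 2 * ((v 2) ^ (2 * M) * (v D) ^ (2 * M))
        = (v 2) ^ (2 * M) * ((v D) ^ (2 * M) * (v (2 * A.eval ξ)) ^ 2) := by ring
      _ ≤ 1 * ((v D) ^ (2 * M) * (v (2 * A.eval ξ)) ^ 2) :=
          mul_le_mul_of_nonneg_right h7 (by positivity)
      _ ≤ _ := by rw [one_mul]; exact h6
  · rw [not_lt] at hcase
    have hpt := point_bound hna (A := A) (B := B) hF hodd hFc hη'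
    rw [h2A, ← hρ, hE] at hpt
    refine hpt.trans ?_
    have hbig : v D * ρ ^ F.natDegree ≤ v (F.eval ξ) := by
      by_cases hξ1 : v ξ ≤ 1
      · rw [hρ, max_eq_left hξ1, one_pow, mul_one]; exact hcase
      · rw [not_le] at hξ1
        rw [eval_big hna hF hFc hξ1, hρ, max_eq_right hξ1.le]
        calc v D * v ξ ^ F.natDegree ≤ 1 * v ξ ^ F.natDegree :=
              mul_le_mul_of_nonneg_right hD1 (by positivity)
          _ = _ := one_mul _
    have hfac : 1 ≤ (v (4 * D ^ 2))⁻¹ * ((v (2 * η)) ^ 2 / ρ ^ F.natDegree) := by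
      rw [h4, map_mul, mul_pow, ← map_pow v η, hη]
      have e : ((v 2) ^ 2 * (v D) ^ 2)⁻¹ * ((v 2) ^ 2 * v (F.eval ξ) / ρ ^ F.natDegree) =
          v (F.eval ξ) / ((v D) ^ 2 * ρ ^ F.natDegree) := by
        field_simp
      rw [e, le_div_iff₀ (by positivity), one_mul]
      calc v D ^ 2 * ρ ^ F.natDegree = v D * (v D * ρ ^ F.natDegree) := by ring
        _ ≤ 1 * (v D * ρ ^ F.natDegree) := mul_le_mul_of_nonneg_right hD1 (by positivity)
        _ ≤ _ := by rw [one_mul]; exact hbig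
    rw [← mul_pow]
    calc E = 1 * E := (one_mul _).symm
      _ ≤ _ := mul_le_mul_of_nonneg_right (one_le_pow₀ hfac) hE0

end Local

end Pool.TT
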