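import Pool.Agent.Lib.MP_695920_nt.TT.Pts
import Pool.Agent.Lib.MP_695920_nt.TT.NTPadic

/-! TT, letter G, part G2: the algebra of a near-torsion class at the roots of `w`
(dnote of helper26, MP_695920_nt). -/

set_option autoImplicit false

namespace Pool.TT

open Polynomial

/-- a near-torsion class `(w, y - v)`: `(w, y - v)^M ∏ (x - x_i, y - e_i)^(a_i) = (φ)` -/
structure NTData {ι : Type*} [Fintype ι] (P : Pts ι) (w : ℚ[X]) where
  v : ℚ[X]
  M : ℕ
  a : ι → ℕ
  e : ι → ℤ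
  φ : Crd P.f
  hw : w.Monic
  hdeg : 2 * w.natDegree < P.f.natDegree
  hdvd : w ∣ P.f - v ^ 2
  hM : 0 < M
  ha : 2 * ∑ i, a i ≤ M
  hφ0 : φ ≠ 0
  hspan : Ideal.span {φ} =
    pt P.f w v ^ M * ∏ i, pt P.f (X - C (P.x i : ℚ)) (C (e i : ℚ)) ^ a i
  hnorm : φ.norm = w ^ M * ∏ i, (X - C (P.x i : ℚ)) ^ a i ∨
    φ.norm = -(w ^ M * ∏ i, (X - C (P.x i : ℚ)) ^ a i)

/-- coefficient extension of the coordinate ring -/
noncomputable def mapCrd {K L : Type*} [Field K] [Field L] (al : K →+* L) (f : K[X]) :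
    Crd f →+* QuadraticAlgebra L[X] (f.map al) 0 where
  toFun z := ⟨z.re.map al, z.im.map al⟩
  map_one' := by
    ext <;> simp [QuadraticAlgebra.re_one, QuadraticAlgebra.im_one]
  map_zero' := by
    ext <;> simp
  map_mul' z w := by
    ext1
    · simp [Polynomial.map_mul, Polynomial.map_add]
    · simp [Polynomial.map_mul, Polynomial.map_add]
  map_add' z w := by
    ext1
    · simp [Polynomial.map_add]
    · simp [Polynomial.map_add]

theorem mapCrd_apply {K L : Type*} [Field K] [Field L] (al : K →+* L) (f : K[X]) (z : Crd f) :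
    mapCrd al f z = ⟨z.re.map al, z.im.map al⟩ := rfl

/-- `(w, y - v)` is in the kernel of the evaluation at `(ξ, v(ξ))`, `w(ξ) = 0` -/
theorem nt_pt_le_ker {K L : Type*} [Field K] [Field L] [Algebra K L] {f w v : K[X]} {ξ η : L}
    (h : η ^ 2 = aeval ξ f) (hw : aeval ξ w = 0) (hv : aeval ξ v = η) :
    pt f w v ≤ RingHom.ker (evalAt ξ η h) := by
  rw [pt, Ideal.span_le]
  intro z hz
  rcases hz with hz | hz
  · rw [hz]
    change evalAt ξ η h _ = 0
    rw [evalAt_apply]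
    simp [hw]
  · rw [Set.mem_singleton_iff.1 hz]
    change evalAt ξ η h _ = 0
    rw [evalAt_apply]
    simp [hv]

theorem nt_pt_le_ker_iff {K L : Type*} [Field K] [Field L] [Algebra K L] {f w v : K[X]} {ξ η : L}
    (h : η ^ 2 = aeval ξ f) (hle : pt f w v ≤ RingHom.ker (evalAt ξ η h)) :
    aeval ξ w = 0 ∧ aeval ξ v = η := by
  constructor
  · have h1 : (⟨w, 0⟩ : Crd f) ∈ pt f w v := Ideal.subset_span (by simp)
    have h2 := hle h1
    rw [RingHom.mem_ker, evalAt_apply] at h2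
    simpa using h2
  · have h1 : (⟨-v, 1⟩ : Crd f) ∈ pt f w v := Ideal.subset_span (by simp)
    have h2 := hle h1
    rw [RingHom.mem_ker, evalAt_apply] at h2
    simp only [map_neg, map_one, one_mul] at h2
    linear_combination -h2

theorem aeval_f_ne_zero {ι : Type*} (P : Pts ι) {L : Type*} [Field L] [Algebra ℚ L]
    {w : ℚ[X]} (hw : w.Monic) (hdeg : 2 * w.natDegree < P.f.natDegree) {ξ : L}
    (hξ : aeval ξ w = 0) : aeval ξ P.f ≠ 0 := by
  intro h
  have h1 : P.f = minpoly ℚ ξ := minpoly.eq_of_irreducible_of_monic P.f_irr h P.f_monic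
  have h2 : P.f ∣ w := by rw [h1]; exact minpoly.dvd ℚ ξ hξ
  have h3 := natDegree_le_of_dvd h2 hw.ne_zero
  omega

section Data

variable {ι : Type*} [Fintype ι] {P : Pts ι} {w : ℚ[X]} (d : NTData P w)
  {L : Type*} [Field L] [Algebra ℚ L]

theorem NTData.eta_sq {ξ : L} (hξ : aeval ξ w = 0) : (aeval ξ d.v) ^ 2 = aeval ξ P.f := by
  obtain ⟨c, hc⟩ := d.hdvd
  have h := congrArg (aeval ξ) hc
  rw [map_sub, map_pow, map_mul, hξ, zero_mul, sub_eq_zero] at h
  exact h.symm

theorem NTData.eta_ne {ξ : L} (hξ : aeval ξ w = 0) : aeval ξ d.v ≠ 0 := by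
  intro h
  have h1 := d.eta_sq hξ
  rw [h] at h1
  exact aeval_f_ne_zero P d.hw d.hdeg hξ (by rw [← h1]; ring)

theorem NTData.mem : d.φ ∈ pt P.f w d.v ^ d.M := by
  have h : Ideal.span {d.φ} ≤ pt P.f w d.v ^ d.M := by
    rw [d.hspan]
    exact Ideal.mul_le_left (R := Crd P.f)
  exact (Ideal.span_singleton_le_iff_mem _).1 h

theorem NTData.eval_eq {ξ : L} (hξ : aeval ξ w = 0) :
    aeval ξ d.φ.re + aeval ξ d.φ.im * aeval ξ d.v = 0 := by
  have h1 := Ideal.pow_le_self d.hM.ne' d.mem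
  have h2 := nt_pt_le_ker (d.eta_sq hξ) hξ rfl h1
  rwa [RingHom.mem_ker, evalAt_apply] at h2

theorem NTData.re_ne [CharZero L] {ξ : L} (hξ : aeval ξ w = 0) (hx : ∀ i, ξ ≠ (P.x i : L)) :
    aeval ξ d.φ.re ≠ 0 := by
  intro h0
  have h1 := d.eval_eq hξ
  have hη := d.eta_ne hξ
  rw [h0, zero_add] at h1
  have h2 : aeval ξ d.φ.im = 0 := by
    rcases mul_eq_zero.1 h1 with h | h
    · exact h
    · exact absurd h hη
  have hsq : (-(aeval ξ d.v)) ^ 2 = aeval ξ P.f := by rw [neg_sq]; exact d.eta_sq hξ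
  have hprime : (RingHom.ker (evalAt ξ (-(aeval ξ d.v)) hsq)).IsPrime := RingHom.ker_isPrime _
  have hmem : Ideal.span {d.φ} ≤ RingHom.ker (evalAt ξ (-(aeval ξ d.v)) hsq) := by
    rw [Ideal.span_singleton_le_iff_mem, RingHom.mem_ker, evalAt_apply, h0, h2]
    ring
  rw [d.hspan, hprime.mul_le] at hmem
  rcases hmem with h | h
  · have h3 := (nt_pt_le_ker_iff hsq (hprime.le_of_pow_le h)).2
    apply hη
    have h4 : (2 : L) * aeval ξ d.v = 0 := by linear_combination h3
    rcases mul_eq_zero.1 h4 with h5 | h5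
    · exact absurd h5 two_ne_zero
    · exact h5
  · rw [hprime.prod_le] at h
    obtain ⟨i, _, hi⟩ := h
    have h3 := (nt_pt_le_ker_iff hsq (hprime.le_of_pow_le hi)).1
    apply hx i
    simpa [sub_eq_zero] using h3

/-- the function `psi` -/
theorem NTData.exists_psi {ξ : L} (hξ : aeval ξ w = 0) (f1 : L[X])
    (hf1 : f1 * (X - C ξ) = P.f.map (algebraMap ℚ L) - C ((P.f.map (algebraMap ℚ L)).eval ξ)) :
    ∃ A1 B1 : L[X],
      (algebraMap L[X] (QuadraticAlgebra L[X] (P.f.map (algebraMap ℚ L)) 0) f1) ^ d.M *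
        ⟨d.φ.re.map (algebraMap ℚ L), d.φ.im.map (algebraMap ℚ L)⟩ =
      ⟨-C (aeval ξ d.v), 1⟩ ^ d.M * ⟨A1, B1⟩ := by
  set F := P.f.map (algebraMap ℚ L) with hF
  set al := algebraMap ℚ L with hal
  set b : QuadraticAlgebra L[X] F 0 := ⟨-C (aeval ξ d.v), 1⟩ with hb
  set g : QuadraticAlgebra L[X] F 0 := algebraMap L[X] (QuadraticAlgebra L[X] F 0) f1 with hg
  set I := Ideal.map (mapCrd al P.f) (pt P.f w d.v) with hI
  -- `f_1 (x - ξ) = (y - η)(y + η)`
  have hb2 : b * ⟨C (aeval ξ d.v), 1⟩ = g * ⟨X - C ξ, 0⟩ := by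
    have e : F.eval ξ = (aeval ξ d.v) ^ 2 := by
      rw [d.eta_sq hξ, hF, eval_map_algebraMap]
    rw [hg, QuadraticAlgebra.algebraMap_eq, hb]
    ext1
    · simp only [QuadraticAlgebra.re_mul]
      rw [hf1, e, C_pow]
      ring
    · simp only [QuadraticAlgebra.im_mul]
      ring
  have hkey : Ideal.span {g} * I ≤ Ideal.span {b} := by
    rw [hI, pt, Ideal.map_span, Ideal.span_mul_span', Ideal.span_le]
    intro z hz
    obtain ⟨g', hg', z', hz', rfl⟩ := hz
    rw [Set.mem_singleton_iff.1 hg']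
    obtain ⟨z'', hz'', rfl⟩ := hz'
    change g * _ ∈ Ideal.span {b}
    rw [Ideal.mem_span_singleton]
    rcases hz'' with hz'' | hz''
    · rw [hz'']
      have hroot : (w.map al).IsRoot ξ := by
        rw [IsRoot.def, eval_map_algebraMap]; exact hξ
      obtain ⟨w', hw'⟩ := dvd_iff_isRoot.2 hroot
      have e : mapCrd al P.f ⟨w, 0⟩ = ⟨X - C ξ, 0⟩ * ⟨w', 0⟩ := by
        rw [mapCrd_apply]
        ext1
        · simp [hw']
        · simp
      rw [e, ← mul_assoc, ← hb2]
      exact ⟨⟨C (aeval ξ d.v), 1⟩ * ⟨w', 0⟩, by ring⟩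
    · rw [Set.mem_singleton_iff.1 hz'']
      have hroot : (d.v.map al - C (aeval ξ d.v)).IsRoot ξ := by
        rw [IsRoot.def, eval_sub, eval_C, eval_map_algebraMap, sub_self]
      obtain ⟨v', hv'⟩ := dvd_iff_isRoot.2 hroot
      have e : mapCrd al P.f ⟨-d.v, 1⟩ = b - ⟨X - C ξ, 0⟩ * ⟨v', 0⟩ := by
        rw [mapCrd_apply, hb]
        ext1
        · simp only [Polynomial.map_neg, QuadraticAlgebra.re_sub, QuadraticAlgebra.re_mul]
          linear_combination -hv'
        · simp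
      rw [e, mul_sub, ← mul_assoc, ← hb2]
      exact ⟨g - ⟨C (aeval ξ d.v), 1⟩ * ⟨v', 0⟩, by ring⟩
  have hpow : Ideal.span {g ^ d.M} * I ^ d.M ≤ Ideal.span {b ^ d.M} := by
    rw [← Ideal.span_singleton_pow, ← Ideal.span_singleton_pow, ← mul_pow]
    exact Ideal.pow_right_mono hkey _
  have hmem : mapCrd al P.f d.φ ∈ I ^ d.M := by
    rw [hI, ← Ideal.map_pow]
    exact Ideal.mem_map_of_mem _ d.mem
  have h1 : g ^ d.M * mapCrd al P.f d.φ ∈ Ideal.span {b ^ d.M} :=
    hpow (Ideal.mul_mem_mul (Ideal.mem_span_singleton_self _) hmem)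
  rw [Ideal.mem_span_singleton] at h1
  obtain ⟨c, hc⟩ := h1
  exact ⟨c.re, c.im, hc⟩

/-- the norm over `L`: the multiset of its roots -/
theorem NTData.norm_map [IsAlgClosed L] :
    ∃ s : L, (s = 1 ∨ s = -1) ∧
    (d.φ.re.map (algebraMap ℚ L)) ^ 2 - P.f.map (algebraMap ℚ L) * (d.φ.im.map (algebraMap ℚ L)) ^ 2
      = C s * (((d.M • (w.map (algebraMap ℚ L)).roots +
        ∑ i, d.a i • ({(P.x i : L)} : Multiset L))).map (fun z => X - C z)).prod := by
  set al := algebraMap ℚ L with hal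
  have hwL : (w.map al) = ((w.map al).roots.map (fun z => X - C z)).prod := by
    have h := (IsAlgClosed.splits (w.map al)).eq_prod_roots
    rwa [(d.hw.map al).leadingCoeff, C_1, one_mul] at h
  have hprod : (((d.M • (w.map al).roots +
        ∑ i, d.a i • ({(P.x i : L)} : Multiset L))).map (fun z => X - C z)).prod =
        (w ^ d.M * ∏ i, (X - C (P.x i : ℚ)) ^ d.a i).map al := by
    rw [Multiset.map_add, Multiset.prod_add, Multiset.map_nsmul, Multiset.prod_nsmul, ← hwL,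
      Polynomial.map_mul, Polynomial.map_pow, Polynomial.map_prod]
    congr 1
    have : ∀ s : Finset ι, ((∑ i ∈ s, d.a i • ({(P.x i : L)} : Multiset L)).map
        (fun z => X - C z)).prod = ∏ i ∈ s, ((X - C (P.x i : ℚ)) ^ d.a i).map al := by
      classical
      intro s
      induction s using Finset.induction_on with
      | empty => simp
      | insert j t hj ih =>
        rw [Finset.sum_insert hj, Finset.prod_insert hj, Multiset.map_add, Multiset.prod_add, ih,
          Multiset.map_nsmul, Multiset.prod_nsmul]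
        simp
    exact this Finset.univ
  have hn : (d.φ.re.map al) ^ 2 - P.f.map al * (d.φ.im.map al) ^ 2 = d.φ.norm.map al := by
    rw [QuadraticAlgebra.norm_def]
    simp only [Polynomial.map_add, Polynomial.map_sub, Polynomial.map_mul, Polynomial.map_zero]
    ring
  rcases d.hnorm with h | h
  · refine ⟨1, Or.inl rfl, ?_⟩
    rw [hprod, hn, h, C_1, one_mul]
  · refine ⟨-1, Or.inr rfl, ?_⟩
    rw [hprod, hn, h, Polynomial.map_neg, C_neg, C_1, neg_one_mul]

end Data

end Pool.TT
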