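import Mathlib

/-!
The complex part of the near-torsion lemma (Step 5.2): the value of `A` at a root of `u` is small
in comparison with the size of `u`, if the value of `y` is small.
-/

set_option autoImplicit false

open Polynomial

namespace Pool.TT

/-! ### growth of polynomials -/

private theorem ntc_unit {p : ℂ[X]} {D : ℕ} (hp : p.natDegree ≤ D) {S : ℝ} (hS : 0 ≤ S)
    (h : ∀ t : ℝ, -1 ≤ t → t ≤ 1 → ‖p.eval (t : ℂ)‖ ≤ S) (z : ℂ) :
    ‖p.eval z‖ ≤ S * (2 * ‖z‖ + 1) ^ D := by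
  obtain ⟨w, hw0, hw1, hwz⟩ : ∃ w : ℂ, w ≠ 0 ∧ ‖w‖ ≤ 1 ∧ w + w⁻¹ = 2 * z := by
    obtain ⟨s, hs⟩ := IsAlgClosed.exists_pow_nat_eq (z ^ 2 - 1) (n := 2) (by norm_num)
    have h1 : (z + s) * (z - s) = 1 := by linear_combination -hs
    have hA : z + s ≠ 0 := left_ne_zero_of_mul_eq_one h1
    have hB : z - s ≠ 0 := right_ne_zero_of_mul_eq_one h1
    have hn : ‖z + s‖ * ‖z - s‖ = 1 := by rw [← norm_mul, h1, norm_one]
    rcases le_or_gt ‖z + s‖ 1 with h2 | h2
    · refine ⟨z + s, hA, h2, ?_⟩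
      rw [inv_eq_of_mul_eq_one_right h1]
      ring
    · refine ⟨z - s, hB, ?_, ?_⟩
      · by_contra h3
        push Not at h3
        nlinarith
      · rw [inv_eq_of_mul_eq_one_left h1]
        ring
  obtain ⟨q, hq⟩ : ∃ q : ℂ → ℂ, q = fun w => ∑ k ∈ Finset.range (D + 1),
    p.coeff k * ((w ^ 2 + 1) / 2) ^ k * w ^ (D - k) := ⟨_, rfl⟩
  have hqe : ∀ w : ℂ, w ≠ 0 → q w = w ^ D * p.eval ((w + w⁻¹) / 2) := by
    intro w hw
    rw [hq, eval_eq_sum_range' (Nat.lt_succ_of_le hp), Finset.mul_sum]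
    refine Finset.sum_congr rfl fun k hk => ?_
    have hk' : k ≤ D := Nat.lt_succ_iff.1 (Finset.mem_range.1 hk)
    have h1 : (w ^ 2 + 1) / 2 = w * ((w + w⁻¹) / 2) := by
      field_simp
    have h2 : w ^ D = w ^ k * w ^ (D - k) := by rw [← pow_add, Nat.add_sub_cancel' hk']
    rw [h1, mul_pow, h2]
    ring
  have hdiff : Differentiable ℂ q := by
    rw [hq]
    fun_prop
  have hcirc : ∀ w : ℂ, ‖w‖ = 1 → ‖q w‖ ≤ S := by
    intro w hw
    have hw0 : w ≠ 0 := by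
      intro h0
      rw [h0, norm_zero] at hw
      exact zero_ne_one hw
    have h1 : w⁻¹ = (starRingEnd ℂ) w := Complex.inv_eq_conj hw
    have h2 : (w + w⁻¹) / 2 = ((w.re : ℝ) : ℂ) := by
      rw [h1, Complex.add_conj]
      push_cast
      ring
    have h3 := Complex.abs_re_le_norm w
    rw [hw] at h3
    have h4 := abs_le.1 h3
    rw [hqe w hw0, h2, norm_mul, norm_pow, hw, one_pow, one_mul]
    exact h _ h4.1 h4.2
  have hmax : ‖q w‖ ≤ S := by
    refine Complex.norm_le_of_forall_mem_frontier_norm_le (U := Metric.ball (0 : ℂ) 1)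
      Metric.isBounded_ball hdiff.diffContOnCl ?_ ?_
    · intro x hx
      rw [frontier_ball (0 : ℂ) one_ne_zero, mem_sphere_zero_iff_norm] at hx
      exact hcirc x hx
    · rw [closure_ball (0 : ℂ) one_ne_zero, mem_closedBall_zero_iff]
      exact hw1
  have hwn : 0 < ‖w‖ := norm_pos_iff.2 hw0
  have hinv : ‖w⁻¹‖ ≤ 2 * ‖z‖ + 1 := by
    have h1 : w⁻¹ = 2 * z - w := by rw [← hwz]; ring
    rw [h1]
    refine (norm_sub_le _ _).trans ?_
    rw [norm_mul]
    have : ‖(2 : ℂ)‖ = 2 := by norm_num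
    rw [this]
    linarith
  have he : p.eval z = q w * w⁻¹ ^ D := by
    rw [hqe w hw0, hwz]
    have h2 : 2 * z / 2 = z := by ring
    rw [h2, inv_pow]
    field_simp
  rw [he, norm_mul, norm_pow]
  exact mul_le_mul hmax (pow_le_pow_left₀ (norm_nonneg _) hinv D) (by positivity) hS

/-- a polynomial which is bounded on an interval -/
theorem growth_of_interval {p : ℂ[X]} {D : ℕ} (hp : p.natDegree ≤ D) {S : ℝ} (hS : 0 ≤ S) {c r : ℝ}
    (hr : 0 < r) (h : ∀ t : ℝ, c - r ≤ t → t ≤ c + r → ‖p.eval (t : ℂ)‖ ≤ S) {κ : ℝ} {z : ℂ}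
    (hz : ‖z - c‖ ≤ κ * r) : ‖p.eval z‖ ≤ S * (2 * κ + 1) ^ D := by
  have hr0 : (r : ℂ) ≠ 0 := by exact_mod_cast hr.ne'
  have hdeg : (p.comp (C (r : ℂ) * X + C (c : ℂ))).natDegree ≤ D := by
    rw [natDegree_comp]
    have h1 : (C (r : ℂ) * X + C (c : ℂ)).natDegree = 1 := natDegree_linear hr0
    rw [h1, mul_one]
    exact hp
  have h1 := ntc_unit hdeg hS (by
    intro t ht1 ht2
    rw [eval_comp]
    have h2 : eval (t : ℂ) (C (r : ℂ) * X + C (c : ℂ)) = ((r * t + c : ℝ) : ℂ) := by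
      simp
    rw [h2]
    apply h
    · nlinarith
    · nlinarith) ((z - c) / r)
  rw [eval_comp] at h1
  have h2 : eval ((z - c) / r) (C (r : ℂ) * X + C (c : ℂ)) = z := by
    simp only [eval_add, eval_mul, eval_C, eval_X]
    field_simp
    ring
  rw [h2] at h1
  refine h1.trans (mul_le_mul_of_nonneg_left ?_ hS)
  refine pow_le_pow_left₀ (by positivity) ?_ D
  have h3 : ‖(z - c) / r‖ ≤ κ := by
    rw [norm_div, Complex.norm_real, Real.norm_eq_abs, abs_of_pos hr, div_le_iff₀ hr]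
    exact hz
  linarith

/-- maximum principle for polynomials -/
private theorem ntc_max {p : ℂ[X]} {r S : ℝ} (hr : 0 < r)
    (h : ∀ x : ℂ, ‖x‖ = r → ‖p.eval x‖ ≤ S) {z : ℂ} (hz : ‖z‖ ≤ r) : ‖p.eval z‖ ≤ S := by
  refine Complex.norm_le_of_forall_mem_frontier_norm_le (f := fun x => p.eval x)
    (U := Metric.ball (0 : ℂ) r) Metric.isBounded_ball p.differentiable.diffContOnCl ?_ ?_
  · intro x hx
    rw [frontier_ball (0 : ℂ) hr.ne', mem_sphere_zero_iff_norm] at hx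
    exact h x hx
  · rw [closure_ball (0 : ℂ) hr.ne', mem_closedBall_zero_iff]
    exact hz

/-! ### the polynomial `f` -/

private theorem ntc_large (F : ℂ[X]) (hF : F.Monic) (hn : 1 ≤ F.natDegree) :
    ∃ C₀ : ℝ, 3 ≤ C₀ ∧ ∀ x : ℂ, C₀ ≤ ‖x‖ → ‖F.eval x - x ^ F.natDegree‖ ≤ ‖x‖ ^ F.natDegree / 2 := by
  obtain ⟨H, hH⟩ : ∃ H : ℝ, H = ∑ i ∈ Finset.range F.natDegree, ‖F.coeff i‖ := ⟨_, rfl⟩
  have hH0 : 0 ≤ H := hH ▸ Finset.sum_nonneg fun i _ => norm_nonneg _
  refine ⟨3 + 2 * H, by linarith, fun x hx => ?_⟩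
  have hx1 : 1 ≤ ‖x‖ := by linarith
  have h0 : F.eval x = x ^ F.natDegree + ∑ i ∈ Finset.range F.natDegree, F.coeff i * x ^ i := by
    conv_lhs => rw [hF.as_sum]
    simp [eval_finsetSum]
  have h1 : F.eval x - x ^ F.natDegree = ∑ i ∈ Finset.range F.natDegree, F.coeff i * x ^ i := by
    rw [h0]
    ring
  obtain ⟨m, hm⟩ := Nat.exists_eq_add_of_le hn
  have h2 : ‖F.eval x - x ^ F.natDegree‖ ≤ H * ‖x‖ ^ m := by
    rw [h1, hH, Finset.sum_mul]
    refine (norm_sum_le _ _).trans (Finset.sum_le_sum fun i hi => ?_)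
    rw [norm_mul, norm_pow]
    refine mul_le_mul_of_nonneg_left (pow_le_pow_right₀ hx1 ?_) (norm_nonneg _)
    have := Finset.mem_range.1 hi
    omega
  refine h2.trans ?_
  rw [hm, pow_add, pow_one]
  have h3 : 0 ≤ ‖x‖ ^ m := by positivity
  nlinarith

private theorem ntc_ball (p : ℂ[X]) (r : ℝ) : ∃ K : ℝ, 1 ≤ K ∧ ∀ x : ℂ, ‖x‖ ≤ r → ‖p.eval x‖ ≤ K := by
  obtain ⟨K, hK⟩ := (isCompact_closedBall (0 : ℂ) r).exists_bound_of_continuousOn
    (f := fun x => p.eval x) p.continuous.continuousOn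
  refine ⟨max 1 K, le_max_left _ _, fun x hx => (hK x ?_).trans (le_max_right _ _)⟩
  rw [mem_closedBall_zero_iff]
  exact hx

private theorem ntc_deriv (f : ℤ[X])
    (hsep : ∃ (a b : ℤ[X]) (D : ℤ), D ≠ 0 ∧ a * f + b * derivative f = C D) (r : ℝ) :
    ∃ δ : ℝ, 0 < δ ∧ δ ≤ 1 / 2 ∧ ∀ x : ℂ, ‖x‖ ≤ r →
      ‖(f.map (Int.castRingHom ℂ)).eval x‖ ≤ δ →
        δ ≤ ‖(derivative (f.map (Int.castRingHom ℂ))).eval x‖ := by
  obtain ⟨a, b, D, hD, hab⟩ := hsep
  obtain ⟨K₁, hK₁, h₁⟩ := ntc_ball (a.map (Int.castRingHom ℂ)) r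
  obtain ⟨K₂, hK₂, h₂⟩ := ntc_ball (b.map (Int.castRingHom ℂ)) r
  obtain ⟨K, hK⟩ : ∃ K, K = K₁ + K₂ := ⟨_, rfl⟩
  have hK2 : 2 ≤ K := by linarith
  refine ⟨1 / (2 * K), by positivity, ?_, fun x hx hfx => ?_⟩
  · rw [div_le_div_iff₀ (by positivity) (by norm_num)]
    linarith
  · have h3 := congrArg (fun p : ℤ[X] => (p.map (Int.castRingHom ℂ)).eval x) hab
    simp only [Polynomial.map_add, Polynomial.map_mul, eval_add, eval_mul, map_C, eval_C,
      ← derivative_map] at h3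
    have h4 : (1 : ℝ) ≤ ‖(Int.castRingHom ℂ) D‖ := by
      rw [eq_intCast, Complex.norm_intCast]
      exact_mod_cast Int.one_le_abs hD
    rw [← h3] at h4
    have h5 : (1 : ℝ) ≤ K * ‖(f.map (Int.castRingHom ℂ)).eval x‖ +
        K * ‖(derivative (f.map (Int.castRingHom ℂ))).eval x‖ := by
      refine h4.trans ((norm_add_le _ _).trans ?_)
      rw [norm_mul, norm_mul]
      refine add_le_add (mul_le_mul_of_nonneg_right ?_ (norm_nonneg _))
        (mul_le_mul_of_nonneg_right ?_ (norm_nonneg _))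
      · exact (h₁ x hx).trans (by linarith)
      · exact (h₂ x hx).trans (by linarith)
    have h6 : K * ‖(f.map (Int.castRingHom ℂ)).eval x‖ ≤ 1 / 2 := by
      have h7 := mul_le_mul_of_nonneg_left hfx (show 0 ≤ K by linarith)
      have h8 : K * (1 / (2 * K)) = 1 / 2 := by field_simp
      linarith
    rw [div_le_iff₀ (by positivity)]
    nlinarith

/-! ### degrees -/

private theorem ntc_degree {f : ℝ[X]} (hf : f.Monic) (hn : Odd f.natDegree) {A B P : ℝ[X]}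
    (hP : A ^ 2 - f * B ^ 2 = P) : 2 * A.natDegree ≤ P.natDegree ∧
      (B ≠ 0 → f.natDegree + 2 * B.natDegree ≤ P.natDegree) := by
  have hA : (A ^ 2).natDegree = 2 * A.natDegree := natDegree_pow A 2
  by_cases hB : B = 0
  · subst hB
    refine ⟨?_, fun h => absurd rfl h⟩
    rw [← hP]
    simp
  · have hfB : (f * B ^ 2).natDegree = f.natDegree + 2 * B.natDegree := by
      rw [natDegree_mul hf.ne_zero (pow_ne_zero _ hB), natDegree_pow]
    have hne : 2 * A.natDegree ≠ f.natDegree + 2 * B.natDegree := by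
      obtain ⟨k, hk⟩ := hn
      omega
    rcases lt_or_gt_of_ne hne with h | h
    · have h1 : (A ^ 2 - f * B ^ 2).natDegree = (f * B ^ 2).natDegree :=
        natDegree_sub_eq_right_of_natDegree_lt (by omega)
      rw [hP, hfB] at h1
      exact ⟨by omega, fun _ => by omega⟩
    · have h1 : (A ^ 2 - f * B ^ 2).natDegree = (A ^ 2).natDegree :=
        natDegree_sub_eq_left_of_natDegree_lt (by omega)
      rw [hP, hA] at h1
      exact ⟨by omega, fun _ => by omega⟩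

private theorem ntc_norm_prod (Z : Multiset ℂ) (g : ℂ → ℂ) :
    ‖(Z.map g).prod‖ = (Z.map (fun z => ‖g z‖)).prod := by
  induction Z using Multiset.induction_on with
  | empty => simp
  | cons a Z ih =>
    rw [Multiset.map_cons, Multiset.prod_cons, norm_mul, ih, Multiset.map_cons,
      Multiset.prod_cons]

/-- evaluation of elements of `ℂ[x, y] / (y² - F)` -/
private noncomputable def ntcEv {F : ℂ[X]} {x y : ℂ} (h : y ^ 2 = F.eval x) :
    QuadraticAlgebra ℂ[X] F 0 →+* ℂ where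
  toFun z := z.re.eval x + z.im.eval x * y
  map_one' := by
    rw [QuadraticAlgebra.re_one, QuadraticAlgebra.im_one]
    simp
  map_zero' := by
    rw [QuadraticAlgebra.re_zero, QuadraticAlgebra.im_zero]
    simp
  map_add' z w := by
    rw [QuadraticAlgebra.re_add, QuadraticAlgebra.im_add]
    simp only [eval_add]
    ring
  map_mul' z w := by
    rw [QuadraticAlgebra.re_mul, QuadraticAlgebra.im_mul]
    simp only [eval_add, eval_mul, eval_zero]
    linear_combination (-(eval x z.im * eval x w.im)) * h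

private theorem ntcEv_mk {F : ℂ[X]} {x y : ℂ} (h : y ^ 2 = F.eval x) (a b : ℂ[X]) :
    ntcEv h ⟨a, b⟩ = a.eval x + b.eval x * y := rfl

/-! ### the theorem -/

/-- the local bound at the complex place -/
theorem complex_bound (f : ℤ[X]) (hf : f.Monic) (hn : Odd f.natDegree)
    (hsep : ∃ (a b : ℤ[X]) (D : ℤ), D ≠ 0 ∧ a * f + b * derivative f = C D) :
    ∃ K : ℝ, 1 ≤ K ∧ ∀ (M : ℕ) (Z : Multiset ℂ) (A B : ℝ[X]) (s : ℂ) (A₁ B₁ f₁ : ℂ[X]) (ξ η : ℂ),
      Multiset.card Z ≤ f.natDegree * M → ‖s‖ = 1 →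
      (A ^ 2 - f.map (Int.castRingHom ℝ) * B ^ 2).map Complex.ofRealHom =
        C s * (Z.map (fun z => X - C z)).prod →
      η ^ 2 = (f.map (Int.castRingHom ℂ)).eval ξ → η ≠ 0 →
      (A.map Complex.ofRealHom).eval ξ + (B.map Complex.ofRealHom).eval ξ * η = 0 →
      f₁ * (X - C ξ) =
        f.map (Int.castRingHom ℂ) - C ((f.map (Int.castRingHom ℂ)).eval ξ) →
      (algebraMap ℂ[X] (QuadraticAlgebra ℂ[X] (f.map (Int.castRingHom ℂ)) 0) f₁) ^ M *
          ⟨A.map Complex.ofRealHom, B.map Complex.ofRealHom⟩ =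
        (⟨-C η, 1⟩ : QuadraticAlgebra ℂ[X] (f.map (Int.castRingHom ℂ)) 0) ^ M * ⟨A₁, B₁⟩ →
      ‖2 * (A.map Complex.ofRealHom).eval ξ‖ ^ 2 ≤
        K ^ M * (‖2 * η‖ ^ 2 / (max 1 ‖ξ‖) ^ f.natDegree) ^ M *
          (Z.map (fun z => max (max 1 ‖ξ‖) ‖z‖)).prod := by
  obtain ⟨n, hnn⟩ : ∃ n, n = f.natDegree := ⟨_, rfl⟩
  obtain ⟨F, hF⟩ : ∃ F, F = f.map (Int.castRingHom ℂ) := ⟨_, rfl⟩
  obtain ⟨G, hG⟩ : ∃ G, G = f.map (Int.castRingHom ℝ) := ⟨_, rfl⟩
  have hFm : F.Monic := hF ▸ hf.map _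
  have hGm : G.Monic := hG ▸ hf.map _
  have hFn : F.natDegree = n := by rw [hF, hnn, hf.natDegree_map]
  have hGn : G.natDegree = n := by rw [hG, hnn, hf.natDegree_map]
  have hn1 : 1 ≤ n := by
    obtain ⟨k, hk⟩ := hn
    omega
  have hGF : ∀ x : ℝ, ((G.eval x : ℝ) : ℂ) = F.eval (x : ℂ) := by
    intro x
    have h1 : F = G.map Complex.ofRealHom := by
      rw [hF, hG, Polynomial.map_map]
      congr 1
    rw [h1, ← Complex.ofRealHom_eq_coe, ← Complex.ofRealHom_eq_coe, eval_map_apply]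
  obtain ⟨C₀, hC₀, hlarge⟩ := ntc_large F hFm (hFn ▸ hn1)
  rw [hFn] at hlarge
  obtain ⟨δ, hδ0, hδ1, hδ⟩ := ntc_deriv f hsep C₀
  rw [← hF] at hδ
  obtain ⟨K₂', hK₂', hball⟩ := ntc_ball F (3 * C₀)
  obtain ⟨K₂, hK₂⟩ : ∃ K₂, K₂ = K₂' + 1 := ⟨_, rfl⟩
  have hK₂1 : 1 ≤ K₂ := by linarith
  have hC1 : 1 ≤ C₀ := by linarith
  have hCn : 1 ≤ C₀ ^ n := one_le_pow₀ hC1
  have h92 : 1 ≤ (92 * C₀) ^ n := one_le_pow₀ (by linarith)
  obtain ⟨K, hK⟩ : ∃ K : ℝ, K = 36 * K₂ ^ 2 * (92 * C₀) ^ n * C₀ ^ n / δ ^ 2 := ⟨_, rfl⟩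
  have hK0 : (92 * C₀) ^ n * C₀ ^ n / δ ≤ K := by
    rw [hK, div_le_div_iff₀ hδ0 (by positivity)]
    have h1 : δ ≤ 36 * K₂ ^ 2 := by nlinarith
    have h2 : 0 ≤ (92 * C₀) ^ n * C₀ ^ n * δ := by positivity
    nlinarith [mul_le_mul_of_nonneg_left h1 h2]
  have hK1 : 1 ≤ K := by
    refine le_trans ?_ hK0
    rw [le_div_iff₀ hδ0]
    nlinarith [one_le_mul_of_one_le_of_one_le h92 hCn]
  refine ⟨K, hK1, ?_⟩
  intro M Z A B s A₁ B₁ f₁ ξ η hZ hs hN hη hη0 hAB hf₁ hψ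
  rw [← hF] at hη hf₁ hψ
  rw [← hG] at hN
  rw [← hnn] at hZ ⊢
  obtain ⟨a, ha⟩ : ∃ a, a = A.map Complex.ofRealHom := ⟨_, rfl⟩
  obtain ⟨b, hb⟩ : ∃ b, b = B.map Complex.ofRealHom := ⟨_, rfl⟩
  rw [← ha, ← hb] at hψ
  rw [← ha, ← hb] at hAB
  rw [← ha]
  obtain ⟨ρ, hρ⟩ : ∃ ρ, ρ = max 1 ‖ξ‖ := ⟨_, rfl⟩
  rw [← hρ]
  have hρ1 : 1 ≤ ρ := hρ ▸ le_max_left _ _
  have hξρ : ‖ξ‖ ≤ ρ := hρ ▸ le_max_right _ _
  obtain ⟨E, hE⟩ : ∃ E : ℝ, E = (Z.map (fun z => max ρ ‖z‖)).prod := ⟨_, rfl⟩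
  rw [← hE]
  have hE0 : 0 ≤ E := by
    rw [hE]
    refine Multiset.prod_nonneg fun x hx => ?_
    obtain ⟨z, _, rfl⟩ := Multiset.mem_map.1 hx
    exact (zero_le_one.trans hρ1).trans (le_max_left _ _)
  -- the degree of `A`
  have hs0 : s ≠ 0 := by
    intro h0
    rw [h0, norm_zero] at hs
    exact zero_ne_one hs
  have hdeg : (A ^ 2 - G * B ^ 2).natDegree = Multiset.card Z := by
    rw [← natDegree_map_eq_of_injective Complex.ofRealHom.injective, hN,
      natDegree_C_mul hs0, natDegree_multiset_prod_X_sub_C_eq_card]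
  have hdeg2 := ntc_degree hGm (hGn ▸ hnn ▸ hn) (rfl : A ^ 2 - G * B ^ 2 = _)
  rw [hdeg, hGn] at hdeg2
  rcases Nat.eq_zero_or_pos M with hM | hM
  · -- `M = 0`
    subst hM
    rw [mul_zero] at hZ
    have hB : B = 0 := by
      by_contra hB
      have := hdeg2.2 hB
      omega
    have hb0 : b = 0 := by rw [hb, hB, Polynomial.map_zero]
    rw [hb0, eval_zero, zero_mul, add_zero] at hAB
    rw [hAB, mul_zero, norm_zero, zero_pow two_ne_zero]
    positivity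
  have hcard : Multiset.card Z ≤ n * M := hZ
  -- the norm on the disc
  have hNx : ∀ x : ℂ, a.eval x ^ 2 - F.eval x * b.eval x ^ 2 =
      s * (Z.map (fun z => x - z)).prod := by
    intro x
    have h1 := congrArg (fun p : ℂ[X] => p.eval x) hN
    have h2 : F = G.map Complex.ofRealHom := by
      rw [hF, hG, Polynomial.map_map]
      congr 1
    simp only [Polynomial.map_sub, Polynomial.map_mul, Polynomial.map_pow, eval_sub, eval_mul,
      eval_pow, eval_C] at h1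
    rw [← ha, ← hb, ← h2] at h1
    rw [h1, eval_multiset_prod, Multiset.map_map]
    simp
  have hNb : ∀ x : ℂ, ‖x‖ ≤ 3 * C₀ * ρ →
      ‖a.eval x ^ 2 - F.eval x * b.eval x ^ 2‖ ≤ (4 * C₀) ^ (n * M) * E := by
    intro x hx
    rw [hNx, norm_mul, hs, one_mul]
    rw [ntc_norm_prod]
    have h2 : (Z.map (fun z => ‖x - z‖)).prod ≤ (Z.map (fun z => 4 * C₀ * max ρ ‖z‖)).prod := by
      refine Multiset.prod_map_le_prod_map₀ _ _ (fun z _ => norm_nonneg _) (fun z _ => ?_)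
      have h3 : ‖x - z‖ ≤ ‖x‖ + ‖z‖ := norm_sub_le _ _
      have h4 := le_max_left ρ ‖z‖
      have h5 := le_max_right ρ ‖z‖
      have h6 : 0 ≤ max ρ ‖z‖ := by linarith
      nlinarith [mul_le_mul_of_nonneg_left h4 (show 0 ≤ 3 * C₀ by linarith),
        mul_le_mul_of_nonneg_right hC1 h6]
    refine h2.trans ?_
    rw [Multiset.prod_map_mul, Multiset.map_const', Multiset.prod_replicate, ← hE]
    exact mul_le_mul_of_nonneg_right (pow_le_pow_right₀ (by linarith) hcard) hE0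
  obtain ⟨T, hT⟩ : ∃ T : ℝ, T = (92 * C₀) ^ (n * M) * E := ⟨_, rfl⟩
  have hT0 : 0 ≤ T := by rw [hT]; positivity
  have hNT : ∀ x : ℂ, ‖x‖ ≤ 3 * C₀ * ρ → ‖a.eval x ^ 2 - F.eval x * b.eval x ^ 2‖ ≤ T := by
    intro x hx
    refine (hNb x hx).trans ?_
    rw [hT]
    refine mul_le_mul_of_nonneg_right (pow_le_pow_left₀ (by linarith) (by linarith) _) hE0
  -- the bound for `A`
  have hAb : ∀ x : ℂ, ‖x‖ ≤ 3 * C₀ * ρ → ‖a.eval x‖ ^ 2 ≤ T := by
    intro x hx
    obtain ⟨S, hS⟩ : ∃ S : ℝ, S = Real.sqrt ((4 * C₀) ^ (n * M) * E) := ⟨_, rfl⟩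
    have hS0 : 0 ≤ S := hS ▸ Real.sqrt_nonneg _
    have hS2 : S ^ 2 = (4 * C₀) ^ (n * M) * E := by
      rw [hS, Real.sq_sqrt (by positivity)]
    have hCρ : 0 < C₀ * ρ := by positivity
    have h1 := growth_of_interval (p := a) (D := A.natDegree) (S := S) (c := -(5 / 2 * (C₀ * ρ)))
      (r := C₀ * ρ / 2) (κ := 11) (z := x)
      (by rw [ha]; exact natDegree_map_le) hS0 (by positivity) (by
        intro t ht1 ht2
        have ht3 : t ≤ -(2 * (C₀ * ρ)) := by linarith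
        have ht4 : -(3 * (C₀ * ρ)) ≤ t := by linarith
        have hCρ1 : C₀ ≤ C₀ * ρ := le_mul_of_one_le_right (by linarith) hρ1
        have htabs : ‖(t : ℂ)‖ = -t := by
          rw [Complex.norm_real, Real.norm_eq_abs, abs_of_nonpos (by linarith)]
        have hneg : G.eval t ≤ 0 := by
          have h2 := hlarge (t : ℂ) (by rw [htabs]; linarith)
          rw [← hGF, htabs] at h2
          have h3 : ((G.eval t : ℝ) : ℂ) - (t : ℂ) ^ n = ((G.eval t - t ^ n : ℝ) : ℂ) := by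
            push_cast
            ring
          rw [h3, Complex.norm_real, Real.norm_eq_abs] at h2
          have h4 : (-t) ^ n = -t ^ n := Odd.neg_pow (hnn ▸ hn) t
          rw [h4] at h2
          have h5 := (abs_le.1 h2).2
          have h6 : 0 ≤ -t ^ n := by
            rw [← h4]
            exact pow_nonneg (by linarith) _
          linarith
        have hax : a.eval (t : ℂ) = ((A.eval t : ℝ) : ℂ) := by
          rw [ha, ← Complex.ofRealHom_eq_coe, ← Complex.ofRealHom_eq_coe, eval_map_apply]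
        have hbx : b.eval (t : ℂ) = ((B.eval t : ℝ) : ℂ) := by
          rw [hb, ← Complex.ofRealHom_eq_coe, ← Complex.ofRealHom_eq_coe, eval_map_apply]
        have h2 := hNb (t : ℂ) (by rw [htabs]; linarith)
        rw [hax, hbx, ← hGF] at h2
        have h3 : ((A.eval t : ℝ) : ℂ) ^ 2 - ((G.eval t : ℝ) : ℂ) * ((B.eval t : ℝ) : ℂ) ^ 2 =
            ((A.eval t ^ 2 - G.eval t * B.eval t ^ 2 : ℝ) : ℂ) := by push_cast; ring
        rw [h3, Complex.norm_real, Real.norm_eq_abs, ← hS2] at h2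
        have h4 : A.eval t ^ 2 ≤ S ^ 2 := by
          have h5 := (abs_le.1 h2).2
          have h6 : 0 ≤ -G.eval t * B.eval t ^ 2 := mul_nonneg (by linarith) (sq_nonneg _)
          linarith
        rw [hax, Complex.norm_real, Real.norm_eq_abs]
        exact abs_le_of_sq_le_sq h4 hS0) (by
        have h2 : ‖x - ((-(5 / 2 * (C₀ * ρ)) : ℝ) : ℂ)‖ ≤ ‖x‖ + 5 / 2 * (C₀ * ρ) := by
          refine (norm_sub_le _ _).trans ?_
          rw [Complex.norm_real, Real.norm_eq_abs, abs_neg, abs_of_nonneg (by positivity)]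
        linarith)
    have h2 : (2 * (11 : ℝ) + 1) = 23 := by norm_num
    rw [h2] at h1
    have h3 : ‖a.eval x‖ ^ 2 ≤ (S * 23 ^ A.natDegree) ^ 2 :=
      pow_le_pow_left₀ (norm_nonneg _) h1 2
    refine h3.trans ?_
    rw [mul_pow, hS2, ← pow_mul, hT]
    have h4 : (23 : ℝ) ^ (A.natDegree * 2) ≤ 23 ^ (n * M) :=
      pow_le_pow_right₀ (by norm_num) (by omega)
    calc (4 * C₀) ^ (n * M) * E * 23 ^ (A.natDegree * 2)
        ≤ (4 * C₀) ^ (n * M) * E * 23 ^ (n * M) := mul_le_mul_of_nonneg_left h4 (by positivity)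
      _ = (92 * C₀) ^ (n * M) * E := by
          rw [show (92 : ℝ) * C₀ = (4 * C₀) * 23 by ring, mul_pow (4 * C₀) 23]
          ring
  have hρ3 : ρ ≤ 3 * C₀ * ρ := by nlinarith
  have hηn : ‖η‖ ^ 2 = ‖F.eval ξ‖ := by rw [← norm_pow, hη]
  have h2η : ‖2 * η‖ ^ 2 = 4 * ‖F.eval ξ‖ := by
    rw [norm_mul, mul_pow, hηn]
    norm_num
  have hTE : T = ((92 * C₀) ^ n) ^ M * E := by rw [hT, pow_mul]
  by_cases hcase : δ / C₀ ^ n * ρ ^ n ≤ ‖F.eval ξ‖
  · -- `f ξ` is not small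
    have h1 : ‖2 * a.eval ξ‖ ^ 2 ≤ 4 * T := by
      rw [norm_mul, mul_pow]
      have h2 : ‖(2 : ℂ)‖ ^ 2 = 4 := by norm_num
      rw [h2]
      exact mul_le_mul_of_nonneg_left (hAb ξ (hξρ.trans hρ3)) (by norm_num)
    have h2 : 4 * (δ / C₀ ^ n) ≤ ‖2 * η‖ ^ 2 / ρ ^ n := by
      rw [h2η, le_div_iff₀ (by positivity)]
      linarith
    have h3 : 4 * (92 * C₀) ^ n ≤ K * (‖2 * η‖ ^ 2 / ρ ^ n) := by
      have h4 : (92 * C₀) ^ n * C₀ ^ n / δ * (4 * (δ / C₀ ^ n)) = 4 * (92 * C₀) ^ n := by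
        field_simp
      rw [← h4]
      exact mul_le_mul hK0 h2 (by positivity) (by linarith)
    have h5 : (4 * (92 * C₀) ^ n) ^ M ≤ (K * (‖2 * η‖ ^ 2 / ρ ^ n)) ^ M :=
      pow_le_pow_left₀ (by positivity) h3 M
    rw [mul_pow K] at h5
    have h6 : 4 * T ≤ (4 * (92 * C₀) ^ n) ^ M * E := by
      have h7 : (4 : ℝ) ≤ 4 ^ M := by
        calc (4 : ℝ) = 4 ^ 1 := (pow_one _).symm
          _ ≤ 4 ^ M := pow_le_pow_right₀ (by norm_num) hM
      have h8 : (0 : ℝ) ≤ ((92 * C₀) ^ n) ^ M := by positivity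
      rw [hTE, mul_pow 4 ((92 * C₀) ^ n) M, ← mul_assoc]
      exact mul_le_mul_of_nonneg_right (mul_le_mul_of_nonneg_right h7 h8) hE0
    exact h1.trans (h6.trans (mul_le_mul_of_nonneg_right h5 hE0))
  · -- `f ξ` is small
    push Not at hcase
    have hξC : ‖ξ‖ ≤ C₀ := by
      by_contra hcon
      push Not at hcon
      have h1 := hlarge ξ hcon.le
      have h2 : ρ = ‖ξ‖ := by rw [hρ]; exact max_eq_right (by linarith)
      rw [h2] at hcase
      have h3 : ‖ξ ^ n‖ - ‖F.eval ξ‖ ≤ ‖F.eval ξ - ξ ^ n‖ := by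
        have := norm_sub_norm_le (ξ ^ n) (F.eval ξ)
        rwa [norm_sub_rev] at this
      rw [norm_pow] at h3
      have h4 : δ / C₀ ^ n ≤ 1 / 2 := by
        rw [div_le_iff₀ (by positivity)]
        nlinarith
      have h5 : 0 ≤ ‖ξ‖ ^ n := by positivity
      nlinarith [mul_le_mul_of_nonneg_right h4 h5]
    have hρC : ρ ≤ C₀ := by rw [hρ]; exact max_le hC1 hξC
    have hρn : ρ ^ n ≤ C₀ ^ n := pow_le_pow_left₀ (by linarith) hρC n
    have hFδ : ‖F.eval ξ‖ ≤ δ := by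
      refine hcase.le.trans ?_
      rw [div_mul_eq_mul_div, div_le_iff₀ (by positivity)]
      exact mul_le_mul_of_nonneg_left hρn hδ0.le
    have hF' := hδ ξ hξC hFδ
    have hη1 : ‖η‖ ≤ 1 := by
      have h1 : ‖η‖ ^ 2 ≤ 1 := by rw [hηn]; linarith
      nlinarith [norm_nonneg η]
    -- `f₁ ξ = f' ξ`
    have hf₁ξ : f₁.eval ξ = (derivative F).eval ξ := by
      have h1 := congrArg (fun p : ℂ[X] => (derivative p).eval ξ) hf₁
      simpa using h1
    obtain ⟨Q, hQ⟩ : ∃ Q : ℝ, Q = K₂ ^ M * (3 * Real.sqrt T) := ⟨_, rfl⟩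
    have hQ0 : 0 ≤ Q := by rw [hQ]; positivity
    -- the bound on the circle
    have hcirc : ∀ x : ℂ, ‖x‖ = 3 * C₀ → ‖A₁.eval x‖ ≤ Q ∧ ‖B₁.eval x‖ ≤ Q := by
      intro x hx
      have hx3 : ‖x‖ ≤ 3 * C₀ * ρ := by
        rw [hx]
        exact le_mul_of_one_le_right (by linarith) hρ1
      have h1 := hlarge x (by rw [hx]; linarith)
      have h2 : ‖x ^ n‖ - ‖F.eval x‖ ≤ ‖F.eval x - x ^ n‖ := by
        have := norm_sub_norm_le (x ^ n) (F.eval x)
        rwa [norm_sub_rev] at this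
      rw [norm_pow, hx] at h2
      rw [hx] at h1
      have h3 : (9 : ℝ) ≤ (3 * C₀) ^ n := by
        calc (9 : ℝ) ≤ 3 * C₀ := by linarith
          _ = (3 * C₀) ^ 1 := (pow_one _).symm
          _ ≤ (3 * C₀) ^ n := pow_le_pow_right₀ (by linarith) hn1
      have h4 : 4 ≤ ‖F.eval x‖ := by linarith
      -- a square root of `F x`
      obtain ⟨y, hy⟩ := IsAlgClosed.exists_pow_nat_eq (F.eval x) (n := 2) (by norm_num)
      have hyn : ‖y‖ ^ 2 = ‖F.eval x‖ := by rw [← norm_pow, hy]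
      have hy2 : 2 ≤ ‖y‖ := by
        by_contra hcon
        push Not at hcon
        nlinarith [norm_nonneg y]
      -- `f₁`
      have hf₁x : ‖f₁.eval x‖ ≤ K₂ := by
        have h5 := congrArg (fun p : ℂ[X] => p.eval x) hf₁
        simp only [eval_mul, eval_sub, eval_X, eval_C] at h5
        have h6 : ‖f₁.eval x‖ * ‖x - ξ‖ ≤ K₂ := by
          rw [← norm_mul, h5]
          refine (norm_sub_le _ _).trans ?_
          rw [hK₂]
          exact add_le_add (hball x hx.le) (by linarith)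
        have h7 : 1 ≤ ‖x - ξ‖ := by
          have := norm_sub_norm_le x ξ
          rw [hx] at this
          linarith
        exact (le_mul_of_one_le_right (norm_nonneg _) h7).trans h6
      -- `A` and `B y`
      have hAx : ‖a.eval x‖ ≤ Real.sqrt T := Real.le_sqrt_of_sq_le (hAb x hx3)
      have hBy : ‖b.eval x * y‖ ≤ 2 * Real.sqrt T := by
        have h5 : ‖b.eval x * y‖ ^ 2 ≤ 2 * T := by
          have h6 : (b.eval x * y) ^ 2 = a.eval x ^ 2 -
              (a.eval x ^ 2 - F.eval x * b.eval x ^ 2) := by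
            rw [mul_pow, hy]
            ring
          rw [← norm_pow, h6]
          refine (norm_sub_le _ _).trans ?_
          rw [norm_pow]
          linarith [hAb x hx3, hNT x hx3]
        have h7 : ‖b.eval x * y‖ ^ 2 ≤ (2 * Real.sqrt T) ^ 2 := by
          rw [mul_pow, Real.sq_sqrt hT0]
          linarith
        exact (sq_le_sq₀ (norm_nonneg _) (by positivity)).1 h7
      -- `ψ` at both points over `x`
      have hψb : ∀ y' : ℂ, y' ^ 2 = F.eval x → ‖y'‖ = ‖y‖ → ‖b.eval x * y'‖ = ‖b.eval x * y‖ →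
          ‖A₁.eval x + B₁.eval x * y'‖ ≤ Q := by
        intro y' hy' hyy hby
        have h5 := congrArg (ntcEv hy') hψ
        rw [map_mul, map_mul, map_pow, map_pow, QuadraticAlgebra.algebraMap_eq, ntcEv_mk,
          ntcEv_mk, ntcEv_mk, ntcEv_mk] at h5
        simp only [eval_zero, zero_mul, add_zero, eval_neg, eval_C, eval_one, one_mul] at h5
        have h6 : 1 ≤ ‖-η + y'‖ := by
          have := norm_sub_norm_le y' η
          rw [show y' - η = -η + y' by ring, hyy] at this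
          linarith
        have h7 : 1 ≤ ‖-η + y'‖ ^ M := one_le_pow₀ h6
        have h8 : ‖-η + y'‖ ^ M * ‖A₁.eval x + B₁.eval x * y'‖ ≤ Q := by
          rw [← norm_pow, ← norm_mul, ← h5, norm_mul, norm_pow, hQ]
          refine mul_le_mul (pow_le_pow_left₀ (norm_nonneg _) hf₁x M) ?_ (norm_nonneg _)
            (by positivity)
          refine (norm_add_le _ _).trans ?_
          rw [hby]
          linarith
        exact (le_mul_of_one_le_left (norm_nonneg _) h7).trans h8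
      have hp1 := hψb y hy rfl rfl
      have hp2 := hψb (-y) (by rw [neg_pow_two, hy]) (norm_neg y) (by
        rw [mul_neg, norm_neg])
      constructor
      · have h5 : A₁.eval x = ((A₁.eval x + B₁.eval x * y) + (A₁.eval x + B₁.eval x * -y)) / 2 := by
          ring
        rw [h5, norm_div]
        have h6 : ‖(2 : ℂ)‖ = 2 := by norm_num
        rw [h6, div_le_iff₀ (by norm_num)]
        refine (norm_add_le _ _).trans ?_
        linarith
      · have h5 : B₁.eval x * y =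
            ((A₁.eval x + B₁.eval x * y) - (A₁.eval x + B₁.eval x * -y)) / 2 := by
          ring
        have h6 : ‖B₁.eval x * y‖ ≤ Q := by
          rw [h5, norm_div]
          have h6 : ‖(2 : ℂ)‖ = 2 := by norm_num
          rw [h6, div_le_iff₀ (by norm_num)]
          refine (norm_sub_le _ _).trans ?_
          linarith
        rw [norm_mul] at h6
        exact (le_mul_of_one_le_right (norm_nonneg _) (by linarith)).trans h6
    have hA₁ := ntc_max (by positivity) (fun x hx => (hcirc x hx).1)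
      (show ‖ξ‖ ≤ 3 * C₀ by linarith)
    have hB₁ := ntc_max (by positivity) (fun x hx => (hcirc x hx).2)
      (show ‖ξ‖ ≤ 3 * C₀ by linarith)
    -- evaluate at `(ξ, -η)`
    have h1 := congrArg (ntcEv (F := F) (x := ξ) (y := -η) (by rw [neg_pow_two, hη])) hψ
    rw [map_mul, map_mul, map_pow, map_pow, QuadraticAlgebra.algebraMap_eq, ntcEv_mk,
      ntcEv_mk, ntcEv_mk, ntcEv_mk] at h1
    simp only [eval_zero, zero_mul, add_zero, eval_neg, eval_C, eval_one, one_mul] at h1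
    have h2 : a.eval ξ + b.eval ξ * -η = 2 * a.eval ξ := by linear_combination -hAB
    have h3 : -η + -η = -(2 * η) := by ring
    rw [h2, h3, hf₁ξ] at h1
    have h4 : ‖(derivative F).eval ξ‖ ^ M * ‖2 * a.eval ξ‖ ≤ ‖2 * η‖ ^ M * (2 * Q) := by
      rw [← norm_pow, ← norm_mul, h1, norm_mul, norm_pow, norm_neg]
      refine mul_le_mul_of_nonneg_left ?_ (by positivity)
      refine (norm_add_le _ _).trans ?_
      rw [norm_mul, norm_neg]
      have h5 : ‖B₁.eval ξ‖ * ‖η‖ ≤ Q * 1 := mul_le_mul hB₁ hη1 (norm_nonneg _) hQ0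
      linarith
    have h5 : δ ^ M * ‖2 * a.eval ξ‖ ≤ ‖2 * η‖ ^ M * (2 * Q) :=
      (mul_le_mul_of_nonneg_right (pow_le_pow_left₀ hδ0.le hF' M) (norm_nonneg _)).trans h4
    have h6 : (δ ^ M * ‖2 * a.eval ξ‖) ^ 2 ≤ (‖2 * η‖ ^ M * (2 * Q)) ^ 2 :=
      pow_le_pow_left₀ (by positivity) h5 2
    have h7 : (‖2 * η‖ ^ M * (2 * Q)) ^ 2 = (‖2 * η‖ ^ 2) ^ M * (36 * (K₂ ^ 2) ^ M * T) := by
      rw [hQ]
      have h8 : Real.sqrt T ^ 2 = T := Real.sq_sqrt hT0
      calc (‖2 * η‖ ^ M * (2 * (K₂ ^ M * (3 * Real.sqrt T)))) ^ 2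
          = (‖2 * η‖ ^ M) ^ 2 * (36 * (K₂ ^ M) ^ 2 * Real.sqrt T ^ 2) := by ring
        _ = (‖2 * η‖ ^ 2) ^ M * (36 * (K₂ ^ 2) ^ M * T) := by
          rw [h8, ← pow_mul, ← pow_mul, ← pow_mul, ← pow_mul, mul_comm M 2]
    rw [h7, mul_pow, ← pow_mul, mul_comm M 2, pow_mul] at h6
    -- compare the constants
    have h8 : (36 : ℝ) ≤ 36 ^ M := by
      calc (36 : ℝ) = 36 ^ 1 := (pow_one _).symm
        _ ≤ 36 ^ M := pow_le_pow_right₀ (by norm_num) hM
    have h9 : ‖2 * a.eval ξ‖ ^ 2 ≤ (‖2 * η‖ ^ 2) ^ M * (36 ^ M * (K₂ ^ 2) ^ M * T) / (δ ^ 2) ^ M := by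
      rw [le_div_iff₀ (by positivity), mul_comm]
      refine h6.trans (mul_le_mul_of_nonneg_left ?_ (by positivity))
      exact mul_le_mul_of_nonneg_right (mul_le_mul_of_nonneg_right h8 (by positivity)) hT0
    refine h9.trans ?_
    rw [hTE]
    have h10 : K ^ M * (‖2 * η‖ ^ 2 / ρ ^ n) ^ M * E =
        (‖2 * η‖ ^ 2) ^ M * (36 ^ M * (K₂ ^ 2) ^ M * (((92 * C₀) ^ n) ^ M * E)) / (δ ^ 2) ^ M *
          ((C₀ ^ n) ^ M / (ρ ^ n) ^ M) := by
      rw [hK]
      simp only [div_pow, mul_pow]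
      ring
    rw [h10]
    refine le_mul_of_one_le_right (by positivity) ?_
    rw [one_le_div (by positivity)]
    exact pow_le_pow_left₀ (by positivity) hρn M

end Pool.TT
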