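import Pool.Agent.Lib.MP_695920_nt.TT.NTAlg

/-! TT, letter G, part G4a: products of the local bounds over the roots, rational numbers with
all `p`-adic norms at most one, primitive polynomials (dnote of helper26, MP_695920_nt). -/

set_option autoImplicit false

namespace Pool.TT

open Polynomial

/-- split off the roots in a finite set of integers -/
theorem exists_split (T : Finset ℤ) (w : ℚ[X]) (hw : w.Monic) :
    ∃ (s : Multiset ℤ) (w1 : ℚ[X]), w1.Monic ∧
      w = (s.map (fun k : ℤ => X - C (k : ℚ))).prod * w1 ∧ (∀ k ∈ s, k ∈ T) ∧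
      ∀ k ∈ T, w1.eval (k : ℚ) ≠ 0 := by
  induction hn : w.natDegree using Nat.strong_induction_on generalizing w with
  | _ n ih =>
    by_cases h : ∀ k ∈ T, w.eval (k : ℚ) ≠ 0
    · exact ⟨0, w, hw, by simp, by simp, h⟩
    · push Not at h
      obtain ⟨k, hk, hk0⟩ := h
      obtain ⟨w', hw'⟩ := dvd_iff_isRoot.2 (show w.IsRoot (k : ℚ) from hk0)
      have hm : w'.Monic := Monic.of_mul_monic_left (monic_X_sub_C _) (hw' ▸ hw)
      have hd : w'.natDegree < n := by
        rw [← hn, hw', (monic_X_sub_C (k : ℚ)).natDegree_mul hm, natDegree_X_sub_C]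
        omega
      obtain ⟨s, w1, h1, h2, h3, h4⟩ := ih _ hd w' hm rfl
      refine ⟨k ::ₘ s, w1, h1, ?_, ?_, h4⟩
      · rw [Multiset.map_cons, Multiset.prod_cons, mul_assoc, ← h2, hw']
      · intro j hj
        rcases Multiset.mem_cons.1 hj with rfl | hj
        · exact hk
        · exact h3 j hj

/-- the product over the roots is rational -/
theorem exists_rat_prod (w1 g : ℚ[X]) (hw1 : w1.Monic) :
    ∃ r : ℚ, ∀ (L : Type) [Field L] [Algebra ℚ L] [IsAlgClosed L],
      algebraMap ℚ L r = (((w1.map (algebraMap ℚ L)).roots).map (fun ξ => aeval ξ g)).prod := by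
  refine ⟨resultant w1 g w1.natDegree g.natDegree, ?_⟩
  intro L _ _ _
  have h1 := resultant_map_map (algebraMap ℚ L) (f := w1) (g := g) (m := w1.natDegree)
    (n := g.natDegree)
  have h2 := resultant_eq_prod_eval (w1.map (algebraMap ℚ L)) (g.map (algebraMap ℚ L)) g.natDegree
    (by rw [natDegree_map]) (IsAlgClosed.splits _)
  rw [natDegree_map] at h2
  rw [← h1, h2, (hw1.map _).leadingCoeff, one_pow, one_mul]
  congr 1
  apply Multiset.map_congr rfl
  intro ξ _
  rw [eval_map_algebraMap]

theorem prod_step {α : Type*} (R : Multiset α) (b c ρ : α → ℝ) (hb : ∀ x, 0 ≤ b x)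
    (hc : ∀ x, 0 ≤ c x) (hρ : ∀ x, 0 ≤ ρ x) (κ : ℝ) (hκ : 0 ≤ κ) (e M : ℕ)
    (h : ∀ x ∈ R, (b x) ^ 2 * (ρ x) ^ e ≤ κ * (c x) ^ (2 * M)) :
    ((R.map b).prod) ^ 2 * ((R.map ρ).prod) ^ e ≤
      κ ^ (Multiset.card R) * ((R.map c).prod) ^ (2 * M) := by
  induction R using Multiset.induction_on with
  | empty => simp
  | cons a s ih =>
    have ih' := ih (fun x hx => h x (Multiset.mem_cons_of_mem hx))
    have ha := h a (Multiset.mem_cons_self a s)
    rw [Multiset.map_cons, Multiset.map_cons, Multiset.map_cons, Multiset.prod_cons,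
      Multiset.prod_cons, Multiset.prod_cons, Multiset.card_cons]
    have h1 : 0 ≤ (s.map b).prod := Multiset.prod_nonneg (by simpa using fun x _ => hb x)
    have h2 : 0 ≤ (s.map c).prod := Multiset.prod_nonneg (by simpa using fun x _ => hc x)
    have h3 : 0 ≤ (s.map ρ).prod := Multiset.prod_nonneg (by simpa using fun x _ => hρ x)
    calc (b a * (s.map b).prod) ^ 2 * (ρ a * (s.map ρ).prod) ^ e
        = ((b a) ^ 2 * (ρ a) ^ e) * ((s.map b).prod ^ 2 * (s.map ρ).prod ^ e) := by
          rw [mul_pow, mul_pow]; ring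
      _ ≤ (κ * (c a) ^ (2 * M)) * (κ ^ (Multiset.card s) * (s.map c).prod ^ (2 * M)) := by
          apply mul_le_mul ha ih' (by positivity)
          have := hc a
          positivity
      _ = _ := by rw [mul_pow, pow_succ]; ring

theorem prod_max_le {L : Type*} (v : L → ℝ) (R : Multiset L) {ρ : ℝ}
    (hρ : 1 ≤ ρ) :
    (R.map (fun z => max ρ (v z))).prod ≤
      ρ ^ (Multiset.card R) * (R.map (fun z => max 1 (v z))).prod := by
  induction R using Multiset.induction_on with
  | empty => simp
  | cons a s ih =>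
    rw [Multiset.map_cons, Multiset.map_cons, Multiset.prod_cons, Multiset.prod_cons,
      Multiset.card_cons]
    have h1 : 0 ≤ (s.map (fun z => max ρ (v z))).prod :=
      Multiset.prod_nonneg (by
        intro r hr
        obtain ⟨z, _, rfl⟩ := Multiset.mem_map.1 hr
        exact le_max_of_le_left (by linarith))
    have h2 : max ρ (v a) ≤ ρ * max 1 (v a) := by
      apply max_le
      · exact le_mul_of_one_le_right (by linarith) (le_max_left _ _)
      · calc v a ≤ max 1 (v a) := le_max_right _ _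
          _ = 1 * max 1 (v a) := (one_mul _).symm
          _ ≤ _ := mul_le_mul_of_nonneg_right hρ (le_max_of_le_left zero_le_one)
    calc _ ≤ (ρ * max 1 (v a)) * (ρ ^ (Multiset.card s) *
          (s.map (fun z => max 1 (v z))).prod) := by
          apply mul_le_mul h2 ih h1
          apply mul_nonneg (by linarith) (le_max_of_le_left zero_le_one)
      _ = _ := by rw [pow_succ]; ring

theorem prod_Z_le {L : Type*} (v : L → ℝ) (R : Multiset L) {ι : Type*}
    [Fintype ι] (a : ι → ℕ) (x : ι → L) {X0 ρ : ℝ} (hX0 : 1 ≤ X0) (hx : ∀ i, v (x i) ≤ X0)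
    (hρ : 1 ≤ ρ) (M : ℕ) :
    ((M • R + ∑ i, a i • ({x i} : Multiset L)).map (fun z => max ρ (v z))).prod ≤
      (ρ ^ (Multiset.card R) * (R.map (fun z => max 1 (v z))).prod) ^ M *
        (ρ * X0) ^ (∑ i, a i) := by
  classical
  have hpos : ∀ S : Multiset L, 0 ≤ (S.map (fun z => max ρ (v z))).prod := fun S =>
    Multiset.prod_nonneg (by
        intro r hr
        obtain ⟨z, _, rfl⟩ := Multiset.mem_map.1 hr
        exact le_max_of_le_left (by linarith))
  have hsum : ∀ s : Finset ι, ((∑ i ∈ s, a i • ({x i} : Multiset L)).map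
      (fun z => max ρ (v z))).prod ≤ (ρ * X0) ^ (∑ i ∈ s, a i) := by
    intro s
    induction s using Finset.induction_on with
    | empty => simp
    | insert j t hj ih =>
      rw [Finset.sum_insert hj, Finset.sum_insert hj, Multiset.map_add, Multiset.prod_add,
        Multiset.map_nsmul, Multiset.prod_nsmul, pow_add, Multiset.map_singleton,
        Multiset.prod_singleton]
      have h1 : max ρ (v (x j)) ≤ ρ * X0 := by
        apply max_le
        · exact le_mul_of_one_le_right (by linarith) hX0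
        · calc v (x j) ≤ X0 := hx j
            _ = 1 * X0 := (one_mul _).symm
            _ ≤ _ := mul_le_mul_of_nonneg_right hρ (by linarith)
      apply mul_le_mul _ ih (hpos _) (by positivity)
      exact pow_le_pow_left₀ (le_max_of_le_left (by linarith)) h1 _
  rw [Multiset.map_add, Multiset.prod_add, Multiset.map_nsmul, Multiset.prod_nsmul]
  apply mul_le_mul _ (hsum _) (hpos _)
  · have h0 : 0 ≤ (R.map (fun z => max 1 (v z))).prod :=
      Multiset.prod_nonneg (by
        intro r hr
        obtain ⟨z, _, rfl⟩ := Multiset.mem_map.1 hr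
        exact le_max_of_le_left zero_le_one)
    positivity
  · exact pow_le_pow_left₀ (hpos _) (prod_max_le v R hρ) _

/-- a nonzero rational number with all `p`-adic norms at most one is at least one -/
theorem one_le_abs_of_padic {q : ℚ} (hq : q ≠ 0)
    (h : ∀ (p : ℕ) [Fact p.Prime], ‖(q : ℚ_[p])‖ ≤ 1) : 1 ≤ |q| := by
  have hden : q.den = 1 := by
    by_contra hne
    obtain ⟨p, hp, hpd⟩ := Nat.exists_prime_and_dvd hne
    have : Fact p.Prime := ⟨hp⟩
    have h1 := h p
    have h2 : (q : ℚ_[p]) * (q.den : ℚ_[p]) = (q.num : ℚ_[p]) := by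
      have := Rat.mul_den_eq_num q
      exact_mod_cast congrArg (fun x : ℚ => (x : ℚ_[p])) this
    have h3 : ‖(q.num : ℚ_[p])‖ = 1 := by
      rw [Padic.norm_intCast_eq_one_iff]
      have hc := q.reduced
      have h4 : Nat.Coprime p q.num.natAbs := (Nat.Coprime.coprime_dvd_right hpd hc).symm
      rw [Int.isCoprime_iff_gcd_eq_one]
      have h5 : Int.gcd q.num (p : ℤ) = 1 := by
        rw [Int.gcd_eq_natAbs, Int.natAbs_natCast]
        exact h4.symm
      exact h5
    have h6 : ‖(q.den : ℚ_[p])‖ < 1 := by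
      have := Padic.norm_natCast_lt_one_iff (p := p) (n := q.den)
      exact this.2 hpd
    have h7 := congrArg norm h2
    rw [norm_mul, h3] at h7
    have h8 : ‖(q : ℚ_[p])‖ * ‖(q.den : ℚ_[p])‖ < 1 := by
      calc _ ≤ 1 * ‖(q.den : ℚ_[p])‖ := mul_le_mul_of_nonneg_right h1 (norm_nonneg _)
        _ < 1 := by rw [one_mul]; exact h6
    linarith
  have h1 : q = (q.num : ℚ) := by
    conv_lhs => rw [← Rat.num_div_den q, hden]
    simp
  have h2 : q.num ≠ 0 := Rat.num_ne_zero.2 hq
  rw [h1]
  have h3 : (1 : ℤ) ≤ |q.num| := Int.one_le_abs h2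
  exact_mod_cast h3

/-- the primitive integer polynomial proportional to `w` -/
theorem exists_primitive {w : ℚ[X]} (hw : w ≠ 0) :
    ∃ (W : ℤ[X]) (c : ℚ), c ≠ 0 ∧ W.IsPrimitive ∧ W.map (Int.castRingHom ℚ) = C c * w := by
  obtain ⟨b, hbm, hb⟩ := IsLocalization.integerNormalization_spec (nonZeroDivisors ℤ) w
  set W' := IsLocalization.integerNormalization (nonZeroDivisors ℤ) w with hW'
  have hb0 : (b : ℤ) ≠ 0 := nonZeroDivisors.ne_zero hbm
  have h1 : W'.map (Int.castRingHom ℚ) = C ((b : ℤ) : ℚ) * w := by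
    have h2 : W'.map (Int.castRingHom ℚ) = b • w := hb
    rw [h2]
    ext i
    rw [coeff_C_mul, coeff_smul]
    simp
  have hW0 : W' ≠ 0 := by
    intro h0
    rw [h0, Polynomial.map_zero] at h1
    have h3 := mul_eq_zero.1 h1.symm
    rcases h3 with h3 | h3
    · rw [C_eq_zero] at h3
      exact hb0 (by exact_mod_cast h3)
    · exact hw h3
  have hc : W'.content ≠ 0 := by rwa [Ne, content_eq_zero_iff]
  refine ⟨W'.primPart, (b : ℤ) / (W'.content : ℚ), ?_, isPrimitive_primPart _, ?_⟩
  · apply div_ne_zero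
    · exact_mod_cast hb0
    · exact_mod_cast hc
  · have h4 := W'.eq_C_content_mul_primPart
    have h5 := congrArg (Polynomial.map (Int.castRingHom ℚ)) h4
    rw [h1, Polynomial.map_mul, map_C] at h5
    have h6 : (W'.content : ℚ) ≠ 0 := by exact_mod_cast hc
    have h7 : C ((W'.content : ℚ)) * (W'.primPart.map (Int.castRingHom ℚ)) =
        C ((W'.content : ℚ)) * (C ((b : ℤ) / (W'.content : ℚ)) * w) := by
      rw [← mul_assoc, ← C_mul, mul_div_cancel₀ _ h6, h5]
      rfl
    exact mul_left_cancel₀ (by rwa [Ne, C_eq_zero]) h7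

end Pool.TT
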