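import Pool.Agent.Lib.MP_695920_nt.TT.NTFinite
import Pool.Agent.Lib.MP_695920_nt.TT.NTComplex

/-! TT, letter G, part G4b: the product inequality at one place, the `p`-adic and the complex
instance, finiteness of `w` (dnote of helper26, MP_695920_nt). -/

set_option autoImplicit false

namespace Pool.TT

open Polynomial

/-- Bezout identity with integer coefficients -/
theorem exists_bezout {ι : Type*} (P : Pts ι) :
    ∃ (a b : ℤ[X]) (D : ℤ), D ≠ 0 ∧ a * P.f0 + b * derivative P.f0 = C D := by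
  have hdeg : P.f0.natDegree ≠ 0 := by have := P.three; omega
  obtain ⟨p, q, -, -, hpq⟩ := exists_mul_add_mul_eq_C_resultant (m := P.f0.natDegree)
    (n := (derivative P.f0).natDegree) P.f0 (derivative P.f0) le_rfl le_rfl (Or.inl hdeg)
  refine ⟨p, q, resultant P.f0 (derivative P.f0) P.f0.natDegree (derivative P.f0).natDegree,
    ?_, by rw [← hpq]; ring⟩
  intro h0
  have h1 := resultant_map_map (Int.castRingHom ℚ) (f := P.f0) (g := derivative P.f0)
    (m := P.f0.natDegree) (n := (derivative P.f0).natDegree)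
  rw [h0, map_zero] at h1
  have hsep : P.f.Separable := P.f_irr.separable
  have hcop : IsCoprime P.f (derivative P.f) := hsep
  have h2 := resultant_ne_zero P.f (derivative P.f) hcop
  apply h2
  have e1 : P.f.natDegree = P.f0.natDegree := P.f_natDegree
  have e2 : derivative P.f = (derivative P.f0).map (Int.castRingHom ℚ) := by
    rw [Pts.f, derivative_map]
  have e3 : (derivative P.f).natDegree = (derivative P.f0).natDegree := by
    rw [e2]
    exact natDegree_map_eq_of_injective (by exact Int.cast_injective) _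
  rw [e1, e3, e2]
  exact h1

section Prod

variable {ι : Type*} [Fintype ι] {P : Pts ι} {w : ℚ[X]} (d : NTData P w)
  {L : Type} [Field L] [Algebra ℚ L] [IsAlgClosed L]

theorem NTData.exp_nonneg :
    w.natDegree * d.M + ∑ i, d.a i ≤ P.f.natDegree * d.M := by
  have h1 := d.ha
  have h2 : (2 * w.natDegree + 1) * d.M ≤ P.f.natDegree * d.M :=
    Nat.mul_le_mul_right _ d.hdeg
  nlinarith [d.hM]

/-- the product inequality at one place -/
theorem NTData.local_prod (v : AbsoluteValue L ℝ) {K X0 : ℝ} (hK : 0 ≤ K) (hX0 : 1 ≤ X0)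
    (hx : ∀ i, v (P.x i : L) ≤ X0) (w1 : ℚ[X]) (hw1 : w1.Monic) (hdvd : w1 ∣ w)
    (hw1x : ∀ i, w1.eval (P.x i : ℚ) ≠ 0) (e0 : ℕ)
    (he0 : P.f.natDegree * d.M = e0 + w.natDegree * d.M + ∑ i, d.a i)
    (r s : ℚ)
    (hr : algebraMap ℚ L r =
      (((w1.map (algebraMap ℚ L)).roots).map (fun ξ => aeval ξ (C 2 * d.φ.re))).prod)
    (hs : algebraMap ℚ L s =
      (((w1.map (algebraMap ℚ L)).roots).map (fun ξ => aeval ξ (C 2 * d.v))).prod)
    (hLB : ∀ ξ : L, aeval ξ w = 0 → (∀ i, ξ ≠ (P.x i : L)) →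
      (v (2 * aeval ξ d.φ.re)) ^ 2 ≤ K ^ d.M *
        ((v (2 * aeval ξ d.v)) ^ 2 / (max 1 (v ξ)) ^ P.f.natDegree) ^ d.M *
        (((d.M • (w.map (algebraMap ℚ L)).roots +
          ∑ i, d.a i • ({(P.x i : L)} : Multiset L))).map
            (fun z => max (max 1 (v ξ)) (v z))).prod) :
    (v (algebraMap ℚ L r)) ^ 2 *
      (((w1.map (algebraMap ℚ L)).roots).map (fun z => max 1 (v z))).prod ^ e0 ≤
    (K ^ d.M * X0 ^ (∑ i, d.a i) *
      (((w.map (algebraMap ℚ L)).roots).map (fun z => max 1 (v z))).prod ^ d.M) ^ w1.natDegree *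
      (v (algebraMap ℚ L s)) ^ (2 * d.M) := by
  set al := algebraMap ℚ L with hal
  set Λ := (((w.map al).roots).map (fun z => max 1 (v z))).prod with hΛ
  have hΛ0 : 0 ≤ Λ := Multiset.prod_nonneg (by
    intro r hr
    obtain ⟨z, _, rfl⟩ := Multiset.mem_map.1 hr
    exact le_max_of_le_left zero_le_one)
  have hcard : Multiset.card (w.map al).roots = w.natDegree := by
    rw [← natDegree_map al]
    exact (IsAlgClosed.splits (w.map al)).natDegree_eq_card_roots.symm
  have hcard1 : Multiset.card (w1.map al).roots = w1.natDegree := by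
    rw [← natDegree_map al]
    exact (IsAlgClosed.splits (w1.map al)).natDegree_eq_card_roots.symm
  have hstep := prod_step ((w1.map al).roots) (fun ξ => v (aeval ξ (C 2 * d.φ.re)))
    (fun ξ => v (aeval ξ (C 2 * d.v))) (fun ξ => max 1 (v ξ)) (fun _ => v.nonneg _)
    (fun _ => v.nonneg _) (fun _ => le_max_of_le_left zero_le_one)
    (K ^ d.M * X0 ^ (∑ i, d.a i) * Λ ^ d.M) (by positivity) e0 d.M ?_
  · have e1 : (((w1.map al).roots).map (fun ξ => v (aeval ξ (C 2 * d.φ.re)))).prod =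
        v (al r) := by
      rw [hr, map_multiset_prod, Multiset.map_map]; rfl
    have e2 : (((w1.map al).roots).map (fun ξ => v (aeval ξ (C 2 * d.v)))).prod =
        v (al s) := by
      rw [hs, map_multiset_prod, Multiset.map_map]; rfl
    rw [e1, e2, hcard1] at hstep
    exact hstep
  · intro ξ hξ
    have hξ1 : aeval ξ w1 = 0 := by
      have := (mem_roots ((hw1.map al).ne_zero)).1 hξ
      rwa [IsRoot.def, eval_map_algebraMap] at this
    have hξw : aeval ξ w = 0 := by
      obtain ⟨c, hc⟩ := hdvd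
      rw [hc, map_mul, hξ1, zero_mul]
    have hξx : ∀ i, ξ ≠ (P.x i : L) := by
      intro i hi
      apply hw1x i
      rw [hi] at hξ1
      have h2 : aeval ((P.x i : L)) w1 = al (w1.eval (P.x i : ℚ)) := by
        rw [hal, ← aeval_algebraMap_apply_eq_algebraMap_eval]
        simp
      rw [h2] at hξ1
      exact (map_eq_zero al).1 hξ1
    have hb := hLB ξ hξw hξx
    set ρ := max 1 (v ξ) with hρ
    have hρ1 : (1 : ℝ) ≤ ρ := le_max_left _ _
    have hρ0 : (0 : ℝ) < ρ := by linarith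
    have hZ := prod_Z_le v (w.map al).roots d.a (fun i => (P.x i : L)) hX0 hx hρ1 d.M
    rw [hcard, ← hΛ] at hZ
    have e1 : aeval ξ (C 2 * d.φ.re) = 2 * aeval ξ d.φ.re := by
      rw [map_mul, aeval_C]; simp
    have e2 : aeval ξ (C 2 * d.v) = 2 * aeval ξ d.v := by
      rw [map_mul, aeval_C]; simp
    rw [e1, e2]
    set n := P.f.natDegree with hn
    set c := v (2 * aeval ξ d.v) with hc
    have hc0 : 0 ≤ c := v.nonneg _
    have hb2 : (v (2 * aeval ξ d.φ.re)) ^ 2 ≤ K ^ d.M * (c ^ 2 / ρ ^ n) ^ d.M *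
        ((ρ ^ w.natDegree * Λ) ^ d.M * (ρ * X0) ^ (∑ i, d.a i)) :=
      hb.trans (mul_le_mul_of_nonneg_left hZ (by positivity))
    have e3 : K ^ d.M * (c ^ 2 / ρ ^ n) ^ d.M *
        ((ρ ^ w.natDegree * Λ) ^ d.M * (ρ * X0) ^ (∑ i, d.a i)) =
        (K ^ d.M * X0 ^ (∑ i, d.a i) * Λ ^ d.M * c ^ (2 * d.M)) / ρ ^ e0 := by
      rw [eq_div_iff (by positivity), div_pow, mul_pow, mul_pow, ← pow_mul, ← pow_mul, ← pow_mul,
        he0, pow_add, pow_add]
      field_simp
    rw [e3] at hb2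
    rwa [le_div_iff₀ (by positivity)] at hb2

end Prod

/-- the roots of `w` -/
theorem roots_split {L : Type} [Field L] [Algebra ℚ L] {w w1 : ℚ[X]} {s0 : Multiset ℤ}
    (hw1 : w1.Monic) (hw : w = (s0.map (fun k : ℤ => X - C (k : ℚ))).prod * w1) :
    (w.map (algebraMap ℚ L)).roots =
      s0.map (fun k : ℤ => (k : L)) + (w1.map (algebraMap ℚ L)).roots := by
  have h0 : ((s0.map (fun k : ℤ => X - C (k : ℚ))).prod).map (algebraMap ℚ L) =
      ((s0.map (fun k : ℤ => (k : L))).map (fun z => X - C z)).prod := by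
    rw [Polynomial.map_multiset_prod, Multiset.map_map, Multiset.map_map]
    congr 1
    apply Multiset.map_congr rfl
    intro k _
    simp
  have hne : ((s0.map (fun k : ℤ => (k : L))).map (fun z => X - C z)).prod ≠ 0 := by
    apply Multiset.prod_ne_zero
    intro h
    obtain ⟨z, _, hz⟩ := Multiset.mem_map.1 h
    exact X_sub_C_ne_zero z hz
  rw [hw, Polynomial.map_mul, h0, roots_mul (mul_ne_zero hne (hw1.map _).ne_zero),
    roots_multiset_prod_X_sub_C]

/-! ### the `p`-adic places -/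

section Padic

variable (p : ℕ) [Fact p.Prime]

/-- the norm of `PadicAlgCl p` as an absolute value -/
noncomputable def vp : AbsoluteValue (PadicAlgCl p) ℝ :=
  IsAbsoluteValue.toAbsoluteValue (norm : PadicAlgCl p → ℝ)

theorem vp_apply (z : PadicAlgCl p) : vp p z = ‖z‖ := rfl

theorem vp_na : IsNonarchimedean (vp p) := PadicAlgCl.isNonarchimedean p

theorem vp_rat (q : ℚ) : vp p (algebraMap ℚ (PadicAlgCl p) q) = ‖(q : ℚ_[p])‖ := by
  rw [vp_apply, ← PadicAlgCl.norm_extends]
  congr 1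

theorem vp_int (k : ℤ) : vp p (k : PadicAlgCl p) ≤ 1 := by
  have h1 : (k : PadicAlgCl p) = algebraMap ℚ (PadicAlgCl p) (k : ℚ) := by simp
  rw [h1, vp_rat]
  have h2 : (((k : ℚ) : ℚ_[p])) = ((k : ℤ) : ℚ_[p]) := by simp
  rw [h2]
  exact Padic.norm_int_le_one k

theorem NTData.padic {ι : Type*} [Fintype ι] {P : Pts ι} {w : ℚ[X]} (d : NTData P w)
    {a b : ℤ[X]} {D : ℤ} (hD : D ≠ 0) (hab : a * P.f0 + b * derivative P.f0 = C D)
    {s0 : Multiset ℤ} {w1 : ℚ[X]} (hw1 : w1.Monic)
    (hw : w = (s0.map (fun k : ℤ => X - C (k : ℚ))).prod * w1)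
    (hw1x : ∀ i, w1.eval (P.x i : ℚ) ≠ 0) (e : ℕ)
    (he : P.f.natDegree * d.M =
      e + w1.natDegree * d.M + w.natDegree * d.M + ∑ i, d.a i) (r s : ℚ)
    (hr : algebraMap ℚ (PadicAlgCl p) r = (((w1.map (algebraMap ℚ (PadicAlgCl p))).roots).map
      (fun ξ => aeval ξ (C 2 * d.φ.re))).prod)
    (hs : algebraMap ℚ (PadicAlgCl p) s = (((w1.map (algebraMap ℚ (PadicAlgCl p))).roots).map
      (fun ξ => aeval ξ (C 2 * d.v))).prod)
    {W : ℤ[X]} {c : ℚ} (hW : W.IsPrimitive) (hWc : W.map (Int.castRingHom ℚ) = C c * w) :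
    ‖(r : ℚ_[p])‖ ^ 2 * ‖((4 * (D : ℚ) ^ 2 : ℚ) : ℚ_[p])‖ ^ (w1.natDegree * d.M) ≤
      ‖(s : ℚ_[p])‖ ^ (2 * d.M) * ‖(c : ℚ_[p])‖ ^ e := by
  set al := algebraMap ℚ (PadicAlgCl p) with hal
  set v := vp p with hv
  have hna : IsNonarchimedean v := vp_na p
  have hint : ∀ Q : ℤ[X], ∀ i, v ((Q.map (Int.castRingHom (PadicAlgCl p))).coeff i) ≤ 1 := by
    intro Q i
    rw [coeff_map]
    exact vp_int p _
  have hF : P.f.map al = P.f0.map (Int.castRingHom (PadicAlgCl p)) := by
    rw [Pts.f, map_map]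
    congr 1
  set Λ := (((w.map al).roots).map (fun z => max 1 (v z))).prod with hΛ
  have hΛ1 : 1 ≤ Λ := by
    apply Multiset.one_le_prod
    intro x hx
    obtain ⟨z, _, rfl⟩ := Multiset.mem_map.1 hx
    exact le_max_left _ _
  have hΛe : (((w1.map al).roots).map (fun z => max 1 (v z))).prod = Λ := by
    rw [hΛ, roots_split hw1 hw, Multiset.map_add, Multiset.prod_add, Multiset.map_map]
    have : (s0.map ((fun z => max 1 (v z)) ∘ fun k : ℤ => (k : PadicAlgCl p))).prod = 1 := by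
      apply Multiset.prod_eq_one
      intro x hx
      obtain ⟨k, _, rfl⟩ := Multiset.mem_map.1 hx
      exact max_eq_left (vp_int p k)
    rw [this, one_mul]
  have hD' : ((D : ℤ) : PadicAlgCl p) ≠ 0 := by exact_mod_cast hD
  have habL : (a.map (Int.castRingHom (PadicAlgCl p))) * P.f.map al +
      (b.map (Int.castRingHom (PadicAlgCl p))) * derivative (P.f.map al) =
      C ((D : ℤ) : PadicAlgCl p) := by
    have h := congrArg (Polynomial.map (Int.castRingHom (PadicAlgCl p))) hab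
    rw [Polynomial.map_add, Polynomial.map_mul, Polynomial.map_mul, map_C, ← derivative_map,
      ← hF] at h
    simpa using h
  have h4D : al (4 * (D : ℚ) ^ 2) = 4 * ((D : ℤ) : PadicAlgCl p) ^ 2 := by
    simp
  have hK : 0 ≤ (v (4 * ((D : ℤ) : PadicAlgCl p) ^ 2))⁻¹ := inv_nonneg.2 (v.nonneg _)
  have hloc := d.local_prod (L := PadicAlgCl p) v hK le_rfl (fun i => vp_int p (P.x i)) w1 hw1
    ⟨_, by rw [hw, mul_comm]⟩ hw1x (e + w1.natDegree * d.M) he r s hr hs ?_
  · rw [hΛe, ← hΛ, one_pow, mul_one] at hloc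
    have hc1 : 1 ≤ v (al c) * Λ := by
      -- a unit coefficient of `W`
      have hex : ∃ i, ¬ (p : ℤ) ∣ W.coeff i := by
        by_contra hall
        push Not at hall
        have h1 : C (p : ℤ) ∣ W := (C_dvd_iff_dvd_coeff _ _).2 hall
        have h2 := hW _ h1
        have h3 : (p : ℤ).natAbs = 1 := Int.isUnit_iff_natAbs_eq.1 h2
        have h4 := (Fact.out : p.Prime).one_lt
        simp at h3
        omega
      obtain ⟨i, hi⟩ := hex
      have h1 : v ((W.map (Int.castRingHom (PadicAlgCl p))).coeff i) = 1 := by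
        rw [coeff_map]
        have h2 : (Int.castRingHom (PadicAlgCl p)) (W.coeff i) = al ((W.coeff i : ℤ) : ℚ) := by
          simp
        rw [h2, hv, vp_rat]
        have h3 : (((W.coeff i : ℤ) : ℚ) : ℚ_[p]) = ((W.coeff i : ℤ) : ℚ_[p]) := by simp
        rw [h3, Padic.norm_intCast_eq_one_iff]
        exact (Int.isCoprime_iff_gcd_eq_one.2 (by
          have h4 : Nat.Coprime p (W.coeff i).natAbs := by
            rw [Nat.Prime.coprime_iff_not_dvd (Fact.out : p.Prime)]
            intro h5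
            exact hi (Int.natCast_dvd.2 h5)
          rw [Int.gcd_eq_natAbs, Int.natAbs_natCast]
          exact h4.symm))
      have h2 : W.map (Int.castRingHom (PadicAlgCl p)) = C (al c) * w.map al := by
        have h3 := congrArg (Polynomial.map al) hWc
        rw [map_map, Polynomial.map_mul, map_C] at h3
        rw [← h3]
        congr 1
      rw [h2, coeff_C_mul, map_mul] at h1
      have h3 : v ((w.map al).coeff i) ≤ Λ := by
        have h4 := (w.map al).le_gaussNorm v (zero_le_one) i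
        rw [one_pow, mul_one] at h4
        refine h4.trans ?_
        have h5 : w.map al = ((w.map al).roots.map (fun z => X - C z)).prod := by
          have h := (IsAlgClosed.splits (w.map al)).eq_prod_roots
          rwa [(d.hw.map al).leadingCoeff, C_1, one_mul] at h
        rw [h5, gaussNorm_prod hna one_pos]
      calc (1 : ℝ) = v (al c) * v ((w.map al).coeff i) := h1.symm
        _ ≤ _ := mul_le_mul_of_nonneg_left h3 (v.nonneg _)
    have er : v (al r) = ‖(r : ℚ_[p])‖ := vp_rat p r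
    have es : v (al s) = ‖(s : ℚ_[p])‖ := vp_rat p s
    have ec : v (al c) = ‖(c : ℚ_[p])‖ := vp_rat p c
    have e4 : v (4 * ((D : ℤ) : PadicAlgCl p) ^ 2) = ‖((4 * (D : ℚ) ^ 2 : ℚ) : ℚ_[p])‖ := by
      rw [← h4D]; exact vp_rat p _
    rw [← er, ← es, ← ec, ← e4]
    set κ := v (4 * ((D : ℤ) : PadicAlgCl p) ^ 2) with hκ
    have hκ0 : 0 < κ := v.pos (by simp [hD'])
    have hΛ0 : 0 < Λ := by linarith
    -- cancel
    have h5 : (v (al r)) ^ 2 * κ ^ (w1.natDegree * d.M) * Λ ^ e ≤ (v (al s)) ^ (2 * d.M) := by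
      have h6 : (κ⁻¹ ^ d.M * Λ ^ d.M) ^ w1.natDegree =
          Λ ^ (w1.natDegree * d.M) / κ ^ (w1.natDegree * d.M) := by
        rw [← mul_pow, ← pow_mul, mul_pow, inv_pow, mul_comm d.M]
        field_simp
      rw [h6, pow_add, ← mul_assoc] at hloc
      have h7 : (v (al r)) ^ 2 * Λ ^ e * Λ ^ (w1.natDegree * d.M) * κ ^ (w1.natDegree * d.M) ≤
          Λ ^ (w1.natDegree * d.M) * (v (al s)) ^ (2 * d.M) := by
        have h8 := mul_le_mul_of_nonneg_right hloc
          (show 0 ≤ κ ^ (w1.natDegree * d.M) by positivity)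
        have h9 : Λ ^ (w1.natDegree * d.M) / κ ^ (w1.natDegree * d.M) * (v (al s)) ^ (2 * d.M) *
            κ ^ (w1.natDegree * d.M) = Λ ^ (w1.natDegree * d.M) * (v (al s)) ^ (2 * d.M) := by
          field_simp
        rwa [h9] at h8
      have h10 : 0 < Λ ^ (w1.natDegree * d.M) := by positivity
      refine le_of_mul_le_mul_left ?_ h10
      calc Λ ^ (w1.natDegree * d.M) * ((v (al r)) ^ 2 * κ ^ (w1.natDegree * d.M) * Λ ^ e)
          = (v (al r)) ^ 2 * Λ ^ e * Λ ^ (w1.natDegree * d.M) * κ ^ (w1.natDegree * d.M) := by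
            ring
        _ ≤ _ := h7
    have h11 : 1 ≤ (v (al c)) ^ e * Λ ^ e := by
      rw [← mul_pow]; exact one_le_pow₀ hc1
    have h12 : 0 ≤ (v (al r)) ^ 2 * κ ^ (w1.natDegree * d.M) := by positivity
    have h13 : 0 ≤ (v (al c)) ^ e := pow_nonneg (v.nonneg _) _
    calc (v (al r)) ^ 2 * κ ^ (w1.natDegree * d.M)
        ≤ (v (al r)) ^ 2 * κ ^ (w1.natDegree * d.M) * ((v (al c)) ^ e * Λ ^ e) :=
          le_mul_of_one_le_right h12 h11
      _ = (v (al r)) ^ 2 * κ ^ (w1.natDegree * d.M) * Λ ^ e * (v (al c)) ^ e := by ring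
      _ ≤ (v (al s)) ^ (2 * d.M) * (v (al c)) ^ e := mul_le_mul_of_nonneg_right h5 h13
  · intro ξ hξ _
    obtain ⟨s1, hs1, hN⟩ := d.norm_map (L := PadicAlgCl p)
    have hdvdf : (X - C ξ) ∣ P.f.map al - C ((P.f.map al).eval ξ) := by
      rw [dvd_iff_isRoot, IsRoot.def, eval_sub, eval_C, sub_self]
    obtain ⟨f1, hf1⟩ := hdvdf
    have hf1' : f1 * (X - C ξ) = P.f.map al - C ((P.f.map al).eval ξ) := by rw [hf1]; ring
    obtain ⟨A1, B1, hpsi⟩ := d.exists_psi hξ f1 hf1'
    have hFn : (P.f.map al).natDegree = P.f.natDegree := natDegree_map _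
    have hsq : (aeval ξ d.v) ^ 2 = (P.f.map al).eval ξ := by
      rw [eval_map_algebraMap]; exact d.eta_sq hξ
    have h0 : (d.φ.re.map al).eval ξ + (d.φ.im.map al).eval ξ * aeval ξ d.v = 0 := by
      rw [eval_map_algebraMap, eval_map_algebraMap]; exact d.eval_eq hξ
    have h := padic_bound (v := v) hna (F := P.f.map al)
      (a := a.map (Int.castRingHom (PadicAlgCl p))) (b := b.map (Int.castRingHom (PadicAlgCl p)))
      (D := ((D : ℤ) : PadicAlgCl p)) (P.f_monic.map al)
      (by rw [hFn, P.f_natDegree]; exact P.odd) (by rw [hF]; exact hint _) (hint a) (hint b) hD'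
      (vp_int p D) two_ne_zero (by simpa using vp_int p 2) habL d.M _ (d.φ.re.map al)
      (d.φ.im.map al) s1 (by rcases hs1 with h | h <;> rw [h] <;> simp) hN A1 B1 f1 ξ
      (aeval ξ d.v) hsq h0 hf1' hpsi
    rw [hFn, eval_map_algebraMap] at h
    exact h

end Padic

end Pool.TT
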