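import Mathlib

/-!
MP_695920_nt, TT: numerical lemmas (letter H).
-/

set_option autoImplicit false

namespace Pool.TT

open Real Filter Topology

/-- the parameter `t` of the binomial bound -/
noncomputable def tt (w : ℝ) : ℝ := exp 1 / (w ^ 2 - exp 1)

/-- the exponent `σ` -/
noncomputable def sg (w : ℝ) : ℝ := 2 * log w * tt w / log 2

lemma choose_mul_le (r k : ℕ) {t : ℝ} (ht : 0 < t) :
    ((r + k).choose k : ℝ) * t ^ k ≤ (1 + t) ^ (r + k) := by
  rw [add_comm 1 t, add_pow]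
  have h := Finset.single_le_sum (f := fun m => t ^ m * 1 ^ (r + k - m) * ((r + k).choose m : ℝ))
    (s := Finset.range (r + k + 1)) (fun m _ => by positivity)
    (Finset.mem_range.2 (by omega : k < r + k + 1))
  simp only [one_pow, mul_one] at h ⊢
  linarith

lemma T_cosh_log {w : ℝ} (hw : 0 < w) (k : ℕ) :
    (Polynomial.Chebyshev.T ℝ k).eval ((w + w⁻¹) / 2) = (w ^ k + (w ^ k)⁻¹) / 2 := by
  rw [← cosh_log hw, Polynomial.Chebyshev.T_real_cosh]
  have h : ((k : ℤ) : ℝ) * log w = log (w ^ k) := by rw [log_pow]; simp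
  rw [h, cosh_log (by positivity)]

/-- choice of the degree `k` -/
lemma exists_k {w : ℝ} (hw : 1 < w) (hw2 : exp 1 < w ^ 2) (r : ℕ) :
    ∃ k : ℕ, 2 * ((r + k).choose k : ℝ) ≤
      ((Polynomial.Chebyshev.T ℝ k).eval ((w + w⁻¹) / 2)) ^ 2 ∧
      ((Polynomial.Chebyshev.T ℝ k).eval ((w + w⁻¹) / 2)) ^ 2 ≤
        exp (2 * log w * (r * tt w + log 8 + 1)) := by
  have hw0 : 0 < w := by linarith
  have ht : 0 < tt w := div_pos (exp_pos 1) (by linarith)
  have hl8 : 0 < log 8 := log_pos (by norm_num)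
  set k : ℕ := ⌈(r : ℝ) * tt w + log 8⌉₊ with hk
  have hk1 : (r : ℝ) * tt w + log 8 ≤ k := Nat.le_ceil _
  have hk2 : (k : ℝ) < r * tt w + log 8 + 1 := Nat.ceil_lt_add_one (by positivity)
  have hwk : 1 ≤ w ^ k := one_le_pow₀ hw.le
  have hinv : (w ^ k)⁻¹ ≤ 1 := inv_le_one_of_one_le₀ hwk
  have hinv0 : 0 < (w ^ k)⁻¹ := by positivity
  refine ⟨k, ?_, ?_⟩
  · rw [T_cosh_log hw0]
    have h1 : w ^ (2 * k) / 4 ≤ ((w ^ k + (w ^ k)⁻¹) / 2) ^ 2 := by
      have : w ^ (2 * k) = (w ^ k) ^ 2 := by rw [← pow_mul, mul_comm]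
      rw [this]
      nlinarith
    refine le_trans ?_ h1
    have h2 := choose_mul_le r k ht
    have h3 : 1 + tt w = tt w * (w ^ 2 / exp 1) := by
      unfold tt
      have h4 : w ^ 2 - exp 1 ≠ 0 := by linarith
      field_simp
      ring
    have h5 : (1 + tt w) ^ (r + k) = (1 + tt w) ^ r * (tt w ^ k * (w ^ (2 * k) * exp (-(k : ℝ)))) := by
      rw [pow_add]
      congr 1
      rw [h3, mul_pow, div_pow, ← pow_mul, ← exp_nat_mul, exp_neg]
      simp only [mul_one]
      ring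
    have h6 : ((r + k).choose k : ℝ) ≤ (1 + tt w) ^ r * (w ^ (2 * k) * exp (-(k : ℝ))) := by
      have h7 : 0 < tt w ^ k := by positivity
      rw [h5] at h2
      have h8 : ((r + k).choose k : ℝ) * tt w ^ k ≤
          ((1 + tt w) ^ r * (w ^ (2 * k) * exp (-(k : ℝ)))) * tt w ^ k := by
        calc _ ≤ _ := h2
          _ = _ := by ring
      exact le_of_mul_le_mul_right h8 h7
    have h9 : (1 + tt w) ^ r ≤ exp (r * tt w) := by
      have := add_one_le_exp (tt w)
      calc (1 + tt w) ^ r ≤ (exp (tt w)) ^ r := by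
            apply pow_le_pow_left₀ (by positivity)
            linarith
        _ = exp (r * tt w) := by rw [← exp_nat_mul]
    have h10 : exp (r * tt w) * exp (-(k : ℝ)) ≤ 1 / 8 := by
      rw [← exp_add]
      calc exp (r * tt w + -(k : ℝ)) ≤ exp (-log 8) := by
            apply exp_le_exp.2
            linarith
        _ = 1 / 8 := by rw [exp_neg, exp_log (by norm_num)]; norm_num
    have h11 : 0 < w ^ (2 * k) := by positivity
    have h12 : 0 < exp (-(k : ℝ)) := exp_pos _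
    calc 2 * ((r + k).choose k : ℝ) ≤ 2 * ((1 + tt w) ^ r * (w ^ (2 * k) * exp (-(k : ℝ)))) := by
          linarith
      _ ≤ 2 * (exp (r * tt w) * (w ^ (2 * k) * exp (-(k : ℝ)))) := by
          have := mul_le_mul_of_nonneg_right h9 (mul_pos h11 h12).le
          linarith
      _ = 2 * (exp (r * tt w) * exp (-(k : ℝ))) * w ^ (2 * k) := by ring
      _ ≤ 2 * (1 / 8) * w ^ (2 * k) := by
          have := mul_le_mul_of_nonneg_right h10 h11.le
          linarith
      _ = w ^ (2 * k) / 4 := by ring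
  · rw [T_cosh_log hw0]
    have h1 : ((w ^ k + (w ^ k)⁻¹) / 2) ^ 2 ≤ (w ^ k) ^ 2 := by
      apply pow_le_pow_left₀ (by positivity)
      linarith
    refine h1.trans ?_
    have h2 : (w ^ k) ^ 2 = exp (2 * log w * k) := by
      rw [← exp_log (show 0 < (w ^ k) ^ 2 by positivity), log_pow, log_pow]
      congr 1
      push_cast
      ring
    rw [h2]
    apply exp_le_exp.2
    have : 0 < 2 * log w := by
      have := log_pos hw
      linarith
    exact mul_le_mul_of_nonneg_left hk2.le this.le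

/-! ### the numbers for all `n ≥ 7` -/

lemma num_w {n : ℝ} (hn : 7 ≤ n) : ∃ w s₀ : ℝ, 1 < w ∧ exp 1 < w ^ 2 ∧ 0 < s₀ ∧ s₀ < n ∧
    (w + w⁻¹) / 2 < n - 1 - s₀ ∧ (n - 1) * sg w < 1 := by
  obtain ⟨m, rfl⟩ : ∃ m, n = m + 1 := ⟨n - 1, by ring⟩
  have hm : 6 ≤ m := by linarith
  have he := exp_one_lt_d9
  have hl := log_two_lt_d9
  have hl' := log_two_gt_d9
  have hw2 : (1.938 * m) ^ 2 = 3.755844 * m ^ 2 := by ring
  have hm2 : 36 ≤ m ^ 2 := by nlinarith
  refine ⟨1.938 * m, 1 / 10, by linarith, by rw [hw2]; nlinarith, by norm_num, by linarith, ?_, ?_⟩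
  · have h1 : (1.938 * m)⁻¹ ≤ 0.0861 := by
      rw [inv_le_comm₀ (by positivity) (by norm_num)]
      norm_num
      linarith
    linarith
  · have h1 : log (1.938 * m) ≤ 4 * log 2 + m / 8 - 1 := by
      have h2 : log (1.938 * m) ≤ log (16 * (m / 8)) := log_le_log (by positivity) (by linarith)
      have h3 : log (16 * (m / 8)) = 4 * log 2 + log (m / 8) := by
        rw [log_mul (by norm_num) (by positivity), show (16 : ℝ) = 2 ^ 4 by norm_num, log_pow]
        push_cast
        ring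
      have h4 : log (m / 8) ≤ m / 8 - 1 := log_le_sub_one_of_pos (by positivity)
      linarith
    have h5 : 0 < (1.938 * m) ^ 2 - exp 1 := by rw [hw2]; nlinarith
    have h6 : (m + 1 - 1) * sg (1.938 * m) =
        (m * 2 * log (1.938 * m) * exp 1) / (((1.938 * m) ^ 2 - exp 1) * log 2) := by
      unfold sg tt
      have : ((1.938 * m) ^ 2 - exp 1) ≠ 0 := h5.ne'
      have : log 2 ≠ 0 := by linarith
      field_simp
      ring
    rw [h6, div_lt_one (mul_pos h5 (by linarith))]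
    have h7 : m * 2 * log (1.938 * m) * exp 1 ≤ m * 2 * (4 * 0.6931471808 + m / 8 - 1) * 2.7182818286 := by
      have h8 : 0 ≤ log (1.938 * m) := log_nonneg (by linarith)
      have h9 : log (1.938 * m) ≤ 4 * 0.6931471808 + m / 8 - 1 := by linarith
      have h10 : m * 2 * log (1.938 * m) ≤ m * 2 * (4 * 0.6931471808 + m / 8 - 1) :=
        mul_le_mul_of_nonneg_left h9 (by linarith)
      exact mul_le_mul h10 he.le (exp_pos 1).le (by nlinarith)
    have h11 : (3.755844 * m ^ 2 - 2.7182818286) * 0.6931471803 ≤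
        ((1.938 * m) ^ 2 - exp 1) * log 2 := by
      rw [hw2]
      exact mul_le_mul (by linarith) hl'.le (by norm_num) (by nlinarith)
    nlinarith

lemma num_lim {δ : ℝ} (hδ : 0 < δ) (hδ1 : δ < 1) : ∃ n₀ : ℝ, ∀ n : ℝ, n₀ ≤ n → 7 ≤ n ∧
    ∃ w s₀ : ℝ, 1 < w ∧ exp 1 < w ^ 2 ∧ 0 < s₀ ∧ s₀ < n ∧
    (w + w⁻¹) / 2 < n - 1 - s₀ ∧ 1 - s₀ / n < 2 * δ ∧ n * sg w < 2 * δ := by
  refine ⟨7 + 256 / δ ^ 5, fun n hn => ?_⟩
  have h0 : 0 < 256 / δ ^ 5 := by positivity
  have hn7 : 7 ≤ n := by linarith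
  have hn0 : 0 < n := by linarith
  set w : ℝ := n * δ with hwdef
  have hw256 : 256 / δ ^ 4 ≤ w := by
    have h1 : 256 / δ ^ 4 = 256 / δ ^ 5 * δ := by field_simp
    rw [h1, hwdef]
    exact mul_le_mul_of_nonneg_right (by linarith) hδ.le
  have hδ4 : δ ^ 4 ≤ 1 := pow_le_one₀ hδ.le hδ1.le
  have hw3 : 256 ≤ w := by
    refine le_trans ?_ hw256
    rw [le_div_iff₀ (by positivity)]
    linarith
  have hw0 : 0 < w := by linarith
  have he := exp_one_lt_d9
  have hl := log_two_lt_d9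
  have hl' := log_two_gt_d9
  refine ⟨hn7, w, n * (1 - δ), by linarith, by nlinarith, mul_pos hn0 (by linarith),
    by nlinarith, ?_, ?_, ?_⟩
  · have h1 : w⁻¹ ≤ 1 := inv_le_one_of_one_le₀ (by linarith)
    have h2 : n - 1 - n * (1 - δ) = w - 1 := by rw [hwdef]; ring
    rw [h2]
    linarith
  · rw [mul_div_cancel_left₀ _ hn0.ne']
    linarith
  · have hsq : (16 / δ ^ 2) ≤ √w := by
      rw [show (16 / δ ^ 2) = √(256 / δ ^ 4) by
        rw [show (256 / δ ^ 4 : ℝ) = (16 / δ ^ 2) ^ 2 by ring]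
        rw [sqrt_sq (by positivity)]]
      exact sqrt_le_sqrt hw256
    have hsw : 0 < √w := sqrt_pos.2 hw0
    have hss : √w * √w = w := mul_self_sqrt hw0.le
    have hlog : log w ≤ 2 * √w := by
      have h1 : log w = 2 * log (√w) := by
        rw [log_sqrt hw0.le]
        ring
      rw [h1]
      have := log_le_sub_one_of_pos hsw
      linarith
    have hlog0 : 0 ≤ log w := log_nonneg (by linarith)
    have h5 : 0 < w ^ 2 - exp 1 := by nlinarith
    have h6 : n * sg w = (w * 2 * log w * exp 1) / ((w ^ 2 - exp 1) * log 2) / δ := by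
      unfold sg tt
      have h51 : (w ^ 2 - exp 1) ≠ 0 := h5.ne'
      have h52 : log 2 ≠ 0 := by linarith
      have h53 : n = w / δ := by rw [hwdef]; field_simp
      rw [h53]
      field_simp
    rw [h6, div_lt_iff₀ hδ, div_lt_iff₀ (mul_pos h5 (by linarith))]
    have h7 : w * 2 * log w * exp 1 ≤ w * 2 * (2 * √w) * 2.7182818286 := by
      have h10 : w * 2 * log w ≤ w * 2 * (2 * √w) := mul_le_mul_of_nonneg_left hlog (by linarith)
      exact mul_le_mul h10 he.le (exp_pos 1).le (by positivity)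
    have h8 : 16 ≤ √w * δ ^ 2 := by
      rw [div_le_iff₀ (by positivity)] at hsq
      exact hsq
    have h9 : w ^ 2 * 0.9999 * 0.6931471803 ≤ (w ^ 2 - exp 1) * log 2 := by
      have h10 : w ^ 2 * 0.9999 ≤ w ^ 2 - exp 1 := by nlinarith
      exact mul_le_mul h10 hl'.le (by norm_num) h5.le
    have h10 : 2 * δ * δ * (w ^ 2 * 0.9999 * 0.6931471803) ≤
        2 * δ * δ * ((w ^ 2 - exp 1) * log 2) := mul_le_mul_of_nonneg_left h9 (by positivity)
    have h11 : w * √w * 16 ≤ w * √w * (√w * δ ^ 2) :=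
      mul_le_mul_of_nonneg_left h8 (by positivity)
    have h12 : w * √w * (√w * δ ^ 2) = w ^ 2 * δ ^ 2 := by
      calc _ = w * (√w * √w) * δ ^ 2 := by ring
        _ = _ := by rw [hss]; ring
    have h13 : 0 < w * √w := by positivity
    calc w * 2 * log w * exp 1 ≤ w * 2 * (2 * √w) * 2.7182818286 := h7
      _ < 2 * (w * √w * 16) * 0.9999 * 0.6931471803 := by nlinarith
      _ ≤ 2 * (w ^ 2 * δ ^ 2) * 0.9999 * 0.6931471803 := by
        rw [h12] at h11
        nlinarith
      _ = 2 * δ * δ * (w ^ 2 * 0.9999 * 0.6931471803) := by ring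
      _ ≤ _ := h10

end Pool.TT
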