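import Pool.Agent.Lib.MP_695920_nt.TT.RepEval

/-!
# Repulsion of integral points: the divisibility
-/

open Polynomial

namespace Pool.TT

theorem norm_eq' {F : Type*} [Field F] (f : F[X]) (z : Crd f) :
    z.norm = z.re ^ 2 - f * z.im ^ 2 := by
  rw [QuadraticAlgebra.norm_def]
  ring

/-- the divisibility `(2v/G)^a ∣ N` from `(2v)^a ∣ d^a N`, `G = gcd (2v, d)` -/
theorem gcd_pow_dvd (c d N : ℤ) (hc : c ≠ 0) (a : ℕ) (h : c ^ a ∣ d ^ a * N) :
    (c / (Int.gcd c d : ℤ)) ^ a ∣ N := by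
  have hG : (Int.gcd c d : ℤ) ≠ 0 := by
    intro h0
    have : Int.gcd c d = 0 := by exact_mod_cast h0
    exact hc (Int.gcd_eq_zero_iff.1 this).1
  obtain ⟨c', hc'⟩ := Int.gcd_dvd_left c d
  obtain ⟨d', hd'⟩ := Int.gcd_dvd_right c d
  set G : ℤ := (Int.gcd c d : ℤ) with hGdef
  have hcG : c / G = c' := by
    rw [hc', Int.mul_ediv_cancel_left _ hG]
  have hcop : IsCoprime c' d' := by
    rw [Int.isCoprime_iff_gcd_eq_one]
    have h1 : Int.gcd (G * c') (G * d') = G.natAbs * Int.gcd c' d' := Int.gcd_mul_left _ _ _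
    rw [← hc', ← hd'] at h1
    have h2 : G.natAbs = Int.gcd c d := by rw [hGdef, Int.natAbs_natCast]
    have h3 : 0 < Int.gcd c d := by
      rw [← h2]
      exact Int.natAbs_pos.2 hG
    rw [h2] at h1
    exact (Nat.eq_of_mul_eq_mul_left h3 (by rw [mul_one]; exact h1)).symm
  rw [hcG]
  have h1 : G ^ a * c' ^ a ∣ G ^ a * (d' ^ a * N) := by
    rw [← mul_pow, ← hc', ← mul_assoc, ← mul_pow, ← hd']
    exact h
  have h2 := (mul_dvd_mul_iff_left (pow_ne_zero a hG)).1 h1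
  exact (hcop.pow (m := a) (n := a)).dvd_of_dvd_mul_left h2

theorem core {ι : Type*} [Fintype ι] (f0 : ℤ[X]) (hm : f0.Monic)
    (hodd : Odd f0.natDegree) (x v : ι → ℤ) (a : ι → ℕ) (hinj : Function.Injective x)
    (hv : ∀ i, v i ≠ 0) (heq : ∀ i, v i ^ 2 = f0.eval (x i))
    (f : ℚ[X]) (hf : f = f0.map (Int.castRingHom ℚ)) (φ : Crd f)
    (hφ : Ideal.span {φ} = ∏ i, pt f (X - C (x i : ℚ)) (C (v i : ℚ)) ^ a i)
    (hN : φ.norm = ∏ i, (X - C (x i : ℚ)) ^ a i ∨ φ.norm = -∏ i, (X - C (x i : ℚ)) ^ a i)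
    (j : ι) (hj : a j ≠ 0) :
    ∃ A B : ℤ[X], (A ^ 2 - f0 * B ^ 2 = ∏ i, (X - C (x i)) ^ a i ∨
        A ^ 2 - f0 * B ^ 2 = -∏ i, (X - C (x i)) ^ a i) ∧ A.eval (x j) ≠ 0 ∧
      (2 * v j / (Int.gcd (2 * v j) (f0.derivative.eval (x j)) : ℤ)) ^ a j ∣
        2 * A.eval (x j) := by
  classical
  have hcast : ∀ (P : ℤ[X]) (n : ℤ), (P.map (Int.castRingHom ℚ)).eval (n : ℚ) =
      ((P.eval n : ℤ) : ℚ) := by
    intro P n
    rw [eval_intCast_map]
    simp
  have hev : ∀ i, ((v i : ℤ) : ℚ) ^ 2 = f.eval ((x i : ℤ) : ℚ) := by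
    intro i
    rw [hf, hcast, ← heq i]
    push_cast
    rfl
  have hev' : ∀ i, (-((v i : ℤ) : ℚ)) ^ 2 = f.eval ((x i : ℤ) : ℚ) := by
    intro i
    rw [neg_sq]
    exact hev i
  have hprodZ : ∀ (s : Finset ι) (b : ι → ℕ),
      (∏ i ∈ s, (X - C (x i)) ^ b i : ℤ[X]).map (Int.castRingHom ℚ) =
        ∏ i ∈ s, (X - C (x i : ℚ)) ^ b i := by
    intro s b
    rw [Polynomial.map_prod]
    refine Finset.prod_congr rfl fun i _ => ?_
    rw [Polynomial.map_pow, Polynomial.map_sub, map_X, map_C]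
    simp
  have hQ : (algebraMap ℤ ℚ) = Int.castRingHom ℚ := rfl
  -- integrality of `φ`
  obtain ⟨N0, hN0, hN0'⟩ : ∃ N0 : ℤ[X], (N0 = ∏ i, (X - C (x i)) ^ a i ∨
      N0 = -∏ i, (X - C (x i)) ^ a i) ∧ φ.norm = N0.map (Int.castRingHom ℚ) := by
    rcases hN with h | h
    · exact ⟨_, Or.inl rfl, by rw [h, hprodZ]⟩
    · exact ⟨_, Or.inr rfl, by rw [h, Polynomial.map_neg, hprodZ]⟩
  obtain ⟨A, B, hA, hB, hAB⟩ := Agent.Lib.MP_695920_nt.TT.integral_of_norm (K := ℚ) hm hodd φ.re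
    φ.im N0 (by rw [hQ, ← hf, ← hN0', norm_eq'])
  rw [hQ] at hA hB
  -- the cofactor
  obtain ⟨f1, hf1⟩ : X - C (x j) ∣ f0 - C (f0.eval (x j)) := X_sub_C_dvd_sub_C_eval
  have hf1Q : f - C (((v j : ℤ) : ℚ) ^ 2) = (X - C ((x j : ℤ) : ℚ)) *
      f1.map (Int.castRingHom ℚ) := by
    have h1 := congrArg (Polynomial.map (Int.castRingHom ℚ)) hf1
    rw [Polynomial.map_sub, Polynomial.map_mul, Polynomial.map_sub, map_C, map_X, map_C,
      ← heq j] at h1
    rw [hf]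
    have h2 : (Int.castRingHom ℚ) (v j ^ 2) = ((v j : ℤ) : ℚ) ^ 2 := by simp
    have h3 : (Int.castRingHom ℚ) (x j) = ((x j : ℤ) : ℚ) := by simp
    rw [h2, h3] at h1
    exact h1
  have hf1ne : f1 ≠ 0 := by
    rintro rfl
    rw [mul_zero, sub_eq_zero] at hf1
    have h1 := congrArg natDegree hf1
    rw [natDegree_C] at h1
    rw [h1] at hodd
    exact absurd hodd (by decide)
  have hder : f0.derivative.eval (x j) = f1.eval (x j) := by
    have h1 := congrArg (fun P => (derivative P).eval (x j)) hf1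
    simp only [derivative_sub, derivative_C, sub_zero, derivative_mul, derivative_X, one_mul,
      eval_add, eval_mul, eval_sub, eval_X, eval_C, sub_self, zero_mul, add_zero] at h1
    exact h1
  -- `ψ`
  have hφmem : φ ∈ pt f (X - C ((x j : ℤ) : ℚ)) (C ((v j : ℤ) : ℚ)) ^ a j := by
    have h1 : φ ∈ Ideal.span {φ} := Ideal.mem_span_singleton_self φ
    rw [hφ] at h1
    exact Ideal.le_of_dvd (Finset.dvd_prod_of_mem _ (Finset.mem_univ j)) h1
  obtain ⟨ψ, hψ⟩ := cofactor_pow f _ _ _ hf1Q (a j) hφmem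
  have hnormψ : f1.map (Int.castRingHom ℚ) ^ a j * φ.norm =
      (-1) ^ a j * ((X - C ((x j : ℤ) : ℚ)) ^ a j * ψ.norm) := by
    have h1 := congrArg QuadraticAlgebra.norm hψ
    rw [map_mul, map_mul, map_pow, map_pow] at h1
    have h2 : QuadraticAlgebra.norm (⟨f1.map (Int.castRingHom ℚ), 0⟩ : Crd f) =
        f1.map (Int.castRingHom ℚ) ^ 2 := by
      rw [norm_eq']
      simp
    have h3 : QuadraticAlgebra.norm (⟨-C ((v j : ℤ) : ℚ), 1⟩ : Crd f) =
        -1 * ((X - C ((x j : ℤ) : ℚ)) * f1.map (Int.castRingHom ℚ)) := by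
      rw [norm_eq', ← hf1Q]
      simp only [C_pow]
      ring
    rw [h2, h3] at h1
    have h4 : f1.map (Int.castRingHom ℚ) ^ a j ≠ 0 := by
      refine pow_ne_zero _ ?_
      rw [Ne, Polynomial.map_eq_zero_iff (RingHom.injective_int _)]
      exact hf1ne
    apply mul_left_cancel₀ h4
    calc f1.map (Int.castRingHom ℚ) ^ a j * (f1.map (Int.castRingHom ℚ) ^ a j * φ.norm)
        = (f1.map (Int.castRingHom ℚ) ^ 2) ^ a j * φ.norm := by ring
      _ = _ := by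
        rw [h1, mul_pow, mul_pow]
        ring
  obtain ⟨N1, hN1⟩ : ∃ N1 : ℤ[X], ψ.norm = N1.map (Int.castRingHom ℚ) := by
    obtain ⟨e, he, hφe⟩ : ∃ e : ℚ[X], (e = 1 ∨ e = -1) ∧
        φ.norm = e * ∏ i, (X - C (x i : ℚ)) ^ a i := by
      rcases hN with h | h
      · exact ⟨1, Or.inl rfl, by rw [h, one_mul]⟩
      · exact ⟨-1, Or.inr rfl, by rw [h]; ring⟩
    have h5 : (X - C ((x j : ℤ) : ℚ)) ^ a j ≠ 0 := pow_ne_zero _ (X_sub_C_ne_zero _)
    have h6 : ψ.norm = ((-1) ^ a j * e) * (f1.map (Int.castRingHom ℚ) ^ a j *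
        ∏ i ∈ Finset.univ.erase j, (X - C (x i : ℚ)) ^ a i) := by
      apply mul_left_cancel₀ h5
      have h7 : ((-1 : ℚ[X]) ^ a j) * (-1) ^ a j = 1 := by
        rw [← mul_pow]
        simp
      rw [hφe, ← Finset.mul_prod_erase Finset.univ _ (Finset.mem_univ j)] at hnormψ
      calc (X - C ((x j : ℤ) : ℚ)) ^ a j * ψ.norm
          = ((-1 : ℚ[X]) ^ a j) * ((-1) ^ a j * ((X - C ((x j : ℤ) : ℚ)) ^ a j * ψ.norm)) := by
            rw [← mul_assoc, h7, one_mul]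
        _ = _ := by
            rw [← hnormψ]
            ring
    have h8 : ∃ e' : ℤ[X], (-1) ^ a j * e = e'.map (Int.castRingHom ℚ) := by
      rcases he with rfl | rfl
      · exact ⟨(-1) ^ a j, by simp⟩
      · exact ⟨(-1) ^ a j * -1, by simp⟩
    obtain ⟨e', he'⟩ := h8
    refine ⟨e' * (f1 ^ a j * ∏ i ∈ Finset.univ.erase j, (X - C (x i)) ^ a i), ?_⟩
    rw [h6, he', Polynomial.map_mul, Polynomial.map_mul, Polynomial.map_pow, hprodZ]
  obtain ⟨A1, B1, hA1, hB1, -⟩ := Agent.Lib.MP_695920_nt.TT.integral_of_norm (K := ℚ) hm hodd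
    ψ.re ψ.im N1 (by rw [hQ, ← hf, ← hN1, norm_eq'])
  rw [hQ] at hA1 hB1
  -- evaluation at `(x j, - v j)`
  have hzero : (A.eval (x j) : ℤ) + v j * B.eval (x j) = 0 := by
    have h1 : ev f _ _ (hev j) φ = 0 := by
      have h2 := pt_le_ker f _ _ (hev j)
      exact h2 (Ideal.pow_le_self hj hφmem)
    rw [ev_apply, hA, hB, hcast, hcast] at h1
    exact_mod_cast h1
  have hconj : ev f _ _ (hev' j) φ = ((2 * A.eval (x j) : ℤ) : ℚ) := by
    rw [ev_apply, hA, hB, hcast, hcast]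
    have : A.eval (x j) + -v j * B.eval (x j) = 2 * A.eval (x j) := by linarith
    rw [← this]
    push_cast
    ring
  have hne : A.eval (x j) ≠ 0 := by
    intro h0
    rw [h0, mul_zero, Int.cast_zero] at hconj
    have hprime : (RingHom.ker (ev f _ _ (hev' j))).IsPrime := RingHom.ker_isPrime _
    have h1 : ∏ i, pt f (X - C ((x i : ℤ) : ℚ)) (C ((v i : ℤ) : ℚ)) ^ a i ≤
        RingHom.ker (ev f _ _ (hev' j)) := by
      rw [← hφ, Ideal.span_singleton_le_iff_mem]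
      exact hconj
    obtain ⟨i, -, hi⟩ := (hprime.prod_le).1 h1
    have hi2 := hprime.le_of_pow_le hi
    have g1 : (⟨X - C ((x i : ℤ) : ℚ), 0⟩ : Crd f) ∈ RingHom.ker (ev f _ _ (hev' j)) :=
      hi2 (Ideal.subset_span (by simp))
    have g2 : (⟨-C ((v i : ℤ) : ℚ), 1⟩ : Crd f) ∈ RingHom.ker (ev f _ _ (hev' j)) :=
      hi2 (Ideal.subset_span (by simp))
    rw [RingHom.mem_ker, ev_apply] at g1 g2
    simp only [eval_sub, eval_X, eval_C, eval_zero, mul_zero, add_zero, eval_neg, eval_one,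
      mul_one] at g1 g2
    have g3 : x j = x i := by exact_mod_cast sub_eq_zero.1 g1
    have g4 : j = i := hinj g3
    subst g4
    have g5 : ((v j : ℤ) : ℚ) = 0 := by linarith
    exact hv j (by exact_mod_cast g5)
  have hdiv : (2 * v j) ^ a j ∣ (f0.derivative.eval (x j)) ^ a j * (2 * A.eval (x j)) := by
    have h1 := congrArg (ev f _ _ (hev' j)) hψ
    rw [map_mul, map_mul, map_pow, map_pow, hconj] at h1
    have h2 : ev f _ _ (hev' j) ⟨f1.map (Int.castRingHom ℚ), 0⟩ =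
        ((f0.derivative.eval (x j) : ℤ) : ℚ) := by
      rw [ev_apply, hder, ← hcast]
      simp
    have h3 : ev f _ _ (hev' j) ⟨-C ((v j : ℤ) : ℚ), 1⟩ = ((-(2 * v j) : ℤ) : ℚ) := by
      rw [ev_apply]
      simp only [eval_neg, eval_C, eval_one]
      push_cast
      ring
    have h4 : ev f _ _ (hev' j) ψ = ((A1.eval (x j) + -v j * B1.eval (x j) : ℤ) : ℚ) := by
      rw [ev_apply, hA1, hB1, hcast, hcast]
      push_cast
      ring
    rw [h2, h3, h4] at h1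
    have h5 : (f0.derivative.eval (x j)) ^ a j * (2 * A.eval (x j)) =
        (-(2 * v j)) ^ a j * (A1.eval (x j) + -v j * B1.eval (x j)) := by exact_mod_cast h1
    rw [h5, neg_pow]
    exact ⟨(-1) ^ a j * (A1.eval (x j) + -v j * B1.eval (x j)), by ring⟩
  refine ⟨A, B, ?_, hne, gcd_pow_dvd _ _ _ (mul_ne_zero two_ne_zero (hv j)) _ hdiv⟩
  rw [hAB]
  exact hN0

end Pool.TT
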