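import Pool.Agent.Lib.MP_695920_nt.TT.Ring
import Pool.Agent.Lib.MP_695920_nt.TT.Gauss
import Pool.Agent.Lib.MP_695920_nt.TT.Extrap

/-!
# Repulsion of integral points: evaluation at a point, the trick with the cofactor
-/

open Polynomial

namespace Pool.TT

/-- evaluation of functions at the point `(x, v)` -/
noncomputable def ev {F : Type*} [Field F] (f : F[X]) (x v : F) (h : v ^ 2 = f.eval x) :
    Crd f →+* F where
  toFun z := z.re.eval x + v * z.im.eval x
  map_one' := by
    show (1 : F[X]).eval x + v * (0 : F[X]).eval x = 1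
    simp
  map_zero' := by simp
  map_add' z w := by
    simp only [QuadraticAlgebra.re_add, QuadraticAlgebra.im_add, eval_add]
    ring
  map_mul' z w := by
    simp only [QuadraticAlgebra.re_mul, QuadraticAlgebra.im_mul, eval_add, eval_mul, zero_mul,
      add_zero, ← h]
    ring

theorem ev_apply {F : Type*} [Field F] (f : F[X]) (x v : F) (h : v ^ 2 = f.eval x) (z : Crd f) :
    ev f x v h z = z.re.eval x + v * z.im.eval x := rfl

theorem pt_le_ker {F : Type*} [Field F] (f : F[X]) (x v : F) (h : v ^ 2 = f.eval x) :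
    pt f (X - C x) (C v) ≤ RingHom.ker (ev f x v h) := by
  rw [pt, Ideal.span_le]
  rintro z (rfl | hz)
  · show ev f x v h _ = 0
    rw [ev_apply]
    simp
  · rw [Set.mem_singleton_iff] at hz
    subst hz
    show ev f x v h _ = 0
    rw [ev_apply]
    simp

/-- the ideal of a point, times the cofactor, is contained in `(y - v)` -/
theorem cofactor {F : Type*} [Field F] (f : F[X]) (x v : F) (f1 : F[X])
    (h1 : f - C (v ^ 2) = (X - C x) * f1) {z : Crd f} (hz : z ∈ pt f (X - C x) (C v)) :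
    (⟨-C v, 1⟩ : Crd f) ∣ ⟨f1, 0⟩ * z := by
  rw [pt, Ideal.mem_span_pair] at hz
  obtain ⟨a, b, rfl⟩ := hz
  have e1 : (⟨f1, 0⟩ : Crd f) * ⟨X - C x, 0⟩ = ⟨-C v, 1⟩ * ⟨C v, 1⟩ := by
    apply QuadraticAlgebra.ext
    · simp only [QuadraticAlgebra.re_mul]
      have : f1 * (X - C x) = f - C (v ^ 2) := by rw [h1]; ring
      rw [mul_zero, add_zero, this, C_pow]
      ring
    · simp only [QuadraticAlgebra.im_mul]
      ring
  refine ⟨a * ⟨C v, 1⟩ + ⟨f1, 0⟩ * b, ?_⟩
  calc (⟨f1, 0⟩ : Crd f) * (a * ⟨X - C x, 0⟩ + b * ⟨-C v, 1⟩)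
      = a * (⟨f1, 0⟩ * ⟨X - C x, 0⟩) + ⟨f1, 0⟩ * b * ⟨-C v, 1⟩ := by ring
    _ = _ := by rw [e1]; ring

theorem cofactor_pow {F : Type*} [Field F] (f : F[X]) (x v : F) (f1 : F[X])
    (h1 : f - C (v ^ 2) = (X - C x) * f1) (n : ℕ) :
    ∀ {z : Crd f}, z ∈ pt f (X - C x) (C v) ^ n → (⟨-C v, 1⟩ : Crd f) ^ n ∣ ⟨f1, 0⟩ ^ n * z := by
  induction n with
  | zero =>
    intro z _
    simp
  | succ n ih =>
    intro z hz
    rw [pow_succ] at hz
    refine Submodule.mul_induction_on hz ?_ ?_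
    · intro a ha b hb
      have h2 := mul_dvd_mul (ih ha) (cofactor f x v f1 h1 hb)
      rw [pow_succ, pow_succ]
      convert h2 using 1
      ring
    · intro a b ha hb
      rw [mul_add]
      exact dvd_add ha hb

end Pool.TT
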