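import Pool.Agent.Lib.MP_695920_nt.TT.Quartic.CaseTwo

set_option autoImplicit false

/-!
TEAM TT: towers of quadratic extensions. If `K` is reached from a field of degree `n` by `j`
successive quadratic extensions, an exponent for 2-torsion in degree `n` holds for `K`.
-/

open NumberField Module

namespace Pool.TT

/-- `K` is reached from a subfield of degree `n` by `j` successive quadratic extensions. -/
def QTower (n : ℕ) : ℕ → (K : Type) → [Field K] → [NumberField K] → Prop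
  | 0, K, _, _ => finrank ℚ K = n
  | j + 1, K, _, _ => ∃ F : IntermediateField ℚ K, finrank F K = 2 ∧ QTower n j F

theorem QTower.finrank {n : ℕ} : ∀ {j : ℕ} {K : Type} [Field K] [NumberField K],
    QTower n j K → Module.finrank ℚ K = n * 2 ^ j
  | 0, K, _, _, h => by
      rw [pow_zero, mul_one]
      exact h
  | j + 1, K, _, _, h => by
      obtain ⟨F, hF, h1⟩ := h
      have h2 := h1.finrank
      rw [← Module.finrank_mul_finrank ℚ F K, h2, hF, pow_succ, mul_assoc]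

theorem discr_sq_le (K : Type) [Field K] [NumberField K] (F : IntermediateField ℚ K)
    (h : Module.finrank F K = 2) : |(discr F : ℝ)| ^ 2 ≤ |(discr K : ℝ)| := by
  have h1 := natAbs_discr_eq_absNorm_differentIdeal_mul_natAbs_discr_pow F (𝓞 F) K (𝓞 K)
  rw [h] at h1
  have h2 : (discr F).natAbs ^ 2 ≤ (discr K).natAbs := by
    rw [h1]
    refine Nat.le_mul_of_pos_left _ (Nat.pos_of_ne_zero fun h0 => ?_)
    rw [h0, zero_mul] at h1
    exact discr_ne_zero K (Int.natAbs_eq_zero.mp h1)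
  have h3 : ∀ z : ℤ, |(z : ℝ)| = ((z.natAbs : ℕ) : ℝ) := fun z => by
    rw [Nat.cast_natAbs, Int.cast_abs]
  rw [h3, h3]
  exact_mod_cast h2

/-- an exponent for 2-torsion in degree `n` holds for towers of quadratic extensions -/
theorem tower {θ : ℝ} (hθ : 0 ≤ θ) {n : ℕ}
    (h : ∀ ε : ℝ, 0 < ε → ∃ C : ℝ, ∀ (K : Type) [Field K] [NumberField K],
      Module.finrank ℚ K = n →
      (Nat.card {x : ClassGroup (𝓞 K) // x ^ 2 = 1} : ℝ) ≤ C * |(discr K : ℝ)| ^ (θ + ε)) :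
    ∀ (j : ℕ) (ε : ℝ), 0 < ε → ∃ C : ℝ, ∀ (K : Type) [Field K] [NumberField K], QTower n j K →
      (Nat.card {x : ClassGroup (𝓞 K) // x ^ 2 = 1} : ℝ) ≤ C * |(discr K : ℝ)| ^ (θ + ε)
  | 0, ε, hε => h ε hε
  | j + 1, ε, hε => by
    obtain ⟨C₁, hC₁⟩ := tower hθ h j (ε / 2) (by linarith)
    obtain ⟨C₂, hC₂, hω⟩ := exp_omega_le (((n * 2 ^ j : ℕ) : ℝ) * Real.log 2)
      (δ := ε / 2) (by linarith)
    refine ⟨C₁ ^ 2 * 2 ^ (2 * (n * 2 ^ j)) * C₂, fun K _ _ hK => ?_⟩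
    obtain ⟨F, hF, hT⟩ := hK
    have h1 := Quartic.c2_step F K hF
    have h2 := hC₁ F hT
    rw [hT.finrank] at h1
    have h3 := hω (discr K).natAbs (Int.natAbs_ne_zero.2 (discr_ne_zero K))
    have h4 : (((discr K).natAbs : ℕ) : ℝ) = |(discr K : ℝ)| := by
      rw [Nat.cast_natAbs, Int.cast_abs]
    rw [h4] at h3
    set w : ℕ := (discr K).natAbs.primeFactors.card with hw
    have hD : (1 : ℝ) ≤ |(discr K : ℝ)| := by
      have : (1 : ℤ) ≤ |discr K| := Int.one_le_abs (discr_ne_zero K)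
      exact_mod_cast this
    have hD0 : (0 : ℝ) < |(discr K : ℝ)| := by linarith
    have hdF := discr_sq_le K F hF
    have h5 : (2 : ℝ) ^ (n * 2 ^ j * (2 + w)) = 2 ^ (2 * (n * 2 ^ j)) *
        Real.exp (((n * 2 ^ j : ℕ) : ℝ) * Real.log 2 * (w : ℝ)) := by
      rw [mul_add, pow_add, mul_comm (n * 2 ^ j) 2]
      congr 1
      rw [show ((n * 2 ^ j : ℕ) : ℝ) * Real.log 2 * (w : ℝ) =
        ((n * 2 ^ j * w : ℕ) : ℝ) * Real.log 2 by push_cast; ring, Real.exp_nat_mul,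
        Real.exp_log (by norm_num)]
    have h6 : (|(discr F : ℝ)| ^ (θ + ε / 2)) ^ 2 ≤ |(discr K : ℝ)| ^ (θ + ε / 2) := by
      rw [← Real.rpow_natCast, ← Real.rpow_mul (abs_nonneg _), mul_comm, Real.rpow_mul (abs_nonneg _),
        Real.rpow_natCast]
      exact Real.rpow_le_rpow (by positivity) hdF (by linarith)
    have h7 : (Nat.card {x : ClassGroup (𝓞 K) // x ^ 2 = 1} : ℝ) ≤
        (Nat.card {x : ClassGroup (𝓞 F) // x ^ 2 = 1} : ℝ) ^ 2 *
          2 ^ (n * 2 ^ j * (2 + w)) := by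
      exact_mod_cast h1
    have h8 : (Nat.card {x : ClassGroup (𝓞 F) // x ^ 2 = 1} : ℝ) ^ 2 ≤
        C₁ ^ 2 * |(discr K : ℝ)| ^ (θ + ε / 2) := by
      calc (Nat.card {x : ClassGroup (𝓞 F) // x ^ 2 = 1} : ℝ) ^ 2
          ≤ (C₁ * |(discr F : ℝ)| ^ (θ + ε / 2)) ^ 2 :=
            pow_le_pow_left₀ (Nat.cast_nonneg _) h2 2
        _ = C₁ ^ 2 * (|(discr F : ℝ)| ^ (θ + ε / 2)) ^ 2 := by ring
        _ ≤ _ := mul_le_mul_of_nonneg_left h6 (sq_nonneg _)
    have h9 : |(discr K : ℝ)| ^ (θ + ε) =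
        |(discr K : ℝ)| ^ (θ + ε / 2) * |(discr K : ℝ)| ^ (ε / 2) := by
      rw [← Real.rpow_add hD0]
      congr 1
      ring
    calc (Nat.card {x : ClassGroup (𝓞 K) // x ^ 2 = 1} : ℝ)
        ≤ (Nat.card {x : ClassGroup (𝓞 F) // x ^ 2 = 1} : ℝ) ^ 2 *
          2 ^ (n * 2 ^ j * (2 + w)) := h7
      _ ≤ (C₁ ^ 2 * |(discr K : ℝ)| ^ (θ + ε / 2)) *
          (2 ^ (2 * (n * 2 ^ j)) * (C₂ * |(discr K : ℝ)| ^ (ε / 2))) := by
          rw [h5]
          refine mul_le_mul h8 ?_ (by positivity) (by positivity)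
          exact mul_le_mul_of_nonneg_left h3 (by positivity)
      _ = _ := by
          rw [h9]
          ring

end Pool.TT
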